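import Pool.Agent.OVW.World

/-!
# Library 1: the arithmetic of a discretely ordered semiring

Order lemmas, truncated subtraction, casts to the field, pairing.
-/

namespace Pool.Agent.OVW

section

variable {M : Type} [Arith M]

/-- Discreteness. -/
theorem add_one_le_of_lt {a b : M} (h : a < b) : a + 1 ≤ b := by
  obtain ⟨c, rfl⟩ := le_iff_exists_add.1 h.le
  have hc : ¬ c < 1 := by
    intro hc
    have := Arith.lt_one c hc
    subst this
    simp at h
  push Not at hc
  exact add_le_add_right hc a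

theorem succ_le {a b : M} : a + 1 ≤ b ↔ a < b :=
  ⟨fun h => lt_of_lt_of_le (lt_add_of_pos_right a one_pos) h, add_one_le_of_lt⟩

theorem lt_succ {a b : M} : a < b + 1 ↔ a ≤ b := by
  constructor
  · intro h
    by_contra hc
    push Not at hc
    exact absurd (succ_le.2 hc) (not_le.2 h)
  · intro h
    exact lt_of_le_of_lt h (lt_add_of_pos_right b one_pos)

theorem zero_le' (a : M) : 0 ≤ a := zero_le

theorem pos_iff {a : M} : 0 < a ↔ a ≠ 0 := pos_iff_ne_zero

theorem one_le_iff {a : M} : 1 ≤ a ↔ a ≠ 0 := by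
  rw [← zero_add (1 : M), succ_le, pos_iff]

/-- A number is `0` or a successor. -/
theorem cases_succ (a : M) : a = 0 ∨ ∃ b, a = b + 1 := by
  by_cases h : a = 0
  · exact Or.inl h
  · right
    obtain ⟨c, hc⟩ := le_iff_exists_add.1 (one_le_iff.2 h)
    exact ⟨c, by rw [hc, add_comm]⟩

theorem le_mul_self (a : M) : a ≤ a * a := by
  rcases cases_succ a with rfl | ⟨b, rfl⟩
  · simp
  · have : (b + 1) * 1 ≤ (b + 1) * (b + 1) :=
      mul_le_mul_right (by simp) (b + 1)
    simpa using this

noncomputable instance : SuccOrder M :=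
  SuccOrder.ofSuccLeIff (fun a => a + 1) succ_le

noncomputable instance : SuccAddOrder M := ⟨fun _ => rfl⟩

instance : NoMaxOrder M := ⟨fun a => ⟨a + 1, lt_add_of_pos_right a one_pos⟩⟩

open Classical in
noncomputable instance : Sub M := ⟨fun a b => if h : ∃ c, a = b + c then h.choose else 0⟩

theorem sub_def (a b : M) : a - b = open Classical in if h : ∃ c, a = b + c then h.choose else 0 :=
  rfl

theorem add_sub_self' (b c : M) : b + c - b = c := by
  rw [sub_def]
  have h : ∃ d, b + c = b + d := ⟨c, rfl⟩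
  rw [dif_pos h]
  exact (add_left_cancel h.choose_spec).symm

theorem sub_eq_zero' {a b : M} (h : a ≤ b) : a - b = 0 := by
  obtain ⟨c, rfl⟩ := le_iff_exists_add.1 h
  rw [sub_def]
  by_cases h' : ∃ d, a = a + c + d
  · rw [dif_pos h']
    have := h'.choose_spec
    rw [add_assoc] at this
    have h2 : c + h'.choose = 0 := by
      have h3 : a + (c + h'.choose) = a + 0 := by rw [add_zero]; exact this.symm
      exact add_left_cancel h3
    exact (add_eq_zero.1 h2).2
  · rw [dif_neg h']

instance : OrderedSub M := ⟨by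
  intro a b c
  rcases le_total b a with h | h
  · obtain ⟨d, rfl⟩ := le_iff_exists_add.1 h
    rw [add_sub_self', add_comm b d]
    exact (add_le_add_iff_right b).symm
  · rw [sub_eq_zero' h]
    exact ⟨fun _ => h.trans (le_add_self), fun _ => zero_le⟩⟩

/-! ### The cast to the field -/

/-- The cast to the field. -/
@[coe]
def cK (a : M) : Arith.K M := Arith.toK (M := M) a

instance : CoeTail M (Arith.K M) := ⟨cK⟩

@[simp, norm_cast] theorem cK_zero : ((0 : M) : Arith.K M) = 0 := map_zero (Arith.toK (M := M))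
@[simp, norm_cast] theorem cK_one : ((1 : M) : Arith.K M) = 1 := map_one (Arith.toK (M := M))
@[simp, norm_cast] theorem cK_add (a b : M) : ((a + b : M) : Arith.K M) = a + b := map_add (Arith.toK (M := M)) _ _
@[simp, norm_cast] theorem cK_mul (a b : M) : ((a * b : M) : Arith.K M) = a * b := map_mul (Arith.toK (M := M)) _ _
@[simp, norm_cast] theorem cK_natCast (n : ℕ) : (((n : ℕ) : M) : Arith.K M) = (n : Arith.K M) :=
  map_natCast (Arith.toK (M := M)) _
@[simp, norm_cast] theorem cK_ofNat (n : ℕ) [n.AtLeastTwo] :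
    ((OfNat.ofNat n : M) : Arith.K M) = OfNat.ofNat n := map_ofNat (Arith.toK (M := M)) _
@[simp, norm_cast] theorem cK_lt {a b : M} : (a : Arith.K M) < b ↔ a < b :=
  Arith.toK_strictMono.lt_iff_lt
@[simp, norm_cast] theorem cK_le {a b : M} : (a : Arith.K M) ≤ b ↔ a ≤ b :=
  Arith.toK_strictMono.le_iff_le
@[simp, norm_cast] theorem cK_inj {a b : M} : (a : Arith.K M) = b ↔ a = b :=
  Arith.toK_strictMono.injective.eq_iff
@[simp, norm_cast] theorem cK_pow (a : M) (n : ℕ) : ((a ^ n : M) : Arith.K M) = (a : Arith.K M) ^ n :=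
  map_pow (Arith.toK (M := M)) _ _

theorem cK_sub {a b : M} (h : b ≤ a) : ((a - b : M) : Arith.K M) = a - b := by
  obtain ⟨c, rfl⟩ := le_iff_exists_add.1 h
  rw [add_sub_self']
  push_cast
  ring

@[simp] theorem cK_nonneg (a : M) : (0 : Arith.K M) ≤ a := by
  exact_mod_cast (zero_le : 0 ≤ a)

@[simp] theorem cK_pos {a : M} : (0 : Arith.K M) < a ↔ 0 < a := by
  exact_mod_cast Iff.rfl

theorem cK_succ_pos (a : M) : (0 : Arith.K M) < a + 1 := by
  have := cK_nonneg a
  linarith

/-! ### Pairing -/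

theorem pr_mono {x y x' y' : M} (hx : x ≤ x') (hy : y ≤ y') : pr x y ≤ pr x' y' := by
  unfold pr
  gcongr

theorem le_pr_left (x y : M) : x ≤ pr x y := by
  unfold pr
  exact le_add_self

theorem le_pr_right (x y : M) : y ≤ pr x y := by
  unfold pr
  calc y ≤ x + y := le_add_self
    _ ≤ (x + y) * (x + y) := le_mul_self _
    _ ≤ _ := le_self_add

theorem pr_lt_of {x y x' y' : M} (h : x + y < x' + y') : pr x y < pr x' y' := by
  have h1 : x + y + 1 ≤ x' + y' := succ_le.2 h
  have h2 : (x + y + 1) * (x + y + 1) ≤ (x' + y') * (x' + y') := by gcongr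
  have h3 : pr x y < (x + y + 1) * (x + y + 1) := by
    unfold pr
    have e : (x + y + 1) * (x + y + 1) = (x + y) * (x + y) + x + (x + y + y + 1) := by ring
    rw [e]
    apply lt_add_of_pos_right
    have : (0 : M) < 1 := one_pos
    exact lt_of_lt_of_le this le_add_self
  calc pr x y < _ := h3
    _ ≤ _ := h2
    _ ≤ pr x' y' := by unfold pr; exact le_self_add

theorem pr_inj {x y x' y' : M} (h : pr x y = pr x' y') : x = x' ∧ y = y' := by
  rcases lt_trichotomy (x + y) (x' + y') with h1 | h1 | h1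
  · exact absurd h (pr_lt_of h1).ne
  · have hx : x = x' := by
      unfold pr at h
      rw [h1] at h
      exact add_left_cancel h
    subst hx
    exact ⟨rfl, add_left_cancel h1⟩
  · exact absurd h (pr_lt_of h1).ne'

@[simp] theorem pr_eq_pr {x y x' y' : M} : pr x y = pr x' y' ↔ x = x' ∧ y = y' :=
  ⟨pr_inj, fun h => by rw [h.1, h.2]⟩

@[simp] theorem fs_pr (x y : M) : fs (pr x y) = x := by
  unfold fs
  have h : ∃ x' y', pr x y = pr x' y' := ⟨x, y, rfl⟩
  rw [dif_pos h]
  obtain ⟨y', h'⟩ := h.choose_spec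
  exact (pr_inj h').1.symm

@[simp] theorem sn_pr (x y : M) : sn (pr x y) = y := by
  unfold sn
  have h : ∃ y' x', pr x y = pr x' y' := ⟨y, x, rfl⟩
  rw [dif_pos h]
  obtain ⟨x', h'⟩ := h.choose_spec
  exact (pr_inj h').2.symm

@[simp] theorem pr_zero_zero : pr (0 : M) 0 = 0 := by simp [pr]

theorem pr_fs_sn_or (z : M) : pr (fs z) (sn z) = z ∨ (fs z = 0 ∧ sn z = 0) := by
  by_cases h : ∃ x y, z = pr x y
  · obtain ⟨x, y, rfl⟩ := h
    left
    simp
  · right
    constructor
    · unfold fs
      rw [dif_neg h]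
    · unfold sn
      rw [dif_neg]
      rintro ⟨y, x, e⟩
      exact h ⟨x, y, e⟩

theorem pr_fs_sn_le (z : M) : pr (fs z) (sn z) ≤ z := by
  rcases pr_fs_sn_or z with h | h
  · exact h.le
  · rw [h.1, h.2, pr_zero_zero]
    exact zero_le

theorem fs_le (z : M) : fs z ≤ z := (le_pr_left _ _).trans (pr_fs_sn_le z)

theorem sn_le (z : M) : sn z ≤ z := (le_pr_right _ _).trans (pr_fs_sn_le z)

@[simp] theorem fs_zero : fs (0 : M) = 0 := by
  have := fs_le (0 : M)
  simpa using this

@[simp] theorem sn_zero : sn (0 : M) = 0 := by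
  have := sn_le (0 : M)
  simpa using this

/-! ### Division: uniqueness -/

theorem dv_unique {a b q r : M} (hr : r < b) (h : a = b * q + r) : dv a b = q := by
  have hq : ∀ q q' r r' : M, r < b → r' < b → a = b * q + r → a = b * q' + r' → q ≤ q' := by
    intro q q' r r' hr hr' h1 h2
    by_contra hc
    push Not at hc
    have h3 : b * (q' + 1) ≤ b * q := mul_le_mul_right (succ_le.2 hc) b
    have h4 : a < b * (q' + 1) := by
      rw [h2, mul_add, mul_one]
      exact add_lt_add_right hr' _
    have h5 : b * q ≤ a := by rw [h1]; exact le_self_add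
    exact absurd (h4.trans_le (h3.trans h5)) (lt_irrefl _)
  unfold dv
  have hex : ∃ q r, r < b ∧ a = b * q + r := ⟨q, r, hr, h⟩
  rw [dif_pos hex]
  obtain ⟨r', hr', h'⟩ := hex.choose_spec
  exact le_antisymm (hq _ _ _ _ hr' hr h' h) (hq _ _ _ _ hr hr' h h')

theorem md_unique {a b q r : M} (hr : r < b) (h : a = b * q + r) : md a b = r := by
  unfold md
  have hex : ∃ r, r < b ∧ ∃ q, a = b * q + r := ⟨r, hr, q, h⟩
  rw [dif_pos hex]
  obtain ⟨hr', q', h'⟩ := hex.choose_spec
  have e : q' = q := (dv_unique hr' h').symm.trans (dv_unique hr h)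
  rw [e] at h'
  exact add_left_cancel (h'.symm.trans h)

@[simp] theorem dv_zero (a : M) : dv a 0 = 0 := by
  unfold dv
  rw [dif_neg]
  rintro ⟨q, r, h, -⟩
  simp at h

@[simp] theorem md_zero (a : M) : md a 0 = a := by
  unfold md
  rw [dif_neg]
  rintro ⟨r, h, -⟩
  simp at h

end

end Pool.Agent.OVW
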