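import Pool.Agent.OVW.World

/-!
# Block H: extension of Worlds by a function, and Harrington's path, statements

Paper: `PAPER_H.md`. The proofs are in `H/*.lean`.
-/

namespace Pool.Agent.OVW

open Classical in
/-- Bounded comprehension for the `Σ₁` conditions on `G` over `R`. -/
def BCA {M : Type} [Arith M] (R : Set (M → M)) (G : M → M) : Prop :=
  ∀ φ ∈ R, ∀ b : M, ∃ c, ∀ a < b, bet c a = if ∃ n, φ (pr a (seg G n)) ≠ 0 then 1 else 0

open Classical in
/-- Bounded comprehension for `Σ₁` sets holds in every World. -/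
def StmtBC : Prop := ∀ (M : Type) [Arith M] (R : Set (M → M)) [IsWorld R],
  ∀ f ∈ R, ∀ b : M, ∃ c, ∀ a < b, bet c a = if ∃ n, f (pr a n) = 0 then 1 else 0

/-- EXT: a function `G` with `BCA R G` generates a World over `R`. -/
def StmtEXT : Prop := ∀ (M : Type) [Arith M] (R : Set (M → M)) [IsWorld R] (G : M → M),
  Segd G → BCA R G → IsWorld (RIn R G) ∧ R ⊆ RIn R G ∧ G ∈ RIn R G

/-- The `Σ₁` sets of the World `RIn R G` are the `Σ₁` conditions on `G`. -/
def StmtSIG : Prop := ∀ (M : Type) [Arith M] (R : Set (M → M)) [IsWorld R] (G : M → M),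
  Segd G → BCA R G → ∀ g ∈ RIn R G, ∃ φ ∈ R, ∀ a, (∃ n, g (pr a n) = 0) ↔
    ∃ n, φ (pr a (seg G n)) ≠ 0

/-- Functions which are approximated along the segments of `G` are in `RIn R G`. -/
def StmtLIM : Prop := ∀ (M : Type) [Arith M] (R : Set (M → M)) [IsWorld R] (G g : M → M),
  Segd G → (g ∈ RIn R G ↔ ∃ φ ∈ R, (∀ a, ∃ n, φ (pr a (seg G n)) ≠ 0) ∧
    ∀ a n, φ (pr a (seg G n)) ≠ 0 → φ (pr a (seg G n)) = g a + 1)

/-- Countability of the extension. -/
def StmtCTE : Prop := ∀ (M : Type) [Arith M] (R : Set (M → M)) (G : M → M), R.Countable →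
  (RIn R G).Countable

/-- HAR: an infinite binary tree of a countable World has a path `P` with `BCA R P`. -/
def StmtHAR : Prop := ∀ (M : Type) [Arith M] (R : Set (M → M)) [IsWorld R] (T : M → M),
  Countable M → R.Countable → T ∈ R → BTree T → InfT T →
  ∃ P : M → M, Segd P ∧ PathT T P ∧ BCA R P

end Pool.Agent.OVW
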