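import Pool.Agent.OVW.A2Defs

/-!
# Block A2, module CT: countability
-/

namespace Pool.Agent.OVW

/-- Programs. -/
inductive Pg (M : Type) : Type
  | const (c : M) : Pg M
  | id : Pg M
  | fs : Pg M
  | sn : Pg M
  | add : Pg M
  | mul : Pg M
  | lt : Pg M
  | chi : Pg M
  | comp (p q : Pg M) : Pg M
  | pair (p q : Pg M) : Pg M
  | mu (p : Pg M) : Pg M
  deriving Countable

open Classical in
/-- The function computed by a program. -/
noncomputable def Pg.ev {M : Type} [Arith M] (X : Set M) : Pg M → (M → M)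
  | .const c => fun _ => c
  | .id => fun x => x
  | .fs => fun x => OVW.fs x
  | .sn => fun x => OVW.sn x
  | .add => fun x => OVW.fs x + OVW.sn x
  | .mul => fun x => OVW.fs x * OVW.sn x
  | .lt => fun x => if OVW.fs x < OVW.sn x then (1 : M) else 0
  | .chi => fun x => if x ∈ X then (1 : M) else 0
  | .comp p q => fun x => p.ev X (q.ev X x)
  | .pair p q => fun x => pr (p.ev X x) (q.ev X x)
  | .mu p => if h : ∃ g : M → M, ∀ a, p.ev X (pr a (g a)) = 0 ∧ ∀ m < g a, p.ev X (pr a m) ≠ 0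
      then h.choose else fun _ => 0

theorem Gen.pg {M : Type} [Arith M] {X : Set M} {f : M → M} (h : Gen X f) :
    ∃ p : Pg M, p.ev X = f := by
  induction h with
  | const c => exact ⟨.const c, rfl⟩
  | id => exact ⟨.id, rfl⟩
  | fs => exact ⟨.fs, rfl⟩
  | sn => exact ⟨.sn, rfl⟩
  | add => exact ⟨.add, rfl⟩
  | mul => exact ⟨.mul, rfl⟩
  | lt => exact ⟨.lt, rfl⟩
  | chi => exact ⟨.chi, rfl⟩
  | comp _ _ ih1 ih2 =>
    obtain ⟨p, rfl⟩ := ih1
    obtain ⟨q, rfl⟩ := ih2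
    exact ⟨.comp p q, rfl⟩
  | pair _ _ ih1 ih2 =>
    obtain ⟨p, rfl⟩ := ih1
    obtain ⟨q, rfl⟩ := ih2
    exact ⟨.pair p q, rfl⟩
  | @mu f g _ hg ih =>
    obtain ⟨p, rfl⟩ := ih
    refine ⟨.mu p, ?_⟩
    have h : ∃ g : M → M, ∀ a, p.ev X (pr a (g a)) = 0 ∧ ∀ m < g a, p.ev X (pr a m) ≠ 0 :=
      ⟨g, hg⟩
    rw [Pg.ev, dif_pos h]
    funext a
    obtain ⟨h1, h2⟩ := h.choose_spec a
    obtain ⟨h3, h4⟩ := hg a
    rcases lt_trichotomy (h.choose a) (g a) with h5 | h5 | h5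
    · exact absurd h1 (h4 _ h5)
    · exact h5
    · exact absurd h3 (h2 _ h5)

/-- Module CT. -/
theorem stmtCT : StmtCT := by
  intro M _ X _
  refine (Set.countable_range (fun p : Pg M => p.ev X)).mono ?_
  intro f hf
  exact Gen.pg hf

end Pool.Agent.OVW
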