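import Pool.Agent.OVW.World

/-!
# Block A2: bounded predicates, the functions generated by a set, statements

The only contact with the syntax of arithmetic: `Ind1 X` and `Ind2 X` follow from `IΣ₁` and `IΣ₂`
with the set parameter `X`. Everything else is done with `Gen X`, the class of the functions which
are obtained from the characteristic function of `X`, constants, pairing, `+`, `*`, `<` by
composition and total search.
-/

namespace Pool.Agent.OVW

section

variable {M : Type} [Arith M]

/-- Terms with parameters. -/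
inductive Tm (M : Type) : Type
  | var : ℕ → Tm M
  | cst : M → Tm M
  | add : Tm M → Tm M → Tm M
  | mul : Tm M → Tm M → Tm M

/-- The value of a term. -/
def Tm.ev (v : ℕ → M) : Tm M → M
  | .var i => v i
  | .cst c => c
  | .add s t => s.ev v + t.ev v
  | .mul s t => s.ev v * t.ev v

/-- The assignment `x, v 0, v 1, ...`. -/
def push {M : Type} (x : M) (v : ℕ → M) : ℕ → M
  | 0 => x
  | n + 1 => v n

/-- The bounded predicates (with parameters from `M` and the set parameter `X`) on assignments. -/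
inductive D0 (X : Set M) : ((ℕ → M) → Prop) → Prop
  | eq (s t : Tm M) : D0 X (fun v => s.ev v = t.ev v)
  | lt (s t : Tm M) : D0 X (fun v => s.ev v < t.ev v)
  | mem (t : Tm M) : D0 X (fun v => t.ev v ∈ X)
  | not {P : (ℕ → M) → Prop} : D0 X P → D0 X (fun v => ¬ P v)
  | and {P Q : (ℕ → M) → Prop} : D0 X P → D0 X Q → D0 X (fun v => P v ∧ Q v)
  | ball (t : Tm M) {P : (ℕ → M) → Prop} : D0 X P → D0 X (fun v => ∀ x, x < t.ev v → P (push x v))

/-- `Σ₁(X)` predicates. -/
def S1 (X : Set M) (P : (ℕ → M) → Prop) : Prop :=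
  ∃ Q, D0 X Q ∧ ∀ v, P v ↔ ∃ y, Q (push y v)

/-- `Σ₁` induction with the set parameter `X`. -/
def Ind1 (X : Set M) : Prop :=
  ∀ Q, D0 X Q → ∀ v : ℕ → M, (∃ y, Q (push y (push 0 v))) →
    (∀ x, (∃ y, Q (push y (push x v))) → ∃ y, Q (push y (push (x + 1) v))) →
    ∀ x, ∃ y, Q (push y (push x v))

/-- `Σ₂` induction with the set parameter `X`. -/
def Ind2 (X : Set M) : Prop :=
  ∀ Q, D0 X Q → ∀ v : ℕ → M, (∃ y, ∀ z, Q (push z (push y (push 0 v)))) →
    (∀ x, (∃ y, ∀ z, Q (push z (push y (push x v)))) →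
      ∃ y, ∀ z, Q (push z (push y (push (x + 1) v)))) →
    ∀ x, ∃ y, ∀ z, Q (push z (push y (push x v)))

open Classical in
/-- The functions generated by `X`. -/
inductive Gen (X : Set M) : (M → M) → Prop
  | const (c : M) : Gen X (fun _ => c)
  | id : Gen X (fun x => x)
  | fs : Gen X (fun x => fs x)
  | sn : Gen X (fun x => sn x)
  | add : Gen X (fun x => OVW.fs x + OVW.sn x)
  | mul : Gen X (fun x => OVW.fs x * OVW.sn x)
  | lt : Gen X (fun x => if OVW.fs x < OVW.sn x then (1 : M) else 0)
  | chi : Gen X (fun x => if x ∈ X then (1 : M) else 0)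
  | comp {f g : M → M} : Gen X f → Gen X g → Gen X (fun x => f (g x))
  | pair {f g : M → M} : Gen X f → Gen X g → Gen X (fun x => pr (f x) (g x))
  | mu {f g : M → M} : Gen X f → (∀ a, f (pr a (g a)) = 0 ∧ ∀ m < g a, f (pr a m) ≠ 0) → Gen X g

/-- The set of the functions generated by `X`. -/
def GenS (X : Set M) : Set (M → M) := {f | Gen X f}

/-- Codes of the first `k` values of an assignment. -/
def cde (k : ℕ) (v : ℕ → M) : M :=
  match k with
  | 0 => 0
  | k + 1 => pr (v 0) (cde k (fun n => v (n + 1)))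

end

/-! ### Statements -/

/-- W: `Σ₁(X)` induction gives a World. -/
def StmtW : Prop := ∀ (M : Type) [Arith M] (X : Set M), Ind1 X → IsWorld (GenS X)

/-- D: the characteristic functions of bounded predicates are generated by `X`, and so is every
function with a `Σ₁(X)` graph. -/
def StmtD : Prop := ∀ (M : Type) [Arith M] (X : Set M), Ind1 X →
  (∀ P, D0 X P → ∃ k, ∃ f ∈ GenS X, ∀ v, P v ↔ f (cde k v) = 0) ∧
  (∀ g : M → M, S1 X (fun v => g (v 0) = v 1) → g ∈ GenS X) ∧
  (∀ g ∈ GenS X, S1 X (fun v => g (v 0) = v 1))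

/-- U: there is a universal function. -/
def StmtU : Prop := ∀ (M : Type) [Arith M] (X : Set M), Ind1 X → ∃ u, Univ (GenS X) u

/-- J: the jump. -/
def StmtJ : Prop := ∀ (M : Type) [Arith M] (X : Set M), Ind1 X → Ind2 X →
  ∃ J : Set M, Ind1 J ∧ GenS X ⊆ GenS J ∧ JumpIn (GenS X) (GenS J)

/-- CT: countability. -/
def StmtCT : Prop := ∀ (M : Type) [Arith M] (X : Set M), Countable M → (GenS X).Countable

end Pool.Agent.OVW
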