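import Pool.Agent.OVW.Formulas
import Pool.Agent.OVW.A2Defs

/-!
# Block A3: from the forcing theorem to the conservation theorem, definitions and statements

Everything between the formulas (`Formulas.lean`) and the Worlds (`World.lean`, `A2Defs.lean`).
The statements `Stmt...` of this file are proved in separate files; `A3Final.lean` derives the
conservation theorem from them.
-/

namespace Pool.Agent.OVW

section

variable {M : Type} [Arith M]

open Classical in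
/-- The characteristic function of a set. -/
noncomputable def chi (A : Set M) : M → M := fun x => if x ∈ A then 1 else 0

/-- The sets of a World: the sets whose characteristic function belongs to `R`. -/
def SetsOf (R : Set (M → M)) : Set (Set M) := {A | chi A ∈ R}

/-- `Σ₂` induction in a World. -/
def Sig2 (R : Set (M → M)) : Prop :=
  ∀ f ∈ R, (∃ y, ∀ z, f (pr 0 (pr y z)) = 0) →
    (∀ x, (∃ y, ∀ z, f (pr x (pr y z)) = 0) → ∃ y, ∀ z, f (pr (x + 1) (pr y z)) = 0) →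
    ∀ x, ∃ y, ∀ z, f (pr x (pr y z)) = 0

/-- The predicate `P` of assignments is recursive: it depends on finitely many values only, and
recursively. -/
def RecP (R : Set (M → M)) (P : (ℕ → M) → Prop) : Prop :=
  ∃ k, ∃ f ∈ R, ∀ v, P v ↔ f (cde k v) = 0

/-- The function `F` of assignments is recursive. -/
def RecF (R : Set (M → M)) (F : (ℕ → M) → M) : Prop :=
  ∃ k, ∃ f ∈ R, ∀ v, F v = f (cde k v)

/-! ### Words and the ordered variable word theorem in a World -/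

/-- The sequence `bet c 0, ..., bet c (n - 1)` is a word over the alphabet `{0, ..., a - 1}`. -/
def IsWd (a n c : M) : Prop := ∀ i < n, bet c i < a

/-- The sequences of length `n` with the codes `c` and `c'` are equal. -/
def SameW (n c c' : M) : Prop := ∀ i < n, bet c i = bet c' i

/-- `f` is a colouring of the words over `{0, ..., a - 1}` with the colours `0, ..., l - 1`. -/
structure Inst (a l : M) (f : M → M) : Prop where
  lt : ∀ n c, IsWd a n c → f (pr n c) < l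
  ext : ∀ n c c', IsWd a n c → SameW n c c' → f (pr n c) = f (pr n c')

/-- The word with the code `c` and the length `p k` has the form `c₀ w₁[a₁] ... wₖ[aₖ]`, where the
infinite word `h = c₀ w₁ w₂ ...` over `{0, ..., a}` (the letter `a` is the variable) is cut at the
places `p 0 < p 1 < ...`. -/
def InstOf (a : M) (h p : M → M) (k c : M) : Prop :=
  (∀ i < p k, h i ≠ a → bet c i = h i) ∧
  ∀ i < p k, h i = a → ∀ j, p j ≤ i → i < p (j + 1) → bet c i = bet c (p j)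

/-- The infinite word `h` over `{0, ..., a}`, cut at the places `p 0 < p 1 < ...`, is a solution
of the ordered variable word theorem for the colouring `f`. -/
structure Soln (a l : M) (f h p : M → M) : Prop where
  le : ∀ i, h i ≤ a
  first : ∀ i < p 0, h i ≠ a
  mono : ∀ k, p k < p (k + 1)
  star : ∀ k, h (p k) = a
  mch : ∃ col < l, ∀ k c, IsWd a (p k) c → InstOf a h p k c → f (pr (p k) c) = col

/-- The pair of two functions. -/
def prf (h p : M → M) : M → M := fun x => pr (h x) (p x)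

end

/-- The structure for second order arithmetic with the numbers `M` and the sets `S`. -/
def toModel (M : Type) [Arith M] (S : Set (Set M)) : Model where
  M := M
  zero := 0
  one := 1
  add := fun a b => a + b
  mul := fun a b => a * b
  lt := fun a b => a < b
  S := S

/-- The semantic content of the basic axioms and of `IΣ₁`, for an induction on `x₀`. -/
structure Basic (𝔐 : Model) : Prop where
  succ_ne : ∀ a, 𝔐.add a 𝔐.one ≠ 𝔐.zero
  succ_inj : ∀ a b, 𝔐.add a 𝔐.one = 𝔐.add b 𝔐.one → a = b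
  add_zero : ∀ a, 𝔐.add a 𝔐.zero = a
  add_succ : ∀ a b, 𝔐.add a (𝔐.add b 𝔐.one) = 𝔐.add (𝔐.add a b) 𝔐.one
  mul_zero : ∀ a, 𝔐.mul a 𝔐.zero = 𝔐.zero
  mul_succ : ∀ a b, 𝔐.mul a (𝔐.add b 𝔐.one) = 𝔐.add (𝔐.mul a b) a
  not_lt_zero : ∀ a, ¬ 𝔐.lt a 𝔐.zero
  lt_succ : ∀ a b, 𝔐.lt a (𝔐.add b 𝔐.one) ↔ 𝔐.lt a b ∨ a = b
  ind : ∀ φ : Form, IsSigma 1 φ → ∀ (v : ℕ → 𝔐.M) (V : ℕ → Set 𝔐.M), (∀ X, V X ∈ 𝔐.S) →
    φ.Sat 𝔐 (Function.update v 0 𝔐.zero) V →
    (∀ a, φ.Sat 𝔐 (Function.update v 0 a) V →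
      φ.Sat 𝔐 (Function.update v 0 (𝔐.add a 𝔐.one)) V) →
    ∀ a, φ.Sat 𝔐 (Function.update v 0 a) V

/-! ### Statements -/

/-- BA: the semantic content of the basic axioms and of `IΣ₁`. -/
def StmtBA : Prop := ∀ 𝔐 : Model, 𝔐.S.Nonempty → 𝔐.Models (basic ∪ ISigma 1) → Basic 𝔐

/-- ALG: the numbers are a commutative semiring. -/
def StmtALG : Prop := ∀ 𝔐 : Model, 𝔐.S.Nonempty → Basic 𝔐 →
  ∃ _ : CommSemiring 𝔐.M, (0 : 𝔐.M) = 𝔐.zero ∧ (1 : 𝔐.M) = 𝔐.one ∧
    (∀ a b : 𝔐.M, a + b = 𝔐.add a b) ∧ (∀ a b : 𝔐.M, a * b = 𝔐.mul a b)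

/-- ORD: the semiring of the numbers is discretely ordered. -/
def StmtORD : Prop := ∀ 𝔐 : Model, 𝔐.S.Nonempty → Basic 𝔐 → ∀ _ : CommSemiring 𝔐.M,
  (0 : 𝔐.M) = 𝔐.zero → (1 : 𝔐.M) = 𝔐.one → (∀ a b : 𝔐.M, a + b = 𝔐.add a b) →
  (∀ a b : 𝔐.M, a * b = 𝔐.mul a b) →
  ∃ _ : LinearOrder 𝔐.M, IsStrictOrderedRing 𝔐.M ∧ CanonicallyOrderedAdd 𝔐.M ∧
    (∀ a : 𝔐.M, a < 1 → a = 0) ∧ ∀ a b : 𝔐.M, a < b ↔ 𝔐.lt a b

/-- KF: the ordered field of fractions. -/
def StmtKF : Prop := ∀ (M : Type) [CommSemiring M] [LinearOrder M] [IsStrictOrderedRing M]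
  [CanonicallyOrderedAdd M], ∃ (K : Type) (_ : Field K) (_ : LinearOrder K)
  (_ : IsStrictOrderedRing K) (f : M →+* K), StrictMono f ∧
    ∀ x : K, ∃ a b c : M, c ≠ 0 ∧ x * f c = f a - f b

/-- AR: a structure which satisfies the basic axioms and `IΣ₁` is (up to nothing) of the form
`toModel M S`. -/
def StmtAR : Prop := ∀ 𝔐 : Model, 𝔐.S.Nonempty → 𝔐.Models (basic ∪ ISigma 1) →
  ∃ (M : Type) (_ : Arith M) (S : Set (Set M)), 𝔐 = toModel M S

/-- LS: the downward Löwenheim-Skolem theorem. -/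
def StmtLS : Prop := ∀ (𝔐 : Model) (v : ℕ → 𝔐.M) (V : ℕ → Set 𝔐.M), (∀ X, V X ∈ 𝔐.S) →
  ∃ (𝔑 : Model) (v' : ℕ → 𝔑.M) (V' : ℕ → Set 𝔑.M), Countable 𝔑.M ∧ 𝔑.S.Countable ∧
    (∀ X, V' X ∈ 𝔑.S) ∧ (∀ φ : Form, φ.Sat 𝔑 v' V' ↔ φ.Sat 𝔐 v V) ∧
    ∀ φ, 𝔐.True φ → 𝔑.True φ

/-- CO: coincidence. The value of a formula depends only on the values of finitely many set
variables. -/
def StmtCO : Prop := ∀ φ : Form, ∃ k, ∀ (𝔐 : Model) (v : ℕ → 𝔐.M) (V V' : ℕ → Set 𝔐.M),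
  (∀ X < k, V X = V' X) → (φ.Sat 𝔐 v V ↔ φ.Sat 𝔐 v V')

/-- TR: bounded predicates with a set parameter `A` and number parameters are given by bounded
formulas with prescribed variables: the arguments are the variables `x (σ i)`, `i < k`, and the
parameters are the values of the variables `x (τ i)`, `i < n`. -/
def StmtTR : Prop := ∀ (M : Type) [Arith M] (S : Set (Set M)) (A : Set M) (P : (ℕ → M) → Prop),
  D0 A P → ∃ (k n : ℕ) (c : ℕ → M), ∀ σ τ : ℕ → ℕ, ∃ φ : Form, φ.Bounded ∧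
    ∀ (v w : ℕ → M) (V : ℕ → Set M), V 0 = A → (∀ i < k, w (σ i) = v i) →
      (∀ i < n, w (τ i) = c i) → (φ.Sat (toModel M S) w V ↔ P v)

/-- JN: two sets have a common upper bound. -/
def StmtJN : Prop := ∀ (M : Type) [Arith M] (S : Set (Set M)),
  (toModel M S).Models DeltaCA → ∀ A ∈ S, ∀ B ∈ S, ∃ C ∈ S,
    A ∈ SetsOf (GenS C) ∧ B ∈ SetsOf (GenS C)

/-- C1: from formulas to Worlds. -/
def StmtC1 : Prop := ∀ (M : Type) [Arith M] (S : Set (Set M)), S.Nonempty →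
  (toModel M S).Models theoryS →
  (∀ A ∈ S, Ind1 A ∧ Ind2 A) ∧
  ∀ (k : ℕ) (V : ℕ → Set M), (∀ X, V X ∈ S) → ∃ A ∈ S, ∀ X < k, V X ∈ SetsOf (GenS A)

/-- M: from Worlds to formulas. -/
def StmtM : Prop := ∀ (M : Type) [Arith M] (R : Set (M → M)), IsWorld R → Sig2 R →
  (toModel M (SetsOf R)).Models theoryS

/-- OV: the ordered variable word theorem, from Worlds to formulas. -/
def StmtOV : Prop := ∀ (M : Type) [Arith M] (R : Set (M → M)), IsWorld R →
  (∀ a l f, 0 < a → f ∈ R → Inst a l f → ∃ h ∈ R, ∃ p ∈ R, Soln a l f h p) →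
  (toModel M (SetsOf R)).True ovwSentence

/-- D0: bounded predicates of a set of a World are recursive. -/
def StmtD0 : Prop := ∀ (M : Type) [Arith M] (R : Set (M → M)), IsWorld R → ∀ X ∈ SetsOf R,
  ∀ P, D0 X P → RecP R P

/-- S2: `Σ₂` induction for `X` gives `Σ₂` induction for the World generated by `X`. -/
def StmtS2 : Prop := ∀ (M : Type) [Arith M] (X : Set M), Ind1 X → Ind2 X → Sig2 (GenS X)

open Classical in
/-- EX (block H): extension of a World by a function. -/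
def StmtEX : Prop := ∀ (M : Type) [Arith M] (R : Set (M → M)), IsWorld R → ∀ G : M → M, Segd G →
  (∀ φ ∈ R, ∀ b, ∃ c, ∀ a < b, bet c a = if ∃ n, φ (pr a (seg G n)) ≠ 0 then 1 else 0) →
  IsWorld (RIn R G) ∧ R ⊆ RIn R G ∧ G ∈ RIn R G ∧
  ∀ g ∈ RIn R G, ∃ φ ∈ R, ∀ a, (∃ n, g (pr a n) = 0) ↔ ∃ n, φ (pr a (seg G n)) ≠ 0

open Classical in
/-- FO (block C): the forcing theorem. -/
def StmtFO : Prop := ∀ (M : Type) [Arith M] (R₀ R₁ : Set (M → M)), Countable M → R₁.Countable →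
  IsWorld R₀ → IsWorld R₁ → R₀ ⊆ R₁ → JumpIn R₀ R₁ → (∃ u, Univ R₀ u) →
  ∀ a l f, 0 < a → f ∈ R₀ → Inst a l f →
  ∃ R₂ : Set (M → M), IsWorld R₂ ∧ R₁ ⊆ R₂ ∧ ∃ h ∈ R₂, ∃ p ∈ R₂, Soln a l f h p ∧
    ∀ φ ∈ R₀, (fun b => if ∃ n, φ (pr b (seg (prf h p) n)) ≠ 0 then (1 : M) else 0) ∈ R₂

/-- JC: a function whose jump is under control gives a set with `Σ₂` induction. -/
def StmtJC : Prop := ∀ (M : Type) [Arith M] (X : Set M), Ind1 X → ∀ R₂ : Set (M → M),
  IsWorld R₂ → GenS X ⊆ R₂ → ∀ h ∈ R₂, ∀ p ∈ R₂,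
  (open Classical in
    ∀ φ ∈ GenS X, (fun b => if ∃ n, φ (pr b (seg (prf h p) n)) ≠ 0 then (1 : M) else 0) ∈ R₂) →
  ∃ X' : Set M, Ind1 X' ∧ Ind2 X' ∧ GenS X ⊆ GenS X' ∧ h ∈ GenS X' ∧ p ∈ GenS X'

/-- UN: the union of a chain of Worlds with `Σ₂` induction. -/
def StmtUN : Prop := ∀ (M : Type) [Arith M] (R : ℕ → Set (M → M)), (∀ n, R n ⊆ R (n + 1)) →
  (∀ n, IsWorld (R n)) → (∀ n, Sig2 (R n)) → IsWorld (⋃ n, R n) ∧ Sig2 (⋃ n, R n)

end Pool.Agent.OVW
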