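import Pool.Agent.OVW.Lib1

/-!
# Library 2: coded types and recursive functions

`Cod M α`: the elements of `α` have canonical codes in `M`. `Rec R f`: the function `f : α → β` is
recursive in the world `R` (registered for `fun_prop`).
-/

namespace Pool.Agent.OVW

/-- There is a world with first order part `M`. -/
class HasWorld (M : Type) [Arith M] : Prop where
  ex : ∃ R : Set (M → M), IsWorld R

theorem HasWorld.of {M : Type} [Arith M] (R : Set (M → M)) [h : IsWorld R] : HasWorld M := ⟨R, h⟩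

/-- Types with canonical codes. -/
class Cod (M : Type) [Arith M] (α : Type) where
  /-- the code -/
  enc' : α → M
  /-- the element with a given code -/
  dec' : M → α
  dec_enc' : ∀ a, dec' (enc' a) = a
  can' : ∀ R : Set (M → M), IsWorld R → (fun m => enc' (dec' m)) ∈ R

section

variable {M : Type} [Arith M] {α : Type} [Cod M α]

/-- The code of an element. -/
def enc (a : α) : M := Cod.enc' a

/-- The element with a given code. -/
def dec (m : M) : α := Cod.dec' m

@[simp] theorem dec_enc (a : α) : dec (enc a : M) = a := Cod.dec_enc' (M := M) a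

theorem Cod.can (α : Type) [Cod M α] (R : Set (M → M)) (h : IsWorld R) :
    (fun m : M => (enc (dec m : α) : M)) ∈ R := Cod.can' R h

/-- The function `f` is recursive in the world `R`. -/
@[fun_prop]
def Rec (R : Set (M → M)) {α β : Type} [Cod M α] [Cod M β] (f : α → β) : Prop :=
  (fun m : M => (enc (f (dec m)) : M)) ∈ R

theorem enc_inj {a b : α} : (enc a : M) = enc b ↔ a = b :=
  ⟨fun h => by rw [← dec_enc (M := M) a, h, dec_enc], fun h => by rw [h]⟩

end

section

variable {M : Type} [Arith M]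

instance : Cod M M where
  enc' := fun a => a
  dec' := fun a => a
  dec_enc' := fun _ => rfl
  can' := fun _ h => h.id

@[simp] theorem enc_self (a : M) : (enc a : M) = a := rfl
@[simp] theorem dec_self (a : M) : (dec a : M) = a := rfl

open Classical in
noncomputable instance : Cod M Prop where
  enc' := fun p => if p then 1 else 0
  dec' := fun m => m ≠ 0
  dec_enc' := fun p => by
    by_cases h : p
    · simp [h]
    · simp [h]
  can' := fun R h => by
    have h1 := h.comp _ h.lt _ (h.pair _ (h.const 0) _ h.id)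
    refine (congrArg (fun f => f ∈ R) ?_).mp h1
    funext m
    simp only [fs_pr, sn_pr]
    by_cases hm : m = 0
    · rw [if_neg (by simp [hm]), if_neg (by simp [hm])]
    · rw [if_pos (pos_iff.2 hm), if_pos hm]

open Classical in
theorem enc_prop (p : Prop) : (enc p : M) = if p then 1 else 0 := rfl
@[simp] theorem dec_prop (m : M) : (dec m : Prop) = (m ≠ 0) := rfl

theorem enc_true {p : Prop} (h : p) : (enc p : M) = 1 := by rw [enc_prop, if_pos h]
theorem enc_false {p : Prop} (h : ¬ p) : (enc p : M) = 0 := by rw [enc_prop, if_neg h]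
theorem enc_eq_zero {p : Prop} : (enc p : M) = 0 ↔ ¬ p := by
  by_cases h : p
  · rw [enc_true h]
    simp [h]
  · rw [enc_false h]
    simp [h]
theorem enc_le_one (p : Prop) : (enc p : M) ≤ 1 := by
  by_cases h : p
  · rw [enc_true h]
  · rw [enc_false h]
    simp

noncomputable instance {α β : Type} [Cod M α] [Cod M β] : Cod M (α × β) where
  enc' := fun p => pr (enc p.1) (enc p.2)
  dec' := fun m => (dec (fs m), dec (sn m))
  dec_enc' := fun p => by simp
  can' := fun R h => by
    have h1 := h.comp _ (Cod.can α R h) _ h.fs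
    have h2 := h.comp _ (Cod.can β R h) _ h.sn
    exact h.pair _ h1 _ h2

theorem enc_prod {α β : Type} [Cod M α] [Cod M β] (p : α × β) :
    (enc p : M) = pr (enc p.1) (enc p.2) := rfl
theorem dec_prod {α β : Type} [Cod M α] [Cod M β] (m : M) :
    (dec m : α × β) = (dec (fs m), dec (sn m)) := rfl

noncomputable instance : Cod M Unit where
  enc' := fun _ => 0
  dec' := fun _ => ()
  dec_enc' := fun _ => rfl
  can' := fun _ h => h.const 0

end

section

variable {M : Type} [Arith M] {R : Set (M → M)}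
variable {α β γ δ : Type} [Cod M α] [Cod M β] [Cod M γ] [Cod M δ]

theorem rec_iff {f : M → M} : Rec R f ↔ f ∈ R := Iff.rfl

theorem Rec.enc {f : α → β} (hf : Rec R f) : Rec R (fun a => (enc (f a) : M)) := hf

variable [IsWorld R]

@[fun_prop] theorem Rec.id : Rec R (fun a : α => a) := Cod.can α R inferInstance

@[fun_prop] theorem Rec.const (b : β) : Rec R (fun _ : α => b) := IsWorld.const _

@[fun_prop] theorem Rec.comp {g : β → γ} {f : α → β} (hg : Rec R g) (hf : Rec R f) :
    Rec R (fun a => g (f a)) := by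
  have := IsWorld.comp _ hg _ hf
  simp only [dec_enc] at this
  exact this

@[fun_prop] theorem Rec.prodMk {f : α → β} {g : α → γ} (hf : Rec R f) (hg : Rec R g) :
    Rec R (fun a => (f a, g a)) := IsWorld.pair _ hf _ hg

@[fun_prop] theorem Rec.fst_ : Rec R (fun p : α × β => p.1) :=
  IsWorld.comp _ (Cod.can α R inferInstance) _ IsWorld.fs

@[fun_prop] theorem Rec.snd_ : Rec R (fun p : α × β => p.2) :=
  IsWorld.comp _ (Cod.can β R inferInstance) _ IsWorld.sn

@[fun_prop] theorem Rec.fst {f : α → β × γ} (hf : Rec R f) : Rec R (fun a => (f a).1) :=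
  Rec.comp Rec.fst_ hf

@[fun_prop] theorem Rec.snd {f : α → β × γ} (hf : Rec R f) : Rec R (fun a => (f a).2) :=
  Rec.comp Rec.snd_ hf

theorem Rec.comp2 {h : β → γ → δ} {f : α → β} {g : α → γ}
    (hh : Rec R (fun p : β × γ => h p.1 p.2)) (hf : Rec R f) (hg : Rec R g) :
    Rec R (fun a => h (f a) (g a)) :=
  Rec.comp (g := fun p : β × γ => h p.1 p.2) hh (Rec.prodMk hf hg)

attribute [fun_prop] Rec.enc

@[fun_prop] theorem Rec.dec {f : α → M} (hf : Rec R f) :
    Rec R (fun a => (dec (f a) : β)) :=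
  Rec.comp (g := fun m : M => (OVW.dec m : β)) (Cod.can β R inferInstance) hf

@[fun_prop] theorem Rec.pr {f g : α → M} (hf : Rec R f) (hg : Rec R g) :
    Rec R (fun a => pr (f a) (g a)) := IsWorld.pair _ hf _ hg

@[fun_prop] theorem Rec.fs {f : α → M} (hf : Rec R f) : Rec R (fun a => fs (f a)) :=
  IsWorld.comp _ IsWorld.fs _ hf

@[fun_prop] theorem Rec.sn {f : α → M} (hf : Rec R f) : Rec R (fun a => sn (f a)) :=
  IsWorld.comp _ IsWorld.sn _ hf

@[fun_prop] theorem Rec.add {f g : α → M} (hf : Rec R f) (hg : Rec R g) :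
    Rec R (fun a => f a + g a) := by
  have := IsWorld.comp _ IsWorld.add _ (IsWorld.pair _ hf _ hg)
  simp only [fs_pr, sn_pr] at this
  exact this

@[fun_prop] theorem Rec.mul {f g : α → M} (hf : Rec R f) (hg : Rec R g) :
    Rec R (fun a => f a * g a) := by
  have := IsWorld.comp _ IsWorld.mul _ (IsWorld.pair _ hf _ hg)
  simp only [fs_pr, sn_pr] at this
  exact this

@[fun_prop] theorem Rec.lt {f g : α → M} (hf : Rec R f) (hg : Rec R g) :
    Rec R (fun a => f a < g a) := by
  have h := IsWorld.comp _ IsWorld.lt _ (IsWorld.pair _ hf _ hg)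
  have e : (fun m : M => (OVW.enc (f (OVW.dec m) < g (OVW.dec m)) : M)) =
      fun x : M => if OVW.fs (OVW.pr (OVW.enc (f (OVW.dec x))) (OVW.enc (g (OVW.dec x)))) <
        OVW.sn (OVW.pr (OVW.enc (f (OVW.dec x)) : M) (OVW.enc (g (OVW.dec x)) : M))
        then (1 : M) else 0 := by
    funext m
    simp only [fs_pr, sn_pr, enc_self]
    by_cases hm : f (OVW.dec m) < g (OVW.dec m)
    · rw [enc_true hm, if_pos hm]
    · rw [enc_false hm, if_neg hm]
  unfold Rec
  rw [e]
  exact h

@[fun_prop] theorem Rec.not {P : α → Prop} (hP : Rec R P) : Rec R (fun a => ¬ P a) := by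
  have h : Rec R (fun a => (OVW.enc (P a) : M) < 1) := Rec.lt (Rec.enc hP) (Rec.const 1)
  have e : (fun a => (OVW.enc (P a) : M) < 1) = fun a => ¬ P a := by
    funext a
    apply propext
    by_cases hp : P a
    · rw [enc_true hp]
      simp [hp]
    · rw [enc_false hp]
      simp [hp]
  rwa [e] at h

@[fun_prop] theorem Rec.and {P Q : α → Prop} (hP : Rec R P) (hQ : Rec R Q) :
    Rec R (fun a => P a ∧ Q a) := by
  have h : Rec R (fun a => 0 < (OVW.enc (P a) : M) * OVW.enc (Q a)) :=
    Rec.lt (Rec.const 0) (Rec.mul (Rec.enc hP) (Rec.enc hQ))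
  have e : (fun a => 0 < (OVW.enc (P a) : M) * OVW.enc (Q a)) = fun a => P a ∧ Q a := by
    funext a
    apply propext
    by_cases hp : P a
    · by_cases hq : Q a
      · rw [enc_true hp, enc_true hq]
        simp [hp, hq]
      · rw [enc_false hq]
        simp [hq]
    · rw [enc_false hp]
      simp [hp]
  rwa [e] at h

@[fun_prop] theorem Rec.or {P Q : α → Prop} (hP : Rec R P) (hQ : Rec R Q) :
    Rec R (fun a => P a ∨ Q a) := by
  have h := Rec.not (Rec.and (Rec.not hP) (Rec.not hQ))
  simpa only [← not_or, not_not] using h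

@[fun_prop] theorem Rec.imp {P Q : α → Prop} (hP : Rec R P) (hQ : Rec R Q) :
    Rec R (fun a => P a → Q a) := by
  have h := Rec.or (Rec.not hP) hQ
  simpa only [← imp_iff_not_or] using h

@[fun_prop] theorem Rec.iff {P Q : α → Prop} (hP : Rec R P) (hQ : Rec R Q) :
    Rec R (fun a => P a ↔ Q a) := by
  have h := Rec.and (Rec.imp hP hQ) (Rec.imp hQ hP)
  have e : (fun a => (P a → Q a) ∧ (Q a → P a)) = fun a => (P a ↔ Q a) := by
    funext a
    exact propext iff_iff_implies_and_implies.symm
  rwa [e] at h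

@[fun_prop] theorem Rec.le {f g : α → M} (hf : Rec R f) (hg : Rec R g) :
    Rec R (fun a => f a ≤ g a) := by
  have h := Rec.not (Rec.lt hg hf)
  simpa only [not_lt] using h

@[fun_prop] theorem Rec.eq {f g : α → β} (hf : Rec R f) (hg : Rec R g) :
    Rec R (fun a => f a = g a) := by
  have h := Rec.and (Rec.le (Rec.enc hf) (Rec.enc hg)) (Rec.le (Rec.enc hg) (Rec.enc hf))
  simpa only [← le_antisymm_iff, enc_inj] using h

@[fun_prop] theorem Rec.ne {f g : α → β} (hf : Rec R f) (hg : Rec R g) :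
    Rec R (fun a => f a ≠ g a) := Rec.not (Rec.eq hf hg)

@[fun_prop] theorem Rec.ite {P : α → Prop} [∀ a, Decidable (P a)] {f g : α → β}
    (hP : Rec R P) (hf : Rec R f) (hg : Rec R g) :
    Rec R (fun a => if P a then f a else g a) := by
  have h : Rec R (fun a => (OVW.dec ((OVW.enc (P a) : M) * OVW.enc (f a) +
      OVW.enc (¬ P a) * OVW.enc (g a)) : β)) :=
    Rec.dec (Rec.add (Rec.mul (Rec.enc hP) (Rec.enc hf)) (Rec.mul (Rec.enc (Rec.not hP))
      (Rec.enc hg)))
  have e : (fun a => (OVW.dec ((OVW.enc (P a) : M) * OVW.enc (f a) +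
      OVW.enc (¬ P a) * OVW.enc (g a)) : β)) = fun a => if P a then f a else g a := by
    funext a
    by_cases hp : P a
    · rw [enc_true hp, enc_false (p := ¬ P a) (not_not.2 hp), if_pos hp]
      simp
    · rw [enc_false hp, enc_true (p := ¬ P a) hp, if_neg hp]
      simp
  rwa [e] at h

end

section

variable {M : Type} [Arith M]

/-- The least number with the property `P` (`0` if there is none). -/
noncomputable def least (P : M → Prop) : M :=
  open Classical in if h : ∃ n, P n ∧ ∀ m < n, ¬ P m then h.choose else 0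

theorem least_eq {P : M → Prop} {n : M} (h : P n) (h' : ∀ m < n, ¬ P m) : least P = n := by
  have hex : ∃ n, P n ∧ ∀ m < n, ¬ P m := ⟨n, h, h'⟩
  unfold least
  rw [dif_pos hex]
  obtain ⟨h1, h2⟩ := hex.choose_spec
  rcases lt_trichotomy hex.choose n with h3 | h3 | h3
  · exact absurd h1 (h' _ h3)
  · exact h3
  · exact absurd h (h2 _ h3)

variable {R : Set (M → M)} [IsWorld R]
variable {α β γ δ : Type} [Cod M α] [Cod M β] [Cod M γ] [Cod M δ]

theorem Rec.mu_aux {P : α → M → Prop} (hP : Rec R (fun p : α × M => P p.1 p.2))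
    (h : ∀ a, ∃ n, P a n) : Rec R (fun a => OVW.least (P a)) ∧
      ∀ a, P a (OVW.least (P a)) ∧ ∀ m < OVW.least (P a), ¬ P a m := by
  have h1 : Rec R (fun z : M => (OVW.enc (¬ P (OVW.dec (OVW.fs z)) (OVW.sn z)) : M)) := by
    apply Rec.enc
    apply Rec.not
    exact Rec.comp2 (h := P) hP (Rec.dec (Rec.fs Rec.id)) (Rec.sn Rec.id)
  obtain ⟨g, hg, hg2⟩ := IsWorld.mu _ h1 (fun a => by
    obtain ⟨n, hn⟩ := h (OVW.dec a)
    refine ⟨n, ?_⟩
    simp only [dec_self, fs_pr, sn_pr, enc_self]
    exact enc_eq_zero.2 (not_not.2 hn))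
  have h2 : ∀ m, P (OVW.dec m) (g m) ∧ ∀ n < g m, ¬ P (OVW.dec m) n := by
    intro m
    obtain ⟨ha, hb⟩ := hg2 m
    simp only [dec_self, fs_pr, sn_pr, enc_self, enc_eq_zero, not_not] at ha hb
    refine ⟨ha, fun n hn => ?_⟩
    exact fun hp => hb n hn (enc_eq_zero.2 (not_not.2 hp))
  have h3 : ∀ m, OVW.least (P (OVW.dec m)) = g m := fun m => least_eq (h2 m).1 (h2 m).2
  constructor
  · have : (fun m : M => (OVW.enc (OVW.least (P (OVW.dec m))) : M)) = g := funext h3
    unfold Rec
    rw [this]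
    exact hg
  · intro a
    have := h2 (OVW.enc a)
    rw [← h3, dec_enc] at this
    exact this

@[fun_prop] theorem Rec.least {P : α → M → Prop} (hP : Rec R (fun p : α × M => P p.1 p.2))
    (h : ∀ a, ∃ n, P a n) : Rec R (fun a => least (P a)) := (Rec.mu_aux hP h).1

theorem Rec.least_spec {P : M → Prop} (hP : Rec R P) (h : ∃ n, P n) :
    P (OVW.least P) ∧ ∀ m < OVW.least P, ¬ P m :=
  (Rec.mu_aux (α := M) (P := fun _ n => P n) (R := R) (Rec.comp hP Rec.snd_) (fun _ => h)).2 0

/-- The least number principle. -/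
theorem Rec.lnp {P : M → Prop} (hP : Rec R P) (h : ∃ n, P n) : ∃ n, P n ∧ ∀ m < n, ¬ P m :=
  ⟨_, Rec.least_spec hP h⟩

/-- Induction for recursive properties. -/
theorem Rec.induction {P : M → Prop} (hP : Rec R P) (h0 : P 0) (hs : ∀ n, P n → P (n + 1)) :
    ∀ n, P n := by
  intro n
  by_contra hn
  obtain ⟨m, hm, hm'⟩ := Rec.lnp (Rec.not hP) ⟨n, hn⟩
  rcases cases_succ m with rfl | ⟨k, rfl⟩
  · exact hm h0
  · exact hm (hs k (not_not.1 (hm' k (lt_succ.2 le_rfl))))

/-- Strong induction for recursive properties. -/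
theorem Rec.strong {P : M → Prop} (hP : Rec R P) (hs : ∀ n, (∀ m < n, P m) → P n) :
    ∀ n, P n := by
  intro n
  by_contra hn
  obtain ⟨m, hm, hm'⟩ := Rec.lnp (Rec.not hP) ⟨n, hn⟩
  exact hm (hs m (fun k hk => not_not.1 (hm' k hk)))

/-! ### Choice -/

variable (M) in
/-- The least element (in the order of the codes) with the property `P`. -/
noncomputable def pick (P : β → Prop) : β := dec (least (fun m : M => P (dec m)))

theorem Rec.pick_spec {P : β → Prop} (hP : Rec R P) (h : ∃ b, P b) : P (pick M P) := by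
  obtain ⟨b, hb⟩ := h
  have := Rec.least_spec (R := R) (P := fun m : M => P (OVW.dec m)) (Rec.comp hP (Rec.dec Rec.id))
    ⟨OVW.enc b, by rw [dec_enc]; exact hb⟩
  exact this.1

@[fun_prop] theorem Rec.pick {P : α → β → Prop} (hP : Rec R (fun p : α × β => P p.1 p.2))
    (h : ∀ a, ∃ b, P a b) : Rec R (fun a => pick M (P a)) := by
  apply Rec.dec
  apply Rec.least
  · exact Rec.comp2 (h := P) hP Rec.fst_ (Rec.dec Rec.snd_)
  · intro a
    obtain ⟨b, hb⟩ := h a
    exact ⟨OVW.enc b, by rw [dec_enc]; exact hb⟩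

/-- Every total recursive relation has a recursive choice function. -/
theorem Rec.choice {P : α → β → Prop} (hP : Rec R (fun p : α × β => P p.1 p.2))
    (h : ∀ a, ∃ b, P a b) : ∃ f : α → β, Rec R f ∧ ∀ a, P a (f a) :=
  ⟨fun a => OVW.pick M (P a), Rec.pick hP h, fun a =>
    Rec.pick_spec (R := R) (P := P a) (Rec.comp2 (h := P) hP (Rec.const a) Rec.id) (h a)⟩

/-! ### Bounded quantifiers -/

@[fun_prop] theorem Rec.bex {P : α → M → Prop} {n : α → M} (hn : Rec R n)
    (hP : Rec R (fun p : α × M => P p.1 p.2)) : Rec R (fun a => ∃ i < n a, P a i) := by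
  have hs : ∀ a, ∃ i, P a i ∨ n a ≤ i := fun a => ⟨n a, Or.inr le_rfl⟩
  have hQ : Rec R (fun p : α × M => P p.1 p.2 ∨ n p.1 ≤ p.2) :=
    Rec.or hP (Rec.le (Rec.comp hn Rec.fst_) Rec.snd_)
  have h := Rec.mu_aux (P := fun a i => P a i ∨ n a ≤ i) hQ hs
  have h1 : Rec R (fun a => OVW.least (fun i => P a i ∨ n a ≤ i) < n a) := Rec.lt h.1 hn
  have e : (fun a => OVW.least (fun i => P a i ∨ n a ≤ i) < n a) = fun a => ∃ i < n a, P a i := by
    funext a
    apply propext
    obtain ⟨h2, h3⟩ := h.2 a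
    constructor
    · intro h4
      refine ⟨_, h4, ?_⟩
      rcases h2 with h2 | h2
      · exact h2
      · exact absurd h4 (not_lt.2 h2)
    · rintro ⟨i, hi, hp⟩
      by_contra hc
      push Not at hc
      exact h3 i (hi.trans_le hc) (Or.inl hp)
  rwa [e] at h1

@[fun_prop] theorem Rec.ball {P : α → M → Prop} {n : α → M} (hn : Rec R n)
    (hP : Rec R (fun p : α × M => P p.1 p.2)) : Rec R (fun a => ∀ i < n a, P a i) := by
  have h := Rec.not (Rec.bex hn (P := fun a i => ¬ P a i) (Rec.not hP))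
  have e : (fun a => ¬ ∃ i < n a, ¬ P a i) = fun a => ∀ i < n a, P a i := by
    funext a
    apply propext
    push Not
    rfl
  rwa [e] at h

@[fun_prop] theorem Rec.bex_le {P : α → M → Prop} {n : α → M} (hn : Rec R n)
    (hP : Rec R (fun p : α × M => P p.1 p.2)) : Rec R (fun a => ∃ i ≤ n a, P a i) := by
  have h := Rec.bex (n := fun a => n a + 1) (Rec.add hn (Rec.const 1)) hP
  simpa only [lt_succ] using h

@[fun_prop] theorem Rec.ball_le {P : α → M → Prop} {n : α → M} (hn : Rec R n)
    (hP : Rec R (fun p : α × M => P p.1 p.2)) : Rec R (fun a => ∀ i ≤ n a, P a i) := by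
  have h := Rec.ball (n := fun a => n a + 1) (Rec.add hn (Rec.const 1)) hP
  simpa only [lt_succ] using h

/-! ### Subtraction and division -/

@[fun_prop] theorem Rec.sub {f g : α → M} (hf : Rec R f) (hg : Rec R g) :
    Rec R (fun a => f a - g a) := by
  have hs : ∀ a, ∃ i, f a ≤ g a + i := fun a => ⟨f a, le_add_self⟩
  have hQ : Rec R (fun p : α × M => f p.1 ≤ g p.1 + p.2) := by fun_prop
  have h := Rec.mu_aux (P := fun a i => f a ≤ g a + i) hQ hs
  have e : (fun a => OVW.least (fun i => f a ≤ g a + i)) = fun a => f a - g a := by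
    funext a
    apply least_eq
    · exact tsub_le_iff_left.1 le_rfl
    · intro m hm hc
      exact absurd hm (not_lt.2 (tsub_le_iff_left.2 hc))
  have := h.1
  rwa [e] at this

theorem dv_md_aux {a b : M} (hb : 0 < b) (R : Set (M → M)) [IsWorld R] :
    ∃ q r, r < b ∧ a = b * q + r ∧ q = least (fun q => b = 0 ∨ a < b * (q + 1)) := by
  have hQ : Rec R (fun q : M => b = 0 ∨ a < b * (q + 1)) := by fun_prop
  have hs : ∃ q, b = 0 ∨ a < b * (q + 1) := ⟨a, Or.inr (by
    calc a < a + 1 := lt_succ.2 le_rfl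
      _ = 1 * (a + 1) := (one_mul _).symm
      _ ≤ b * (a + 1) := mul_le_mul_left (one_le_iff.2 (pos_iff.1 hb)) _)⟩
  obtain ⟨h1, h2⟩ := Rec.least_spec hQ hs
  set q := least (fun q => b = 0 ∨ a < b * (q + 1))
  have h3 : a < b * (q + 1) := h1.resolve_left hb.ne'
  have h4 : b * q ≤ a := by
    rcases cases_succ q with h | ⟨q', h⟩
    · rw [h]; simp
    · have := h2 q' (by rw [h]; exact lt_succ.2 le_rfl)
      push Not at this
      rw [h]
      exact this.2
  obtain ⟨r, hr⟩ := le_iff_exists_add.1 h4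
  refine ⟨q, r, ?_, hr, rfl⟩
  rw [hr, mul_add, mul_one] at h3
  exact lt_of_add_lt_add_left h3

theorem dv_eq_least (R : Set (M → M)) [IsWorld R] (a b : M) :
    dv a b = if b = 0 then 0 else least (fun q => b = 0 ∨ a < b * (q + 1)) := by
  by_cases hb : b = 0
  · rw [if_pos hb, hb, dv_zero]
  · rw [if_neg hb]
    obtain ⟨q, r, hr, h, e⟩ := dv_md_aux (a := a) (pos_iff.2 hb) R
    rw [← e]
    exact dv_unique hr h

theorem md_eq (R : Set (M → M)) [IsWorld R] (a b : M) : md a b = a - b * dv a b := by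
  by_cases hb : b = 0
  · rw [hb, dv_zero, md_zero]
    simp
  · obtain ⟨q, r, hr, h, -⟩ := dv_md_aux (a := a) (pos_iff.2 hb) R
    rw [dv_unique hr h, md_unique hr h, h, add_sub_self']

@[fun_prop] theorem Rec.dv {f g : α → M} (hf : Rec R f) (hg : Rec R g) :
    Rec R (fun a => dv (f a) (g a)) := by
  simp only [dv_eq_least R]
  apply Rec.ite
  · fun_prop
  · fun_prop
  · apply Rec.least (P := fun a q => g a = 0 ∨ f a < g a * (q + 1))
    · fun_prop
    · intro a
      by_cases h : g a = 0
      · exact ⟨0, Or.inl h⟩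
      · refine ⟨f a, Or.inr ?_⟩
        calc f a < f a + 1 := lt_succ.2 le_rfl
          _ = 1 * (f a + 1) := (one_mul _).symm
          _ ≤ g a * (f a + 1) := mul_le_mul_left (one_le_iff.2 h) _

@[fun_prop] theorem Rec.md {f g : α → M} (hf : Rec R f) (hg : Rec R g) :
    Rec R (fun a => md (f a) (g a)) := by
  simp only [md_eq R]
  fun_prop

@[fun_prop] theorem Rec.bet {f g : α → M} (hf : Rec R f) (hg : Rec R g) :
    Rec R (fun a => bet (f a) (g a)) := by
  unfold OVW.bet
  fun_prop

end

section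

variable {M : Type} [Arith M] [HasWorld M]

theorem md_lt (a : M) {b : M} (hb : 0 < b) : md a b < b := by
  obtain ⟨R, hR⟩ := HasWorld.ex (M := M)
  obtain ⟨q, r, hr, h, -⟩ := dv_md_aux (a := a) hb R
  rw [md_unique hr h]
  exact hr

theorem dv_add_md (a b : M) : b * dv a b + md a b = a := by
  obtain ⟨R, hR⟩ := HasWorld.ex (M := M)
  by_cases hb : b = 0
  · rw [hb, dv_zero, md_zero]
    simp
  · obtain ⟨q, r, hr, h, -⟩ := dv_md_aux (a := a) (pos_iff.2 hb) R
    rw [md_unique hr h, dv_unique hr h, h]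

theorem mul_dv_le (a b : M) : b * dv a b ≤ a := by
  conv_rhs => rw [← dv_add_md a b]
  exact le_self_add

theorem md_le (a b : M) : md a b ≤ a := by
  conv_rhs => rw [← dv_add_md a b]
  exact le_add_self

theorem lt_mul_dv_succ (a : M) {b : M} (hb : 0 < b) : a < b * (dv a b + 1) := by
  conv_lhs => rw [← dv_add_md a b]
  rw [mul_add, mul_one]
  exact add_lt_add_right (md_lt a hb) _

theorem bet_le (c i : M) : bet c i ≤ c := (md_le _ _).trans (fs_le c)

end

end Pool.Agent.OVW
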