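import Pool.Agent.OVW.A2V
import Pool.Agent.OVW.Lib2
import Pool.Agent.OVW.A3Defs

/-!
# Block A2, module D: bounded predicates are recursive
-/

namespace Pool.Agent.OVW

section

variable {M : Type} [Arith M]

/-- The assignment with the code `c`. -/
noncomputable def asg (c : M) : ℕ → M
  | 0 => fs c
  | n + 1 => asg (sn c) n

theorem asg_pr (x c : M) : asg (pr x c) = push x (asg c) := by
  funext i
  cases i with
  | zero => simp [asg, push]
  | succ n => simp [asg, push]

theorem asg_cde (k : ℕ) : ∀ (v : ℕ → M) (i : ℕ), i < k → asg (cde k v) i = v i := by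
  induction k with
  | zero => intro v i hi; omega
  | succ k ih =>
    intro v i hi
    cases i with
    | zero => simp [asg, cde]
    | succ n =>
      have := ih (fun n => v (n + 1)) n (by omega)
      simp only [cde, asg, sn_pr]
      exact this

variable {R : Set (M → M)} [IsWorld R]

theorem Rec.asg (i : ℕ) : Rec R (fun c : M => asg c i) := by
  induction i with
  | zero => exact Rec.fs Rec.id
  | succ n ih =>
    exact Rec.comp (g := fun c : M => OVW.asg c n) (f := fun c : M => OVW.sn c) ih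
      (Rec.sn Rec.id)

theorem Rec.tm (t : Tm M) : Rec R (fun c : M => t.ev (OVW.asg c)) := by
  induction t with
  | var i => exact Rec.asg i
  | cst c => exact Rec.const c
  | add s t hs ht => exact Rec.add hs ht
  | mul s t hs ht => exact Rec.mul hs ht

theorem rec_mem {X : Set M} (hX : X ∈ SetsOf R) : Rec R (fun a : M => a ∈ X) := by
  have h : Rec R (fun a : M => chi X a = 1) := Rec.eq (β := M) (f := fun a => chi X a) hX
    (Rec.const 1)
  have e : (fun a : M => chi X a = 1) = fun a => a ∈ X := by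
    funext a
    apply propext
    unfold chi
    by_cases ha : a ∈ X
    · simp [ha]
    · simp [ha]
  rwa [e] at h

/-- Bounded predicates are recursive (on codes of assignments). -/
theorem D0.rec' {X : Set M} (hX : X ∈ SetsOf R) {P : (ℕ → M) → Prop} (hP : D0 X P) :
    Rec R (fun c : M => P (asg c)) := by
  induction hP with
  | eq s t => exact Rec.eq (Rec.tm s) (Rec.tm t)
  | lt s t => exact Rec.lt (Rec.tm s) (Rec.tm t)
  | mem t =>
    exact Rec.comp (g := fun a : M => a ∈ X) (rec_mem hX) (Rec.tm t)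
  | not _ ih => exact Rec.not ih
  | and _ _ ih1 ih2 => exact Rec.and ih1 ih2
  | @ball t P _ ih =>
    have h1 : Rec R (fun p : M × M => P (asg (pr p.2 p.1))) :=
      Rec.comp (g := fun c : M => P (asg c)) ih (Rec.pr Rec.snd_ Rec.fst_)
    have h2 : Rec R (fun c : M => ∀ x < t.ev (asg c), P (asg (pr x c))) :=
      Rec.ball (P := fun c x => P (asg (pr x c))) (Rec.tm t) h1
    simp only [asg_pr] at h2
    exact h2

theorem Tm.finite (t : Tm M) : ∃ k, ∀ v w : ℕ → M, (∀ i < k, v i = w i) → t.ev v = t.ev w := by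
  induction t with
  | var i => exact ⟨i + 1, fun v w h => h i (by omega)⟩
  | cst c => exact ⟨0, fun v w _ => rfl⟩
  | add s t hs ht =>
    obtain ⟨k, hk⟩ := hs
    obtain ⟨l, hl⟩ := ht
    refine ⟨max k l, fun v w h => ?_⟩
    simp only [Tm.ev]
    rw [hk v w fun i hi => h i (by omega), hl v w fun i hi => h i (by omega)]
  | mul s t hs ht =>
    obtain ⟨k, hk⟩ := hs
    obtain ⟨l, hl⟩ := ht
    refine ⟨max k l, fun v w h => ?_⟩
    simp only [Tm.ev]
    rw [hk v w fun i hi => h i (by omega), hl v w fun i hi => h i (by omega)]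

/-- A bounded predicate depends on finitely many variables. -/
theorem D0.finite {X : Set M} {P : (ℕ → M) → Prop} (hP : D0 X P) :
    ∃ k, ∀ v w : ℕ → M, (∀ i < k, v i = w i) → (P v ↔ P w) := by
  induction hP with
  | eq s t =>
    obtain ⟨k, hk⟩ := s.finite
    obtain ⟨l, hl⟩ := t.finite
    refine ⟨max k l, fun v w h => ?_⟩
    beta_reduce
    rw [hk v w fun i hi => h i (by omega), hl v w fun i hi => h i (by omega)]
  | lt s t =>
    obtain ⟨k, hk⟩ := s.finite
    obtain ⟨l, hl⟩ := t.finite
    refine ⟨max k l, fun v w h => ?_⟩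
    beta_reduce
    rw [hk v w fun i hi => h i (by omega), hl v w fun i hi => h i (by omega)]
  | mem t =>
    obtain ⟨k, hk⟩ := t.finite
    refine ⟨k, fun v w h => ?_⟩
    beta_reduce
    rw [hk v w h]
  | not _ ih =>
    obtain ⟨k, hk⟩ := ih
    exact ⟨k, fun v w h => not_congr (hk v w h)⟩
  | and _ _ ih1 ih2 =>
    obtain ⟨k, hk⟩ := ih1
    obtain ⟨l, hl⟩ := ih2
    exact ⟨max k l, fun v w h => and_congr (hk v w fun i hi => h i (by omega))
      (hl v w fun i hi => h i (by omega))⟩
  | @ball t P _ ih =>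
    obtain ⟨k, hk⟩ := t.finite
    obtain ⟨l, hl⟩ := ih
    refine ⟨max k l, fun v w h => ?_⟩
    beta_reduce
    rw [hk v w fun i hi => h i (by omega)]
    refine forall_congr' fun x => imp_congr_right fun _ => hl _ _ fun i hi => ?_
    cases i with
    | zero => rfl
    | succ n => exact h n (by omega)

theorem D0.recP {X : Set M} (hX : X ∈ SetsOf R) {P : (ℕ → M) → Prop} (hP : D0 X P) :
    RecP R P := by
  obtain ⟨k, hk⟩ := hP.finite
  refine ⟨k, fun c => enc (¬ P (asg c)), Rec.enc (Rec.not (hP.rec' hX)), fun v => ?_⟩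
  rw [enc_eq_zero, not_not]
  exact hk _ _ fun i hi => (asg_cde k v i hi).symm

theorem chi_mem_gen (X : Set M) : X ∈ SetsOf (GenS X) := by
  have h := Gen.chi (X := X)
  show Gen X (chi X)
  have e : chi X = fun x => open Classical in if x ∈ X then (1 : M) else 0 := by
    funext x
    unfold chi
    rfl
  rw [e]
  exact h

end

/-- Statement D0 of block A3. -/
theorem stmtD0 : StmtD0 := fun _ _ _ hR _ hX _ hP => @D0.recP _ _ _ hR _ hX _ hP

/-- A function with a `Σ₁(X)` graph is generated by `X`. -/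
theorem gen_of_graph {M : Type} [Arith M] {X : Set M} (hI : Ind1 X) {g : M → M}
    (hg : S1 X (fun v => g (v 0) = v 1)) : g ∈ GenS X := by
  have : IsWorld (GenS X) := isWorld_gen hI
  obtain ⟨Q, hQ, h⟩ := hg
  have h1 : Rec (GenS X) (fun c : M => Q (asg c)) := hQ.rec' (chi_mem_gen X)
  obtain ⟨k, hk⟩ := hQ.finite
  have h2 : ∀ a b : M, g a = b ↔ ∃ y, Q (asg (pr y (pr a (pr b 0)))) := by
    intro a b
    have h3 := h (push a (push b (asg 0)))
    simp only [asg_pr]
    exact h3
  have h4 : Rec (GenS X) (fun p : M × M => Q (asg (pr (sn p.2) (pr p.1 (pr (fs p.2) 0))))) :=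
    Rec.comp (g := fun c : M => Q (asg c)) h1 (by fun_prop)
  obtain ⟨hl, hs⟩ := Rec.mu_aux (P := fun a n => Q (asg (pr (sn n) (pr a (pr (fs n) 0))))) h4
    (fun a => by
      obtain ⟨y, hy⟩ := (h2 a (g a)).1 rfl
      exact ⟨pr (g a) y, by rw [sn_pr, fs_pr]; exact hy⟩)
  have h5 : Rec (GenS X) (fun a => fs (least (fun n =>
      Q (asg (pr (sn n) (pr a (pr (fs n) 0))))))) := Rec.fs hl
  have e : (fun a => fs (least (fun n => Q (asg (pr (sn n) (pr a (pr (fs n) 0))))))) = g := by
    funext a
    exact ((h2 a _).2 ⟨_, (hs a).1⟩).symm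
  rw [e] at h5
  exact h5

/-- Module D. -/
theorem stmtD : StmtD := by
  intro M _ X hI
  have : IsWorld (GenS X) := isWorld_gen hI
  exact ⟨fun P hP => hP.recP (chi_mem_gen X), fun g hg => gen_of_graph hI hg,
    fun g hg => A2.graph hI hg⟩

/-! ### Statement S2 -/

/-- `f (F v) = 0` is `Π₁`. -/
theorem stmtS2 : StmtS2 := by
  intro M _ X hI hI2 f hf h0 hs x
  obtain ⟨G, hG, h⟩ := A2.graph hI hf
  -- `f w = 0` iff for all `u, t`, `G (t, w, u)` implies `u = 0`
  have h1 : ∀ w, f w = 0 ↔ ∀ u t, G (push t (push w (push u (fun _ => 0)))) → u = 0 := by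
    intro w
    have h2 : ∀ u, f w = u ↔ ∃ t, G (push t (push w (push u (fun _ => 0)))) := fun u =>
      h (push w (push u (fun _ => 0)))
    constructor
    · rintro hw u t ht
      rw [← hw]
      exact ((h2 u).2 ⟨t, ht⟩).symm
    · intro hw
      obtain ⟨t, ht⟩ := (h2 (f w)).1 rfl
      exact hw _ t ht
  -- the bounded matrix
  let Q : (ℕ → M) → Prop := fun w => ∀ z, z < w 0 → ∀ u, u < w 0 → ∀ t, t < w 0 →
    G (push t (push (pr (w 2) (pr (w 1) z)) (push u (fun _ => 0)))) → u = 0
  have hQ : D0 X Q := by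
    refine D0.ball' (R := fun (w : ℕ → M) z => ∀ u, u < w 0 → ∀ t, t < w 0 →
      G (push t (push (pr (w 2) (pr (w 1) z)) (push u (fun _ => 0)))) → u = 0)
      (A2.IsT.var 0) ?_
    refine D0.ball' (R := fun (w : ℕ → M) u => ∀ t, t < w 1 →
      G (push t (push (pr (w 3) (pr (w 2) (w 0))) (push u (fun _ => 0)))) → u = 0)
      (A2.IsT.var 1) ?_
    refine D0.ball' (R := fun (w : ℕ → M) t =>
      G (push t (push (pr (w 4) (pr (w 3) (w 1))) (push (w 0) (fun _ => 0)))) → w 0 = 0)
      (A2.IsT.var 2) ?_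
    refine D0.imp ?_ (D0.eq' (A2.IsT.var 1) (A2.IsT.cst 0))
    let σ : ℕ → (ℕ → M) → M := fun i => match i with
      | 0 => fun w => w 0
      | 1 => fun w => pr (w 5) (pr (w 4) (w 2))
      | 2 => fun w => w 1
      | _ + 3 => fun _ => 0
    have hσ : ∀ i, A2.IsT (σ i) := by
      intro i
      match i with
      | 0 => exact A2.IsT.var 0
      | 1 => exact (A2.IsT.var 5).pr ((A2.IsT.var 4).pr (A2.IsT.var 2))
      | 2 => exact A2.IsT.var 1
      | n + 3 => exact A2.IsT.cst 0
    refine (hG.subst hσ).of_iff fun w => ?_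
    have : (push (w 0) (push (pr (w (4 + 1)) (pr (w (3 + 1)) (w (1 + 1))))
        (push (w (0 + 1)) fun _ => (0 : M)))) = fun i => σ i w := by
      funext i
      match i with
      | 0 => rfl
      | 1 => rfl
      | 2 => rfl
      | n + 3 => rfl
    rw [this]
  have key : ∀ x, (∃ y, ∀ z, f (pr x (pr y z)) = 0) ↔
      ∃ y, ∀ s, Q (push s (push y (push x (fun _ => 0)))) := by
    intro x
    refine exists_congr fun y => ?_
    constructor
    · intro hy s z _ u _ t _ ht
      exact (h1 _).1 (hy z) u t ht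
    · intro hy z
      rw [h1]
      intro u t ht
      refine hy (z + u + t + 1) z ?_ u ?_ t ?_ ht
      · exact lt_succ.2 (le_self_add.trans le_self_add)
      · exact lt_succ.2 (le_add_self.trans le_self_add)
      · exact lt_succ.2 le_add_self
  rw [key]
  refine hI2 Q hQ (fun _ => 0) ((key 0).1 h0) (fun x hx => ?_) x
  exact (key _).1 (hs x ((key x).2 hx))

end Pool.Agent.OVW
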