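import Pool.Agent.OVW.A2U

/-!
# Block A2, module J: the jump

`J` is the set of the pairs (program, input) with an output. `Σ₂(X)` induction gives `Σ₁(J)`
induction.
-/

namespace Pool.Agent.OVW

section

variable {M : Type} [Arith M]

/-- The jump of `X`. -/
def Jmp (X : Set M) : Set M := {z | ∃ n, Valid X (fs n) ∧ Inr (fs n) (fs z) (sn z) (sn n)}

variable {X : Set M}

/-- The `Σ₁` sets of the World generated by `X` are sections of the jump. -/
theorem jmp_section [IsWorld (GenS X)] {P : M → M → Prop}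
    (hP : Rec (GenS X) (fun p : M × M => P p.1 p.2)) :
    ∃ d, ∀ a, (∃ n, P a n) ↔ pr d a ∈ Jmp X := by
  have hf : Gen X (fun z : M => (enc (¬ P (fs z) (sn z)) : M)) :=
    Rec.enc (Rec.not (Rec.comp2 (h := P) hP (Rec.fs Rec.id) (Rec.sn Rec.id)))
  obtain ⟨e, he⟩ := hf.rep
  have h0 : ∀ a n, (enc (¬ P (fs (pr a n)) (sn (pr a n))) : M) = 0 ↔ P a n := by
    intro a n
    rw [enc_eq_zero, not_not, fs_pr, sn_pr]
  refine ⟨pr 10 e, fun a => ?_⟩
  constructor
  · intro hn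
    have h1 : Rec (GenS X) (fun n => P a n) :=
      Rec.comp2 (h := P) hP (Rec.const a) Rec.id
    obtain ⟨n, hn1, hn2⟩ := Rec.lnp h1 hn
    obtain ⟨c, hc, hin⟩ := he.record_mu (R := GenS X) (chi_mem_gen X) (fun f hf => hf) (w := a)
      (n := n) ((h0 a n).2 hn1) (fun m hm h => hn2 m hm ((h0 a m).1 h))
    refine ⟨pr c n, ?_⟩
    rw [fs_pr, sn_pr, fs_pr, sn_pr]
    exact ⟨hc, hin⟩
  · rintro ⟨n, hc, hin⟩
    rw [fs_pr, sn_pr] at hin
    have := valid_iff.1 hc _ _ _ hin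
    unfold Just at this
    simp only [fs_pr, sn_pr] at this
    norm_num at this
    exact ⟨sn n, (h0 _ _).1 (he.sound _ hc _ _ this.2).symm⟩

theorem jumpIn_jmp [IsWorld (GenS X)] : JumpIn (GenS X) (GenS (Jmp X)) := by
  intro f hf
  have hP : Rec (GenS X) (fun p : M × M => f (pr p.1 p.2) = 0) := by
    have hf' : Rec (GenS X) f := hf
    fun_prop
  obtain ⟨d, hd⟩ := jmp_section (P := fun a n => f (pr a n) = 0) hP
  have h := Gen.comp (Gen.chi (X := Jmp X)) (Gen.pair (Gen.const d) Gen.id)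
  have e : (fun a => open Classical in if ∃ n, f (pr a n) = 0 then (1 : M) else 0) =
      fun x => open Classical in if pr d x ∈ Jmp X then (1 : M) else 0 := by
    funext x
    rw [hd x]
  show Gen (Jmp X) (fun a => open Classical in if ∃ n, f (pr a n) = 0 then (1 : M) else 0)
  rw [e]
  exact h

theorem gen_le_jmp [IsWorld (GenS X)] {f : M → M} (hf : Gen X f) : Gen (Jmp X) f := by
  induction hf with
  | const c => exact Gen.const c
  | id => exact Gen.id
  | fs => exact Gen.fs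
  | sn => exact Gen.sn
  | add => exact Gen.add
  | mul => exact Gen.mul
  | lt => exact Gen.lt
  | chi =>
    have h1 : Rec (GenS X) (fun a : M => a ∈ X) := rec_mem (chi_mem_gen X)
    obtain ⟨d, hd⟩ := jmp_section (X := X) (P := fun a _ => a ∈ X) (Rec.comp h1 Rec.fst_)
    have h := Gen.comp (Gen.chi (X := Jmp X)) (Gen.pair (Gen.const d) Gen.id)
    have e : (fun x => open Classical in if pr d x ∈ Jmp X then (1 : M) else 0) =
        fun x => open Classical in if x ∈ X then (1 : M) else 0 := by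
      funext x
      have : pr d x ∈ Jmp X ↔ x ∈ X := by
        rw [← hd]
        exact ⟨fun ⟨_, h⟩ => h, fun h => ⟨0, h⟩⟩
      rw [this]
    rw [← e]
    exact h
  | comp _ _ ih1 ih2 => exact Gen.comp ih1 ih2
  | pair _ _ ih1 ih2 => exact Gen.pair ih1 ih2
  | mu _ h ih => exact Gen.mu ih h

end

/-! ### `Σ₂` predicates -/

section

variable {M : Type} [Arith M] {R : Set (M → M)} [IsWorld R]
variable {α β : Type} [Cod M α] [Cod M β]

/-- `Σ₂` predicates of a World. -/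
def T2 (R : Set (M → M)) (P : α → Prop) : Prop :=
  ∃ Q : α → M → M → Prop, Rec R (fun p : α × M × M => Q p.1 p.2.1 p.2.2) ∧
    ∀ x, P x ↔ ∃ y, ∀ z, Q x y z

theorem Rec.comp3 {γ δ ε : Type} [Cod M γ] [Cod M δ] [Cod M ε] {h : β → γ → δ → ε}
    {f : α → β} {g : α → γ} {k : α → δ}
    (hh : Rec R (fun p : β × γ × δ => h p.1 p.2.1 p.2.2)) (hf : Rec R f) (hg : Rec R g)
    (hk : Rec R k) : Rec R (fun a => h (f a) (g a) (k a)) :=
  Rec.comp (g := fun p : β × γ × δ => h p.1 p.2.1 p.2.2) hh (Rec.prodMk hf (Rec.prodMk hg hk))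

omit [IsWorld R] in
theorem T2.congr {P P' : α → Prop} (h : T2 R P) (e : ∀ x, P' x ↔ P x) : T2 R P' := by
  obtain ⟨Q, hQ, h⟩ := h
  exact ⟨Q, hQ, fun x => (e x).trans (h x)⟩

theorem T2.comp {P : β → Prop} {f : α → β} (h : T2 R P) (hf : Rec R f) :
    T2 R (fun a => P (f a)) := by
  obtain ⟨Q, hQ, h⟩ := h
  refine ⟨fun a y z => Q (f a) y z, ?_, fun a => h (f a)⟩
  exact Rec.comp3 (h := Q) hQ (by fun_prop) (by fun_prop) (by fun_prop)

theorem T2.rec {P : α → Prop} (h : Rec R P) : T2 R P := by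
  refine ⟨fun a _ _ => P a, Rec.comp h Rec.fst_, fun a => ?_⟩
  exact ⟨fun h => ⟨0, fun _ => h⟩, fun ⟨_, h⟩ => h 0⟩

theorem T2.pi {P : α → M → Prop} (h : Rec R (fun p : α × M => P p.1 p.2)) :
    T2 R (fun a => ∀ z, P a z) := by
  refine ⟨fun a _ z => P a z, ?_, fun a => ?_⟩
  · exact Rec.comp2 (h := P) h (by fun_prop) (by fun_prop)
  · exact ⟨fun h => ⟨0, h⟩, fun ⟨_, h⟩ => h⟩

theorem T2.and {P P' : α → Prop} (h : T2 R P) (h' : T2 R P') :
    T2 R (fun a => P a ∧ P' a) := by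
  obtain ⟨Q, hQ, h⟩ := h
  obtain ⟨Q', hQ', h'⟩ := h'
  refine ⟨fun a y z => Q a (fs y) z ∧ Q' a (sn y) z, ?_, fun a => ?_⟩
  · exact Rec.and (Rec.comp3 (h := Q) hQ (by fun_prop) (by fun_prop) (by fun_prop))
      (Rec.comp3 (h := Q') hQ' (by fun_prop) (by fun_prop) (by fun_prop))
  · beta_reduce
    rw [h, h']
    constructor
    · rintro ⟨⟨y, hy⟩, ⟨y', hy'⟩⟩
      refine ⟨pr y y', fun z => ?_⟩
      rw [fs_pr, sn_pr]
      exact ⟨hy z, hy' z⟩
    · rintro ⟨y, hy⟩
      exact ⟨⟨_, fun z => (hy z).1⟩, ⟨_, fun z => (hy z).2⟩⟩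

theorem T2.ex {P : α → M → Prop} (h : T2 R (fun p : α × M => P p.1 p.2)) :
    T2 R (fun a => ∃ n, P a n) := by
  obtain ⟨Q, hQ, h⟩ := h
  refine ⟨fun a y z => Q (a, fs y) (sn y) z, ?_, fun a => ?_⟩
  · exact Rec.comp3 (h := Q) hQ (by fun_prop) (by fun_prop) (by fun_prop)
  · constructor
    · rintro ⟨n, hn⟩
      obtain ⟨y, hy⟩ := (h (a, n)).1 hn
      refine ⟨pr n y, fun z => ?_⟩
      beta_reduce
      rw [fs_pr, sn_pr]
      exact hy z
    · rintro ⟨y, hy⟩
      exact ⟨fs y, (h (a, fs y)).2 ⟨sn y, hy⟩⟩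

theorem T2.or {P P' : α → Prop} (h : T2 R P) (h' : T2 R P') :
    T2 R (fun a => P a ∨ P' a) := by
  obtain ⟨Q, hQ, h⟩ := h
  obtain ⟨Q', hQ', h'⟩ := h'
  refine ⟨fun a y z => (fs y = 0 ∧ Q a (sn y) z) ∨ (¬ fs y = 0 ∧ Q' a (sn y) z), ?_,
    fun a => ?_⟩
  · exact Rec.or
      (Rec.and (by fun_prop) (Rec.comp3 (h := Q) hQ (by fun_prop) (by fun_prop) (by fun_prop)))
      (Rec.and (by fun_prop) (Rec.comp3 (h := Q') hQ' (by fun_prop) (by fun_prop) (by fun_prop)))
  · beta_reduce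
    rw [h, h']
    constructor
    · rintro (⟨y, hy⟩ | ⟨y, hy⟩)
      · refine ⟨pr 0 y, fun z => Or.inl ?_⟩
        rw [fs_pr, sn_pr]
        exact ⟨rfl, hy z⟩
      · refine ⟨pr 1 y, fun z => Or.inr ?_⟩
        rw [fs_pr, sn_pr]
        exact ⟨one_ne_zero, hy z⟩
    · rintro ⟨y, hy⟩
      by_cases h0 : fs y = 0
      · refine Or.inl ⟨sn y, fun z => ?_⟩
        rcases hy z with h1 | h1
        · exact h1.2
        · exact absurd h0 h1.1
      · refine Or.inr ⟨sn y, fun z => ?_⟩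
        rcases hy z with h1 | h1
        · exact absurd h1.1 h0
        · exact h1.2

/-- `Σ₁` collection. -/
theorem coll_s1 {P : M → M → Prop} (hP : Rec R (fun p : M × M => P p.1 p.2)) {b : M}
    (h : ∀ y < b, ∃ z, P y z) : ∃ w, ∀ y < b, ∃ z < w, P y z := by
  have key : ∀ n : M, ∃ w, ∀ y < n, y < b → ∃ z < w, P y z := by
    refine ind_s1 (R := R) (P := fun n w => ∀ y < n, y < b → ∃ z < w, P y z) ?_
      ⟨0, fun y hy => absurd hy (not_lt.2 zero_le)⟩ ?_
    · apply Rec.ball (by fun_prop)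
      apply Rec.imp (by fun_prop)
      apply Rec.bex (by fun_prop)
      exact Rec.comp2 (h := P) hP (by fun_prop) (by fun_prop)
    · rintro n ⟨w, hw⟩
      by_cases hn : n < b
      · obtain ⟨z, hz⟩ := h n hn
        refine ⟨w + z + 1, fun y hy hyb => ?_⟩
        rcases (lt_succ.1 hy).lt_or_eq with h1 | h1
        · obtain ⟨z', hz', hp⟩ := hw y h1 hyb
          exact ⟨z', hz'.trans_le (le_self_add.trans le_self_add), hp⟩
        · subst h1
          exact ⟨z, lt_succ.2 le_add_self, hz⟩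
      · refine ⟨w, fun y hy hyb => ?_⟩
        rcases (lt_succ.1 hy).lt_or_eq with h1 | h1
        · exact hw y h1 hyb
        · subst h1
          exact absurd hyb hn
  obtain ⟨w, hw⟩ := key b
  exact ⟨w, fun y hy => hw y hy hy⟩

/-- `Σ₂` induction for predicates. -/
theorem Sig2.ind (hS : Sig2 R) {P : M → Prop} (hP : T2 R P) (h0 : P 0)
    (hs : ∀ x, P x → P (x + 1)) : ∀ x, P x := by
  obtain ⟨Q, hQ, h⟩ := hP
  have hf : Rec R (fun m : M => (enc (¬ Q (fs m) (fs (sn m)) (sn (sn m))) : M)) :=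
    Rec.enc (Rec.not (Rec.comp3 (h := Q) hQ (by fun_prop) (by fun_prop) (by fun_prop)))
  have key : ∀ x, (∃ y, ∀ z, (enc (¬ Q (fs (pr x (pr y z))) (fs (sn (pr x (pr y z))))
      (sn (sn (pr x (pr y z))))) : M) = 0) ↔ P x := by
    intro x
    simp only [enc_eq_zero, not_not, fs_pr, sn_pr]
    exact (h x).symm
  intro x
  rw [← key]
  refine hS _ hf ((key 0).2 h0) (fun x hx => ?_) x
  exact (key _).2 (hs x ((key x).1 hx))

/-- Bounded quantifiers over `Σ₂` predicates. -/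
theorem T2.ball (hS : Sig2 R) {P : α → M → Prop} {t : α → M} (ht : Rec R t)
    (h : T2 R (fun p : α × M => P p.1 p.2)) : T2 R (fun a => ∀ i < t a, P a i) := by
  obtain ⟨Q, hQ, h⟩ := h
  refine ⟨fun a b w => ∀ i < t a, ∃ y < b, ∀ z < w, Q (a, i) y z, ?_, fun a => ?_⟩
  · apply Rec.ball (by fun_prop)
    apply Rec.bex (by fun_prop)
    apply Rec.ball (by fun_prop)
    exact Rec.comp3 (h := Q) hQ (by fun_prop) (by fun_prop) (by fun_prop)
  · constructor
    · intro ha
      have key : ∀ n : M, ∃ b, ∀ w, ∀ i < n, i < t a → ∃ y < b, ∀ z < w, Q (a, i) y z := by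
        refine hS.ind (P := fun n => ∃ b, ∀ w, ∀ i < n, i < t a →
          ∃ y < b, ∀ z < w, Q (a, i) y z) ?_ ?_ ?_
        · refine ⟨fun n b w => ∀ i < n, i < t a → ∃ y < b, ∀ z < w, Q (a, i) y z, ?_,
            fun n => Iff.rfl⟩
          apply Rec.ball (by fun_prop)
          apply Rec.imp (by fun_prop)
          apply Rec.bex (by fun_prop)
          apply Rec.ball (by fun_prop)
          exact Rec.comp3 (h := Q) hQ (by fun_prop) (by fun_prop) (by fun_prop)
        · exact ⟨0, fun w i hi => absurd hi (not_lt.2 zero_le)⟩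
        · rintro n ⟨b, hb⟩
          by_cases hn : n < t a
          · obtain ⟨y, hy⟩ := (h (a, n)).1 (ha n hn)
            refine ⟨b + y + 1, fun w i hi hia => ?_⟩
            rcases (lt_succ.1 hi).lt_or_eq with h1 | h1
            · obtain ⟨y', hy', hp⟩ := hb w i h1 hia
              exact ⟨y', hy'.trans_le (le_self_add.trans le_self_add), hp⟩
            · subst h1
              exact ⟨y, lt_succ.2 le_add_self, fun z _ => hy z⟩
          · refine ⟨b, fun w i hi hia => ?_⟩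
            rcases (lt_succ.1 hi).lt_or_eq with h1 | h1
            · exact hb w i h1 hia
            · subst h1
              exact absurd hia hn
      obtain ⟨b, hb⟩ := key (t a)
      exact ⟨b, fun w i hi => hb w i hi hi⟩
    · rintro ⟨b, hb⟩ i hi
      refine (h (a, i)).2 ?_
      by_contra hc
      push Not at hc
      have h1 : Rec R (fun p : M × M => ¬ Q (a, i) p.1 p.2) := by
        apply Rec.not
        exact Rec.comp3 (h := Q) hQ (by fun_prop) (by fun_prop) (by fun_prop)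
      obtain ⟨w, hw⟩ := coll_s1 (P := fun y z => ¬ Q (a, i) y z) h1 (b := b) fun y _ => hc y
      obtain ⟨y, hy, hyz⟩ := hb w i hi
      obtain ⟨z, hz, hq⟩ := hw y hy
      exact hq (hyz z hz)

/-- `Δ₂` predicates of a World. -/
def D2 (R : Set (M → M)) (P : α → Prop) : Prop := T2 R P ∧ T2 R (fun a => ¬ P a)

theorem D2.rec {P : α → Prop} (h : Rec R P) : D2 R P := ⟨T2.rec h, T2.rec (Rec.not h)⟩

omit [IsWorld R] in
theorem D2.not {P : α → Prop} (h : D2 R P) : D2 R (fun a => ¬ P a) :=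
  ⟨h.2, h.1.congr fun _ => not_not⟩

theorem D2.and {P P' : α → Prop} (h : D2 R P) (h' : D2 R P') : D2 R (fun a => P a ∧ P' a) :=
  ⟨h.1.and h'.1, (h.2.or h'.2).congr fun _ => not_and_or⟩

theorem D2.comp {P : β → Prop} {f : α → β} (h : D2 R P) (hf : Rec R f) :
    D2 R (fun a => P (f a)) := ⟨h.1.comp hf, h.2.comp hf⟩

theorem D2.ball (hS : Sig2 R) {P : α → M → Prop} {t : α → M} (ht : Rec R t)
    (h : D2 R (fun p : α × M => P p.1 p.2)) : D2 R (fun a => ∀ i < t a, P a i) := by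
  refine ⟨h.1.ball hS ht, ?_⟩
  have h1 : T2 R (fun p : α × M => p.2 < t p.1 ∧ ¬ P p.1 p.2) :=
    T2.and (T2.rec (by fun_prop)) h.2
  refine (T2.ex (P := fun a i => i < t a ∧ ¬ P a i) h1).congr fun a => ?_
  push Not
  rfl

/-- The jump is `Δ₂`. -/
theorem D2.jmp {X : Set M} (hX : X ∈ SetsOf R) : D2 R (fun z : M => z ∈ Jmp X) := by
  have h1 : Rec R (fun p : M × M => Valid X (OVW.fs p.2) ∧
      Inr (OVW.fs p.2) (OVW.fs p.1) (OVW.sn p.1) (OVW.sn p.2)) := by
    apply Rec.and (Rec.valid hX (by fun_prop))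
    fun_prop
  constructor
  · exact T2.ex (P := fun z n => Valid X (OVW.fs n) ∧
      Inr (OVW.fs n) (OVW.fs z) (OVW.sn z) (OVW.sn n)) (T2.rec h1)
  · refine (T2.pi (P := fun z n => ¬ (Valid X (OVW.fs n) ∧
      Inr (OVW.fs n) (OVW.fs z) (OVW.sn z) (OVW.sn n))) (Rec.not h1)).congr fun z => ?_
    exact not_exists

/-- Bounded predicates of the jump are `Δ₂`. -/
theorem D0.jmp {X : Set M} (hX : X ∈ SetsOf R) (hS : Sig2 R) {P : (ℕ → M) → Prop}
    (hP : D0 (Jmp X) P) : D2 R (fun c : M => P (asg c)) := by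
  induction hP with
  | eq s t => exact D2.rec (Rec.eq (Rec.tm s) (Rec.tm t))
  | lt s t => exact D2.rec (Rec.lt (Rec.tm s) (Rec.tm t))
  | mem t => exact D2.comp (P := fun z : M => z ∈ Jmp X) (D2.jmp hX) (Rec.tm t)
  | not _ ih => exact D2.not ih
  | and _ _ ih1 ih2 => exact D2.and ih1 ih2
  | @ball t P _ ih =>
    have h1 : D2 R (fun p : M × M => P (asg (pr p.2 p.1))) :=
      D2.comp (P := fun c : M => P (asg c)) ih (Rec.pr Rec.snd_ Rec.fst_)
    have h2 : D2 R (fun c : M => ∀ x < t.ev (asg c), P (asg (pr x c))) :=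
      D2.ball hS (P := fun c x => P (asg (pr x c))) (Rec.tm t) h1
    simp only [asg_pr] at h2
    exact h2

end

/-- `Σ₁` induction for the jump. -/
theorem ind1_jmp {M : Type} [Arith M] {X : Set M} [IsWorld (GenS X)] (hS : Sig2 (GenS X)) :
    Ind1 (Jmp X) := by
  intro Q hQ v h0 hs
  obtain ⟨k, hk⟩ := hQ.finite
  have h1 := (hQ.jmp (R := GenS X) (chi_mem_gen X) hS).1
  have h2 : T2 (GenS X) (fun x : M => ∃ y, Q (asg (pr y (pr x (cde k v))))) :=
    T2.ex (P := fun x y => Q (asg (pr y (pr x (cde k v)))))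
      (T2.comp (P := fun c : M => Q (asg c)) h1 (by fun_prop))
  have key : ∀ x, (∃ y, Q (asg (pr y (pr x (cde k v))))) ↔ ∃ y, Q (push y (push x v)) := by
    intro x
    refine exists_congr fun y => ?_
    rw [asg_pr, asg_pr]
    refine hk _ _ fun i hi => ?_
    match i with
    | 0 => rfl
    | 1 => rfl
    | n + 2 => exact asg_cde k v n (by omega)
  intro x
  rw [← key]
  exact hS.ind h2 ((key 0).2 h0) (fun x hx => (key _).2 (hs x ((key x).1 hx))) x

/-- Module J. -/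
theorem stmtJ : StmtJ := by
  intro M _ X hI hI2
  have : IsWorld (GenS X) := isWorld_gen hI
  exact ⟨Jmp X, ind1_jmp (stmtS2 M X hI hI2), fun f hf => gen_le_jmp hf, jumpIn_jmp⟩

end Pool.Agent.OVW
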