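import Pool.Agent.OVW.A2D

/-!
# Block A2, module U: a universal function

A record is a finite sequence of facts (program, input, output). It is valid if every fact is
justified by facts of the record about smaller programs.
-/

namespace Pool.Agent.OVW

section

variable {M : Type} [Arith M]

/-- The record `c` contains the fact that the program `e` has the output `v` on the input `w`. -/
def Inr (c e w v : M) : Prop := ∃ j < fs c, bet (sn c) j = pr e (pr w v)

/-- The fact `(e, w, v)` is justified by the record `c`. -/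
def Just (X : Set M) (c e w v : M) : Prop :=
  (fs e = 0 ∧ v = sn e) ∨ (fs e = 1 ∧ v = w) ∨ (fs e = 2 ∧ v = fs w) ∨ (fs e = 3 ∧ v = sn w) ∨
  (fs e = 4 ∧ v = fs w + sn w) ∨ (fs e = 5 ∧ v = fs w * sn w) ∨
  (fs e = 6 ∧ fs w < sn w ∧ v = 1) ∨ (fs e = 6 ∧ ¬ fs w < sn w ∧ v = 0) ∨
  (fs e = 7 ∧ w ∈ X ∧ v = 1) ∨ (fs e = 7 ∧ ¬ w ∈ X ∧ v = 0) ∨
  (fs e = 8 ∧ ∃ u ≤ c, Inr c (sn (sn e)) w u ∧ Inr c (fs (sn e)) u v) ∨
  (fs e = 9 ∧ ∃ u ≤ c, ∃ t ≤ c, Inr c (fs (sn e)) w u ∧ Inr c (sn (sn e)) w t ∧ v = pr u t) ∨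
  (fs e = 10 ∧ (∀ m < v, ∃ u ≤ c, u ≠ 0 ∧ Inr c (sn e) (pr w m) u) ∧ Inr c (sn e) (pr w v) 0)

/-- The record `c` is valid. -/
def Valid (X : Set M) (c : M) : Prop :=
  ∀ j < fs c, bet (sn c) j = pr (fs (bet (sn c) j)) (pr (fs (sn (bet (sn c) j)))
    (sn (sn (bet (sn c) j)))) →
    Just X c (fs (bet (sn c) j)) (fs (sn (bet (sn c) j))) (sn (sn (bet (sn c) j)))

theorem valid_iff {X : Set M} {c : M} :
    Valid X c ↔ ∀ e w v, Inr c e w v → Just X c e w v := by
  constructor
  · rintro h e w v ⟨j, hj, hb⟩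
    have := h j hj
    rw [hb] at this
    simp only [fs_pr, sn_pr] at this
    exact this trivial
  · intro h j hj hb
    exact h _ _ _ ⟨j, hj, hb⟩

/-- Programs and the functions they compute. -/
inductive Rep (X : Set M) : M → (M → M) → Prop
  | const (c : M) : Rep X (pr 0 c) (fun _ => c)
  | id : Rep X (pr 1 0) (fun x => x)
  | fs : Rep X (pr 2 0) (fun x => fs x)
  | sn : Rep X (pr 3 0) (fun x => sn x)
  | add : Rep X (pr 4 0) (fun x => OVW.fs x + OVW.sn x)
  | mul : Rep X (pr 5 0) (fun x => OVW.fs x * OVW.sn x)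
  | lt : Rep X (pr 6 0) (fun x => open Classical in if OVW.fs x < OVW.sn x then (1 : M) else 0)
  | chi : Rep X (pr 7 0) (fun x => open Classical in if x ∈ X then (1 : M) else 0)
  | comp {e e' : M} {f g : M → M} : Rep X e f → Rep X e' g →
      Rep X (pr 8 (pr e e')) (fun x => f (g x))
  | pair {e e' : M} {f g : M → M} : Rep X e f → Rep X e' g →
      Rep X (pr 9 (pr e e')) (fun x => pr (f x) (g x))
  | mu {e : M} {f g : M → M} : Rep X e f →
      (∀ a, f (pr a (g a)) = 0 ∧ ∀ m < g a, f (pr a m) ≠ 0) → Rep X (pr 10 e) g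

theorem Rep.gen {X : Set M} {e : M} {f : M → M} (h : Rep X e f) : Gen X f := by
  induction h with
  | const c => exact Gen.const c
  | id => exact Gen.id
  | fs => exact Gen.fs
  | sn => exact Gen.sn
  | add => exact Gen.add
  | mul => exact Gen.mul
  | lt => exact Gen.lt
  | chi => exact Gen.chi
  | comp _ _ ih1 ih2 => exact Gen.comp ih1 ih2
  | pair _ _ ih1 ih2 => exact Gen.pair ih1 ih2
  | mu _ h ih => exact Gen.mu ih h

theorem Gen.rep {X : Set M} {f : M → M} (h : Gen X f) : ∃ e, Rep X e f := by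
  induction h with
  | const c => exact ⟨_, Rep.const c⟩
  | id => exact ⟨_, Rep.id⟩
  | fs => exact ⟨_, Rep.fs⟩
  | sn => exact ⟨_, Rep.sn⟩
  | add => exact ⟨_, Rep.add⟩
  | mul => exact ⟨_, Rep.mul⟩
  | lt => exact ⟨_, Rep.lt⟩
  | chi => exact ⟨_, Rep.chi⟩
  | comp _ _ ih1 ih2 =>
    obtain ⟨e, he⟩ := ih1
    obtain ⟨e', he'⟩ := ih2
    exact ⟨_, Rep.comp he he'⟩
  | pair _ _ ih1 ih2 =>
    obtain ⟨e, he⟩ := ih1
    obtain ⟨e', he'⟩ := ih2
    exact ⟨_, Rep.pair he he'⟩
  | mu _ h ih =>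
    obtain ⟨e, he⟩ := ih
    exact ⟨_, Rep.mu he h⟩

/-- A valid record is correct. -/
theorem Rep.sound {X : Set M} {e : M} {f : M → M} (h : Rep X e f) :
    ∀ c, Valid X c → ∀ w v, Inr c e w v → v = f w := by
  induction h with
  | const c =>
    intro r hr w v hin
    have := valid_iff.1 hr _ _ _ hin
    unfold Just at this
    simp only [fs_pr, sn_pr] at this
    norm_num at this
    exact this
  | id =>
    intro r hr w v hin
    have := valid_iff.1 hr _ _ _ hin
    unfold Just at this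
    simp only [fs_pr, sn_pr] at this
    norm_num at this
    exact this
  | fs =>
    intro r hr w v hin
    have := valid_iff.1 hr _ _ _ hin
    unfold Just at this
    simp only [fs_pr, sn_pr] at this
    norm_num at this
    exact this
  | sn =>
    intro r hr w v hin
    have := valid_iff.1 hr _ _ _ hin
    unfold Just at this
    simp only [fs_pr, sn_pr] at this
    norm_num at this
    exact this
  | add =>
    intro r hr w v hin
    have := valid_iff.1 hr _ _ _ hin
    unfold Just at this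
    simp only [fs_pr, sn_pr] at this
    norm_num at this
    exact this
  | mul =>
    intro r hr w v hin
    have := valid_iff.1 hr _ _ _ hin
    unfold Just at this
    simp only [fs_pr, sn_pr] at this
    norm_num at this
    exact this
  | lt =>
    intro r hr w v hin
    have := valid_iff.1 hr _ _ _ hin
    unfold Just at this
    simp only [fs_pr, sn_pr] at this
    norm_num at this
    beta_reduce
    by_cases hlt : OVW.fs w < OVW.sn w
    · rcases this with h | h
      · rw [if_pos hlt]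
        exact h.2
      · exact absurd hlt (not_lt.2 h.1)
    · rcases this with h | h
      · exact absurd h.1 hlt
      · rw [if_neg hlt]
        exact h.2
  | chi =>
    intro r hr w v hin
    have := valid_iff.1 hr _ _ _ hin
    unfold Just at this
    simp only [fs_pr, sn_pr] at this
    norm_num at this
    beta_reduce
    by_cases hx : w ∈ X
    · rcases this with h | h
      · rw [if_pos hx]
        exact h.2
      · exact absurd hx h.1
    · rcases this with h | h
      · exact absurd h.1 hx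
      · rw [if_neg hx]
        exact h.2
  | comp _ _ ih1 ih2 =>
    intro r hr w v hin
    have := valid_iff.1 hr _ _ _ hin
    unfold Just at this
    simp only [fs_pr, sn_pr] at this
    norm_num at this
    obtain ⟨u, _, h1, h2⟩ := this
    rw [ih1 r hr _ _ h2, ih2 r hr _ _ h1]
  | pair _ _ ih1 ih2 =>
    intro r hr w v hin
    have := valid_iff.1 hr _ _ _ hin
    unfold Just at this
    simp only [fs_pr, sn_pr] at this
    norm_num at this
    obtain ⟨u, _, t, _, h1, h2, h3⟩ := this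
    rw [h3, ih1 r hr _ _ h1, ih2 r hr _ _ h2]
  | @mu e f g _ hg ih =>
    intro r hr w v hin
    have := valid_iff.1 hr _ _ _ hin
    unfold Just at this
    simp only [fs_pr, sn_pr] at this
    norm_num at this
    obtain ⟨h1, h2⟩ := this
    have h3 := ih r hr _ _ h2
    obtain ⟨h4, h5⟩ := hg w
    rcases lt_trichotomy v (g w) with h | h | h
    · exact absurd h3.symm (h5 v h)
    · exact h
    · obtain ⟨u, _, hu0, hu⟩ := h1 _ h
      have := ih r hr _ _ hu
      exact absurd (this.trans h4) hu0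


end

/-! ### Construction of records -/

section

variable {M : Type} [Arith M] {R : Set (M → M)} [IsWorld R]

theorem hasWorld_of (R : Set (M → M)) [IsWorld R] : HasWorld M := ⟨R, inferInstance⟩

/-- `Σ₁` induction. -/
theorem ind_s1 {P : M → M → Prop} (hP : Rec R (fun p : M × M => P p.1 p.2))
    (h0 : ∃ n, P 0 n) (hs : ∀ x, (∃ n, P x n) → ∃ n, P (x + 1) n) : ∀ x, ∃ n, P x n := by
  have hf : Rec R (fun z : M => (enc (¬ P (fs z) (sn z)) : M)) :=
    Rec.enc (Rec.not (Rec.comp2 (h := P) hP (Rec.fs Rec.id) (Rec.sn Rec.id)))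
  have key : ∀ x, (∃ n, (enc (¬ P (fs (pr x n)) (sn (pr x n))) : M) = 0) ↔ ∃ n, P x n := by
    intro x
    simp only [enc_eq_zero, not_not, fs_pr, sn_pr]
  intro x
  rw [← key]
  refine IsWorld.ind _ hf ((key 0).2 h0) (fun x hx => ?_) x
  exact (key _).2 (hs x ((key x).1 hx))

theorem inr_le {c e w v : M} (R : Set (M → M)) [IsWorld R] (h : Inr c e w v) : v ≤ c := by
  have := hasWorld_of R
  obtain ⟨j, _, hb⟩ := h
  calc v ≤ pr w v := le_pr_right _ _
    _ ≤ pr e (pr w v) := le_pr_right _ _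
    _ = bet (sn c) j := hb.symm
    _ ≤ sn c := bet_le _ _
    _ ≤ c := sn_le _

/-- Two records have a union. -/
theorem record_append (R : Set (M → M)) [IsWorld R] (c c' : M) : ∃ d : M,
    (∀ e w v, Inr c e w v → Inr d e w v) ∧ (∀ e w v, Inr c' e w v → Inr d e w v) ∧
    ∀ e w v, Inr d e w v → Inr c e w v ∨ Inr c' e w v := by
  have hf : Rec R (fun j : M => open Classical in
      if j < fs c then bet (sn c) j else bet (sn c') (j - fs c)) := by
    fun_prop
  obtain ⟨b, hb'⟩ := IsWorld.beta _ hf (fs c + fs c')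
  have hb1 : ∀ i < fs c, bet b i = bet (sn c) i := by
    intro i hi
    have := hb' i (hi.trans_le le_self_add)
    simp only [enc_self, dec_self] at this
    exact this.trans (if_pos hi)
  have hb2 : ∀ i < fs c + fs c', ¬ i < fs c → bet b i = bet (sn c') (i - fs c) := by
    intro i hi h
    have := hb' i hi
    simp only [enc_self, dec_self] at this
    exact this.trans (if_neg h)
  refine ⟨pr (fs c + fs c') b, ?_, ?_, ?_⟩
  · rintro e w v ⟨j, hj, h⟩
    refine ⟨j, by rw [fs_pr]; exact hj.trans_le le_self_add, ?_⟩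
    rw [sn_pr, hb1 j hj]
    exact h
  · rintro e w v ⟨j, hj, h⟩
    have h1 : fs c + j < fs c + fs c' := add_lt_add_right hj _
    refine ⟨fs c + j, by rw [fs_pr]; exact h1, ?_⟩
    rw [sn_pr, hb2 _ h1 (not_lt.2 le_self_add), add_sub_self']
    exact h
  · rintro e w v ⟨j, hj, h⟩
    rw [fs_pr] at hj
    rw [sn_pr] at h
    by_cases h1 : j < fs c
    · rw [hb1 j h1] at h
      exact Or.inl ⟨j, h1, h⟩
    · rw [hb2 j hj h1] at h
      refine Or.inr ⟨j - fs c, ?_, h⟩
      rw [not_lt] at h1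
      obtain ⟨i, rfl⟩ := le_iff_exists_add.1 h1
      rw [add_sub_self']
      exact lt_of_add_lt_add_left hj

theorem just_mono {X : Set M} (R : Set (M → M)) [IsWorld R] {c d : M}
    (h : ∀ e w v, Inr c e w v → Inr d e w v) {e w v : M} (hj : Just X c e w v) :
    Just X d e w v := by
  unfold Just at hj ⊢
  rcases hj with h1 | h1 | h1 | h1 | h1 | h1 | h1 | h1 | h1 | h1 | ⟨h0, u, _, h1, h2⟩ |
    ⟨h0, u, _, t, _, h1, h2, h3⟩ | ⟨h0, h1, h2⟩
  · exact Or.inl h1
  · exact Or.inr (Or.inl h1)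
  · exact Or.inr (Or.inr (Or.inl h1))
  · exact Or.inr (Or.inr (Or.inr (Or.inl h1)))
  · exact Or.inr (Or.inr (Or.inr (Or.inr (Or.inl h1))))
  · exact Or.inr (Or.inr (Or.inr (Or.inr (Or.inr (Or.inl h1)))))
  · exact Or.inr (Or.inr (Or.inr (Or.inr (Or.inr (Or.inr (Or.inl h1))))))
  · exact Or.inr (Or.inr (Or.inr (Or.inr (Or.inr (Or.inr (Or.inr (Or.inl h1)))))))
  · exact Or.inr (Or.inr (Or.inr (Or.inr (Or.inr (Or.inr (Or.inr (Or.inr (Or.inl h1))))))))
  · exact Or.inr (Or.inr (Or.inr (Or.inr (Or.inr (Or.inr (Or.inr (Or.inr (Or.inr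
      (Or.inl h1)))))))))
  · exact Or.inr (Or.inr (Or.inr (Or.inr (Or.inr (Or.inr (Or.inr (Or.inr (Or.inr (Or.inr
      (Or.inl ⟨h0, u, inr_le R (h _ _ _ h1), h _ _ _ h1, h _ _ _ h2⟩))))))))))
  · exact Or.inr (Or.inr (Or.inr (Or.inr (Or.inr (Or.inr (Or.inr (Or.inr (Or.inr (Or.inr
      (Or.inr (Or.inl ⟨h0, u, inr_le R (h _ _ _ h1), t, inr_le R (h _ _ _ h2), h _ _ _ h1,
        h _ _ _ h2, h3⟩)))))))))))
  · refine Or.inr (Or.inr (Or.inr (Or.inr (Or.inr (Or.inr (Or.inr (Or.inr (Or.inr (Or.inr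
      (Or.inr (Or.inr ⟨h0, fun m hm => ?_, h _ _ _ h2⟩)))))))))))
    obtain ⟨u, _, hu0, hu⟩ := h1 m hm
    exact ⟨u, inr_le R (h _ _ _ hu), hu0, h _ _ _ hu⟩

/-- The union of two valid records. -/
theorem valid_append {X : Set M} (R : Set (M → M)) [IsWorld R] {c c' : M} (hc : Valid X c)
    (hc' : Valid X c') : ∃ d : M, Valid X d ∧
    (∀ e w v, Inr c e w v → Inr d e w v) ∧ (∀ e w v, Inr c' e w v → Inr d e w v) := by
  obtain ⟨d, h1, h2, h3⟩ := record_append R c c'
  refine ⟨d, valid_iff.2 fun e w v h => ?_, h1, h2⟩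
  rcases h3 e w v h with h | h
  · exact just_mono R h1 (valid_iff.1 hc _ _ _ h)
  · exact just_mono R h2 (valid_iff.1 hc' _ _ _ h)

/-- One more justified fact. -/
theorem valid_insert {X : Set M} (R : Set (M → M)) [IsWorld R] {c e w v : M} (hc : Valid X c)
    (hj : Just X c e w v) : ∃ d : M, Valid X d ∧
    (∀ e w v, Inr c e w v → Inr d e w v) ∧ Inr d e w v := by
  obtain ⟨b, hb⟩ := IsWorld.beta (R := R) _ (IsWorld.const (pr e (pr w v))) 1
  have h0 : Inr (pr 1 b) e w v := ⟨0, by rw [fs_pr]; exact one_pos, by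
    rw [sn_pr, hb 0 one_pos]⟩
  have h1 : ∀ e' w' v', Inr (pr 1 b) e' w' v' → e' = e ∧ w' = w ∧ v' = v := by
    rintro e' w' v' ⟨j, hj, h⟩
    rw [fs_pr] at hj
    rw [sn_pr, hb j hj] at h
    obtain ⟨h2, h3⟩ := pr_inj h
    obtain ⟨h4, h5⟩ := pr_inj h3
    exact ⟨h2.symm, h4.symm, h5.symm⟩
  obtain ⟨d, h2, h3, h4⟩ := record_append R c (pr 1 b)
  refine ⟨d, valid_iff.2 fun e' w' v' h => ?_, h2, h3 _ _ _ h0⟩
  rcases h4 _ _ _ h with h | h
  · exact just_mono R h2 (valid_iff.1 hc _ _ _ h)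
  · obtain ⟨rfl, rfl, rfl⟩ := h1 _ _ _ h
    exact just_mono R h2 hj

theorem valid_zero (X : Set M) : Valid X (0 : M) := by
  intro j hj
  rw [fs_zero] at hj
  exact absurd hj (not_lt.2 zero_le)

end

section

variable {M : Type} [Arith M] {R : Set (M → M)} [IsWorld R] {X : Set M}

theorem Rec.inr {α : Type} [Cod M α] {c e w v : α → M} (hc : Rec R c) (he : Rec R e)
    (hw : Rec R w) (hv : Rec R v) : Rec R (fun a => Inr (c a) (e a) (w a) (v a)) := by
  unfold Inr
  fun_prop

attribute [fun_prop] Rec.inr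

theorem Rec.inX (hX : X ∈ SetsOf R) {α : Type} [Cod M α] {w : α → M} (hw : Rec R w) :
    Rec R (fun a => w a ∈ X) :=
  Rec.comp (g := fun a : M => a ∈ X) (rec_mem hX) hw

theorem Rec.just (hX : X ∈ SetsOf R) {α : Type} [Cod M α] {c e w v : α → M} (hc : Rec R c)
    (he : Rec R e) (hw : Rec R w) (hv : Rec R v) :
    Rec R (fun a => Just X (c a) (e a) (w a) (v a)) := by
  have h := Rec.inX hX hw
  unfold Just
  fun_prop

theorem Rec.valid (hX : X ∈ SetsOf R) {α : Type} [Cod M α] {c : α → M} (hc : Rec R c) :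
    Rec R (fun a => Valid X (c a)) := by
  unfold Valid
  apply Rec.ball (by fun_prop)
  apply Rec.imp (by fun_prop)
  apply Rec.just hX
  all_goals fun_prop

/-- Every computation has a record. -/
theorem Rep.complete (hX : X ∈ SetsOf R) (hR : ∀ f, Gen X f → f ∈ R) {e : M} {f : M → M}
    (h : Rep X e f) : ∀ w, ∃ c, Valid X c ∧ Inr c e w (f w) := by
  have base : ∀ {e w v : M}, Just X 0 e w v → ∃ c, Valid X c ∧ Inr c e w v := by
    intro e w v hj
    obtain ⟨d, h1, _, h3⟩ := valid_insert R (valid_zero X) hj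
    exact ⟨d, h1, h3⟩
  induction h with
  | const c => intro w; exact base (by simp [Just])
  | id => intro w; exact base (by simp [Just])
  | fs => intro w; exact base (by simp [Just])
  | sn => intro w; exact base (by simp [Just])
  | add => intro w; exact base (by simp [Just])
  | mul => intro w; exact base (by simp [Just])
  | lt =>
    intro w
    refine base ?_
    by_cases hlt : OVW.fs w < OVW.sn w
    · simp [Just, hlt]
    · simp only [Just, hlt, fs_pr, if_false]
      norm_num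
  | chi =>
    intro w
    refine base ?_
    by_cases hx : w ∈ X
    · simp [Just, hx]
    · simp [Just, hx]
  | @comp e e' f g _ _ ih1 ih2 =>
    intro w
    obtain ⟨c1, v1, r1⟩ := ih2 w
    obtain ⟨c2, v2, r2⟩ := ih1 (g w)
    obtain ⟨c, v, m1, m2⟩ := valid_append R v1 v2
    obtain ⟨d, h1, _, h3⟩ := valid_insert R (e := pr 8 (pr e e')) (w := w) (v := f (g w)) v (by
      unfold Just
      refine Or.inr (Or.inr (Or.inr (Or.inr (Or.inr (Or.inr (Or.inr (Or.inr (Or.inr (Or.inr
        (Or.inl ⟨by simp, g w, ?_, ?_, ?_⟩))))))))))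
      · exact inr_le R (m1 _ _ _ r1)
      · simpa using m1 _ _ _ r1
      · simpa using m2 _ _ _ r2)
    exact ⟨d, h1, h3⟩
  | @pair e e' f g _ _ ih1 ih2 =>
    intro w
    obtain ⟨c1, v1, r1⟩ := ih1 w
    obtain ⟨c2, v2, r2⟩ := ih2 w
    obtain ⟨c, v, m1, m2⟩ := valid_append R v1 v2
    obtain ⟨d, h1, _, h3⟩ := valid_insert R (e := pr 9 (pr e e')) (w := w)
      (v := pr (f w) (g w)) v (by
      unfold Just
      refine Or.inr (Or.inr (Or.inr (Or.inr (Or.inr (Or.inr (Or.inr (Or.inr (Or.inr (Or.inr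
        (Or.inr (Or.inl ⟨by simp, f w, ?_, g w, ?_, ?_, ?_, rfl⟩)))))))))))
      · exact inr_le R (m1 _ _ _ r1)
      · exact inr_le R (m2 _ _ _ r2)
      · simpa using m1 _ _ _ r1
      · simpa using m2 _ _ _ r2)
    exact ⟨d, h1, h3⟩
  | @mu e f g hrep hg ih =>
    intro w
    have hf : Rec R f := hR f hrep.gen
    have key : ∀ n : M, ∃ c, Valid X c ∧ ∀ m < n, Inr c e (pr w m) (f (pr w m)) := by
      refine ind_s1 (R := R) (P := fun n c => Valid X c ∧ ∀ m < n, Inr c e (pr w m) (f (pr w m)))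
        ?_ ⟨0, valid_zero X, fun m hm => absurd hm (not_lt.2 zero_le)⟩ ?_
      · apply Rec.and (Rec.valid hX Rec.snd_)
        fun_prop
      · rintro n ⟨c, hc, hn⟩
        obtain ⟨c1, v1, r1⟩ := ih (pr w n)
        obtain ⟨d, v, m1, m2⟩ := valid_append R hc v1
        refine ⟨d, v, fun m hm => ?_⟩
        rcases (lt_succ.1 hm).lt_or_eq with h | h
        · exact m1 _ _ _ (hn m h)
        · subst h
          exact m2 _ _ _ r1
    obtain ⟨c, hc, hn⟩ := key (g w + 1)
    obtain ⟨d, h1, _, h3⟩ := valid_insert R (e := pr 10 e) (w := w) (v := g w) hc (by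
      unfold Just
      refine Or.inr (Or.inr (Or.inr (Or.inr (Or.inr (Or.inr (Or.inr (Or.inr (Or.inr (Or.inr
        (Or.inr (Or.inr ⟨by simp, fun m hm => ⟨f (pr w m), ?_, ?_, ?_⟩, ?_⟩)))))))))))
      · exact inr_le R (hn m (hm.trans (lt_succ.2 le_rfl)))
      · exact (hg w).2 m hm
      · simpa using hn m (hm.trans (lt_succ.2 le_rfl))
      · have := hn (g w) (lt_succ.2 le_rfl)
        rw [(hg w).1] at this
        simpa using this)
    exact ⟨d, h1, h3⟩

/-- The first zero of a function has a record. -/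
theorem Rep.record_mu (hX : X ∈ SetsOf R) (hR : ∀ f, Gen X f → f ∈ R) {e : M} {f : M → M}
    (h : Rep X e f) {w n : M} (hn0 : f (pr w n) = 0) (hn1 : ∀ m < n, f (pr w m) ≠ 0) :
    ∃ c, Valid X c ∧ Inr c (pr 10 e) w n := by
  have hf : Rec R f := hR f h.gen
  have key : ∀ n : M, ∃ c, Valid X c ∧ ∀ m < n, Inr c e (pr w m) (f (pr w m)) := by
    refine ind_s1 (R := R) (P := fun n c => Valid X c ∧ ∀ m < n, Inr c e (pr w m) (f (pr w m)))
      ?_ ⟨0, valid_zero X, fun m hm => absurd hm (not_lt.2 zero_le)⟩ ?_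
    · apply Rec.and (Rec.valid hX Rec.snd_)
      fun_prop
    · rintro n ⟨c, hc, hn⟩
      obtain ⟨c1, v1, r1⟩ := h.complete hX hR (pr w n)
      obtain ⟨d, v, m1, m2⟩ := valid_append R hc v1
      refine ⟨d, v, fun m hm => ?_⟩
      rcases (lt_succ.1 hm).lt_or_eq with h | h
      · exact m1 _ _ _ (hn m h)
      · subst h
        exact m2 _ _ _ r1
  obtain ⟨c, hc, hn⟩ := key (n + 1)
  obtain ⟨d, h1, _, h3⟩ := valid_insert R (e := pr 10 e) (w := w) (v := n) hc (by
    unfold Just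
    refine Or.inr (Or.inr (Or.inr (Or.inr (Or.inr (Or.inr (Or.inr (Or.inr (Or.inr (Or.inr
      (Or.inr (Or.inr ⟨by simp, fun m hm => ⟨f (pr w m), ?_, ?_, ?_⟩, ?_⟩)))))))))))
    · exact inr_le R (hn m (hm.trans (lt_succ.2 le_rfl)))
    · exact hn1 m hm
    · simpa using hn m (hm.trans (lt_succ.2 le_rfl))
    · have := hn n (lt_succ.2 le_rfl)
      rw [hn0] at this
      simpa using this)
  exact ⟨d, h1, h3⟩

/-! ### Initial segments -/

/-- The segment of length `m` of the sequence `s`. -/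
noncomputable def a2_rst (s m : M) : M := pr m (least (fun c => ∀ i < m, bet c i = bet (sn s) i))

theorem Rec.a2_rst {α : Type} [Cod M α] {s m : α → M} (hs : Rec R s) (hm : Rec R m) :
    Rec R (fun a => a2_rst (s a) (m a)) := by
  unfold OVW.a2_rst
  apply Rec.pr hm
  apply Rec.least (P := fun a c => ∀ i < m a, OVW.bet c i = OVW.bet (OVW.sn (s a)) i)
  · fun_prop
  · intro a
    exact ⟨OVW.sn (s a), fun i _ => rfl⟩

theorem a2_seg_spec (R : Set (M → M)) [IsWorld R] {G : M → M} (hG : Segd G) (n : M) :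
    ∃ c, seg G n = pr n c ∧ Codes G n c ∧ ∀ c' < c, ¬ Codes G n c' := by
  obtain ⟨c₀, h₀⟩ := hG n
  have h1 : ∀ c, Codes G n c ↔ ∀ i < n, bet c i = bet c₀ i := by
    intro c
    refine forall₂_congr fun i hi => ?_
    rw [h₀ i hi]
  have h2 : Rec R (fun c : M => ∀ i < n, bet c i = bet c₀ i) := by fun_prop
  obtain ⟨c, hc, hc'⟩ := Rec.lnp h2 ⟨c₀, fun i _ => rfl⟩
  have hex : ∃ c, Codes G n c ∧ ∀ c' < c, ¬ Codes G n c' :=
    ⟨c, (h1 c).2 hc, fun c' hc1 hc2 => hc' c' hc1 ((h1 c').1 hc2)⟩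
  refine ⟨hex.choose, ?_, hex.choose_spec.1, hex.choose_spec.2⟩
  unfold seg
  rw [dif_pos hex]

theorem a2_rst_seg (R : Set (M → M)) [IsWorld R] {G : M → M} (hG : Segd G) {m n : M}
    (h : m ≤ n) : a2_rst (seg G n) m = seg G m := by
  obtain ⟨c, e1, h1, h2⟩ := a2_seg_spec R hG n
  obtain ⟨d, e3, h3, h4⟩ := a2_seg_spec R hG m
  unfold a2_rst
  rw [e1, e3, sn_pr]
  congr 1
  have h5 : ∀ c', (∀ i < m, bet c' i = bet c i) ↔ Codes G m c' := by
    intro c'
    refine forall₂_congr fun i hi => ?_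
    rw [h1 i (hi.trans_le h)]
  refine least_eq ((h5 d).2 h3) fun c' hc' hc => ?_
  exact h4 c' hc' ((h5 c').1 hc)

theorem a2_fs_seg (R : Set (M → M)) [IsWorld R] {G : M → M} (hG : Segd G) (n : M) :
    fs (seg G n) = n := by
  obtain ⟨c, e1, _, _⟩ := a2_seg_spec R hG n
  rw [e1, fs_pr]

/-! ### The universal function -/

/-- The condition of the universal function. -/
def UCond (X : Set M) (e a s : M) : Prop :=
  ∃ m ≤ fs s, ∃ c ≤ fs s, ∃ v ≤ c, Valid X c ∧ v ≠ 0 ∧ Inr c e (pr a (a2_rst s m)) v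

theorem univ_exists (hX : X ∈ SetsOf R) (hR : ∀ f, Gen X f ↔ f ∈ R) : ∃ u, Univ R u := by
  have hU : Rec R (fun z : M => UCond X (fs z) (fs (sn z)) (sn (sn z))) := by
    unfold UCond
    apply Rec.bex_le (by fun_prop)
    apply Rec.bex_le (by fun_prop)
    apply Rec.bex_le (by fun_prop)
    apply Rec.and (Rec.valid hX (by fun_prop))
    apply Rec.and (by fun_prop)
    apply Rec.inr (by fun_prop) (by fun_prop)
    · apply Rec.pr (by fun_prop)
      apply Rec.a2_rst (by fun_prop) (by fun_prop)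
    · fun_prop
  refine ⟨fun z => enc (UCond X (fs z) (fs (sn z)) (sn (sn z))), Rec.enc hU, ?_⟩
  intro φ hφ
  obtain ⟨e, he⟩ := ((hR φ).2 hφ).rep
  refine ⟨e, fun G hG a => ?_⟩
  have hu : ∀ n, (enc (UCond X (fs (pr e (pr a (seg G n)))) (fs (sn (pr e (pr a (seg G n)))))
      (sn (sn (pr e (pr a (seg G n)))))) : M) ≠ 0 ↔ UCond X e a (seg G n) := by
    intro n
    rw [ne_eq, enc_eq_zero, not_not, fs_pr, sn_pr, fs_pr, sn_pr]
  simp only [hu]
  constructor
  · rintro ⟨n, hn⟩
    obtain ⟨c, hc, hin⟩ := he.complete hX (fun f hf => (hR f).1 hf) (pr a (seg G n))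
    refine ⟨n + c, n, ?_, c, ?_, _, inr_le R hin, hc, hn, ?_⟩
    · rw [a2_fs_seg R hG]
      exact le_self_add
    · rw [a2_fs_seg R hG]
      exact le_add_self
    · rw [a2_rst_seg R hG le_self_add]
      exact hin
  · rintro ⟨n, m, hm, c, _, v, _, hc, hv, hin⟩
    rw [a2_fs_seg R hG] at hm
    rw [a2_rst_seg R hG hm] at hin
    refine ⟨m, ?_⟩
    rw [← he.sound c hc _ _ hin]
    exact hv

end

/-- Module U. -/
theorem stmtU : StmtU := by
  intro M _ X hI
  have : IsWorld (GenS X) := isWorld_gen hI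
  exact univ_exists (R := GenS X) (chi_mem_gen X) fun _ => Iff.rfl

end Pool.Agent.OVW
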