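import Pool.Agent.OVW.A2Defs

/-!
# Block A2, module W: `Σ₁(X)` induction gives a World
-/

namespace Pool.Agent.OVW.A2

open Pool.Agent.OVW

section Basics

variable {M : Type} [Arith M]

lemma pos_iff {a : M} : 0 < a ↔ a ≠ 0 := ⟨fun h => h.ne', fun h => lt_of_le_of_ne zero_le h.symm⟩

lemma succ_le {a b : M} : a + 1 ≤ b ↔ a < b := by
  constructor
  · intro h
    exact (lt_add_one a).trans_le h
  · intro h
    obtain ⟨c, rfl⟩ := exists_add_of_le h.le
    have hc : ¬ c < 1 := by
      intro hc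
      rw [Arith.lt_one c hc, add_zero] at h
      exact lt_irrefl _ h
    exact add_le_add_right (not_lt.1 hc) a

lemma lt_succ {a b : M} : a < b + 1 ↔ a ≤ b := by
  rw [← not_le, succ_le, not_lt]

lemma zero_or_succ (a : M) : a = 0 ∨ ∃ b, a = b + 1 := by
  rcases eq_or_ne a 0 with h | h
  · exact Or.inl h
  · right
    have h1 : 0 + 1 ≤ a := succ_le.2 (pos_iff.2 h)
    rw [zero_add] at h1
    obtain ⟨c, rfl⟩ := exists_add_of_le h1
    exact ⟨c, add_comm _ _⟩

lemma not_lt_zero' (a : M) : ¬ a < 0 := not_lt.2 zero_le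

lemma pr_aux {x y x' y' : M} (h : x + y < x' + y') : pr x y < pr x' y' := by
  have h1 : x + y + 1 ≤ x' + y' := succ_le.2 h
  have h2 : (x + y + 1) * (x + y + 1) ≤ (x' + y') * (x' + y') :=
    mul_le_mul' h1 h1
  have h3 : x ≤ x + y := le_self_add
  calc pr x y = (x + y) * (x + y) + x := rfl
    _ ≤ (x + y) * (x + y) + (x + y) := add_le_add_right h3 _
    _ < (x + y) * (x + y) + (x + y) + 1 := lt_add_one _
    _ ≤ (x + y) * (x + y) + (x + y) + 1 + (x + y) := le_self_add
    _ = (x + y + 1) * (x + y + 1) := by ring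
    _ ≤ (x' + y') * (x' + y') := h2
    _ ≤ (x' + y') * (x' + y') + x' := le_self_add
    _ = pr x' y' := rfl

lemma pr_inj {x y x' y' : M} (h : pr x y = pr x' y') : x = x' ∧ y = y' := by
  have hs : x + y = x' + y' := by
    rcases lt_trichotomy (x + y) (x' + y') with h1 | h1 | h1
    · exact absurd h (pr_aux h1).ne
    · exact h1
    · exact absurd h (pr_aux h1).ne'
  have hx : x = x' := by
    have h2 : (x + y) * (x + y) + x = (x' + y') * (x' + y') + x' := h
    rw [hs] at h2
    exact add_left_cancel h2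
  subst hx
  exact ⟨rfl, add_left_cancel hs⟩

@[simp] lemma fs_pr (x y : M) : fs (pr x y) = x := by
  have h : ∃ x' y', pr x y = pr x' y' := ⟨x, y, rfl⟩
  unfold fs
  rw [dif_pos h]
  obtain ⟨y', hy'⟩ := h.choose_spec
  exact (pr_inj hy').1.symm

@[simp] lemma sn_pr (x y : M) : sn (pr x y) = y := by
  have h : ∃ y' x', pr x y = pr x' y' := ⟨y, x, rfl⟩
  unfold sn
  rw [dif_pos h]
  obtain ⟨x', hx'⟩ := h.choose_spec
  exact (pr_inj hx').2.symm

lemma le_sq (a : M) : a ≤ a * a := by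
  rcases zero_or_succ a with rfl | ⟨b, rfl⟩
  · simp
  · calc b + 1 ≤ b + 1 + (b * b + b) := le_self_add
      _ = (b + 1) * (b + 1) := by ring

lemma le_pr_left (x y : M) : x ≤ pr x y := by
  unfold pr
  exact le_add_self

lemma le_pr_right (x y : M) : y ≤ pr x y := by
  unfold pr
  calc y ≤ x + y := le_add_self
    _ ≤ (x + y) * (x + y) := le_sq _
    _ ≤ _ := le_self_add

lemma fs_iff (z u : M) : fs z = u ↔
    (∃ y, y < z + 1 ∧ z = pr u y) ∨ (u = 0 ∧ ∀ x, x < z + 1 → ∀ y, y < z + 1 → ¬ z = pr x y) := by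
  by_cases h : ∃ x y, z = pr x y
  · obtain ⟨x, y, rfl⟩ := h
    rw [fs_pr]
    constructor
    · rintro rfl
      exact Or.inl ⟨y, lt_succ.2 (le_pr_right _ _), rfl⟩
    · rintro (⟨y', _, h⟩ | ⟨_, h⟩)
      · exact (pr_inj h).1
      · exact absurd rfl (h x (lt_succ.2 (le_pr_left _ _)) y (lt_succ.2 (le_pr_right _ _)))
  · have h0 : fs z = 0 := by
      unfold fs
      rw [dif_neg h]
    rw [h0]
    constructor
    · rintro rfl
      exact Or.inr ⟨rfl, fun x _ y _ hz => h ⟨x, y, hz⟩⟩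
    · rintro (⟨y', _, h'⟩ | ⟨h', _⟩)
      · exact absurd ⟨_, _, h'⟩ h
      · exact h'.symm

lemma sn_iff (z u : M) : sn z = u ↔
    (∃ x, x < z + 1 ∧ z = pr x u) ∨ (u = 0 ∧ ∀ x, x < z + 1 → ∀ y, y < z + 1 → ¬ z = pr x y) := by
  by_cases h : ∃ y x, z = pr x y
  · obtain ⟨y, x, rfl⟩ := h
    rw [sn_pr]
    constructor
    · rintro rfl
      exact Or.inl ⟨x, lt_succ.2 (le_pr_left _ _), rfl⟩
    · rintro (⟨y', _, h⟩ | ⟨_, h⟩)
      · exact (pr_inj h).2
      · exact absurd rfl (h x (lt_succ.2 (le_pr_left _ _)) y (lt_succ.2 (le_pr_right _ _)))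
  · have h0 : sn z = 0 := by
      unfold sn
      rw [dif_neg h]
    rw [h0]
    constructor
    · rintro rfl
      exact Or.inr ⟨rfl, fun x _ y _ hz => h ⟨y, x, hz⟩⟩
    · rintro (⟨y', _, h'⟩ | ⟨h', _⟩)
      · exact absurd ⟨_, _, h'⟩ h
      · exact h'.symm

end Basics

end Pool.Agent.OVW.A2

namespace Pool.Agent.OVW

open A2

/-! ### Bounded predicates -/

section Bounded

variable {M : Type} [Arith M] {X : Set M}

/-- Functions given by terms. -/
def A2.IsT (F : (ℕ → M) → M) : Prop := ∃ t : Tm M, ∀ v, t.ev v = F v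

lemma A2.IsT.var (i : ℕ) : IsT (fun v : ℕ → M => v i) := ⟨.var i, fun _ => rfl⟩

lemma A2.IsT.cst (c : M) : IsT (fun _ : ℕ → M => c) := ⟨.cst c, fun _ => rfl⟩

lemma A2.IsT.add {F G : (ℕ → M) → M} (hF : IsT F) (hG : IsT G) : IsT (fun v => F v + G v) := by
  obtain ⟨s, hs⟩ := hF
  obtain ⟨t, ht⟩ := hG
  exact ⟨.add s t, fun v => by rw [Tm.ev, hs, ht]⟩

lemma A2.IsT.mul {F G : (ℕ → M) → M} (hF : IsT F) (hG : IsT G) : IsT (fun v => F v * G v) := by
  obtain ⟨s, hs⟩ := hF
  obtain ⟨t, ht⟩ := hG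
  exact ⟨.mul s t, fun v => by rw [Tm.ev, hs, ht]⟩

lemma A2.IsT.pr {F G : (ℕ → M) → M} (hF : IsT F) (hG : IsT G) : IsT (fun v => pr (F v) (G v)) :=
  ((hF.add hG).mul (hF.add hG)).add hF

lemma A2.IsT.subst {F : (ℕ → M) → M} (hF : IsT F) {τ : ℕ → (ℕ → M) → M} (hτ : ∀ i, IsT (τ i)) :
    IsT (fun v => F (fun i => τ i v)) := by
  obtain ⟨t, ht⟩ := hF
  suffices h : ∀ t : Tm M, IsT (fun v => t.ev (fun i => τ i v)) by
    obtain ⟨s, hs⟩ := h t
    exact ⟨s, fun v => by rw [hs]; exact ht _⟩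
  intro t
  induction t with
  | var i => exact hτ i
  | cst c => exact IsT.cst c
  | add s t hs ht => exact hs.add ht
  | mul s t hs ht => exact hs.mul ht

lemma D0.of_iff {P Q : (ℕ → M) → Prop} (h : D0 X P) (h' : ∀ v, Q v ↔ P v) : D0 X Q := by
  have : Q = P := funext fun v => propext (h' v)
  rw [this]
  exact h

lemma D0.eq' {F G : (ℕ → M) → M} (hF : IsT F) (hG : IsT G) : D0 X (fun v => F v = G v) := by
  obtain ⟨s, hs⟩ := hF
  obtain ⟨t, ht⟩ := hG
  exact (D0.eq s t).of_iff fun v => by rw [hs, ht]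

lemma D0.lt' {F G : (ℕ → M) → M} (hF : IsT F) (hG : IsT G) : D0 X (fun v => F v < G v) := by
  obtain ⟨s, hs⟩ := hF
  obtain ⟨t, ht⟩ := hG
  exact (D0.lt s t).of_iff fun v => by rw [hs, ht]

lemma D0.mem' {F : (ℕ → M) → M} (hF : IsT F) : D0 X (fun v => F v ∈ X) := by
  obtain ⟨s, hs⟩ := hF
  exact (D0.mem s).of_iff fun v => by rw [hs]

lemma D0.or {P Q : (ℕ → M) → Prop} (hP : D0 X P) (hQ : D0 X Q) : D0 X (fun v => P v ∨ Q v) :=
  (hP.not.and hQ.not).not.of_iff fun v => by tauto

lemma D0.imp {P Q : (ℕ → M) → Prop} (hP : D0 X P) (hQ : D0 X Q) : D0 X (fun v => P v → Q v) :=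
  (hP.and hQ.not).not.of_iff fun v => by tauto

lemma D0.ball' {F : (ℕ → M) → M} (hF : IsT F) {R : (ℕ → M) → M → Prop}
    (h : D0 X (fun w => R (fun n => w (n + 1)) (w 0))) : D0 X (fun v => ∀ x, x < F v → R v x) := by
  obtain ⟨t, ht⟩ := hF
  refine (D0.ball t h).of_iff fun v => ?_
  rw [ht]
  exact Iff.rfl

lemma D0.bex' {F : (ℕ → M) → M} (hF : IsT F) {R : (ℕ → M) → M → Prop}
    (h : D0 X (fun w => R (fun n => w (n + 1)) (w 0))) : D0 X (fun v => ∃ x, x < F v ∧ R v x) := by
  refine (D0.ball' (R := fun v x => ¬ R v x) hF h.not).not.of_iff fun v => ?_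
  push Not
  exact Iff.rfl

lemma D0.subst {P : (ℕ → M) → Prop} (hP : D0 X P) : ∀ {τ : ℕ → (ℕ → M) → M},
    (∀ i, IsT (τ i)) → D0 X (fun v => P (fun i => τ i v)) := by
  induction hP with
  | eq s t =>
    intro τ hτ
    exact D0.eq' (IsT.subst ⟨s, fun _ => rfl⟩ hτ) (IsT.subst ⟨t, fun _ => rfl⟩ hτ)
  | lt s t =>
    intro τ hτ
    exact D0.lt' (IsT.subst ⟨s, fun _ => rfl⟩ hτ) (IsT.subst ⟨t, fun _ => rfl⟩ hτ)
  | mem t =>
    intro τ hτ
    exact D0.mem' (IsT.subst ⟨t, fun _ => rfl⟩ hτ)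
  | not _ ih =>
    intro τ hτ
    exact (ih hτ).not
  | and _ _ ih1 ih2 =>
    intro τ hτ
    exact (ih1 hτ).and (ih2 hτ)
  | @ball t P hP ih =>
    intro τ hτ
    refine D0.ball' (R := fun v x => P (push x fun i => τ i v))
      (IsT.subst ⟨t, fun _ => rfl⟩ hτ) ?_
    let σ : ℕ → (ℕ → M) → M := fun i => match i with
      | 0 => fun w => w 0
      | n + 1 => fun w => τ n (fun m => w (m + 1))
    have hσ : ∀ i, IsT (σ i) := by
      intro i
      cases i with
      | zero => exact IsT.var 0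
      | succ n => exact (hτ n).subst (fun m => IsT.var (m + 1))
    refine (ih hσ).of_iff fun w => ?_
    have : (push (w 0) fun i => τ i fun n => w (n + 1)) = fun i => σ i w := by
      funext i
      cases i with
      | zero => rfl
      | succ n => rfl
    rw [this]

/-! ### `Σ₁` predicates -/

lemma S1.of_iff {P Q : (ℕ → M) → Prop} (h : S1 X P) (h' : ∀ v, Q v ↔ P v) : S1 X Q := by
  have : Q = P := funext fun v => propext (h' v)
  rw [this]
  exact h

lemma D0.s1 {P : (ℕ → M) → Prop} (h : D0 X P) : S1 X P :=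
  ⟨fun w => P (fun n => w (n + 1)), h.subst (fun n => IsT.var (n + 1)), fun _ =>
    ⟨fun hv => ⟨0, hv⟩, fun ⟨_, hv⟩ => hv⟩⟩

lemma S1.subst {P : (ℕ → M) → Prop} (hP : S1 X P) {τ : ℕ → (ℕ → M) → M}
    (hτ : ∀ i, IsT (τ i)) : S1 X (fun v => P (fun i => τ i v)) := by
  obtain ⟨Q, hQ, h⟩ := hP
  let σ : ℕ → (ℕ → M) → M := fun i => match i with
    | 0 => fun w => w 0
    | n + 1 => fun w => τ n (fun m => w (m + 1))
  have hσ : ∀ i, IsT (σ i) := by
    intro i
    cases i with
    | zero => exact IsT.var 0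
    | succ n => exact (hτ n).subst (fun m => IsT.var (m + 1))
  refine ⟨fun w => Q (fun i => σ i w), hQ.subst hσ, fun v => ?_⟩
  refine (h _).trans (exists_congr fun y => ?_)
  have : (push y fun i => τ i v) = fun i => σ i (push y v) := by
    funext i
    cases i with
    | zero => rfl
    | succ n => rfl
  rw [this]

lemma S1.or {P Q : (ℕ → M) → Prop} (hP : S1 X P) (hQ : S1 X Q) : S1 X (fun v => P v ∨ Q v) := by
  obtain ⟨P', hP', h1⟩ := hP
  obtain ⟨Q', hQ', h2⟩ := hQ
  refine ⟨_, hP'.or hQ', fun v => ?_⟩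
  show P v ∨ Q v ↔ ∃ y, P' (push y v) ∨ Q' (push y v)
  rw [h1, h2, exists_or]

lemma S1.ex {R : (ℕ → M) → M → Prop} (h : S1 X (fun w => R (fun n => w (n + 1)) (w 0))) :
    S1 X (fun v => ∃ x, R v x) := by
  obtain ⟨Q, hQ, h1⟩ := h
  -- the matrix: there are `x, y < z` with `Q (push y (push x v))`
  refine ⟨fun w => ∃ x, x < w 0 ∧ ∃ y, y < w 0 ∧ Q (push y (push x (fun n => w (n + 1)))), ?_, ?_⟩
  · refine D0.bex' (R := fun w x => ∃ y, y < w 0 ∧ Q (push y (push x (fun n => w (n + 1)))))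
      (IsT.var 0) ?_
    refine D0.bex' (R := fun w y => Q (push y (push (w 0) (fun n => w (n + 1 + 1)))))
      (IsT.var 1) ?_
    let σ : ℕ → (ℕ → M) → M := fun i => match i with
      | 0 => fun w => w 0
      | 1 => fun w => w 1
      | n + 2 => fun w => w (n + 3)
    have hσ : ∀ i, IsT (σ i) := by
      intro i
      match i with
      | 0 => exact IsT.var 0
      | 1 => exact IsT.var 1
      | n + 2 => exact IsT.var (n + 3)
    refine (hQ.subst hσ).of_iff fun w => ?_
    have : (push (w 0) (push (w (0 + 1)) fun n => w (n + 1 + 1 + 1))) = fun i => σ i w := by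
      funext i
      match i with
      | 0 => rfl
      | 1 => rfl
      | n + 2 => rfl
    rw [this]
  · intro v
    constructor
    · rintro ⟨x, hx⟩
      have hx' := (h1 (push x v)).1 hx
      obtain ⟨y, hy⟩ := hx'
      refine ⟨x + y + 1, x, ?_, y, ?_, hy⟩
      · exact lt_succ.2 le_self_add
      · exact lt_succ.2 le_add_self
    · rintro ⟨z, x, _, y, _, hy⟩
      exact ⟨x, (h1 (push x v)).2 ⟨y, hy⟩⟩

lemma S1.and {P Q : (ℕ → M) → Prop} (hP : S1 X P) (hQ : S1 X Q) : S1 X (fun v => P v ∧ Q v) := by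
  obtain ⟨P', hP', h1⟩ := hP
  obtain ⟨Q', hQ', h2⟩ := hQ
  have h3 : S1 X (fun v => ∃ x, P' (push x v) ∧ ∃ y, Q' (push y v)) := by
    refine S1.ex (R := fun v x => P' (push x v) ∧ ∃ y, Q' (push y v)) ?_
    have h4 : S1 X (fun w => ∃ y, P' (push (w 0) (fun n => w (n + 1))) ∧
        Q' (push y (fun n => w (n + 1)))) := by
      refine S1.ex (R := fun w y => P' (push (w 0) (fun n => w (n + 1))) ∧
        Q' (push y (fun n => w (n + 1)))) ?_
      refine (D0.and ?_ ?_).s1
      · let σ : ℕ → (ℕ → M) → M := fun i w => w (i + 1)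
        refine (hP'.subst (τ := σ) (fun i => IsT.var (i + 1))).of_iff fun w => ?_
        have : (push (w (0 + 1)) fun n => w (n + 1 + 1)) = fun i => σ i w := by
          funext i
          cases i with
          | zero => rfl
          | succ n => rfl
        rw [this]
      · let σ : ℕ → (ℕ → M) → M := fun i => match i with
          | 0 => fun w => w 0
          | n + 1 => fun w => w (n + 2)
        have hσ : ∀ i, IsT (σ i) := by
          intro i
          match i with
          | 0 => exact IsT.var 0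
          | n + 1 => exact IsT.var (n + 2)
        refine (hQ'.subst hσ).of_iff fun w => ?_
        have : (push (w 0) fun n => w (n + 1 + 1)) = fun i => σ i w := by
          funext i
          cases i with
          | zero => rfl
          | succ n => rfl
        rw [this]
    refine h4.of_iff fun w => ?_
    rw [exists_and_left]
  refine h3.of_iff fun v => ?_
  rw [h1, h2, exists_and_right]

end Bounded

/-! ### Induction and collection -/

section Induction

variable {M : Type} [Arith M] {X : Set M}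

lemma S1.ind (hI : Ind1 X) {P : M → Prop} (hP : S1 X (fun v => P (v 0))) (h0 : P 0)
    (hs : ∀ x, P x → P (x + 1)) : ∀ x, P x := by
  obtain ⟨Q, hQ, h⟩ := hP
  have h1 : ∀ x, P x ↔ ∃ y, Q (push y (push x (fun _ => 0))) := fun x => h (push x (fun _ => 0))
  intro x
  rw [h1]
  refine hI Q hQ (fun _ => 0) ((h1 0).1 h0) (fun x hx => ?_) x
  exact (h1 _).1 (hs x ((h1 x).2 hx))

/-- Collection for bounded predicates. -/
lemma A2.coll0 (hI : Ind1 X) {Q : (ℕ → M) → Prop} (hQ : D0 X Q) (v : ℕ → M) (a : M)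
    (h : ∀ x, x < a → ∃ y, Q (push y (push x v))) :
    ∃ b, ∀ x, x < a → ∃ y, y < b ∧ Q (push y (push x v)) := by
  have key : ∀ i, ∃ b, ∀ x, x < i → x < a → ∃ y, y < b ∧ Q (push y (push x v)) := by
    refine S1.ind hI ?_ ⟨0, fun x hx => absurd hx (not_lt_zero' x)⟩ ?_
    · refine S1.ex (R := fun (w : ℕ → M) b => ∀ x, x < w 0 → x < a →
        ∃ y, y < b ∧ Q (push y (push x v))) ?_
      refine D0.s1 ?_
      refine D0.ball' (R := fun (w : ℕ → M) x => x < a → ∃ y, y < w 0 ∧ Q (push y (push x v)))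
        (IsT.var 1) ?_
      refine D0.imp (D0.lt' (IsT.var 0) (IsT.cst a)) ?_
      refine D0.bex' (R := fun (w : ℕ → M) y => Q (push y (push (w 0) v))) (IsT.var 1) ?_
      let σ : ℕ → (ℕ → M) → M := fun i => match i with
        | 0 => fun w => w 0
        | 1 => fun w => w 1
        | n + 2 => fun _ => v n
      have hσ : ∀ i, IsT (σ i) := by
        intro i
        match i with
        | 0 => exact IsT.var 0
        | 1 => exact IsT.var 1
        | n + 2 => exact IsT.cst (v n)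
      refine (hQ.subst hσ).of_iff fun w => ?_
      have : (push (w 0) (push (w (0 + 1)) v)) = fun i => σ i w := by
        funext i
        match i with
        | 0 => rfl
        | 1 => rfl
        | n + 2 => rfl
      rw [this]
    · rintro i ⟨b, hb⟩
      by_cases hia : i < a
      · obtain ⟨y, hy⟩ := h i hia
        refine ⟨b + (y + 1), fun x hx hxa => ?_⟩
        rcases (lt_succ.1 hx).lt_or_eq with h1 | h1
        · obtain ⟨y', hy', hq⟩ := hb x h1 hxa
          exact ⟨y', hy'.trans_le le_self_add, hq⟩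
        · subst h1
          exact ⟨y, (lt_succ.2 le_rfl).trans_le le_add_self, hy⟩
      · refine ⟨b, fun x hx hxa => ?_⟩
        rcases (lt_succ.1 hx).lt_or_eq with h1 | h1
        · exact hb x h1 hxa
        · subst h1
          exact absurd hxa hia
  obtain ⟨b, hb⟩ := key a
  exact ⟨b, fun x hx => hb x hx hx⟩

lemma S1.ball (hI : Ind1 X) {F : (ℕ → M) → M} (hF : IsT F) {R : (ℕ → M) → M → Prop}
    (h : S1 X (fun w => R (fun n => w (n + 1)) (w 0))) : S1 X (fun v => ∀ x, x < F v → R v x) := by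
  obtain ⟨Q, hQ, h1⟩ := h
  have h2 : ∀ v x, R v x ↔ ∃ y, Q (push y (push x v)) := fun v x => h1 (push x v)
  have h3 : S1 X (fun v => ∃ b, ∀ x, x < F v → ∃ y, y < b ∧ Q (push y (push x v))) := by
    refine S1.ex (R := fun v b => ∀ x, x < F v → ∃ y, y < b ∧ Q (push y (push x v))) ?_
    refine D0.s1 ?_
    refine D0.ball' (R := fun (w : ℕ → M) x => ∃ y, y < w 0 ∧
      Q (push y (push x (fun n => w (n + 1))))) (hF.subst (fun n => IsT.var (n + 1))) ?_
    refine D0.bex' (R := fun (w : ℕ → M) y => Q (push y (push (w 0) (fun n => w (n + 1 + 1)))))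
      (IsT.var 1) ?_
    let σ : ℕ → (ℕ → M) → M := fun i => match i with
      | 0 => fun w => w 0
      | 1 => fun w => w 1
      | n + 2 => fun w => w (n + 3)
    have hσ : ∀ i, IsT (σ i) := by
      intro i
      match i with
      | 0 => exact IsT.var 0
      | 1 => exact IsT.var 1
      | n + 2 => exact IsT.var (n + 3)
    refine (hQ.subst hσ).of_iff fun w => ?_
    have : (push (w 0) (push (w (0 + 1)) fun n => w (n + 1 + 1 + 1))) = fun i => σ i w := by
      funext i
      match i with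
      | 0 => rfl
      | 1 => rfl
      | n + 2 => rfl
    rw [this]
  refine h3.of_iff fun v => ?_
  constructor
  · intro hv
    exact coll0 hI hQ v (F v) fun x hx => (h2 v x).1 (hv x hx)
  · rintro ⟨b, hb⟩ x hx
    obtain ⟨y, _, hy⟩ := hb x hx
    exact (h2 v x).2 ⟨y, hy⟩

/-- Least number principle for predicates which are `Δ₁`. -/
lemma A2.least (hI : Ind1 X) {P : M → Prop} (hP : S1 X (fun v => ¬ P (v 0))) (h : ∃ x, P x) :
    ∃ x, P x ∧ ∀ y < x, ¬ P y := by
  by_contra hc
  push Not at hc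
  have h1 : ∀ x, ∀ y, y < x → ¬ P y := by
    refine S1.ind hI ?_ (fun y hy => absurd hy (not_lt_zero' y)) ?_
    · exact S1.ball (R := fun _ y => ¬ P y) hI (IsT.var 0)
        (hP.subst (τ := fun i w => w i) (fun i => IsT.var i))
    · intro x hx y hy hPy
      rcases (lt_succ.1 hy).lt_or_eq with h2 | h2
      · exact hx y h2 hPy
      · subst h2
        obtain ⟨z, hz, hPz⟩ := hc y hPy
        exact hx z hz hPz
  obtain ⟨x, hx⟩ := h
  exact h1 (x + 1) x (lt_succ.2 le_rfl) hx

/-- Collection for `Σ₁` predicates of two variables. -/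
lemma A2.coll (hI : Ind1 X) {R : M → M → Prop} (hR : S1 X (fun v => R (v 0) (v 1))) (a : M)
    (h : ∀ x, x < a → ∃ y, R x y) : ∃ b, ∀ x, x < a → ∃ y, y < b ∧ R x y := by
  obtain ⟨Q, hQ, h1⟩ := hR
  have h2 : ∀ x y, R x y ↔ ∃ t, Q (push t (push x (push y fun _ => 0))) := fun x y =>
    h1 (push x (push y fun _ => 0))
  obtain ⟨b, hb⟩ := coll0 (X := X) hI
    (Q := fun w => ∃ y, y < w 0 ∧ ∃ t, t < w 0 ∧ Q (push t (push (w 1) (push y fun _ => 0))))
    (by
      refine D0.bex' (R := fun (w : ℕ → M) y => ∃ t, t < w 0 ∧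
        Q (push t (push (w 1) (push y fun _ => 0)))) (IsT.var 0) ?_
      refine D0.bex' (R := fun (w : ℕ → M) t =>
        Q (push t (push (w 2) (push (w 0) fun _ => 0)))) (IsT.var 1) ?_
      let σ : ℕ → (ℕ → M) → M := fun i => match i with
        | 0 => fun w => w 0
        | 1 => fun w => w 3
        | 2 => fun w => w 1
        | _ + 3 => fun _ => 0
      have hσ : ∀ i, IsT (σ i) := by
        intro i
        match i with
        | 0 => exact IsT.var 0
        | 1 => exact IsT.var 3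
        | 2 => exact IsT.var 1
        | n + 3 => exact IsT.cst 0
      refine (hQ.subst hσ).of_iff fun w => ?_
      have : (push (w 0) (push (w (2 + 1)) (push (w (0 + 1)) fun _ => (0 : M)))) =
          fun i => σ i w := by
        funext i
        match i with
        | 0 => rfl
        | 1 => rfl
        | 2 => rfl
        | n + 3 => rfl
      rw [this])
    (fun _ => 0) a (fun x hx => by
      obtain ⟨y, hy⟩ := h x hx
      obtain ⟨t, ht⟩ := (h2 x y).1 hy
      exact ⟨y + t + 1, y, lt_succ.2 le_self_add, t, lt_succ.2 le_add_self, ht⟩)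
  refine ⟨b, fun x hx => ?_⟩
  obtain ⟨z, hz, y, hy, t, _, ht⟩ := hb x hx
  exact ⟨y, lt_trans hy hz, (h2 x y).2 ⟨t, ht⟩⟩

end Induction

end Pool.Agent.OVW
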