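import Pool.Agent.OVW.A2W

/-!
# Block A2, module W, second part: graphs, the beta function, the World
-/

namespace Pool.Agent.OVW

open A2

namespace A2

section Graph

variable {M : Type} [Arith M] {X : Set M}

/-- Substitution of terms in a binary `Σ₁` relation. -/
lemma S1.rel {R : M → M → Prop} (hR : S1 X (fun v => R (v 0) (v 1))) {F G : (ℕ → M) → M}
    (hF : IsT F) (hG : IsT G) : S1 X (fun v => R (F v) (G v)) := by
  let σ : ℕ → (ℕ → M) → M := fun i => match i with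
    | 0 => F
    | 1 => G
    | _ + 2 => fun _ => 0
  have hσ : ∀ i, IsT (σ i) := by
    intro i
    match i with
    | 0 => exact hF
    | 1 => exact hG
    | n + 2 => exact IsT.cst 0
  exact (S1.subst hR hσ)

lemma graph_fs : S1 X (fun v => fs (v 0) = v 1) := by
  refine (D0.s1 ?_ : S1 X (fun v => (∃ y, y < v 0 + 1 ∧ v 0 = pr (v 1) y) ∨ (v 1 = 0 ∧
    ∀ x, x < v 0 + 1 → ∀ y, y < v 0 + 1 → ¬ v 0 = pr x y))).of_iff fun v => fs_iff _ _
  refine D0.or ?_ (D0.and (D0.eq' (IsT.var 1) (IsT.cst 0)) ?_)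
  · exact D0.bex' (R := fun v y => v 0 = pr (v 1) y) ((IsT.var 0).add (IsT.cst 1))
      (D0.eq' (IsT.var 1) ((IsT.var 2).pr (IsT.var 0)))
  · refine D0.ball' (R := fun v x => ∀ y, y < v 0 + 1 → ¬ v 0 = pr x y)
      ((IsT.var 0).add (IsT.cst 1)) ?_
    exact D0.ball' (R := fun v y => ¬ v 1 = pr (v 0) y) ((IsT.var 1).add (IsT.cst 1))
      (D0.eq' (IsT.var 2) ((IsT.var 1).pr (IsT.var 0))).not

lemma graph_sn : S1 X (fun v => sn (v 0) = v 1) := by
  refine (D0.s1 ?_ : S1 X (fun v => (∃ x, x < v 0 + 1 ∧ v 0 = pr x (v 1)) ∨ (v 1 = 0 ∧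
    ∀ x, x < v 0 + 1 → ∀ y, y < v 0 + 1 → ¬ v 0 = pr x y))).of_iff fun v => sn_iff _ _
  refine D0.or ?_ (D0.and (D0.eq' (IsT.var 1) (IsT.cst 0)) ?_)
  · exact D0.bex' (R := fun v y => v 0 = pr y (v 1)) ((IsT.var 0).add (IsT.cst 1))
      (D0.eq' (IsT.var 1) ((IsT.var 0).pr (IsT.var 2)))
  · refine D0.ball' (R := fun v x => ∀ y, y < v 0 + 1 → ¬ v 0 = pr x y)
      ((IsT.var 0).add (IsT.cst 1)) ?_
    exact D0.ball' (R := fun v y => ¬ v 1 = pr (v 0) y) ((IsT.var 1).add (IsT.cst 1))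
      (D0.eq' (IsT.var 2) ((IsT.var 1).pr (IsT.var 0))).not

/-- The graph of a function of two arguments. -/
lemma graph_two {R : M → M → M → Prop} {f : M → M}
    (hR : S1 X (fun v => R (v 0) (v 1) (v 2))) (hf : ∀ x z, f x = z ↔ R (fs x) (sn x) z) :
    S1 X (fun v => f (v 0) = v 1) := by
  have h1 : S1 X (fun v => ∃ a, ∃ b, fs (v 0) = a ∧ sn (v 0) = b ∧ R a b (v 1)) := by
    refine S1.ex (R := fun v a => ∃ b, fs (v 0) = a ∧ sn (v 0) = b ∧ R a b (v 1)) ?_
    refine S1.ex (R := fun w b => fs (w 1) = w 0 ∧ sn (w 1) = b ∧ R (w 0) b (w 2)) ?_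
    refine S1.and ?_ (S1.and ?_ ?_)
    · exact S1.rel (R := fun a b => fs a = b) graph_fs (IsT.var 2) (IsT.var 1)
    · exact S1.rel (R := fun a b => sn a = b) graph_sn (IsT.var 2) (IsT.var 0)
    · let σ : ℕ → (ℕ → M) → M := fun i => match i with
        | 0 => fun w => w 1
        | 1 => fun w => w 0
        | 2 => fun w => w 3
        | _ + 3 => fun _ => 0
      have hσ : ∀ i, IsT (σ i) := by
        intro i
        match i with
        | 0 => exact IsT.var 1
        | 1 => exact IsT.var 0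
        | 2 => exact IsT.var 3
        | n + 3 => exact IsT.cst 0
      exact S1.subst hR hσ
  refine h1.of_iff fun v => ?_
  show f (v 0) = v 1 ↔ _
  rw [hf]
  constructor
  · intro h
    exact ⟨_, _, rfl, rfl, h⟩
  · rintro ⟨_, _, rfl, rfl, h⟩
    exact h

lemma graph (hI : Ind1 X) {f : M → M} (hf : Gen X f) : S1 X (fun v => f (v 0) = v 1) := by
  induction hf with
  | const c => exact (D0.eq' (IsT.cst c) (IsT.var 1)).s1
  | id => exact (D0.eq' (IsT.var 0) (IsT.var 1)).s1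
  | fs => exact graph_fs
  | sn => exact graph_sn
  | add =>
    refine graph_two (f := fun x => fs x + sn x) (R := fun a b z => a + b = z) ?_
      fun x z => Iff.rfl
    exact (D0.eq' ((IsT.var 0).add (IsT.var 1)) (IsT.var 2)).s1
  | mul =>
    refine graph_two (f := fun x => fs x * sn x) (R := fun a b z => a * b = z) ?_
      fun x z => Iff.rfl
    exact (D0.eq' ((IsT.var 0).mul (IsT.var 1)) (IsT.var 2)).s1
  | lt =>
    refine graph_two (f := fun x => if fs x < sn x then (1 : M) else 0)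
      (R := fun a b z => (a < b ∧ z = 1) ∨ (¬ a < b ∧ z = 0)) ?_ fun x z => ?_
    · exact (((D0.lt' (IsT.var 0) (IsT.var 1)).and (D0.eq' (IsT.var 2) (IsT.cst 1))).or
        ((D0.lt' (IsT.var 0) (IsT.var 1)).not.and (D0.eq' (IsT.var 2) (IsT.cst 0)))).s1
    · by_cases h : fs x < sn x
      · rw [if_pos h]
        simp [h, eq_comm]
      · rw [if_neg h]
        simp [h, eq_comm]
  | chi =>
    refine (D0.s1 ?_ : S1 X (fun v => (v 0 ∈ X ∧ v 1 = 1) ∨ (¬ v 0 ∈ X ∧ v 1 = 0))).of_iff ?_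
    · exact ((D0.mem' (IsT.var 0)).and (D0.eq' (IsT.var 1) (IsT.cst 1))).or
        ((D0.mem' (IsT.var 0)).not.and (D0.eq' (IsT.var 1) (IsT.cst 0)))
    · intro v
      by_cases h : v 0 ∈ X
      · simp [h, eq_comm]
      · simp [h, eq_comm]
  | @comp f g _ _ ihf ihg =>
    have h1 : S1 X (fun v => ∃ y, g (v 0) = y ∧ f y = v 1) := by
      refine S1.ex (R := fun v y => g (v 0) = y ∧ f y = v 1) ?_
      exact S1.and (S1.rel (R := fun a b => g a = b) ihg (IsT.var 1) (IsT.var 0))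
        (S1.rel (R := fun a b => f a = b) ihf (IsT.var 0) (IsT.var 2))
    exact h1.of_iff fun v => by simp
  | @pair f g _ _ ihf ihg =>
    have h1 : S1 X (fun v => ∃ a, ∃ b, f (v 0) = a ∧ g (v 0) = b ∧ pr a b = v 1) := by
      refine S1.ex (R := fun v a => ∃ b, f (v 0) = a ∧ g (v 0) = b ∧ pr a b = v 1) ?_
      refine S1.ex (R := fun w b => f (w 1) = w 0 ∧ g (w 1) = b ∧ pr (w 0) b = w 2) ?_
      refine S1.and (S1.rel (R := fun a b => f a = b) ihf (IsT.var 2) (IsT.var 1))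
        (S1.and (S1.rel (R := fun a b => g a = b) ihg (IsT.var 2) (IsT.var 0)) ?_)
      exact (D0.eq' ((IsT.var 1).pr (IsT.var 0)) (IsT.var 3)).s1
    exact h1.of_iff fun v => by simp
  | @mu f g _ hg ih =>
    have h1 : S1 X (fun v => f (pr (v 0) (v 1)) = 0 ∧ ∀ m, m < v 1 → ∃ w, f (pr (v 0) m) = w ∧
        ¬ w = 0) := by
      refine S1.and (S1.rel (R := fun a b => f a = b) ih ((IsT.var 0).pr (IsT.var 1))
        (IsT.cst 0)) ?_
      refine S1.ball (R := fun v m => ∃ w, f (pr (v 0) m) = w ∧ ¬ w = 0) hI (IsT.var 1) ?_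
      refine S1.ex (R := fun v w => f (pr (v 1) (v 0)) = w ∧ ¬ w = 0) ?_
      exact S1.and (S1.rel (R := fun a b => f a = b) ih ((IsT.var 2).pr (IsT.var 1))
        (IsT.var 0)) (D0.eq' (IsT.var 0) (IsT.cst 0)).not.s1
    refine h1.of_iff fun v => ?_
    constructor
    · intro h
      rw [← h]
      refine ⟨(hg _).1, fun m hm => ⟨_, rfl, (hg _).2 m hm⟩⟩
    · rintro ⟨h2, h3⟩
      obtain ⟨h4, h5⟩ := hg (v 0)
      rcases lt_trichotomy (g (v 0)) (v 1) with h | h | h
      · obtain ⟨w, hw, hw0⟩ := h3 _ h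
        exact absurd (hw.symm.trans h4) hw0
      · exact h
      · exact absurd h2 (h5 _ h)

/-- `f (F v) = 0` is `Σ₁`. -/
lemma graph_eq (hI : Ind1 X) {f : M → M} (hf : Gen X f) {F G : (ℕ → M) → M} (hF : IsT F)
    (hG : IsT G) : S1 X (fun v => f (F v) = G v) :=
  S1.rel (R := fun a b => f a = b) (graph hI hf) hF hG

lemma graph_ne (hI : Ind1 X) {f : M → M} (hf : Gen X f) {F : (ℕ → M) → M} (hF : IsT F) :
    S1 X (fun v => f (F v) ≠ 0) := by
  have h1 : S1 X (fun v => ∃ w, f (F v) = w ∧ ¬ w = 0) := by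
    refine S1.ex (R := fun v w => f (F v) = w ∧ ¬ w = 0) ?_
    exact S1.and (graph_eq hI hf (hF.subst fun n => IsT.var (n + 1)) (IsT.var 0))
      (D0.eq' (IsT.var 0) (IsT.cst 0)).not.s1
  exact h1.of_iff fun v => by simp

end Graph

/-! ### Division -/

section Division

variable {M : Type} [Arith M] {X : Set M}

lemma div_unique {b q r q' r' : M} (hr : r < b) (hr' : r' < b) (h : b * q + r = b * q' + r') :
    q = q' ∧ r = r' := by
  have key : ∀ {q r q' r' : M}, r < b → b * q + r = b * q' + r' → ¬ q < q' := by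
    intro q r q' r' hr h hq
    have h1 : b * (q + 1) ≤ b * q' := mul_le_mul_right (succ_le.2 hq) b
    have h2 : b * q + r < b * (q + 1) := by
      rw [mul_add, mul_one]
      exact add_lt_add_right hr _
    have h3 : b * q' ≤ b * q' + r' := le_self_add
    exact absurd h (h2.trans_le (h1.trans h3)).ne
  have hq : q = q' := le_antisymm (not_lt.1 (key hr' h.symm)) (not_lt.1 (key hr h))
  subst hq
  exact ⟨rfl, add_left_cancel h⟩

lemma div_exists (hI : Ind1 X) (b : M) (hb : 0 < b) : ∀ a : M, ∃ q, ∃ r, r < b ∧ a = b * q + r := by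
  refine S1.ind hI ?_ ⟨0, 0, hb, by simp⟩ ?_
  · refine S1.ex (R := fun v q => ∃ r, r < b ∧ v 0 = b * q + r) ?_
    refine S1.ex (R := fun v r => r < b ∧ v 1 = b * v 0 + r) ?_
    exact ((D0.lt' (IsT.var 0) (IsT.cst b)).and (D0.eq' (IsT.var 2)
      (((IsT.cst b).mul (IsT.var 1)).add (IsT.var 0)))).s1
  · rintro a ⟨q, r, hr, rfl⟩
    rcases (succ_le.2 hr).lt_or_eq with h | h
    · exact ⟨q, r + 1, h, by rw [add_assoc]⟩
    · refine ⟨q + 1, 0, hb, ?_⟩
      rw [add_zero, mul_add, mul_one, add_assoc, h]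

lemma md_eq {a b q r : M} (hr : r < b) (h : a = b * q + r) : md a b = r := by
  have h1 : ∃ r, r < b ∧ ∃ q, a = b * q + r := ⟨r, hr, q, h⟩
  unfold md
  rw [dif_pos h1]
  obtain ⟨h2, q', h3⟩ := h1.choose_spec
  exact (div_unique hr h2 (h.symm.trans h3)).2.symm

end Division

/-! ### The beta function -/

section Beta

variable {M : Type} [Arith M] {X : Set M}

lemma common_multiple (hI : Ind1 X) (n : M) :
    ∃ b : M, 0 < b ∧ ∀ j, j < n + 1 → 0 < j → ∃ q, b = j * q := by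
  have key : ∀ n : M, ∃ b : M, 0 < b ∧ ∀ j, j < n + 1 → 0 < j → ∃ q, b = j * q := by
    refine S1.ind hI ?_ ⟨1, zero_lt_one, fun j hj hj0 => ?_⟩ ?_
    · refine S1.ex (R := fun v b => 0 < b ∧ ∀ j, j < v 0 + 1 → 0 < j → ∃ q, b = j * q) ?_
      refine S1.and (D0.lt' (IsT.cst 0) (IsT.var 0)).s1 ?_
      refine S1.ball (R := fun v j => 0 < j → ∃ q, v 0 = j * q) hI
        ((IsT.var 1).add (IsT.cst 1)) ?_
      have h1 : S1 X (fun v => ¬ 0 < v 0 ∨ ∃ q, v 1 = v 0 * q) := by
        refine S1.or (D0.lt' (IsT.cst 0) (IsT.var 0)).not.s1 ?_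
        refine S1.ex (R := fun v q => v 1 = v 0 * q) ?_
        exact (D0.eq' (IsT.var 2) ((IsT.var 1).mul (IsT.var 0))).s1
      exact h1.of_iff fun v => by
        show (0 < v 0 → ∃ q, v 1 = v 0 * q) ↔ _
        tauto
    · rw [zero_add] at hj
      exact absurd (Arith.lt_one j hj) (pos_iff.1 hj0)
    · rintro n ⟨b, hb, h⟩
      refine ⟨b * (n + 1), mul_pos hb (lt_succ.2 zero_le), fun j hj hj0 => ?_⟩
      rcases (lt_succ.1 hj).lt_or_eq with h1 | h1
      · obtain ⟨q, hq⟩ := h j h1 hj0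
        exact ⟨q * (n + 1), by rw [hq, mul_assoc]⟩
      · exact ⟨b, by rw [h1, mul_comm]⟩
  exact key n

/-- The algebra of the inverse of `1 + K b` modulo `1 + (K + d) b`, `b = d e`. -/
lemma inverse_identity (K d e w : M) (h : (K + d) * (d * e) = 1 + w) :
    (1 + K * (d * e)) * (e * ((K + d) * (K + d) * (K + d)) * (d * e)) =
      (1 + (K + d) * (d * e)) * (e * K * ((K + d) * (K + d)) * (d * e) + w) + 1 := by
  have h1 : (1 + (K + d) * (d * e)) * w + 1 = ((K + d) * (d * e)) * ((K + d) * (d * e)) := by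
    rw [h]
    ring
  have h2 : (1 + (K + d) * (d * e)) * (e * K * ((K + d) * (K + d)) * (d * e) + w) + 1 =
      (1 + (K + d) * (d * e)) * (e * K * ((K + d) * (K + d)) * (d * e)) +
        ((1 + (K + d) * (d * e)) * w + 1) := by ring
  rw [h2, h1]
  ring

/-- Gödel's lemma. -/
lemma beta_lemma (hI : Ind1 X) {F : M → M} (hF : S1 X (fun v => F (v 0) = v 1)) (n : M) :
    ∃ c, ∀ i < n, bet c i = F i := by
  -- a bound for the values
  obtain ⟨B, hB⟩ := coll (X := X) hI (R := fun x y => F x = y) hF n fun x _ => ⟨_, rfl⟩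
  have hB' : ∀ i, i < n → F i < B := by
    intro i hi
    obtain ⟨y, hy, h⟩ := hB i hi
    rw [h]
    exact hy
  obtain ⟨b₀, hb₀, hdiv⟩ := common_multiple hI n
  set b := b₀ * (B + 1) with hb
  have hbpos : 0 < b := mul_pos hb₀ (lt_succ.2 zero_le)
  have hbB : B ≤ b := by
    have h1 : 1 * (B + 1) ≤ b₀ * (B + 1) := by
      refine mul_le_mul_left ?_ _
      have := succ_le.2 hb₀
      rwa [zero_add] at this
    rw [one_mul] at h1
    exact le_self_add.trans h1
  have hbdiv : ∀ j, j < n + 1 → 0 < j → ∃ q, b = j * q := by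
    intro j hj hj0
    obtain ⟨q, hq⟩ := hdiv j hj hj0
    exact ⟨q * (B + 1), by rw [hb, hq, mul_assoc]⟩
  -- the moduli
  have hm : ∀ i : M, B ≤ 1 + (i + 1) * b := by
    intro i
    calc B ≤ b := hbB
      _ ≤ b + (1 + i * b) := le_self_add
      _ = 1 + (i + 1) * b := by ring
  -- inverses
  have hinv : ∀ k j, k < j → j < n → ∃ x y, (1 + (k + 1) * b) * x = (1 + (j + 1) * b) * y + 1 := by
    intro k j hkj hj
    obtain ⟨d, hd⟩ := exists_add_of_le hkj.le
    have hd0 : 0 < d := by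
      rw [pos_iff]
      rintro rfl
      rw [add_zero] at hd
      exact hkj.ne' hd
    have hdn : d < n + 1 := by
      have : d ≤ j := by
        rw [hd]
        exact le_add_self
      exact lt_succ.2 (this.trans hj.le)
    obtain ⟨e, he⟩ := hbdiv d hdn hd0
    have hJ : j + 1 = (k + 1) + d := by
      rw [hd]
      ring
    have h1 : (0 : M) + 1 ≤ (k + 1 + d) * b :=
      succ_le.2 (mul_pos (lt_of_lt_of_le (lt_succ.2 zero_le) le_self_add) hbpos)
    rw [zero_add] at h1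
    obtain ⟨w, hw⟩ := exists_add_of_le h1
    rw [he] at hw
    refine ⟨e * ((k + 1 + d) * (k + 1 + d) * (k + 1 + d)) * (d * e),
      e * (k + 1) * ((k + 1 + d) * (k + 1 + d)) * (d * e) + w, ?_⟩
    rw [hJ, he]
    exact inverse_identity (k + 1) d e w hw
  -- the Chinese remainder theorem
  have crt : ∀ k : M, k < n + 1 → ∃ a, ∃ P, (∀ i, i < k → ∃ p, P = (1 + (i + 1) * b) * p) ∧
      (∀ j, j < n → k < j + 1 → ∃ x, ∃ y, P * x = (1 + (j + 1) * b) * y + 1) ∧
      (∀ i, i < k → ∃ q, ∃ r, F i = r ∧ a = (1 + (i + 1) * b) * q + r) := by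
    refine S1.ind hI ?_ ?_ ?_
    · have h1 : S1 X (fun v => ¬ v 0 < n + 1 ∨
          ∃ a, ∃ P, (∀ i, i < v 0 → ∃ p, P = (1 + (i + 1) * b) * p) ∧
          (∀ j, j < n → v 0 < j + 1 → ∃ x, ∃ y, P * x = (1 + (j + 1) * b) * y + 1) ∧
          (∀ i, i < v 0 → ∃ q, ∃ r, F i = r ∧ a = (1 + (i + 1) * b) * q + r)) := by
        refine S1.or (D0.lt' (IsT.var 0) (IsT.cst (n + 1))).not.s1 ?_
        refine S1.ex (R := fun v a => ∃ P, (∀ i, i < v 0 → ∃ p, P = (1 + (i + 1) * b) * p) ∧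
          (∀ j, j < n → v 0 < j + 1 → ∃ x, ∃ y, P * x = (1 + (j + 1) * b) * y + 1) ∧
          (∀ i, i < v 0 → ∃ q, ∃ r, F i = r ∧ a = (1 + (i + 1) * b) * q + r)) ?_
        refine S1.ex (R := fun v P => (∀ i, i < v 1 → ∃ p, P = (1 + (i + 1) * b) * p) ∧
          (∀ j, j < n → v 1 < j + 1 → ∃ x, ∃ y, P * x = (1 + (j + 1) * b) * y + 1) ∧
          (∀ i, i < v 1 → ∃ q, ∃ r, F i = r ∧ v 0 = (1 + (i + 1) * b) * q + r)) ?_
        refine S1.and ?_ (S1.and ?_ ?_)
        · refine S1.ball (R := fun v i => ∃ p, v 0 = (1 + (i + 1) * b) * p) hI (IsT.var 2) ?_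
          refine S1.ex (R := fun v p => v 1 = (1 + (v 0 + 1) * b) * p) ?_
          exact (D0.eq' (IsT.var 2) (((IsT.cst 1).add (((IsT.var 1).add (IsT.cst 1)).mul
            (IsT.cst b))).mul (IsT.var 0))).s1
        · refine S1.ball (R := fun v j => v 2 < j + 1 → ∃ x, ∃ y, v 0 * x =
            (1 + (j + 1) * b) * y + 1) hI (IsT.cst n) ?_
          have h2 : S1 X (fun v => ¬ v 3 < v 0 + 1 ∨ ∃ x, ∃ y, v 1 * x =
              (1 + (v 0 + 1) * b) * y + 1) := by
            refine S1.or (D0.lt' (IsT.var 3) ((IsT.var 0).add (IsT.cst 1))).not.s1 ?_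
            refine S1.ex (R := fun v x => ∃ y, v 1 * x = (1 + (v 0 + 1) * b) * y + 1) ?_
            refine S1.ex (R := fun v y => v 2 * v 0 = (1 + (v 1 + 1) * b) * y + 1) ?_
            exact (D0.eq' ((IsT.var 3).mul (IsT.var 1)) ((((IsT.cst 1).add (((IsT.var 2).add
              (IsT.cst 1)).mul (IsT.cst b))).mul (IsT.var 0)).add (IsT.cst 1))).s1
          exact h2.of_iff fun v => by
            show (v 3 < v 0 + 1 → ∃ x, ∃ y, v 1 * x = (1 + (v 0 + 1) * b) * y + 1) ↔ _
            tauto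
        · refine S1.ball (R := fun v i => ∃ q, ∃ r, F i = r ∧ v 1 = (1 + (i + 1) * b) * q + r)
            hI (IsT.var 2) ?_
          refine S1.ex (R := fun v q => ∃ r, F (v 0) = r ∧ v 2 = (1 + (v 0 + 1) * b) * q + r) ?_
          refine S1.ex (R := fun v r => F (v 1) = r ∧ v 3 = (1 + (v 1 + 1) * b) * v 0 + r) ?_
          refine S1.and (S1.rel (R := fun a b => F a = b) hF (IsT.var 2) (IsT.var 0)) ?_
          exact (D0.eq' (IsT.var 4) ((((IsT.cst 1).add (((IsT.var 2).add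
              (IsT.cst 1)).mul (IsT.cst b))).mul (IsT.var 1)).add (IsT.var 0))).s1
      exact h1.of_iff fun v => by
        constructor
        · intro h
          by_cases h2 : v 0 < n + 1
          · exact Or.inr (h h2)
          · exact Or.inl h2
        · rintro (h | h) h2
          · exact absurd h2 h
          · exact h
    · intro _
      refine ⟨0, 1, fun i hi => absurd hi (not_lt_zero' i), fun j _ _ => ⟨1, 0, by simp⟩,
        fun i hi => absurd hi (not_lt_zero' i)⟩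
    · intro k ih hk
      have hkn : k < n := by
        have := lt_succ.1 hk
        exact succ_le.1 this
      obtain ⟨a, P, h1, h2, h3⟩ := ih ((lt_succ.2 le_rfl).trans hk)
      obtain ⟨x, y, hxy⟩ := h2 k hkn (lt_succ.2 le_rfl)
      set t := x * (F k + ((k + 1) * b) * a) with ht
      refine ⟨a + P * t, P * (1 + (k + 1) * b), ?_, ?_, ?_⟩
      · intro i hi
        rcases (lt_succ.1 hi).lt_or_eq with h | h
        · obtain ⟨p, hp⟩ := h1 i h
          exact ⟨p * (1 + (k + 1) * b), by rw [hp, mul_assoc]⟩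
        · exact ⟨P, by rw [h, mul_comm]⟩
      · intro j hj hkj
        have hkj' : k < j := by
          have := lt_succ.1 hkj
          exact succ_le.1 this
        obtain ⟨x₁, y₁, h4⟩ := h2 j hj (hkj'.trans (lt_succ.2 le_rfl))
        obtain ⟨x₂, y₂, h5⟩ := hinv k j hkj' hj
        refine ⟨x₁ * x₂, (1 + (j + 1) * b) * y₁ * y₂ + y₁ + y₂, ?_⟩
        calc P * (1 + (k + 1) * b) * (x₁ * x₂) = (P * x₁) * ((1 + (k + 1) * b) * x₂) := by ring
          _ = _ := by rw [h4, h5]; ring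
      · intro i hi
        rcases (lt_succ.1 hi).lt_or_eq with h | h
        · obtain ⟨q, r, hr, hq⟩ := h3 i h
          obtain ⟨p, hp⟩ := h1 i h
          exact ⟨q + p * t, r, hr, by rw [hp, hq]; ring⟩
        · subst h
          refine ⟨a + y * (F i + ((i + 1) * b) * a), F i, rfl, ?_⟩
          calc a + P * t = a + (P * x) * (F i + ((i + 1) * b) * a) := by rw [ht]; ring
            _ = _ := by rw [hxy]; ring
  obtain ⟨a, P, _, _, h3⟩ := crt n (lt_succ.2 le_rfl)
  refine ⟨pr a b, fun i hi => ?_⟩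
  obtain ⟨q, r, hr, hq⟩ := h3 i hi
  unfold bet
  rw [fs_pr, sn_pr]
  rw [← hr] at hq
  refine md_eq ?_ hq
  exact (hB' i hi).trans_le (hm i)

end Beta

end A2

/-! ### The World -/

section World

variable {M : Type} [Arith M] {X : Set M}

theorem isWorld_gen (hI : Ind1 X) : IsWorld (GenS X) where
  const c := Gen.const c
  id := Gen.id
  comp _ hf _ hg := Gen.comp hf hg
  pair _ hf _ hg := Gen.pair hf hg
  fs := Gen.fs
  sn := Gen.sn
  add := Gen.add
  mul := Gen.mul
  lt := Gen.lt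
  mu f hf h := by
    have h1 : ∀ a, ∃ n, f (pr a n) = 0 ∧ ∀ m < n, f (pr a m) ≠ 0 := by
      intro a
      refine A2.least (X := X) hI (P := fun n => f (pr a n) = 0) ?_ (h a)
      exact graph_ne hI hf ((IsT.cst a).pr (IsT.var 0))
    choose g hg using h1
    exact ⟨g, Gen.mu hf hg, hg⟩
  ind f hf h0 hs := by
    refine S1.ind hI ?_ h0 hs
    refine S1.ex (R := fun v n => f (pr (v 0) n) = 0) ?_
    exact graph_eq hI hf ((IsT.var 1).pr (IsT.var 0)) (IsT.cst 0)
  beta f hf n := beta_lemma hI (graph hI hf) n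

end World

/-- Module W. -/
theorem stmtW : StmtW := fun _ _ _ hI => isWorld_gen hI

end Pool.Agent.OVW
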