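import Pool.Agent.OVW.A2CT
import Pool.Agent.OVW.A2J

/-!
# Block A2: all modules

`stmtW`, `stmtD0`, `stmtD`, `stmtS2`, `stmtU`, `stmtJ`, `stmtCT`.
-/
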