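import Pool.Agent.OVW.A3Defs

/-!
# Block A3: the conservation theorem from the statements
-/

namespace Pool.Agent.OVW

/-- A false `Π¹₁` formula has a false arithmetical instance. -/
theorem pi11_instance {φ : Form} (h : IsPi11 φ) : ∀ (𝔐 : Model) (v : ℕ → 𝔐.M)
    (V : ℕ → Set 𝔐.M), (∀ X, V X ∈ 𝔐.S) → ¬ φ.Sat 𝔐 v V →
    ∃ θ : Form, θ.Arith ∧ (∀ 𝔑 : Model, 𝔑.True φ → 𝔑.True θ) ∧
      ∃ V' : ℕ → Set 𝔐.M, (∀ X, V' X ∈ 𝔐.S) ∧ ¬ θ.Sat 𝔐 v V' := by
  induction h with
  | arith hφ =>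
    intro 𝔐 v V hV hn
    exact ⟨_, hφ, fun _ h => h, V, hV, hn⟩
  | @allSet ψ X _ ih =>
    intro 𝔐 v V hV hn
    simp only [Form.Sat, not_forall] at hn
    obtain ⟨A, hA, hn⟩ := hn
    obtain ⟨θ, h1, h2, V', h3, h4⟩ := ih 𝔐 v (Function.update V X A) (by
      intro Y
      by_cases hY : Y = X
      · subst hY; simpa using hA
      · simpa [Function.update_of_ne hY] using hV Y) hn
    refine ⟨θ, h1, fun 𝔑 h => h2 𝔑 ?_, V', h3, h4⟩
    intro w W hW
    have := h w W hW (W X) (hW X)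
    simpa using this

/-- The truth of an arithmetical formula does not depend on the range of the set variables. -/
theorem arith_sat_iff {M : Type} [Arith M] (S S' : Set (Set M)) (θ : Form) (h : θ.Arith) :
    ∀ (v : ℕ → M) (V : ℕ → Set M), θ.Sat (toModel M S) v V ↔ θ.Sat (toModel M S') v V := by
  have hev : ∀ (t : Term) (v : ℕ → M), t.eval (toModel M S) v = t.eval (toModel M S') v := by
    intro t v
    induction t with
    | var i => rfl
    | zero => rfl
    | one => rfl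
    | add s t hs ht =>
      simp only [Term.eval]
      rw [hs, ht]
      rfl
    | mul s t hs ht =>
      simp only [Term.eval]
      rw [hs, ht]
      rfl
  induction θ with
  | eq s t =>
    intro v V
    simp only [Form.Sat]
    rw [hev, hev]
    exact Iff.rfl
  | lt s t =>
    intro v V
    simp only [Form.Sat]
    rw [hev, hev]
    exact Iff.rfl
  | mem s X =>
    intro v V
    simp only [Form.Sat]
    rw [hev]
    exact Iff.rfl
  | neg φ ih =>
    intro v V
    simp only [Form.Sat]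
    rw [ih h]
  | and φ ψ ih1 ih2 =>
    intro v V
    simp only [Form.Sat]
    rw [ih1 h.1, ih2 h.2]
  | or φ ψ ih1 ih2 =>
    intro v V
    simp only [Form.Sat]
    rw [ih1 h.1, ih2 h.2]
  | imp φ ψ ih1 ih2 =>
    intro v V
    simp only [Form.Sat]
    rw [ih1 h.1, ih2 h.2]
  | all i φ ih =>
    intro v V
    simp only [Form.Sat]
    exact forall_congr' fun a => ih h _ _
  | ex i φ ih =>
    intro v V
    simp only [Form.Sat]
    exact exists_congr fun a => ih h _ _
  | allSet X φ ih => exact absurd h (by simp [Form.Arith])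
  | exSet X φ ih => exact absurd h (by simp [Form.Arith])

section chain

variable {M : Type} [Arith M]

/-- One step of the construction: a solution is added. -/
theorem one_step (hW : StmtW) (hU : StmtU) (hJ : StmtJ) (hCT : StmtCT) (hFO : StmtFO)
    (hJC : StmtJC) [Countable M] (X : Set M) (hX : Ind1 X ∧ Ind2 X) (a l : M) (f : M → M) :
    ∃ X' : Set M, (Ind1 X' ∧ Ind2 X') ∧ GenS X ⊆ GenS X' ∧
      (0 < a → f ∈ GenS X → Inst a l f →
        ∃ h ∈ GenS X', ∃ p ∈ GenS X', Soln a l f h p) := by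
  by_cases hc : 0 < a ∧ f ∈ GenS X ∧ Inst a l f
  · obtain ⟨ha, hf, hi⟩ := hc
    obtain ⟨J, hJ1, hJ2, hJ3⟩ := hJ M X hX.1 hX.2
    obtain ⟨R₂, w2, s2, h, hh, p, hp, hs, hctl⟩ := hFO M (GenS X) (GenS J) inferInstance
      (hCT M J inferInstance) (hW M X hX.1) (hW M J hJ1) hJ2 hJ3 (hU M X hX.1) a l f ha hf hi
    obtain ⟨X', h1, h2, h3, h4, h5⟩ := hJC M X hX.1 R₂ w2 (hJ2.trans s2) h hh p hp hctl
    exact ⟨X', ⟨h1, h2⟩, h3, fun _ _ _ => ⟨h, h4, p, h5, hs⟩⟩
  · refine ⟨X, hX, subset_rfl, fun h1 h2 h3 => absurd ⟨h1, h2, h3⟩ hc⟩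

/-- The whole construction. -/
theorem exists_chain (hW : StmtW) (hU : StmtU) (hJ : StmtJ) (hCT : StmtCT) (hFO : StmtFO)
    (hJC : StmtJC) (hS2 : StmtS2) (hUN : StmtUN) [Countable M] (A : Set M)
    (hA : Ind1 A ∧ Ind2 A) :
    ∃ R : Set (M → M), IsWorld R ∧ Sig2 R ∧ GenS A ⊆ R ∧
      ∀ a l f, 0 < a → f ∈ R → Inst a l f → ∃ h ∈ R, ∃ p ∈ R, Soln a l f h p := by
  classical
  choose! next hn using fun (X : Set M) (hX : Ind1 X ∧ Ind2 X) (i : M × M × (M → M)) =>
    one_step hW hU hJ hCT hFO hJC X hX i.1 i.2.1 i.2.2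
  have henum : ∀ X : Set M, ∃ e : ℕ → M × M × (M → M), ∀ a l f, f ∈ GenS X →
      ∃ n, e n = (a, l, f) := by
    intro X
    have hc : (GenS X).Countable := hCT M X inferInstance
    have : Countable (GenS X) := hc.to_subtype
    have : Nonempty (M × M × GenS X) := ⟨(0, 0, ⟨_, Gen.const 0⟩)⟩
    obtain ⟨e, he⟩ := exists_surjective_nat (M × M × GenS X)
    refine ⟨fun n => ((e n).1, (e n).2.1, ((e n).2.2 : M → M)), fun a l f hf => ?_⟩
    obtain ⟨n, hn⟩ := he (a, l, ⟨f, hf⟩)
    exact ⟨n, by simp [hn]⟩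
  choose enum henum using henum
  -- the chain
  let H : ℕ → ℕ → Set M := fun m => Nat.rec (fun _ => A) (fun m Hm =>
    Function.update Hm (m + 1) (next (Hm m) (enum (Hm m.unpair.1) m.unpair.2))) m
  have H0 : H 0 = fun _ => A := rfl
  have Hs : ∀ m, H (m + 1) = Function.update (H m) (m + 1)
    (next (H m m) (enum (H m m.unpair.1) m.unpair.2)) := fun m => rfl
  have Hst : ∀ m i, i ≤ m → H m i = H i i := by
    intro m
    induction m with
    | zero =>
      intro i hi
      have : i = 0 := by omega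
      subst this
      rfl
    | succ m ih =>
      intro i hi
      by_cases h : i = m + 1
      · subst h; rfl
      · rw [Hs m, Function.update_of_ne h]
        exact ih i (by omega)
  let X : ℕ → Set M := fun m => H m m
  have X0 : X 0 = A := rfl
  have Xs : ∀ m, X (m + 1) = next (X m) (enum (X m.unpair.1) m.unpair.2) := by
    intro m
    change H (m + 1) (m + 1) = _
    rw [Hs m, Function.update_self, Hst m m.unpair.1 (Nat.unpair_left_le m)]
  have Xg : ∀ m, Ind1 (X m) ∧ Ind2 (X m) := by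
    intro m
    induction m with
    | zero => rw [X0]; exact hA
    | succ m ih => rw [Xs m]; exact (hn (X m) ih _).1
  have Xm : ∀ m, GenS (X m) ⊆ GenS (X (m + 1)) := by
    intro m
    rw [Xs m]
    exact (hn (X m) (Xg m) _).2.1
  have Xle : ∀ m n, m ≤ n → GenS (X m) ⊆ GenS (X n) := by
    intro m n h
    induction h with
    | refl => exact subset_rfl
    | step _ ih => exact ih.trans (Xm _)
  obtain ⟨u1, u2⟩ := hUN M (fun n => GenS (X n)) Xm (fun n => hW M (X n) (Xg n).1)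
    (fun n => hS2 M (X n) (Xg n).1 (Xg n).2)
  refine ⟨⋃ n, GenS (X n), u1, u2, ?_, ?_⟩
  · intro g hg
    exact Set.mem_iUnion.2 ⟨0, hg⟩
  · intro a l f ha hf hi
    obtain ⟨i, hi'⟩ := Set.mem_iUnion.1 hf
    obtain ⟨j, hj⟩ := henum (X i) a l f hi'
    let m := Nat.pair i j
    have hm1 : m.unpair.1 = i := by simp [m]
    have hm2 : m.unpair.2 = j := by simp [m]
    have him : i ≤ m := by
      have := Nat.unpair_left_le m
      omega
    have h := (hn (X m) (Xg m) (enum (X m.unpair.1) m.unpair.2)).2.2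
    rw [← Xs m, hm1, hm2, hj] at h
    obtain ⟨h', hh', p, hp, hs⟩ := h ha (Xle i m him hi') hi
    exact ⟨h', Set.mem_iUnion.2 ⟨m + 1, hh'⟩, p, Set.mem_iUnion.2 ⟨m + 1, hp⟩, hs⟩

end chain

/-- The conservation theorem, from the statements. -/
theorem conservation_of (hAR : StmtAR) (hLS : StmtLS) (hCO : StmtCO) (hC1 : StmtC1)
    (hM : StmtM) (hOV : StmtOV) (hW : StmtW) (hU : StmtU) (hJ : StmtJ) (hCT : StmtCT)
    (hFO : StmtFO) (hJC : StmtJC) (hS2 : StmtS2) (hUN : StmtUN) :
    Pi11Conservative theoryT theoryS := by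
  intro φ hφ hT 𝔐 hS v V hV
  by_contra hn
  obtain ⟨θ, hθ, hφθ, V', hV', hn'⟩ := pi11_instance hφ 𝔐 v V hV hn
  obtain ⟨𝔑, v', V'', hc1, hc2, hV'', hel, htr⟩ := hLS 𝔐 v V' hV'
  have hN : 𝔑.Models theoryS := fun ψ hψ => htr ψ (hS ψ hψ)
  have hne : 𝔑.S.Nonempty := ⟨_, hV'' 0⟩
  obtain ⟨M, inst, S, rfl⟩ := hAR 𝔑 hne (by
    intro ψ hψ
    apply hN
    rcases hψ with h | h
    · exact Or.inl (Or.inl (Or.inl h))
    · exact Or.inl (Or.inl (Or.inr h)))
  have hcM : Countable M := hc1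
  obtain ⟨k, hk⟩ := hCO θ
  obtain ⟨hind, hjoin⟩ := hC1 M S hne hN
  obtain ⟨A, hA, hAk⟩ := hjoin k V'' hV''
  obtain ⟨R, hR, hR2, hAR', hsol⟩ := exists_chain hW hU hJ hCT hFO hJC hS2 hUN A (hind A hA)
  have hT' : (toModel M (SetsOf R)).Models theoryT := by
    intro ψ hψ
    rcases hψ with h | h
    · exact hM M R hR hR2 ψ h
    · rw [Set.mem_singleton_iff] at h
      subst h
      exact hOV M R hR hsol
  have hφR := hφθ _ (hT _ hT')
  let W : ℕ → Set M := fun X => if X < k then V'' X else ∅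
  have hW' : ∀ X, W X ∈ SetsOf R := by
    intro X
    by_cases hX : X < k
    · simp only [W, hX, if_true]
      exact hAR' (hAk X hX)
    · simp only [W, hX, if_false]
      have : chi (∅ : Set M) = fun _ => 0 := by
        funext x
        simp [chi]
      change chi (∅ : Set M) ∈ R
      rw [this]
      exact hR.const 0
  have h1 : θ.Sat (toModel M (SetsOf R)) v' W := hφR v' W hW'
  have h2 : θ.Sat (toModel M S) v' W := (arith_sat_iff (SetsOf R) S θ hθ v' W).1 h1
  have h3 : θ.Sat (toModel M S) v' V'' := by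
    refine (hk (toModel M S) v' W V'' ?_).1 h2
    intro X hX
    simp only [W, hX, if_true]
  exact hn' ((hel θ).1 h3)

end Pool.Agent.OVW
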