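import Pool.Agent.OVW.StmtsB5

/-!
# Block B: the pieces of Lemma 5

Notation of PAPER_B, Lemma 5, with `κ = k + 1`, `b = k`. The number `N` is the length `n'` of the
paper (so the substate has length `N + N`).
-/

namespace Pool.Agent.OVW

open Classical

set_option linter.unusedSectionVars false

variable {M : Type} [Arith M] [HasWorld M]

/-! ## Basic lemmas on the averages `FW` -/

/-- FW is a positive normalised linear functional on the words of length `< n`. -/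
structure Mean (R : Set (M → M)) {Ω : Type} [Cod M Ω] (S : Ω → Prop)
    (μ : (Ω → KK M) → KK M) : Prop where
  congr : ∀ f g : Ω → KK M, (∀ x, S x → f x = g x) → μ f = μ g
  add : ∀ f g : Ω → KK M, Rec R f → Rec R g → μ (fun x => f x + g x) = μ f + μ g
  smul : ∀ (c : KK M) (f : Ω → KK M), Rec R f → μ (fun x => c * f x) = c * μ f
  one : μ (fun _ => 1) = 1
  ex : ∀ f : Ω → KK M, Rec R f → ∃ x, S x ∧ μ f ≤ f x

/-- B01: averages over a nonempty finite set, and `FW`, are means. -/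
def StmtB01 (R : Set (M → M)) : Prop :=
  (∀ (Ω : Type) [Cod M Ω] (S : FSet M Ω), (∃ x, x ∈ S) → Mean R (fun x => x ∈ S) (havg S)) ∧
  (∀ κ n : M, 0 < κ → 0 < n → Mean R (fun x => x ∈ Wlt κ n) (FW κ n))

/-- B02: splitting (S), the two halves, Fubini. -/
def StmtB02 (R : Set (M → M)) : Prop :=
  (∀ (κ a q : M) (f : Wd M → KK M), 0 < κ → 0 < a → 0 < q → Rec R f →
    FW κ (a * q) f = havg (rng q) (fun j => havg (W κ (a * j)) (fun t => FW κ a (fun y => f (t ++ y))))) ∧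
  (∀ (κ n : M) (f : Wd M → KK M), 0 < κ → 0 < n → Rec R f →
    2 * FW κ (n + n) f = FW κ n f + havg (W κ n) (fun t => FW κ n (fun y => f (t ++ y)))) ∧
  (∀ (Ω : Type) [Cod M Ω] (S : FSet M Ω) (κ n : M) (f : Ω → Wd M → KK M),
    Rec R (fun x : Ω × Wd M => f x.1 x.2) →
    havg S (fun ω => FW κ n (f ω)) = FW κ n (fun x => havg S (fun ω => f ω x)))

/-- B03: the sum over the points of a line. -/
def StmtB03 (R : Set (M → M)) : Prop :=
  ∀ (κ h : M) (x w : Wd M) (g : Wd M → KK M), 0 < κ → Rec R g → x ∈ Wlt κ h →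
    w ∈ Wlt (κ + 1) h → x.len + 1 + w.len = h →
    havg (W κ h) (fun t => if ∃ d < κ, t = x ++ wsing d ++ wsub κ w d then g t else 0) =
      κ / hpow κ h * havg (rng κ) (fun d => g (x ++ wsing d ++ wsub κ w d))

/-- B04: insensitive sets. -/
def StmtB04 (M : Type) [Arith M] [HasWorld M] : Prop :=
  ∀ (k a n : M) (H : Wd M → Prop), a < k → Ins k a n H →
    (∀ l n' : M, ∀ t ∈ W (k + 1) l, l + n' ≤ n → Ins k a n' (fun y => H (t ++ y))) ∧
    Ins k a n (fun y => ¬ H y) ∧ (∀ n' ≤ n, Ins k a n' H) ∧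
    ∀ H' : Wd M → Prop, Ins k a n H' → Ins k a n (fun y => H y ∧ H' y)

/-! ## The core of Lemma 5 -/

/-- the function `1_H (ψ - u)` -/
noncomputable def phi5 (H : FSet M (Wd M)) (ψ : Wd M → KK M) (u : KK M) (x : Wd M) : KK M :=
  if x ∈ H then ψ x - u else 0

/-- The situation: `H` is a set of length `N + N`, with the score at least `s`, such that all
substates of length `N` have the score at most `s + e`. -/
structure Core (R : Set (M → M)) (k a N : M) (H : FSet M (Wd M)) (ψ : Wd M → KK M) (u s e : KK M) :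
    Prop where
  kpos : 0 < k
  alt : a < k
  Npos : 0 < N
  ins : Ins k a (N + N) (fun x => x ∈ H)
  recpsi : Rec R ψ
  psi0 : ∀ x, 0 ≤ ψ x
  psi1 : ∀ x, ψ x ≤ 1
  u0 : 0 ≤ u
  u1 : u ≤ 1
  score : s ≤ OVW.score k (N + N) (fun x => x ∈ H) ψ u
  max : ∀ l ≤ N, ∀ t ∈ W (k + 1) l, ∀ H' : FSet M (Wd M), H' ⊆ Wlt (k + 1) N →
    Ins k a N (fun y => y ∈ H') → (∀ y ∈ H', t ++ y ∈ H) →
    OVW.score k N (fun y => y ∈ H') (fun y => ψ (t ++ y)) u ≤ s + e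

/-- C1 (the two halves). -/
def StmtC51 (R : Set (M → M)) : Prop :=
  ∀ (k a N : M) (H : FSet M (Wd M)) (ψ : Wd M → KK M) (u s e : KK M), Core R k a N H ψ u s e →
    s - e ≤ FW (k + 1) N (phi5 H ψ u) ∧
    s - e ≤ havg (W (k + 1) N) (fun t => FW (k + 1) N (fun y => phi5 H ψ u (t ++ y)))

/-- C2 (the window). -/
def StmtC52 (R : Set (M → M)) : Prop :=
  ∀ (k a N h0 q : M) (H : FSet M (Wd M)) (ψ : Wd M → KK M) (u s e : KK M),
    Core R k a N H ψ u s e → N = h0 * q →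
    ∃ sig r : M, sig + h0 + r = N ∧
      s - e ≤ havg (W (k + 1) sig) (fun τ => FW (k + 1) h0 (fun x => phi5 H ψ u (τ ++ x)))

/-- The allowed beginnings `Q_τ`. -/
def QQ (H : FSet M (Wd M)) (ψ : Wd M → KK M) (u : KK M) (τ x : Wd M) : Prop :=
  τ ++ x ∈ H ∧ u ≤ ψ (τ ++ x)

/-- The mean over the future words `y' = y₀ ++ y`, `|y₀| = r`, `|y| < N`. -/
noncomputable def nu (k r N : M) (F : Wd M → KK M) : KK M :=
  havg (W (k + 1) r) (fun y0 => FW (k + 1) N (fun y => F (y0 ++ y)))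

/-- C3 (the future). -/
def StmtC53 (R : Set (M → M)) : Prop :=
  ∀ (k a N h0 sig r : M) (H : FSet M (Wd M)) (ψ : Wd M → KK M) (u s e c : KK M),
    Core R k a N H ψ u s e → 0 < h0 → sig + h0 + r = N → 0 < c → c ≤ 1 → c ≤ s → 0 < e →
    16 * e ≤ c ^ 2 →
    s - e ≤ havg (W (k + 1) sig) (fun τ => FW (k + 1) h0 (fun x => phi5 H ψ u (τ ++ x))) →
    s - e ≤ havg (W (k + 1) N) (fun t => FW (k + 1) N (fun y => phi5 H ψ u (t ++ y))) →
    c ^ 2 / 8 ≤ havg (W (k + 1) sig) (fun τ => nu k r N (fun y' => havg (rng h0) (fun l =>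
      hpr (W (k + 1) h0) (fun t => QQ H ψ u τ (t.take l) ∧ τ ++ t ++ y' ∈ H))))

/-- The pair `p = (x, w)` is a line between `Q_τ` and the future `y'`. -/
def PP (k h0 : M) (H : FSet M (Wd M)) (ψ : Wd M → KK M) (u : KK M) (τ y' : Wd M)
    (p : Wd M × Wd M) : Prop :=
  QQ H ψ u τ p.1 ∧ p.1.len + 1 + p.2.len = h0 ∧
    ∀ d < k + 1, τ ++ (p.1 ++ wsing d ++ wsub (k + 1) p.2 d) ++ y' ∈ H

/-- All pairs of words of length `< h0`. -/
noncomputable def Prs (k h0 : M) : FSet M (Wd M × Wd M) := (Wlt (k + 1) h0).prod (Wlt (k + 1 + 1) h0)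

/-- There is a line. -/
def Gd (k h0 : M) (H : FSet M (Wd M)) (ψ : Wd M → KK M) (u : KK M) (τ y' : Wd M) : Prop :=
  ∃ p ∈ Prs k h0, PP k h0 H ψ u τ y' p

/-- The chosen line. -/
noncomputable def Lm (k h0 : M) (H : FSet M (Wd M)) (ψ : Wd M → KK M) (u : KK M) (τ y' : Wd M) :
    Wd M × Wd M :=
  hchoose (Prs k h0) (PP k h0 H ψ u τ y')

/-- The word `t` is a point of the chosen line. -/
def Cv (k h0 : M) (H : FSet M (Wd M)) (ψ : Wd M → KK M) (u : KK M) (τ t y' : Wd M) : Prop :=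
  Gd k h0 H ψ u τ y' ∧ ∃ d < k + 1, t = (Lm k h0 H ψ u τ y').1 ++ wsing d ++
    wsub (k + 1) (Lm k h0 H ψ u τ y').2 d

section
variable {R : Set (M → M)} [IsWorld R] {γ : Type} [Cod M γ]

@[fun_prop] theorem Rec.phi5 {H : γ → FSet M (Wd M)} {ψ : γ → Wd M → KK M} {u : γ → KK M}
    {x : γ → Wd M} (h1 : Rec R H) (h2 : Rec R (fun p : γ × Wd M => ψ p.1 p.2)) (h3 : Rec R u)
    (h4 : Rec R x) : Rec R (fun z => phi5 (H z) (ψ z) (u z) (x z)) := by
  unfold OVW.phi5; fun_prop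

@[fun_prop] theorem Rec.QQ {H : γ → FSet M (Wd M)} {ψ : γ → Wd M → KK M} {u : γ → KK M}
    {τ x : γ → Wd M} (h1 : Rec R H) (h2 : Rec R (fun p : γ × Wd M => ψ p.1 p.2)) (h3 : Rec R u)
    (h5 : Rec R τ) (h4 : Rec R x) : Rec R (fun z => QQ (H z) (ψ z) (u z) (τ z) (x z)) := by
  unfold OVW.QQ; fun_prop

@[fun_prop] theorem Rec.nu {k r N : γ → M} {F : γ → Wd M → KK M} (h1 : Rec R k) (h2 : Rec R r)
    (h3 : Rec R N) (h4 : Rec R (fun p : γ × Wd M => F p.1 p.2)) :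
    Rec R (fun z => nu (k z) (r z) (N z) (F z)) := by
  unfold OVW.nu; fun_prop

@[fun_prop] theorem Rec.PP {k h0 : γ → M} {H : γ → FSet M (Wd M)} {ψ : γ → Wd M → KK M}
    {u : γ → KK M} {τ y : γ → Wd M} {p : γ → Wd M × Wd M} (h01 : Rec R k) (h02 : Rec R h0)
    (h1 : Rec R H) (h2 : Rec R (fun p : γ × Wd M => ψ p.1 p.2)) (h3 : Rec R u)
    (h5 : Rec R τ) (h4 : Rec R y) (h6 : Rec R p) :
    Rec R (fun z => PP (k z) (h0 z) (H z) (ψ z) (u z) (τ z) (y z) (p z)) := by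
  unfold OVW.PP; fun_prop

@[fun_prop] theorem Rec.Prs {k h0 : γ → M} (h01 : Rec R k) (h02 : Rec R h0) :
    Rec R (fun z => Prs (k z) (h0 z)) := by
  unfold OVW.Prs; fun_prop

@[fun_prop] theorem Rec.Gd {k h0 : γ → M} {H : γ → FSet M (Wd M)} {ψ : γ → Wd M → KK M}
    {u : γ → KK M} {τ y : γ → Wd M} (h01 : Rec R k) (h02 : Rec R h0)
    (h1 : Rec R H) (h2 : Rec R (fun p : γ × Wd M => ψ p.1 p.2)) (h3 : Rec R u)
    (h5 : Rec R τ) (h4 : Rec R y) :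
    Rec R (fun z => Gd (k z) (h0 z) (H z) (ψ z) (u z) (τ z) (y z)) := by
  unfold OVW.Gd; fun_prop

@[fun_prop] theorem Rec.Lm {k h0 : γ → M} {H : γ → FSet M (Wd M)} {ψ : γ → Wd M → KK M}
    {u : γ → KK M} {τ y : γ → Wd M} (h01 : Rec R k) (h02 : Rec R h0)
    (h1 : Rec R H) (h2 : Rec R (fun p : γ × Wd M => ψ p.1 p.2)) (h3 : Rec R u)
    (h5 : Rec R τ) (h4 : Rec R y) :
    Rec R (fun z => Lm (k z) (h0 z) (H z) (ψ z) (u z) (τ z) (y z)) := by
  unfold OVW.Lm; fun_prop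

@[fun_prop] theorem Rec.Cv {k h0 : γ → M} {H : γ → FSet M (Wd M)} {ψ : γ → Wd M → KK M}
    {u : γ → KK M} {τ t y : γ → Wd M} (h01 : Rec R k) (h02 : Rec R h0)
    (h1 : Rec R H) (h2 : Rec R (fun p : γ × Wd M => ψ p.1 p.2)) (h3 : Rec R u)
    (h5 : Rec R τ) (h6 : Rec R t) (h4 : Rec R y) :
    Rec R (fun z => Cv (k z) (h0 z) (H z) (ψ z) (u z) (τ z) (t z) (y z)) := by
  unfold OVW.Cv; fun_prop

end

/-- Lemma 4. -/
def StmtL4 (R : Set (M → M)) : Prop :=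
  ∀ (k a N h : M) (β : KK M) (Q G : Wd M → Prop) (L : FSet M M), 0 < k → a < k → 0 < β → 0 < h →
    DCS k (β / 4) h → Rec R Q → Rec R G →
    (∀ x ∈ W (k + 1) N, ∀ x' ∈ W (k + 1) N, wsub k x a = wsub k x' a → G x → G x') →
    (∀ l ∈ L, l < N) → 4 / β * h ≤ L.card →
    (∀ l ∈ L, β ≤ hpr (W (k + 1) N) (fun t => Q (t.take l) ∧ G t)) →
    ∃ l ∈ L, ∃ x ∈ W (k + 1) l, ∃ w ∈ Wlt (k + 1 + 1) N, l + 1 + w.len = N ∧ Q x ∧
      ∀ c < k + 1, G (x ++ wsing c ++ wsub (k + 1) w c)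

/-- C4 (there is a line with positive probability). -/
def StmtC54 (R : Set (M → M)) : Prop :=
  ∀ (k a N h h0 sig r : M) (H : FSet M (Wd M)) (ψ : Wd M → KK M) (u s e c : KK M),
    Core R k a N H ψ u s e → 0 < h0 → sig + h0 + r = N → 0 < c → c ≤ 1 → 0 < h →
    DCS k (c ^ 2 / 128) h → 4096 / c ^ 4 * h ≤ h0 →
    c ^ 2 / 8 ≤ havg (W (k + 1) sig) (fun τ => nu k r N (fun y' => havg (rng h0) (fun l =>
      hpr (W (k + 1) h0) (fun t => QQ H ψ u τ (t.take l) ∧ τ ++ t ++ y' ∈ H)))) →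
    c ^ 2 / 16 ≤ havg (W (k + 1) sig) (fun τ => nu k r N (fun y' => ind M (Gd k h0 H ψ u τ y')))

/-- C5 (the chosen line does not depend on exchanges in the future). -/
def StmtC55 (R : Set (M → M)) : Prop :=
  ∀ (k a N h0 sig r : M) (H : FSet M (Wd M)) (ψ : Wd M → KK M) (u s e : KK M),
    Core R k a N H ψ u s e → 0 < h0 → sig + h0 + r = N →
    ∀ τ ∈ W (k + 1) sig, ∀ y ∈ Wlt (k + 1) (r + N), ∀ y' ∈ Wlt (k + 1) (r + N),
      wsub k y a = wsub k y' a →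
      (Gd k h0 H ψ u τ y → Gd k h0 H ψ u τ y') ∧ Lm k h0 H ψ u τ y = Lm k h0 H ψ u τ y' ∧
      (∀ t, Cv k h0 H ψ u τ t y → Cv k h0 H ψ u τ t y') ∧
      (Gd k h0 H ψ u τ y → Lm k h0 H ψ u τ y ∈ Prs k h0 ∧ PP k h0 H ψ u τ y (Lm k h0 H ψ u τ y)) ∧
      ∀ t, Cv k h0 H ψ u τ t y → τ ++ t ++ y ∈ H

/-- C6 (sums over the points of the chosen line). -/
def StmtC56 (R : Set (M → M)) : Prop :=
  ∀ (k a N h0 sig r : M) (H : FSet M (Wd M)) (ψ : Wd M → KK M) (u s e : KK M),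
    Core R k a N H ψ u s e → 0 < h0 → sig + h0 + r = N →
    ∀ τ ∈ W (k + 1) sig, ∀ y ∈ Wlt (k + 1) (r + N), ∀ g : Wd M → KK M, Rec R g →
      havg (W (k + 1) h0) (fun t => if Cv k h0 H ψ u τ t y then g t else 0) =
        ((k + 1 : M) : KK M) / hpow (k + 1) h0 * (if Gd k h0 H ψ u τ y then
          havg (rng (k + 1)) (fun d => g ((Lm k h0 H ψ u τ y).1 ++ wsing d ++
            wsub (k + 1) (Lm k h0 H ψ u τ y).2 d)) else 0)

/-- C7 (case B is impossible). -/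
def StmtC57 (R : Set (M → M)) : Prop :=
  ∀ (k a N h0 sig r : M) (H : FSet M (Wd M)) (ψ : Wd M → KK M) (u s e eps b : KK M),
    Core R k a N H ψ u s e → 0 < h0 → sig + h0 + r = N → 0 < eps → 0 < b → 2 * e ≤ eps * b →
    s - e ≤ havg (W (k + 1) N) (fun t => FW (k + 1) N (fun y => phi5 H ψ u (t ++ y))) →
    b ≤ havg (W (k + 1) sig) (fun τ => nu k r N (fun y' =>
      hpr (W (k + 1) h0) (fun t => Cv k h0 H ψ u τ t y'))) →
    0 ≤ havg (W (k + 1) sig) (fun τ => nu k r N (fun y' => havg (W (k + 1) h0) (fun t =>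
      if Cv k h0 H ψ u τ t y' then ψ (τ ++ t ++ y') - (u - eps) else 0)))

/-- C8 (case A). -/
def StmtC58 (R : Set (M → M)) : Prop :=
  ∀ (k a N h0 sig r : M) (H : FSet M (Wd M)) (ψ : Wd M → KK M) (u s e eps g : KK M),
    Core R k a N H ψ u s e → 0 < h0 → sig + h0 + r = N → 0 < eps → 0 < g →
    g ≤ havg (W (k + 1) sig) (fun τ => nu k r N (fun y' => ind M (Gd k h0 H ψ u τ y'))) →
    0 ≤ havg (W (k + 1) sig) (fun τ => nu k r N (fun y' => havg (W (k + 1) h0) (fun t =>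
      if Cv k h0 H ψ u τ t y' then ψ (τ ++ t ++ y') - (u - eps) else 0))) →
    ∃ τ ∈ W (k + 1) sig, ∃ p ∈ Prs k h0, ∃ y0 ∈ W (k + 1) r,
      eps * g / (Prs k h0).card ≤ FW (k + 1) N (fun y =>
        if Gd k h0 H ψ u τ (y0 ++ y) ∧ Lm k h0 H ψ u τ (y0 ++ y) = p then
          havg (rng (k + 1)) (fun d => ψ (τ ++ (p.1 ++ wsing d ++ wsub (k + 1) p.2 d) ++ (y0 ++ y))) -
            (u - 2 * eps) else 0)

/-- The core lemma. -/
def StmtC5 (R : Set (M → M)) : Prop :=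
  ∀ (k a N h h0 q : M) (H : FSet M (Wd M)) (ψ : Wd M → KK M) (u s e c eps : KK M),
    Core R k a N H ψ u s e → 0 < c → c ≤ 1 → c ≤ s → 0 < eps → eps ≤ 1 → 2 * eps ≤ u → 0 < h →
    DCS k (c ^ 2 / 128) h → 0 < h0 → 4096 / c ^ 4 * h ≤ h0 → N = h0 * q → 0 < e → 16 * e ≤ c ^ 2 →
    2 * e ≤ eps * (((k + 1 : M) : KK M) / hpow (k + 1) h0 * (c ^ 2 / 16)) →
    ∃ X ∈ H, X ∈ Wlt (k + 1) N ∧ u ≤ ψ X ∧ ∃ V ∈ Wlt (k + 1 + 1) N, X.len + 1 + V.len = N ∧
      ∃ H' : FSet M (Wd M), H' ⊆ Wlt (k + 1) N ∧ Ins k a N (fun y => y ∈ H') ∧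
        (∀ y ∈ H', ∀ d < k + 1, X ++ wsing d ++ wsub (k + 1) V d ++ y ∈ H) ∧
        eps * c ^ 2 / (16 * (Prs k h0).card) ≤ score k N (fun y => y ∈ H')
          (fun y => havg (rng (k + 1)) (fun d => ψ (X ++ wsing d ++ wsub (k + 1) V d ++ y)))
          (u - 2 * eps)

/-! ## Lemma 6 -/

/-- the tree `e ↦ X`, `c z ↦ X c V[c] y₁ T(z)` -/
noncomputable def consT (k : M) (X V y1 : Wd M) (T : Wd M → Wd M) (z : Wd M) : Wd M :=
  if z.len = 0 then X else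
    X ++ wsing (z.get 0) ++ wsub (k + 1) V (z.get 0) ++ y1 ++ T (z.drop 1)

/-- L61: `consT` is a tree. -/
def StmtL61 (R : Set (M → M)) : Prop :=
  ∀ (k m n n' : M) (X V y1 : Wd M) (T : Wd M → Wd M), 0 < k → Rec R T → X ∈ Wlt (k + 1) n →
    V ∈ Wlt (k + 1 + 1) n → y1 ∈ Wlt (k + 1) n → X.len + 1 + V.len + y1.len + n' ≤ n →
    Tree k m n' T → Tree k (m + 1) n (consT k X V y1 T)

/-- L62: averages of a function along `consT`. -/
def StmtL62 (R : Set (M → M)) : Prop :=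
  ∀ (k i : M) (X V y1 : Wd M) (T : Wd M → Wd M) (f : Wd M → KK M), 0 < k → Rec R T → Rec R f →
    havg (W (k + 1) 0) (fun z => f (consT k X V y1 T z)) = f X ∧
    havg (W (k + 1) (i + 1)) (fun z => f (consT k X V y1 T z)) =
      havg (W (k + 1) i) (fun z => havg (rng (k + 1)) (fun d =>
        f (X ++ wsing d ++ wsub (k + 1) V d ++ (y1 ++ T z))))

/-- TC: composition of trees, inverse images of free and of insensitive sets. -/
def StmtTC (M : Type) [Arith M] [HasWorld M] : Prop :=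
  ∀ (k m n N : M) (T T' : Wd M → Wd M), 0 < k → Tree k m n T → Tree k n N T' →
    Tree k m N (fun z => T' (T z)) ∧
    (∀ E : Wd M → Prop, Free (k + 1) n E → Free (k + 1) m (fun z => E (T z))) ∧
    (∀ (a : M) (H : Wd M → Prop), a < k → Ins k a n H → Ins k a m (fun z => H (T z)))

end Pool.Agent.OVW
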