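import Pool.Agent.OVW.Lib6

/-!
# Block B: definitions

Alphabet with `κ` letters `0, ..., κ - 1`; words of length `l`: `W κ l`, words of length `< n`:
`Wlt κ n`. A variable word over the alphabet `κ` is a word over `κ + 1`, the letter `κ` is the
variable; `wsub κ w c` replaces it by `c`. In the main part of the proof `κ = k + 1`, the last
letter `k` of the alphabet is called `b`, and the alphabet `A` has the letters `a < k`.
-/

namespace Pool.Agent.OVW

open Classical

set_option linter.unusedSectionVars false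

variable {M : Type} [Arith M] [HasWorld M] {R : Set (M → M)} [IsWorld R] {α β γ δ : Type}
variable [Cod M α] [Cod M β] [Cod M γ] [Cod M δ]

/-- the indicator of a proposition -/
noncomputable def ind (M : Type) [Arith M] (p : Prop) : KK M := if p then 1 else 0

@[fun_prop] theorem Rec.ind {p : γ → Prop} (hp : Rec R p) : Rec R (fun x => ind M (p x)) := by
  unfold OVW.ind; fun_prop

/-- The average of the averages of `φ` over the levels `0, ..., n - 1`. -/
noncomputable def FW (κ n : M) (φ : Wd M → KK M) : KK M :=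
  havg (rng n) (fun l => havg (W κ l) φ)

@[fun_prop] theorem Rec.FW {κ n : γ → M} {φ : γ → Wd M → KK M} (h1 : Rec R κ) (h2 : Rec R n)
    (h3 : Rec R (fun x : γ × Wd M => φ x.1 x.2)) :
    Rec R (fun x => FW (κ x) (n x) (φ x)) := by unfold OVW.FW; fun_prop

/-- `E` contains no Carlson-Simpson line with all its points of length `< n`. The points are `x`
and `x ++ c ++ w[c]`, `c < κ`. -/
def Free (κ n : M) (E : Wd M → Prop) : Prop :=
  ∀ x ∈ Wlt κ n, ∀ w ∈ Wlt (κ + 1) n, x.len + 1 + w.len < n →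
    ¬ (E x ∧ ∀ c < κ, E (x ++ wsing c ++ wsub κ w c))

@[fun_prop] theorem Rec.Free {κ n : γ → M} {E : γ → Wd M → Prop} (h1 : Rec R κ) (h2 : Rec R n)
    (h3 : Rec R (fun x : γ × Wd M => E x.1 x.2)) :
    Rec R (fun x => Free (κ x) (n x) (E x)) := by unfold OVW.Free; fun_prop

/-- The density Carlson-Simpson theorem with bound `n`. -/
def DCS (κ : M) (δ : KK M) (n : M) : Prop :=
  ∀ E ∈ (Wlt κ n).powerset, Free κ n (fun x => x ∈ E) → FW κ n (fun x => ind M (x ∈ E)) < δ

@[fun_prop] theorem Rec.DCS {κ n : γ → M} {δ : γ → KK M} (h1 : Rec R κ) (h2 : Rec R δ)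
    (h3 : Rec R n) : Rec R (fun x => DCS (κ x) (δ x) (n x)) := by unfold OVW.DCS; fun_prop

/-- `H` (restricted to the words of length `< n` over `k + 1` letters) is insensitive under
exchanging the letters `a` and `k`: `x` and `y` differ only by such exchanges if and only if
`wsub k x a = wsub k y a`. -/
def Ins (k a n : M) (H : Wd M → Prop) : Prop :=
  ∀ x ∈ Wlt (k + 1) n, ∀ y ∈ Wlt (k + 1) n, wsub k x a = wsub k y a → H x → H y

@[fun_prop] theorem Rec.Ins {k a n : γ → M} {H : γ → Wd M → Prop} (h0 : Rec R k) (h1 : Rec R a)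
    (h2 : Rec R n) (h3 : Rec R (fun x : γ × Wd M => H x.1 x.2)) :
    Rec R (fun x => Ins (k x) (a x) (n x) (H x)) := by unfold OVW.Ins; fun_prop

/-- `T` is a Carlson-Simpson tree, from the words of length `< m` to the words of length `< n`
over the alphabet `k + 1` (abstract form: variable words are mapped to variable words, lines to
lines, and exchanges of letters are respected). -/
def Tree (k m n : M) (T : Wd M → Wd M) : Prop :=
  (∀ z ∈ Wlt (k + 1) m, T z ∈ Wlt (k + 1) n) ∧
  (∀ w ∈ Wlt (k + 1 + 1) m, ∃ v ∈ Wlt (k + 1 + 1) n, ∀ c < k + 1,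
    T (wsub (k + 1) w c) = wsub (k + 1) v c) ∧
  (∀ x ∈ Wlt (k + 1) m, ∀ w ∈ Wlt (k + 1 + 1) m, x.len + 1 + w.len < m →
    ∃ v ∈ Wlt (k + 1 + 1) n, (T x).len + 1 + v.len < n ∧ ∀ c < k + 1,
      T (x ++ wsing c ++ wsub (k + 1) w c) = T x ++ wsing c ++ wsub (k + 1) v c) ∧
  (∀ a < k, ∀ z ∈ Wlt (k + 1) m, ∀ z' ∈ Wlt (k + 1) m, wsub k z a = wsub k z' a →
    wsub k (T z) a = wsub k (T z') a)

@[fun_prop] theorem Rec.Tree {k m n : γ → M} {T : γ → Wd M → Wd M} (h0 : Rec R k) (h1 : Rec R m)
    (h2 : Rec R n) (h3 : Rec R (fun x : γ × Wd M => T x.1 x.2)) :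
    Rec R (fun x => Tree (k x) (m x) (n x) (T x)) := by unfold OVW.Tree; fun_prop

/-- the score of the state `(H, ψ, u)` on the words of length `< n` -/
noncomputable def score (k n : M) (H : Wd M → Prop) (ψ : Wd M → KK M) (u : KK M) : KK M :=
  FW (k + 1) n (fun x => if H x then ψ x - u else 0)

@[fun_prop] theorem Rec.score {k n : γ → M} {H : γ → Wd M → Prop} {ψ : γ → Wd M → KK M}
    {u : γ → KK M} (h0 : Rec R k) (h1 : Rec R n) (h2 : Rec R (fun x : γ × Wd M => H x.1 x.2))
    (h3 : Rec R (fun x : γ × Wd M => ψ x.1 x.2)) (h4 : Rec R u) :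
    Rec R (fun x => score (k x) (n x) (H x) (ψ x) (u x)) := by unfold OVW.score; fun_prop

end Pool.Agent.OVW
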