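import Pool.Agent.OVW.StmtsB14
import Pool.Agent.OVW.StmtsB5c

/-!
# Block B, Lemmas 8, 9, 10 and section 5: statements

Paper: `PAPER_B.md`, sections 3, 4, 5, with the simplifications (S3), (S4), (S5) of helper59. The
standard version (over the natural numbers, lists), completely proved, is in `BN/Emb.lean`
(Lemmas 8, 9), `BN/Words.lean` (choice of the words `g_s`) and `BN/Incr.lean` (Lemma 10, section 5).
-/

namespace Pool.Agent.OVW

open Classical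

set_option linter.unusedSectionVars false

variable {M : Type} [Arith M] [HasWorld M] {R : Set (M → M)} [IsWorld R] {α β γ δ : Type}
variable [Cod M α] [Cod M β] [Cod M γ] [Cod M δ]

/-! ## Lemma 8 -/

/-- B81 (change of measure). -/
def Stmt_B81 : Prop := ∀ (M : Type) [Arith M] [HasWorld M] (R : Set (M → M)) [IsWorld R]
  (κ N p c : M) (g : Wd M → KK M), 0 < κ → p < N → c < κ → Rec R g →
  havg (W κ N) (fun y => g (y.set p c)) =
    havg (W κ N) (fun y => (κ : KK M) * ind M (y.get p = c) * g y)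

/-- B82 (second moment). -/
def Stmt_B82 : Prop := ∀ (M : Type) [Arith M] [HasWorld M] (R : Set (M → M)) [IsWorld R]
  (κ N s P c : M), 0 < κ → 0 < P → s + P ≤ N → c < κ →
  havg (W κ N) (fun y => havg (rng P) (fun j => (κ : KK M) * ind M (y.get (s + j) = c) - 1) *
    havg (rng P) (fun j => (κ : KK M) * ind M (y.get (s + j) = c) - 1)) = ((κ : KK M) - 1) / P

/-- Lemma 8 (one letter). -/
def Stmt_B8 : Prop := ∀ (M : Type) [Arith M] [HasWorld M] (R : Set (M → M)) [IsWorld R]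
  (κ N s P c : M) (eps : KK M) (g : Wd M → KK M), 0 < κ → 0 < eps →
  (κ : KK M) / (eps * eps) ≤ P → s + P ≤ N → c < κ → Rec R g →
  (∀ y ∈ W κ N, 0 ≤ g y ∧ g y ≤ 1) →
  |havg (rng P) (fun j => havg (W κ N) (fun y => g (y.set (s + j) c))) - havg (W κ N) g| ≤ eps

/-! ## Lemma 9 -/

/-- the levels of the random embedding -/
noncomputable def lamE (P sig : M) (i : Wd M) (j : M) : M := (sig + j) * P + i.get j

@[fun_prop] theorem Rec.lamE {P sig j : γ → M} {i : γ → Wd M} (h1 : Rec R P) (h2 : Rec R sig)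
    (h3 : Rec R i) (h4 : Rec R j) : Rec R (fun x => lamE (P x) (sig x) (i x) (j x)) := by
  unfold OVW.lamE; fun_prop

/-- the random embedding; `ω = (sig, i, y)` -/
noncomputable def TE (P : M) (ω : M × Wd M × Wd M) (z : Wd M) : Wd M :=
  Phi (lamE P ω.1 ω.2.1) ω.2.2 z

@[fun_prop] theorem Rec.TE {P : γ → M} {ω : γ → M × Wd M × Wd M} {z : γ → Wd M} (h1 : Rec R P)
    (h2 : Rec R ω) (h3 : Rec R z) : Rec R (fun x => TE (P x) (ω x) (z x)) := by
  unfold OVW.TE; fun_prop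

/-- the space of the random embeddings -/
noncomputable def Om (κ S P N n : M) : FSet M (M × Wd M × Wd M) :=
  (rng S).prod ((W P n).prod (W κ N))

@[fun_prop] theorem Rec.Om {κ S P N n : γ → M} (h1 : Rec R κ) (h2 : Rec R S)
    (h3 : Rec R P) (h4 : Rec R N) (h5 : Rec R n) :
    Rec R (fun x => Om (κ x) (S x) (P x) (N x) (n x)) := by
  unfold OVW.Om; fun_prop

/-- B91 (averages over `Om`; the levels are increasing; the embeddings are trees). -/
def Stmt_B91 : Prop := ∀ (M : Type) [Arith M] [HasWorld M] (R : Set (M → M)) [IsWorld R]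
  (k S P N n : M), 0 < S → 0 < P → 0 < n → N = (S + n) * P →
  (∃ ω, ω ∈ Om (k + 1) S P N n) ∧
  (∀ F : M × Wd M × Wd M → KK M, Rec R F → havg (Om (k + 1) S P N n) F =
    havg (rng S) (fun sig => havg (W P n) (fun i => havg (W (k + 1) N) (fun y => F (sig, i, y))))) ∧
  (∀ sig : M, ∀ i ∈ W P n, ∀ a b : M, a < b → lamE P sig i a < lamE P sig i b) ∧
  (∀ sig < S, ∀ i ∈ W P n, ∀ a < n, lamE P sig i a < N) ∧
  ∀ ω ∈ Om (k + 1) S P N n, Tree k n N (TE P ω)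

/-- B92 (replacing the letters number `lam 0, .., lam (s - 1)` by the letters of `x`). -/
def Stmt_B92 : Prop := ∀ (M : Type) [Arith M] [HasWorld M] (R : Set (M → M)) [IsWorld R]
  (κ N P sig : M) (x i2 : Wd M) (eps : KK M) (g : Wd M → KK M), 0 < κ → 0 < eps →
  (κ : KK M) / (eps * eps) ≤ P → (sig + x.len) * P ≤ N → x ∈ W κ x.len → Rec R g →
  (∀ y ∈ W κ N, 0 ≤ g y ∧ g y ≤ 1) →
  |havg (W P x.len) (fun i1 => havg (W κ N) (fun y => g (ins (lamE P sig (i1 ++ i2)) y x))) -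
    havg (W κ N) g| ≤ x.len * eps

/-- B93 (shift of `sig`). -/
def Stmt_B93 : Prop := ∀ (M : Type) [Arith M] [HasWorld M] (R : Set (M → M)) [IsWorld R]
  (S s : M) (H : M → KK M), 0 < S → Rec R H → (∀ j, 0 ≤ H j ∧ H j ≤ 1) →
  |havg (rng S) (fun j => H (j + s)) - havg (rng S) H| ≤ (s : KK M) / S

/-- B94 (Lemma 9 (ii)). -/
def Stmt_B94 : Prop := ∀ (M : Type) [Arith M] [HasWorld M] (R : Set (M → M)) [IsWorld R]
  (k S P N n : M) (eps : KK M) (E : Wd M → Prop) (x : Wd M) (U : FSet M (Wd M)), 0 < n → 0 < eps →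
  4 * (n : KK M) / eps ≤ S → ((k + 1 : M) : KK M) / (eps / (4 * n) * (eps / (4 * n))) ≤ P →
  N = (S + n) * P → Rec R E → x ∈ Wlt (k + 1) n → (∀ u ∈ U, x.len + u.len < n) →
  |hpr (Om (k + 1) S P N n) (fun ω => ∀ u ∈ U, E (TE P ω (x ++ u))) -
    hpr (Om (k + 1) S P N n) (fun ω => ∀ u ∈ U, E (TE P ω u))| ≤ eps / 2

/-- B95 (the beginning of the random embedding has a random level). -/
def Stmt_B95 : Prop := ∀ (M : Type) [Arith M] [HasWorld M] (R : Set (M → M)) [IsWorld R]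
  (k S P N n : M) (eps : KK M) (E : Wd M → Prop), 0 < n → 0 < eps →
  4 * (n : KK M) / eps ≤ S → 0 < P → N = (S + n) * P → Rec R E →
  hpr (Om (k + 1) S P N n) (fun ω => E (TE P ω wnil)) =
    havg (rng (S * P)) (fun l => havg (W (k + 1) l) (fun x => ind M (E x))) ∧
  FW (k + 1) N (fun x => ind M (E x)) - eps / 4 ≤
    havg (rng (S * P)) (fun l => havg (W (k + 1) l) (fun x => ind M (E x)))

/-- A random embedding (the result of Lemma 9). -/
structure EmbW (R : Set (M → M)) (k n N : M) (eps : KK M) {Ω : Type} [Cod M Ω] (S : FSet M Ω)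
    (T : Ω → Wd M → Wd M) : Prop where
  ne : ∃ ω, ω ∈ S
  recT : Rec R (fun p : Ω × Wd M => T p.1 p.2)
  tree : ∀ ω ∈ S, Tree k n N (T ω)
  dens : ∀ E : Wd M → Prop, Rec R E → ∀ z ∈ Wlt (k + 1) n,
    FW (k + 1) N (fun x => ind M (E x)) - eps ≤ hpr S (fun ω => E (T ω z))
  shift : ∀ E : Wd M → Prop, Rec R E → ∀ x ∈ Wlt (k + 1) n, ∀ U : FSet M (Wd M),
    (∀ u ∈ U, x.len + u.len < n) → hpr S (fun ω => ∀ u ∈ U, E (T ω (x ++ u))) - eps ≤
      hpr S (fun ω => ∀ u ∈ U, E (T ω u))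

/-- Lemma 9. -/
def Stmt_B9 : Prop := ∀ (M : Type) [Arith M] [HasWorld M] (R : Set (M → M)) [IsWorld R]
  (k n : M) (eps : KK M), 0 < n → 0 < eps →
  ∃ S P N : M, 0 < N ∧ EmbW R k n N eps (Om (k + 1) S P N n) (TE P)

/-! ## Lemma 10: the words `g_s` -/

/-- The tree `T0`: `k g_0 z_1 g_1 z_2 g_2 ...`. -/
noncomputable def TTw (k : M) (g : M → Wd M) (z : Wd M) : Wd M :=
  wsing k ++ g 0 ++ wjoin z.len (fun i => wsing (z.get i) ++ g (i + 1))

@[fun_prop] theorem Rec.TTw {k : γ → M} {g : γ → M → Wd M} {z : γ → Wd M} (h1 : Rec R k)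
    (h2 : Rec R (fun x : γ × M => g x.1 x.2)) (h3 : Rec R z) :
    Rec R (fun x => TTw (k x) (g x) (z x)) := by
  unfold OVW.TTw; fun_prop

/-- the bounds of the lengths: `Len h 0 = 1`, `Len h (s + 1) = (h + 1) * Len h s + 1` -/
noncomputable def Len (h s : M) : M := prec 1 (fun _ y => (h + 1) * y + 1) s

@[fun_prop] theorem Rec.Len {h s : γ → M} (h1 : Rec R h) (h2 : Rec R s) :
    Rec R (fun x => Len (h x) (s x)) := by
  unfold OVW.Len; fun_prop

/-- BT1 (the words `TTw`; the numbers `Len`). -/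
def Stmt_BT1 : Prop := ∀ (M : Type) [Arith M] [HasWorld M] (R : Set (M → M)) [IsWorld R]
  (k h : M) (g : M → Wd M), Rec R g →
  (∀ z c, TTw k g (z ++ wsing c) = TTw k g z ++ wsing c ++ g (z.len + 1)) ∧
  (∀ z, ∃ v, TTw k g z = wsing k ++ v) ∧
  (∀ (g' : M → Wd M) (z : Wd M), Rec R g' → (∀ i ≤ z.len, g i = g' i) →
    TTw k g z = TTw k g' z) ∧
  (Len h 0 = 1 ∧ (∀ s, Len h (s + 1) = (h + 1) * Len h s + 1) ∧ ∀ s t, s ≤ t → Len h s ≤ Len h t) ∧
  ((∀ i, g i ∈ W (k + 1) (g i).len) → ∀ z, z ∈ W (k + 1) z.len →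
    TTw k g z ∈ W (k + 1) (TTw k g z).len) ∧
  ((∀ i, (g i).len ≤ h * Len h i) → ∀ z, (TTw k g z).len ≤ (h + 1) * Len h z.len ∧
    (g z.len = wnil → (TTw k g z).len ≤ Len h z.len))

/-- BT2 (`TTw` is a tree). -/
def Stmt_BT2 : Prop := ∀ (M : Type) [Arith M] [HasWorld M] (R : Set (M → M)) [IsWorld R]
  (k m n : M) (g : M → Wd M), Rec R g → (∀ i, g i ∈ W (k + 1) (g i).len) →
  (∀ z ∈ Wlt (k + 1) m, (TTw k g z).len < n) → (∀ z ∈ Wlt (k + 1 + 1) m, (TTw k g z).len < n) →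
  Tree k m n (TTw k g)

/-- The words `e(t)`: the tuple `z^1, z^2, ..` of words of length `s` is coded as one word `Z`. -/
noncomputable def eW (k s : M) (Wf : Wd M → Wd M) (Z t : Wd M) : Wd M :=
  wjoin t.len (fun i => wsub k (Wf ((Z.drop (s * i)).take s)) (t.get i))

@[fun_prop] theorem Rec.eW {k s : γ → M} {Wf : γ → Wd M → Wd M} {Z t : γ → Wd M} (h1 : Rec R k)
    (h2 : Rec R s) (h3 : Rec R (fun x : γ × Wd M => Wf x.1 x.2)) (h4 : Rec R Z) (h5 : Rec R t) :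
    Rec R (fun x => eW (k x) (s x) (Wf x) (Z x) (t x)) := by
  unfold OVW.eW; fun_prop

/-- BE (the words `e(t)`). -/
def Stmt_BE : Prop := ∀ (M : Type) [Arith M] [HasWorld M] (R : Set (M → M)) [IsWorld R]
  (k s : M) (Wf : Wd M → Wd M), Rec R Wf →
  (∀ (Z x v : Wd M) (a : M), eW k s Wf Z (x ++ wsing a ++ wsub k v a) = eW k s Wf Z x ++
    wsub k (Wf ((Z.drop (s * x.len)).take s) ++ eW k s Wf (Z.drop (s * (x.len + 1))) v) a) ∧
  (∀ B j : M, (∀ z ∈ W (k + 1) s, Wf z ∈ W (k + 1) (Wf z).len ∧ (Wf z).len ≤ B) →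
    ∀ Z ∈ W (k + 1) (s * j), ∀ t, t ∈ W (k + 1) t.len → t.len ≤ j →
      eW k s Wf Z t ∈ W (k + 1) (eW k s Wf Z t).len ∧ (eW k s Wf Z t).len ≤ t.len * B)

/-- The set `D` of Lemma 10. -/
def DD (k : M) (E : Wd M → Prop) (T : Wd M → Wd M) (v : Wd M) : Prop :=
  E (T wnil) ∧ ∀ a < k, E (T (wsub k v a))

@[fun_prop] theorem Rec.DD {k : γ → M} {E : γ → Wd M → Prop} {T : γ → Wd M → Wd M}
    {v : γ → Wd M} (h1 : Rec R k) (h2 : Rec R (fun x : γ × Wd M => E x.1 x.2))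
    (h3 : Rec R (fun x : γ × Wd M => T x.1 x.2)) (h4 : Rec R v) :
    Rec R (fun x => DD (k x) (E x) (T x) (v x)) := by
  unfold OVW.DD; fun_prop

/-- B10a (the line for one tuple). -/
def Stmt_B10a : Prop := ∀ (M : Type) [Arith M] [HasWorld M] (R : Set (M → M)) [IsWorld R]
  (k h n N s B : M) (d eps : KK M) (Ω : Type) [Cod M Ω] (S : FSet M Ω) (T : Ω → Wd M → Wd M)
  (E : Wd M → Prop) (Wf : Wd M → Wd M), 0 < k → 0 < h → 0 < d → DCS k (d / 2) h →
  EmbW R k n N eps S T → eps ≤ d / 2 / (lineSet k h).card / 2 → Rec R E →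
  d ≤ FW (k + 1) N (fun x => ind M (E x)) - eps → Rec R Wf →
  (∀ z ∈ W (k + 1) s, Wf z ∈ W (k + 1) (Wf z).len ∧ (Wf z).len ≤ B) → (2 * h + 1) * B < n →
  ∀ Z ∈ W (k + 1) (s * h), ∃ p ∈ lineSet k h,
    d / 2 / (lineSet k h).card / 2 ≤ hpr S (fun ω => DD k E (T ω)
      (Wf ((Z.drop (s * p.1.len)).take s) ++ eW k s Wf (Z.drop (s * (p.1.len + 1))) p.2))

/-- B10b (the choice of one word). -/
def Stmt_B10b : Prop := ∀ (M : Type) [Arith M] [HasWorld M] (R : Set (M → M)) [IsWorld R]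
  (k h n N s B : M) (d eps : KK M) (Ω : Type) [Cod M Ω] (S : FSet M Ω) (T : Ω → Wd M → Wd M)
  (E : Wd M → Prop) (Wf : Wd M → Wd M), 0 < k → 0 < h → 0 < d → DCS k (d / 2) h →
  EmbW R k n N eps S T → eps ≤ d / 2 / (lineSet k h).card / 2 → Rec R E →
  d ≤ FW (k + 1) N (fun x => ind M (E x)) - eps → Rec R Wf →
  (∀ z ∈ W (k + 1) s, Wf z ∈ W (k + 1) (Wf z).len ∧ (Wf z).len ≤ B) → (2 * h + 1) * B < n →
  ∃ g : Wd M, g ∈ W (k + 1) g.len ∧ g.len ≤ h * B ∧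
    d / 2 / (lineSet k h).card / 2 / (lineSet k h).card ≤
      havg (W (k + 1) s) (fun z => hpr S (fun ω => DD k E (T ω) (Wf z ++ g)))

/-- B10c (the choice of all words). -/
def Stmt_B10c : Prop := ∀ (M : Type) [Arith M] [HasWorld M] (R : Set (M → M)) [IsWorld R]
  (k h n N m : M) (d eps : KK M) (Ω : Type) [Cod M Ω] (S : FSet M Ω) (T : Ω → Wd M → Wd M)
  (E : Wd M → Prop), 0 < k → 0 < h → 0 < d → DCS k (d / 2) h →
  EmbW R k n N eps S T → eps ≤ d / 2 / (lineSet k h).card / 2 → Rec R E →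
  d ≤ FW (k + 1) N (fun x => ind M (E x)) - eps → (2 * h + 1) * Len h m < n →
  ∃ g : M → Wd M, Rec R g ∧ (∀ i, g i ∈ W (k + 1) (g i).len) ∧ (∀ i, (g i).len ≤ h * Len h i) ∧
    ∀ s ≤ m, d / 2 / (lineSet k h).card / 2 / (lineSet k h).card ≤
      havg (W (k + 1) s) (fun z => hpr S (fun ω => DD k E (T ω) (TTw k g z)))

/-! ## Lemma 10: the increment -/

/-- B10d (`E'` and `D` are disjoint). -/
def Stmt_B10d : Prop := ∀ (M : Type) [Arith M] [HasWorld M] (R : Set (M → M)) [IsWorld R]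
  (k n N : M) (E : Wd M → Prop) (T : Wd M → Wd M) (v : Wd M), 0 < k → Rec R E → Rec R T →
  Free (k + 1) N E → Tree k n N T → wsing k ++ v ∈ Wlt (k + 1) n → DD k E T (wsing k ++ v) →
  ¬ E (T (wsing k ++ v))

/-- The sets `G_j`: the complement of `D` is the disjoint union over `j < k` of the intersections
over `i < k` of these sets. -/
def GG (k : M) (E : Wd M → Prop) (T Wf : Wd M → Wd M) (j i : M) (z : Wd M) : Prop :=
  (i < j → E (T (wsub k (Wf z) i))) ∧ (i = j → ¬ E (T (wsub k (Wf z) i)))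

@[fun_prop] theorem Rec.GG {k j i : γ → M} {E : γ → Wd M → Prop} {T Wf : γ → Wd M → Wd M}
    {z : γ → Wd M} (h1 : Rec R k) (h2 : Rec R (fun x : γ × Wd M => E x.1 x.2))
    (h3 : Rec R (fun x : γ × Wd M => T x.1 x.2)) (h4 : Rec R (fun x : γ × Wd M => Wf x.1 x.2))
    (h5 : Rec R j) (h6 : Rec R i) (h7 : Rec R z) :
    Rec R (fun x => GG (k x) (E x) (T x) (Wf x) (j x) (i x) (z x)) := by
  unfold OVW.GG; fun_prop

/-- B10e (the decomposition of the complement of `D`). -/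
def Stmt_B10e : Prop := ∀ (M : Type) [Arith M] [HasWorld M] (R : Set (M → M)) [IsWorld R]
  (k : M) (E : Wd M → Prop) (T Wf : Wd M → Wd M), Rec R E → Rec R T → Rec R Wf →
  (∀ z, E (T wnil) → ind M (¬ DD k E T (Wf z)) =
    hsum (rng k) (fun j => ind M (∀ i < k, GG k E T Wf j i z))) ∧
  ∀ m n j i : M, i < k → Tree k m n Wf → Ins k i m (GG k E T Wf j i)

/-- B10f (the average over the embeddings). -/
def Stmt_B10f : Prop := ∀ (M : Type) [Arith M] [HasWorld M] (R : Set (M → M)) [IsWorld R]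
  (k n N m : M) (θ u ga0 ga eps : KK M) (Ω : Type) [Cod M Ω] (S : FSet M Ω) (T : Ω → Wd M → Wd M)
  (E : Wd M → Prop) (g : M → Wd M), 0 < k → EmbW R k n N eps S T → Rec R E → Rec R g →
  (∀ i, g i ∈ W (k + 1) (g i).len) → Free (k + 1) N E →
  θ = FW (k + 1) N (fun x => ind M (E x)) → u = θ + 2 * ga → 0 ≤ ga → eps ≤ ga →
  8 * ga ≤ θ * ga0 → 0 ≤ ga0 →
  (∀ z ∈ Wlt (k + 1) (m + 1), TTw k g z ∈ Wlt (k + 1) n) →
  (∀ s ≤ m, ga0 ≤ havg (W (k + 1) s) (fun z => hpr S (fun ω => DD k E (T ω) (TTw k g z)))) →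
  ∃ ω ∈ S, 2 * ga ≤ FW (k + 1) (m + 1) (fun z => ind M (¬ DD k E (T ω) (TTw k g z)) *
    (ind M (E (T ω (TTw k g z))) - u))

/-- B10g (the choice of the insensitive sets). -/
def Stmt_B10g : Prop := ∀ (M : Type) [Arith M] [HasWorld M] (R : Set (M → M)) [IsWorld R]
  (k n m : M) (u ga : KK M) (E : Wd M → Prop) (T Wf : Wd M → Wd M), 0 < k → 0 < ga →
  Rec R E → Rec R T → Rec R Wf → Tree k (m + 1) n Wf →
  2 * ga ≤ FW (k + 1) (m + 1) (fun z => ind M (¬ DD k E T (Wf z)) * (ind M (E (T (Wf z))) - u)) →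
  ∃ H : FFun M M (FSet M (Wd M)), (∀ i < k, Ins k i (m + 1) (fun x => x ∈ H i)) ∧
    2 * ga / k ≤ score k (m + 1) (fun x => ∀ i < k, x ∈ H i)
      (ffun (Wlt (k + 1) (m + 1)) (fun z => ind M (E (T (Wf z))))) u

/-- There are lines. -/
def Stmt_BLN : Prop := ∀ (M : Type) [Arith M] [HasWorld M] (R : Set (M → M)) [IsWorld R]
  (κ h : M) (c : KK M), 0 < κ → 0 < h → DCS κ c h →
  (c ≤ 1 → 0 < (lineSet κ h).card) ∧ ∀ d, c ≤ d → DCS κ d h

/-- Lemma 10. The world `R` is the one of Lemma 7. -/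
def StmtL10 (R : Set (M → M)) : Prop :=
  ∀ (k : M) (hh : KK M → M), 0 < k → Rec R hh → Bound k hh → ∀ dl : KK M, 0 < dl →
  ∃ ga : KK M, 0 < ga ∧ ∀ m' : M, ∃ N : M, 0 < N ∧ ∀ E : Wd M → Prop, Rec R E →
    Free (k + 1) N E → dl ≤ FW (k + 1) N (fun x => ind M (E x)) →
    ∃ T : Wd M → Wd M, Rec R T ∧ Tree k (m' + 1) N T ∧
      ∀ i ≤ m', FW (k + 1) N (fun x => ind M (E x)) + ga ≤
        havg (W (k + 1) i) (fun z => ind M (E (T z)))

/-! ## Section 5 -/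

/-- BK1: one letter. -/
def Stmt_BK1 : Prop := ∀ (M : Type) [Arith M] [HasWorld M] (R : Set (M → M)) [IsWorld R]
  (dl : KK M), 0 < dl → ∃ n : M, 0 < n ∧ DCS 1 dl n

/-- BKS: the induction step. -/
def Stmt_BKS : Prop := ∀ (M : Type) [Arith M] [HasWorld M] (R : Set (M → M)) [IsWorld R] (k : M),
  0 < k → StmtL10 R → (∃ hh : KK M → M, Rec R hh ∧ Bound k hh) →
  ∀ dl : KK M, 0 < dl → ∃ n : M, 0 < n ∧ DCS (k + 1) dl n

/-- **The density Carlson-Simpson theorem** in dimension one, inside a pair of worlds. -/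
def Stmt_DCS : Prop := ∀ (M : Type) [Arith M] [HasWorld M] (R0 R1 : Set (M → M)) [IsWorld R0]
  [IsWorld R1], R0 ⊆ R1 → JumpIn R0 R1 →
  ∀ k : M, 0 < k → ∀ dl : KK M, 0 < dl → ∃ n : M, 0 < n ∧ DCS k dl n

end Pool.Agent.OVW
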