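import Pool.Agent.OVW.BDefs

/-!
# Block C: definitions

The alphabet has the letters `0, ..., a - 1`. A partial solution is a word over `a + 2` letters: the
letter `a` is the variable, the letter `a + 1` is the variable as the first letter of a new
variable word. Paper: `PAPER_C.md`.
-/

namespace Pool.Agent.OVW.FC

open Classical

set_option linter.unusedSectionVars false

variable {M : Type} [Arith M] [HasWorld M] {R : Set (M → M)} [IsWorld R] {α β γ δ : Type}
variable [Cod M α] [Cod M β] [Cod M γ] [Cod M δ]

/-! ### Words with variables -/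

/-- Every variable in `t` belongs to a variable word which starts in `t`. -/
def Legal (a : M) (t : Wd M) : Prop := ∀ i < t.len, t.get i = a → ∃ j < i, t.get j = a + 1

@[fun_prop] theorem Rec.Legal {a : γ → M} {t : γ → Wd M} (h1 : Rec R a) (h2 : Rec R t) :
    Rec R (fun x => Legal (a x) (t x)) := by unfold FC.Legal; fun_prop

/-- `y` is an instance of `t`. -/
def Mt (a : M) (t y : Wd M) : Prop :=
  y ∈ W a t.len ∧ (∀ i < t.len, t.get i < a → y.get i = t.get i) ∧
    ∀ i < t.len, t.get i = a → ∀ j < i, t.get j = a + 1 →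
      (∀ k ≤ i, j < k → t.get k ≠ a + 1) → y.get i = y.get j

@[fun_prop] theorem Rec.Mt {a : γ → M} {t y : γ → Wd M} (h1 : Rec R a) (h2 : Rec R t)
    (h3 : Rec R y) : Rec R (fun x => Mt (a x) (t x) (y x)) := by unfold FC.Mt; fun_prop

/-- All instances of the closed beginnings of `t` (those which end before a new variable word) are
in `D`. -/
def Cl (a : M) (D : Wd M → Prop) (t : Wd M) : Prop :=
  ∀ i < t.len, t.get i = a + 1 → ∀ y ∈ W a i, Mt a (t.take i) y → D y

@[fun_prop] theorem Rec.Cl {a : γ → M} {D : γ → Wd M → Prop} {t : γ → Wd M} (h1 : Rec R a)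
    (h2 : Rec R (fun x : γ × Wd M => D x.1 x.2)) (h3 : Rec R t) :
    Rec R (fun x => Cl (a x) (D x) (t x)) := by unfold FC.Cl; fun_prop

/-- The reservoir after the extension by `t`. -/
def Dt (a : M) (D : Wd M → Prop) (t : Wd M) (z : Wd M) : Prop :=
  z ∈ W a z.len ∧ ∀ y ∈ W a t.len, Mt a t y → D (y ++ z)

@[fun_prop] theorem Rec.Dt {a : γ → M} {D : γ → Wd M → Prop} {t z : γ → Wd M} (h1 : Rec R a)
    (h2 : Rec R (fun x : γ × Wd M => D x.1 x.2)) (h3 : Rec R t) (h4 : Rec R z) :
    Rec R (fun x => Dt (a x) (D x) (t x) (z x)) := by unfold FC.Dt; fun_prop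

/-- The number of the words of length `n` with the property `p`. -/
noncomputable def cnt (a n : M) (p : Wd M → Prop) : M := ((W a n).filter p).card

@[fun_prop] theorem Rec.cnt {a n : γ → M} {p : γ → Wd M → Prop} (h1 : Rec R a) (h2 : Rec R n)
    (h3 : Rec R (fun x : γ × Wd M => p x.1 x.2)) :
    Rec R (fun x => cnt (a x) (n x) (p x)) := by unfold FC.cnt; fun_prop

/-! ### Conditions -/

/-- A condition: a partial solution `s`, a reservoir `D` of words, a set `E` of levels, and a
number `d`; in a good condition `E` is infinite and `D` has density `≥ 1 / d` in the levels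
`n ∈ E`. -/
@[ext (iff := false)]
structure Cnd (M : Type) [Arith M] where
  /-- the partial solution -/
  s : Wd M
  /-- the reservoir -/
  D : Wd M → Prop
  /-- the levels -/
  E : M → Prop
  /-- the inverse of the density -/
  d : M

/-- The condition is given by recursive data in the world `R`. -/
structure Cnd.IsRec (R : Set (M → M)) (C : Cnd M) : Prop where
  D : Rec R C.D
  E : Rec R C.E

/-- `D` has density at least `1 / d` in the levels of `E`. -/
def Cnd.Dense (a : M) (C : Cnd M) : Prop := ∀ n, C.E n → hpow a n ≤ cnt a n C.D * C.d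

/-- There are arbitrarily large levels. -/
def Cnd.Inf (C : Cnd M) : Prop := ∀ b, ∃ m, b < m ∧ C.E m

/-- The condition `C'` extends the condition `C`. -/
def Cnd.Ext (a : M) (C C' : Cnd M) : Prop :=
  C'.s = C.s ++ C'.s.drop C.s.len ∧ C'.s.drop C.s.len ∈ W (a + 2) (C'.s.drop C.s.len).len ∧
    Legal a (C'.s.drop C.s.len) ∧ Cl a C.D (C'.s.drop C.s.len) ∧
    ∀ z, C'.D z → Dt a C.D (C'.s.drop C.s.len) z

/-! ### Questions

`U q s` is a property of the words `s` for every number `q`. The question number `q` is: a new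
variable word, if `fs q = 0`, and `U q` otherwise. -/

/-- The question number `q`, for an extension `t` of `s`. -/
def Ques (a : M) (U : M → Wd M → Prop) (q : M) (s t : Wd M) : Prop :=
  if fs q = 0 then ∃ i < t.len, t.get i = a + 1 else U q (s ++ t)

@[fun_prop] theorem Rec.Ques {a q : γ → M} {U : γ → M → Wd M → Prop} {s t : γ → Wd M}
    (h1 : Rec R a) (h2 : Rec R q) (h3 : Rec R (fun x : γ × M × Wd M => U x.1 x.2.1 x.2.2))
    (h4 : Rec R s) (h5 : Rec R t) :
    Rec R (fun x => Ques (a x) (U x) (q x) (s x) (t x)) := by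
  unfold FC.Ques
  have h : Rec R (fun x => U x (q x) (s x ++ t x)) :=
    Rec.comp (g := fun x : γ × M × Wd M => U x.1 x.2.1 x.2.2)
      (f := fun x => (x, q x, s x ++ t x)) h3 (by fun_prop)
  fun_prop

variable (a : M) (U : M → Wd M → Prop)

/-- `t` is an extension of the condition `C` with a positive answer to the question `q`. -/
def Phi (C : Cnd M) (q : M) (t : Wd M) : Prop :=
  t ∈ W (a + 2) t.len ∧ Legal a t ∧ Cl a C.D t ∧ Ques a U q C.s t

/-- `B` is a set of words of length `n` in `C.D`, of density at least `1 / (16 d ^ 2)`, which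
contains for no extension `t` with a positive answer all words `y z`, `y` an instance of `t`. -/
def QB (C : Cnd M) (q n : M) (B : FSet M (Wd M)) : Prop :=
  (∀ x ∈ B, C.D x) ∧ hpow a n ≤ B.card * (16 * (C.d * C.d)) ∧
    ∀ t ∈ Wlt (a + 2) (n + 1), Phi a U C q t → ∀ z ∈ W a (n - t.len),
      ∃ y ∈ W a t.len, Mt a t y ∧ ¬ y ++ z ∈ B

/-- There is such a set `B`. -/
def QQ (C : Cnd M) (q n : M) : Prop := ∃ B ∈ (W a n).powerset, QB a U C q n B

/-- The least such set. -/
noncomputable def Bn (C : Cnd M) (q n : M) : FSet M (Wd M) :=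
  hchoose (W a n).powerset (QB a U C q n)

/-- The density after an extension of length `≤ n`. -/
noncomputable def dn (d n : M) : M := 16 * (d * d) * ((Wlt (a + 2) (n + 1)).card * hpow a n)

/-- negative answer to the question `q` -/
noncomputable def stepY (q : M) (C : Cnd M) : Cnd M where
  s := C.s
  D := fun z => C.E z.len ∧ QQ a U C q z.len ∧ z ∈ Bn a U C q z.len
  E := fun n => C.E n ∧ QQ a U C q n
  d := 16 * (C.d * C.d)

/-- fewer levels -/
noncomputable def stepT (n : M) (C : Cnd M) : Cnd M where
  s := C.s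
  D := C.D
  E := fun m => C.E m ∧ n < m ∧
    cnt a m (fun x => C.D x ∧ C.D (x.take n)) * (8 * (C.d * C.d)) < hpow a m
  d := C.d

/-- extension by `t` (of length `≤ n`) -/
noncomputable def stepX (n : M) (t : Wd M) (C : Cnd M) : Cnd M where
  s := C.s ++ t
  D := Dt a C.D t
  E := fun m => C.E (m + t.len) ∧ hpow a m ≤ cnt a m (Dt a C.D t) * dn a C.d n
  d := dn a C.d n

/-- Operations: the tag `0`, `1`, `2`, the level, the number of the question, the word. -/
abbrev Op (M : Type) [Arith M] : Type := M × M × M × Wd M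

/-- One step. -/
noncomputable def stepC (o : Op M) (C : Cnd M) : Cnd M :=
  if o.1 = 0 then stepY a U o.2.2.1 C
  else if o.1 = 1 then stepT a o.2.1 C
  else stepX a o.2.1 o.2.2.2 C

/-- The candidates for the next operation, if the question `q` has no negative answer because of
the level `n`. -/
noncomputable def cand (C : Cnd M) (q n : M) : FSet M (Op M) :=
  {((1 : M), n, q, wnil)} ∪
    ((Wlt (a + 2) (n + 1)).filter (Phi a U C q)).image (fun t => ((2 : M), n, q, t))

/-- The initial condition for the colouring `F` and the colour `c`. -/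
noncomputable def Cnd0 (F : Wd M → M) (c l : M) : Cnd M where
  s := wnil
  D := fun z => z ∈ W a z.len ∧ F z = c
  E := fun n => hpow a n ≤ cnt a n (fun z => z ∈ W a z.len ∧ F z = c) * l
  d := l

/-! ### The conditions given by a sequence of operations -/

/-- The part of a condition below the height `N` (as finite sets). -/
abbrev St (M : Type) [Arith M] [HasWorld M] : Type := Wd M × FSet M (Wd M) × FSet M M × M

/-- The part of a condition below the height `N`. -/
noncomputable def trunc (N : M) (C : Cnd M) : St M :=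
  (C.s, (Wlt a (N + 1 - C.s.len)).filter C.D, (rng (N + 1 - C.s.len)).filter C.E, C.d)

/-- A finite condition. -/
def untrunc (x : St M) : Cnd M where
  s := x.1
  D := fun z => z ∈ x.2.1
  E := fun n => n ∈ x.2.2.1
  d := x.2.2.2

/-- The part below `N` of the condition after the first `i` operations of the history `h`. -/
noncomputable def run (C0 : Cnd M) (h : Wd M) (N i : M) : St M :=
  prec (trunc a N C0) (fun i x => trunc a N (stepC a U (dec (h.get i)) (untrunc x))) i

/-- The condition after the first `i` operations of the history `h`. -/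
noncomputable def cndI (C0 : Cnd M) (h : Wd M) (i : M) : Cnd M where
  s := (run a U C0 h 0 i).1
  D := fun z => z ∈ (run a U C0 h ((run a U C0 h 0 i).1.len + z.len) i).2.1
  E := fun n => n ∈ (run a U C0 h ((run a U C0 h 0 i).1.len + n) i).2.2.1
  d := (run a U C0 h 0 i).2.2.2

/-- The condition after all operations of the history `h`. -/
noncomputable def cnd (C0 : Cnd M) (h : Wd M) : Cnd M := cndI a U C0 h h.len

/-- `C` and `C'` agree below the height `N`. -/
def Agree (N : M) (C C' : Cnd M) : Prop :=
  C.s = C'.s ∧ C.d = C'.d ∧ (∀ z ∈ Wlt a (N + 1 - C.s.len), C.D z ↔ C'.D z) ∧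
    ∀ n < N + 1 - C.s.len, C.E n ↔ C'.E n

/-- A good condition (without the infinity of the set of levels). -/
structure Cnd.Ok (C : Cnd M) : Prop where
  dom : ∀ z, C.D z → z ∈ W a z.len
  dense : C.Dense a
  pos : 0 < C.d

/-- One step of the construction: `x` is the history and the number of the question. -/
def Nxt (C0 : Cnd M) (x x' : Wd M × M) : Prop :=
  ((∀ n, (cnd a U C0 x.1).E n → QQ a U (cnd a U C0 x.1) x.2 n) ∧
    x' = (x.1 ++ wsing (enc (((0 : M), (0 : M), x.2, wnil) : Op M)), x.2 + 1)) ∨
  ∃ n, (cnd a U C0 x.1).E n ∧ ¬ QQ a U (cnd a U C0 x.1) x.2 n ∧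
    ∃ o ∈ cand a U (cnd a U C0 x.1) x.2 n, (stepC a U o (cnd a U C0 x.1)).Inf ∧
      x' = (x.1 ++ wsing (enc o), if o.1 = 1 then x.2 else x.2 + 1)

/-- The result of the construction: partial solutions `sk k`, the step `kk q` in which the question
`q` is decided, and the decisions `dd q`. -/
structure Traj (R₂ : Set (M → M)) (C0 : Cnd M) (sk : M → Wd M) (kk : M → M) (dd : M → Prop) :
    Prop where
  rs : Rec R₂ sk
  rk : Rec R₂ kk
  rd : Rec R₂ dd
  ext : ∀ k k', k ≤ k' → ∃ t, sk k' = sk k ++ t
  word : ∀ k, sk k ∈ W (a + 2) (sk k).len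
  legal : ∀ k, Legal a (sk k)
  cl : ∀ k, Cl a C0.D (sk k)
  mono : ∀ q q', q < q' → kk q < kk q'
  clo : ∀ q, fs q = 0 → ∃ i, (sk (kk q)).len ≤ i ∧ i < (sk (kk q + 1)).len ∧
    (sk (kk q + 1)).get i = a + 1
  yes : ∀ q, fs q ≠ 0 → dd q → U q (sk (kk q + 1))
  no : ∀ q, fs q ≠ 0 → ¬ dd q → ∀ k, kk q < k → ¬ U q (sk k)

/-! ### The questions about the jump of the solution -/

/-- The number of the variable words which start in `s`. -/
noncomputable def nst (s : Wd M) : M := ((rng s.len).filter (fun i => s.get i = a + 1)).card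

/-- The start of the variable word number `j`. -/
noncomputable def pst (s : Wd M) (j : M) : M :=
  least (fun i => s.len ≤ i ∨ (s.get i = a + 1 ∧ nst a (s.take i) = j))

/-- The value of the pair of the infinite word over `a + 1` letters and of the sequence of the
starts, as far as it is determined by `s`. -/
noncomputable def gst (s : Wd M) (i : M) : M :=
  pr (if s.get i < a then s.get i else a) (pst a s i)

/-- The question number `q` (with `fs q ≠ 0`) about the partial solution `s`. -/
def UU (u : M → M) (q : M) (s : Wd M) : Prop :=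
  ∃ n ≤ nst a s, u (pr (fs q - 1) (pr (sn q) (seg (gst a s) n))) ≠ 0

end Pool.Agent.OVW.FC
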