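import Pool.Agent.OVW.CDefs

/-!
# Block C: all constructions are recursive
-/

namespace Pool.Agent.OVW.FC

open Classical

set_option linter.unusedSectionVars false

variable {M : Type} [Arith M] [HasWorld M] {R : Set (M → M)} [IsWorld R] {α β γ δ : Type}
variable [Cod M α] [Cod M β] [Cod M γ] [Cod M δ]

/-- A recursive family of conditions. -/
structure RecC (R : Set (M → M)) (C : γ → Cnd M) : Prop where
  s : Rec R (fun x => (C x).s)
  D : Rec R (fun x : γ × Wd M => (C x.1).D x.2)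
  E : Rec R (fun x : γ × M => (C x.1).E x.2)
  d : Rec R (fun x => (C x).d)

theorem RecC.mono {R' : Set (M → M)} (h : R ⊆ R') {C : γ → Cnd M} (hC : RecC R C) : RecC R' C :=
  ⟨h hC.s, h hC.D, h hC.E, h hC.d⟩

theorem RecC.comp {C : β → Cnd M} (hC : RecC R C) {f : γ → β} (hf : Rec R f) :
    RecC R (fun x => C (f x)) := by
  refine ⟨Rec.comp (g := fun x => (C x).s) hC.s hf, ?_, ?_, Rec.comp (g := fun x => (C x).d) hC.d hf⟩
  · exact Rec.comp (g := fun x : β × Wd M => (C x.1).D x.2) (f := fun x : γ × Wd M => (f x.1, x.2))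
      hC.D (by fun_prop)
  · exact Rec.comp (g := fun x : β × M => (C x.1).E x.2) (f := fun x : γ × M => (f x.1, x.2))
      hC.E (by fun_prop)

theorem RecC.isRec {C : γ → Cnd M} (hC : RecC R C) (x : γ) : (C x).IsRec R := by
  refine ⟨?_, ?_⟩
  · exact Rec.comp (g := fun x : γ × Wd M => (C x.1).D x.2) (f := fun z : Wd M => (x, z)) hC.D
      (by fun_prop)
  · exact Rec.comp (g := fun x : γ × M => (C x.1).E x.2) (f := fun z : M => (x, z)) hC.E
      (by fun_prop)

theorem Cnd.IsRec.recC {C : Cnd M} (h : C.IsRec R) : RecC R (fun _ : γ => C) := by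
  refine ⟨by fun_prop, ?_, ?_, by fun_prop⟩
  · exact Rec.comp (g := C.D) (f := fun x : γ × Wd M => x.2) h.D (by fun_prop)
  · exact Rec.comp (g := C.E) (f := fun x : γ × M => x.2) h.E (by fun_prop)

section

variable {a : M} {U : M → Wd M → Prop} {C : γ → Cnd M} {q n : γ → M} {t : γ → Wd M}

theorem RecC.Phi (hU : Rec R (fun p : M × Wd M => U p.1 p.2)) (hC : RecC R C) (hq : Rec R q)
    (ht : Rec R t) : Rec R (fun x => Phi a U (C x) (q x) (t x)) := by
  unfold FC.Phi
  have h1 := hC.s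
  have h2 := hC.D
  have h3 : Rec R (fun x => Cl a (C x).D (t x)) := Rec.Cl (by fun_prop) h2 ht
  have h4 : Rec R (fun x => Ques a U (q x) (C x).s (t x)) :=
    Rec.Ques (U := fun _ => U) (by fun_prop) hq
      (Rec.comp (g := fun p : M × Wd M => U p.1 p.2) (f := fun x : γ × M × Wd M => x.2) hU
        (by fun_prop)) h1 ht
  fun_prop

theorem RecC.QB (hU : Rec R (fun p : M × Wd M => U p.1 p.2)) (hC : RecC R C) (hq : Rec R q)
    (hn : Rec R n) {B : γ → FSet M (Wd M)} (hB : Rec R B) :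
    Rec R (fun x => QB a U (C x) (q x) (n x) (B x)) := by
  unfold FC.QB
  have h2 := hC.D
  have h5 := hC.d
  have h6 : Rec R (fun x : γ × Wd M => FC.Phi a U (C x.1) (q x.1) x.2) :=
    RecC.Phi hU (hC.comp Rec.fst_) (by fun_prop) (by fun_prop)
  fun_prop

theorem RecC.QQ (hU : Rec R (fun p : M × Wd M => U p.1 p.2)) (hC : RecC R C) (hq : Rec R q)
    (hn : Rec R n) : Rec R (fun x => QQ a U (C x) (q x) (n x)) := by
  unfold FC.QQ
  have h6 : Rec R (fun x : γ × FSet M (Wd M) => FC.QB a U (C x.1) (q x.1) (n x.1) x.2) :=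
    RecC.QB hU (hC.comp Rec.fst_) (by fun_prop) (by fun_prop) (by fun_prop)
  fun_prop

theorem RecC.Bn (hU : Rec R (fun p : M × Wd M => U p.1 p.2)) (hC : RecC R C) (hq : Rec R q)
    (hn : Rec R n) : Rec R (fun x => Bn a U (C x) (q x) (n x)) := by
  unfold FC.Bn
  have h6 : Rec R (fun x : γ × FSet M (Wd M) => FC.QB a U (C x.1) (q x.1) (n x.1) x.2) :=
    RecC.QB hU (hC.comp Rec.fst_) (by fun_prop) (by fun_prop) (by fun_prop)
  fun_prop

theorem Rec.dn {d : γ → M} (hd : Rec R d) (hn : Rec R n) : Rec R (fun x => dn a (d x) (n x)) := by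
  unfold FC.dn
  fun_prop

theorem RecC.stepY (hU : Rec R (fun p : M × Wd M => U p.1 p.2)) (hC : RecC R C) (hq : Rec R q) :
    RecC R (fun x => stepY a U (q x) (C x)) := by
  have h5 := hC.d
  have h1 : Rec R (fun x : γ × Wd M => (C x.1).E x.2.len) :=
    Rec.comp (g := fun x : γ × M => (C x.1).E x.2) (f := fun x : γ × Wd M => (x.1, x.2.len))
      hC.E (by fun_prop)
  have h2 : Rec R (fun x : γ × Wd M => FC.QQ a U (C x.1) (q x.1) x.2.len) :=
    RecC.QQ hU (hC.comp Rec.fst_) (by fun_prop) (by fun_prop)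
  have h3 : Rec R (fun x : γ × Wd M => FC.Bn a U (C x.1) (q x.1) x.2.len) :=
    RecC.Bn hU (hC.comp Rec.fst_) (by fun_prop) (by fun_prop)
  have h4 : Rec R (fun x : γ × M => FC.QQ a U (C x.1) (q x.1) x.2) :=
    RecC.QQ hU (hC.comp Rec.fst_) (by fun_prop) (by fun_prop)
  have h6 := hC.E
  refine ⟨hC.s, ?_, ?_, ?_⟩
  · show Rec R (fun x : γ × Wd M => (C x.1).E x.2.len ∧ FC.QQ a U (C x.1) (q x.1) x.2.len ∧
      x.2 ∈ FC.Bn a U (C x.1) (q x.1) x.2.len)
    fun_prop
  · show Rec R (fun x : γ × M => (C x.1).E x.2 ∧ FC.QQ a U (C x.1) (q x.1) x.2)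
    fun_prop
  · show Rec R (fun x => 16 * ((C x).d * (C x).d))
    fun_prop

theorem RecC.stepT (hC : RecC R C) (hn : Rec R n) :
    RecC R (fun x => stepT a (n x) (C x)) := by
  have h1 := hC.E
  have h2 := hC.d
  have h3 : Rec R (fun x : (γ × M) × Wd M => (C x.1.1).D x.2) :=
    Rec.comp (g := fun x : γ × Wd M => (C x.1).D x.2) (f := fun x : (γ × M) × Wd M => (x.1.1, x.2))
      hC.D (by fun_prop)
  have h4 : Rec R (fun x : (γ × M) × Wd M => (C x.1.1).D (x.2.take (n x.1.1))) :=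
    Rec.comp (g := fun x : γ × Wd M => (C x.1).D x.2)
      (f := fun x : (γ × M) × Wd M => (x.1.1, x.2.take (n x.1.1))) hC.D (by fun_prop)
  have h5 : Rec R (fun x : (γ × M) => FC.cnt a x.2
      (fun w => (C x.1).D w ∧ (C x.1).D (w.take (n x.1)))) :=
    Rec.cnt (by fun_prop) (by fun_prop) (by fun_prop)
  refine ⟨hC.s, hC.D, ?_, hC.d⟩
  show Rec R (fun x : γ × M => (C x.1).E x.2 ∧ n x.1 < x.2 ∧ FC.cnt a x.2
      (fun w => (C x.1).D w ∧ (C x.1).D (w.take (n x.1))) * (8 * ((C x.1).d * (C x.1).d)) <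
      hpow a x.2)
  have h6 : Rec R (fun x : γ × M => 8 * ((C x.1).d * (C x.1).d)) :=
    Rec.comp (g := fun x => 8 * ((C x).d * (C x).d)) (f := fun x : γ × M => x.1)
      (by fun_prop) Rec.fst_
  exact Rec.and h1 (Rec.and (by fun_prop) (Rec.lt (Rec.mul h5 h6) (by fun_prop)))

theorem RecC.stepX (hC : RecC R C) (hn : Rec R n) (ht : Rec R t) :
    RecC R (fun x => stepX a (n x) (t x) (C x)) := by
  have hs := hC.s
  have hd := hC.d
  have hE : Rec R (fun x : γ × M => (C x.1).E (x.2 + (t x.1).len)) :=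
    Rec.comp (g := fun x : γ × M => (C x.1).E x.2)
      (f := fun x : γ × M => (x.1, x.2 + (t x.1).len)) hC.E (by fun_prop)
  have h0 : Rec R (fun x : (γ × Wd M) × Wd M => (C x.1.1).D x.2) :=
    Rec.comp (g := fun x : γ × Wd M => (C x.1).D x.2) (f := fun x : (γ × Wd M) × Wd M =>
      (x.1.1, x.2)) hC.D (by fun_prop)
  have h1 : Rec R (fun x : γ × Wd M => FC.Dt a (C x.1).D (t x.1) x.2) :=
    Rec.Dt (by fun_prop) h0 (by fun_prop) (by fun_prop)
  have h2 : Rec R (fun x => FC.dn a (C x).d (n x)) := Rec.dn hd hn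
  have h3 : Rec R (fun x : (γ × M) × Wd M => FC.Dt a (C x.1.1).D (t x.1.1) x.2) :=
    Rec.comp (g := fun x : γ × Wd M => FC.Dt a (C x.1).D (t x.1) x.2)
      (f := fun x : (γ × M) × Wd M => (x.1.1, x.2)) h1 (by fun_prop)
  have h4 : Rec R (fun x : γ × M => FC.cnt a x.2 (FC.Dt a (C x.1).D (t x.1))) :=
    Rec.cnt (by fun_prop) (by fun_prop) h3
  refine ⟨?_, h1, ?_, h2⟩
  · show Rec R (fun x => (C x).s ++ t x)
    fun_prop
  · show Rec R (fun x : γ × M => (C x.1).E (x.2 + (t x.1).len) ∧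
      hpow a x.2 ≤ FC.cnt a x.2 (FC.Dt a (C x.1).D (t x.1)) * FC.dn a (C x.1).d (n x.1))
    exact Rec.and hE (Rec.le (by fun_prop) (Rec.mul h4 (Rec.comp h2 Rec.fst_)))

theorem RecC.ite {P : γ → Prop} [∀ x, Decidable (P x)] {C C' : γ → Cnd M} (hP : Rec R P) (hC : RecC R C)
    (hC' : RecC R C') : RecC R (fun x => if P x then C x else C' x) := by
  obtain ⟨h1, h2, h3, h4⟩ := hC
  obtain ⟨h1', h2', h3', h4'⟩ := hC'
  refine ⟨?_, ?_, ?_, ?_⟩
  · have e : (fun x => (if P x then C x else C' x).s) = fun x => if P x then (C x).s else (C' x).s := by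
      funext x; split_ifs <;> rfl
    rw [e]; fun_prop
  · have e : (fun x : γ × Wd M => (if P x.1 then C x.1 else C' x.1).D x.2) =
        fun x => if P x.1 then (C x.1).D x.2 else (C' x.1).D x.2 := by
      funext x; split_ifs <;> rfl
    rw [e]; fun_prop
  · have e : (fun x : γ × M => (if P x.1 then C x.1 else C' x.1).E x.2) =
        fun x => if P x.1 then (C x.1).E x.2 else (C' x.1).E x.2 := by
      funext x; split_ifs <;> rfl
    rw [e]; fun_prop
  · have e : (fun x => (if P x then C x else C' x).d) = fun x => if P x then (C x).d else (C' x).d := by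
      funext x; split_ifs <;> rfl
    rw [e]; fun_prop

theorem RecC.stepC (hU : Rec R (fun p : M × Wd M => U p.1 p.2)) (hC : RecC R C) {o : γ → Op M}
    (ho : Rec R o) : RecC R (fun x => stepC a U (o x) (C x)) := by
  unfold FC.stepC
  apply RecC.ite (by fun_prop) (RecC.stepY hU hC (by fun_prop))
  exact RecC.ite (by fun_prop) (RecC.stepT hC (by fun_prop))
    (RecC.stepX hC (by fun_prop) (by fun_prop))

theorem RecC.cand (hU : Rec R (fun p : M × Wd M => U p.1 p.2)) (hC : RecC R C) (hq : Rec R q)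
    (hn : Rec R n) : Rec R (fun x => cand a U (C x) (q x) (n x)) := by
  unfold FC.cand
  have h1 : Rec R (fun x : γ × Wd M => FC.Phi a U (C x.1) (q x.1) x.2) :=
    RecC.Phi hU (hC.comp Rec.fst_) (by fun_prop) (by fun_prop)
  fun_prop

theorem RecC.Cnd0 {F : Wd M → M} (hF : Rec R F) {c l : γ → M} (hc : Rec R c) (hl : Rec R l) :
    RecC R (fun x => Cnd0 a F (c x) (l x)) := by
  have h1 : Rec R (fun x : (γ × M) × Wd M => x.2 ∈ W a x.2.len ∧ F x.2 = c x.1.1) := by fun_prop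
  have h2 : Rec R (fun x : γ × M => FC.cnt a x.2 (fun z => z ∈ W a z.len ∧ F z = c x.1)) :=
    Rec.cnt (by fun_prop) (by fun_prop) h1
  refine ⟨Rec.const wnil, ?_, ?_, hl⟩
  · show Rec R (fun x : γ × Wd M => x.2 ∈ W a x.2.len ∧ F x.2 = c x.1)
    fun_prop
  · show Rec R (fun x : γ × M => hpow a x.2 ≤
      FC.cnt a x.2 (fun z => z ∈ W a z.len ∧ F z = c x.1) * l x.1)
    fun_prop

theorem Rec.trunc (hC : RecC R C) {N : γ → M} (hN : Rec R N) :
    Rec R (fun x => trunc a (N x) (C x)) := by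
  obtain ⟨h1, h2, h3, h4⟩ := hC
  unfold FC.trunc
  fun_prop

theorem RecC.untrunc {x : γ → St M} (hx : Rec R x) : RecC R (fun y => untrunc (x y)) := by
  refine ⟨?_, ?_, ?_, ?_⟩
  · show Rec R (fun y => (x y).1)
    fun_prop
  · show Rec R (fun y : γ × Wd M => y.2 ∈ (x y.1).2.1)
    fun_prop
  · show Rec R (fun y : γ × M => y.2 ∈ (x y.1).2.2.1)
    fun_prop
  · show Rec R (fun y => (x y).2.2.2)
    fun_prop

theorem Rec.run (hU : Rec R (fun p : M × Wd M => U p.1 p.2)) {C0 : Cnd M} (hC : C0.IsRec R)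
    {h : γ → Wd M} (hh : Rec R h) {N i : γ → M} (hN : Rec R N) (hi : Rec R i) :
    Rec R (fun x => run a U C0 (h x) (N x) (i x)) := by
  unfold FC.run
  apply Rec.prec
  · exact Rec.trunc hC.recC hN
  · have h1 : RecC R (fun x : γ × M × St M => FC.stepC a U (dec ((h x.1).get x.2.1) : Op M)
        (FC.untrunc x.2.2)) :=
      RecC.stepC hU (RecC.untrunc (by fun_prop)) (by fun_prop)
    exact Rec.trunc h1 (by fun_prop)
  · exact hi

theorem RecC.cndI (hU : Rec R (fun p : M × Wd M => U p.1 p.2)) {C0 : Cnd M} (hC : C0.IsRec R)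
    {h : γ → Wd M} (hh : Rec R h) {i : γ → M} (hi : Rec R i) :
    RecC R (fun x => cndI a U C0 (h x) (i x)) := by
  have h1 : Rec R (fun x => FC.run a U C0 (h x) 0 (i x)) := Rec.run hU hC hh (by fun_prop) hi
  have h0 : Rec R (fun x => (FC.run a U C0 (h x) 0 (i x)).1.len) := by fun_prop
  have h2 : Rec R (fun x : γ × Wd M => FC.run a U C0 (h x.1)
      ((FC.run a U C0 (h x.1) 0 (i x.1)).1.len + x.2.len) (i x.1)) :=
    Rec.run hU hC (by fun_prop) (Rec.add (Rec.comp (g := fun x => (FC.run a U C0 (h x) 0 (i x)).1.len) h0 Rec.fst_)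
      (by fun_prop)) (by fun_prop)
  have h3 : Rec R (fun x : γ × M => FC.run a U C0 (h x.1)
      ((FC.run a U C0 (h x.1) 0 (i x.1)).1.len + x.2) (i x.1)) :=
    Rec.run hU hC (by fun_prop) (Rec.add (Rec.comp (g := fun x => (FC.run a U C0 (h x) 0 (i x)).1.len) h0 Rec.fst_)
      (by fun_prop)) (by fun_prop)
  refine ⟨?_, ?_, ?_, ?_⟩
  · show Rec R (fun x => (FC.run a U C0 (h x) 0 (i x)).1)
    fun_prop
  · show Rec R (fun x : γ × Wd M => x.2 ∈ (FC.run a U C0 (h x.1)
      ((FC.run a U C0 (h x.1) 0 (i x.1)).1.len + x.2.len) (i x.1)).2.1)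
    fun_prop
  · show Rec R (fun x : γ × M => x.2 ∈ (FC.run a U C0 (h x.1)
      ((FC.run a U C0 (h x.1) 0 (i x.1)).1.len + x.2) (i x.1)).2.2.1)
    fun_prop
  · show Rec R (fun x => (FC.run a U C0 (h x) 0 (i x)).2.2.2)
    fun_prop

theorem RecC.cnd (hU : Rec R (fun p : M × Wd M => U p.1 p.2)) {C0 : Cnd M} (hC : C0.IsRec R)
    {h : γ → Wd M} (hh : Rec R h) : RecC R (fun x => cnd a U C0 (h x)) :=
  RecC.cndI hU hC hh (by fun_prop)

end

end Pool.Agent.OVW.FC
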