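import Pool.Agent.OVW.Formulas

/-!
# A proof calculus for second order arithmetic

A Hilbert calculus for the two-sorted logic of `Formulas.lean`: tautologies, modus ponens,
the quantifier axioms and rules of Hilbert and Ackermann for number variables and for set
variables, and the equality axioms.
-/

namespace Pool.Agent.OVW

/-- `xᵢ` is free in the formula. -/
def Form.FreeNum (i : ℕ) : Form → Prop
  | .eq s t => s.Occurs i ∨ t.Occurs i
  | .lt s t => s.Occurs i ∨ t.Occurs i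
  | .mem s _ => s.Occurs i
  | .neg φ => φ.FreeNum i
  | .and φ ψ => φ.FreeNum i ∨ ψ.FreeNum i
  | .or φ ψ => φ.FreeNum i ∨ ψ.FreeNum i
  | .imp φ ψ => φ.FreeNum i ∨ ψ.FreeNum i
  | .all j φ => i ≠ j ∧ φ.FreeNum i
  | .ex j φ => i ≠ j ∧ φ.FreeNum i
  | .allSet _ φ => φ.FreeNum i
  | .exSet _ φ => φ.FreeNum i

/-- The term `t` can be substituted for `xᵢ`: no variable of `t` becomes bound. -/
def Form.FreeFor (i : ℕ) (t : Term) : Form → Prop
  | .eq _ _ => True
  | .lt _ _ => True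
  | .mem _ _ => True
  | .neg φ => φ.FreeFor i t
  | .and φ ψ => φ.FreeFor i t ∧ ψ.FreeFor i t
  | .or φ ψ => φ.FreeFor i t ∧ ψ.FreeFor i t
  | .imp φ ψ => φ.FreeFor i t ∧ ψ.FreeFor i t
  | .all j φ => j = i ∨ ¬ φ.FreeNum i ∨ (¬ t.Occurs j ∧ φ.FreeFor i t)
  | .ex j φ => j = i ∨ ¬ φ.FreeNum i ∨ (¬ t.Occurs j ∧ φ.FreeFor i t)
  | .allSet _ φ => φ.FreeFor i t
  | .exSet _ φ => φ.FreeFor i t

/-- Substitution of the set variable `Y` for the free occurrences of the set variable `X`. -/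
def Form.substSet : Form → ℕ → ℕ → Form
  | .eq s t, _, _ => .eq s t
  | .lt s t, _, _ => .lt s t
  | .mem s Z, X, Y => .mem s (if Z = X then Y else Z)
  | .neg φ, X, Y => .neg (φ.substSet X Y)
  | .and φ ψ, X, Y => .and (φ.substSet X Y) (ψ.substSet X Y)
  | .or φ ψ, X, Y => .or (φ.substSet X Y) (ψ.substSet X Y)
  | .imp φ ψ, X, Y => .imp (φ.substSet X Y) (ψ.substSet X Y)
  | .all i φ, X, Y => .all i (φ.substSet X Y)
  | .ex i φ, X, Y => .ex i (φ.substSet X Y)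
  | .allSet Z φ, X, Y => if Z = X then .allSet Z φ else .allSet Z (φ.substSet X Y)
  | .exSet Z φ, X, Y => if Z = X then .exSet Z φ else .exSet Z (φ.substSet X Y)

/-- The set variable `Y` can be substituted for `X`: it does not become bound. -/
def Form.FreeForSet (X Y : ℕ) : Form → Prop
  | .eq _ _ => True
  | .lt _ _ => True
  | .mem _ _ => True
  | .neg φ => φ.FreeForSet X Y
  | .and φ ψ => φ.FreeForSet X Y ∧ ψ.FreeForSet X Y
  | .or φ ψ => φ.FreeForSet X Y ∧ ψ.FreeForSet X Y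
  | .imp φ ψ => φ.FreeForSet X Y ∧ ψ.FreeForSet X Y
  | .all _ φ => φ.FreeForSet X Y
  | .ex _ φ => φ.FreeForSet X Y
  | .allSet Z φ => Z = X ∨ ¬ φ.FreeSet X ∨ (Z ≠ Y ∧ φ.FreeForSet X Y)
  | .exSet Z φ => Z = X ∨ ¬ φ.FreeSet X ∨ (Z ≠ Y ∧ φ.FreeForSet X Y)

/-- Tautologies: formulas which are true under all distributions of truth values to the formulas
which respect the propositional connectives. -/
def Form.Tautology (φ : Form) : Prop :=
  ∀ e : Form → Prop, (∀ ψ, e (.neg ψ) ↔ ¬ e ψ) → (∀ ψ χ, e (.and ψ χ) ↔ (e ψ ∧ e χ)) →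
    (∀ ψ χ, e (.or ψ χ) ↔ (e ψ ∨ e χ)) → (∀ ψ χ, e (.imp ψ χ) ↔ (e ψ → e χ)) → e φ

/-- `Prf T φ`: the formula `φ` is provable from the axioms `T`. -/
inductive Prf (T : Set Form) : Form → Prop
  /-- axioms -/
  | ax {φ : Form} : φ ∈ T → Prf T φ
  /-- tautologies -/
  | taut {φ : Form} : φ.Tautology → Prf T φ
  /-- modus ponens -/
  | mp {φ ψ : Form} : Prf T (.imp φ ψ) → Prf T φ → Prf T ψ
  /-- `∀ xᵢ φ → φ(t)` -/
  | allElim {i : ℕ} {t : Term} {φ : Form} : φ.FreeFor i t →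
      Prf T (.imp (.all i φ) (φ.subst i t))
  /-- `φ(t) → ∃ xᵢ φ` -/
  | exIntro {i : ℕ} {t : Term} {φ : Form} : φ.FreeFor i t →
      Prf T (.imp (φ.subst i t) (.ex i φ))
  /-- from `φ → ψ` infer `φ → ∀ xᵢ ψ` if `xᵢ` is not free in `φ` -/
  | allIntro {i : ℕ} {φ ψ : Form} : ¬ φ.FreeNum i → Prf T (.imp φ ψ) →
      Prf T (.imp φ (.all i ψ))
  /-- from `φ → ψ` infer `∃ xᵢ φ → ψ` if `xᵢ` is not free in `ψ` -/
  | exElim {i : ℕ} {φ ψ : Form} : ¬ ψ.FreeNum i → Prf T (.imp φ ψ) →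
      Prf T (.imp (.ex i φ) ψ)
  /-- `∀ X φ → φ(Y)` -/
  | allSetElim {X Y : ℕ} {φ : Form} : φ.FreeForSet X Y →
      Prf T (.imp (.allSet X φ) (φ.substSet X Y))
  /-- `φ(Y) → ∃ X φ` -/
  | exSetIntro {X Y : ℕ} {φ : Form} : φ.FreeForSet X Y →
      Prf T (.imp (φ.substSet X Y) (.exSet X φ))
  /-- from `φ → ψ` infer `φ → ∀ X ψ` if `X` is not free in `φ` -/
  | allSetIntro {X : ℕ} {φ ψ : Form} : ¬ φ.FreeSet X → Prf T (.imp φ ψ) →
      Prf T (.imp φ (.allSet X ψ))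
  /-- from `φ → ψ` infer `∃ X φ → ψ` if `X` is not free in `ψ` -/
  | exSetElim {X : ℕ} {φ ψ : Form} : ¬ ψ.FreeSet X → Prf T (.imp φ ψ) →
      Prf T (.imp (.exSet X φ) ψ)
  /-- equality is reflexive -/
  | eqRefl (t : Term) : Prf T (.eq t t)
  /-- equality is symmetric -/
  | eqSymm (s t : Term) : Prf T (.imp (.eq s t) (.eq t s))
  /-- equality is transitive -/
  | eqTrans (s t u : Term) : Prf T (.imp (.eq s t) (.imp (.eq t u) (.eq s u)))
  /-- equality and addition -/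
  | eqAdd (s t u v : Term) :
      Prf T (.imp (.eq s t) (.imp (.eq u v) (.eq (.add s u) (.add t v))))
  /-- equality and multiplication -/
  | eqMul (s t u v : Term) :
      Prf T (.imp (.eq s t) (.imp (.eq u v) (.eq (.mul s u) (.mul t v))))
  /-- equality and order -/
  | eqLt (s t u v : Term) : Prf T (.imp (.eq s t) (.imp (.eq u v) (.imp (.lt s u) (.lt t v))))
  /-- equality and membership -/
  | eqMem (s t : Term) (X : ℕ) : Prf T (.imp (.eq s t) (.imp (.mem s X) (.mem t X)))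

/-- `T` is `Π¹₁`-conservative over `S`, for provability: every `Π¹₁` formula provable in `T` is
provable in `S`. -/
def Pi11PrfConservative (T S : Set Form) : Prop := ∀ φ, IsPi11 φ → Prf T φ → Prf S φ

end Pool.Agent.OVW
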