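import Pool.Agent.OVW.A.All
import Pool.Agent.OVW.B8.All
import Pool.Agent.OVW.C.All0
import Pool.Agent.OVW.C.BON
import Pool.Agent.OVW.C.PI1
import Pool.Agent.OVW.D.All

/-!
# The conservation theorem
-/

namespace Pool.Agent.OVW

/-- The forcing theorem (block C), with blocks B and H put in. -/
theorem stmtFO : StmtFO := FC.t_FO_of FC.t_PI1 FC.t_BON dcs

/-- `RCA₀ + IΣ⁰₂ + OVW` is `Π¹₁`-conservative over `RCA₀ + IΣ⁰₂`: every `Π¹₁` formula which is true
in all models of the first theory is true in all models of the second. -/
theorem pi11Conservative : Pi11Conservative theoryT theoryS := conservation_of_FO stmtFO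

/-- The same for provability. -/
theorem pi11PrfConservative : Pi11PrfConservative theoryT theoryS :=
  (pi11Prf_iff _ _).2 pi11Conservative

end Pool.Agent.OVW
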