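import Mathlib

/-!
# Second order arithmetic: formulas, models, theories

The two-sorted language of second order arithmetic (number variables `x₀, x₁, …`, set variables
`X₀, X₁, …`, symbols `0, 1, +, ·, <, ∈`), its structures, the arithmetical hierarchy, and the
theories `RCA₀`, `IΣₙ` and `OVW`.
-/

namespace Pool.Agent.OVW

/-- Number terms: variables, `0`, `1`, sums and products. -/
inductive Term : Type
  | var (i : ℕ) : Term
  | zero : Term
  | one : Term
  | add (s t : Term) : Term
  | mul (s t : Term) : Term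

/-- Formulas of second order arithmetic. The number variables and the set variables are numbered
by natural numbers: `all i φ` is `∀ xᵢ φ` and `allSet i φ` is `∀ Xᵢ φ`. -/
inductive Form : Type
  | eq (s t : Term) : Form
  | lt (s t : Term) : Form
  | mem (s : Term) (X : ℕ) : Form
  | neg (φ : Form) : Form
  | and (φ ψ : Form) : Form
  | or (φ ψ : Form) : Form
  | imp (φ ψ : Form) : Form
  | all (i : ℕ) (φ : Form) : Form
  | ex (i : ℕ) (φ : Form) : Form
  | allSet (X : ℕ) (φ : Form) : Form
  | exSet (X : ℕ) (φ : Form) : Form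

/-! ### Structures and satisfaction -/

/-- A structure for the language of second order arithmetic: a set `M` of numbers with two
elements, two operations and a relation, and a collection `S` of subsets of `M`, the range of the
set variables. -/
structure Model where
  /-- the numbers -/
  M : Type
  /-- the element `0` -/
  zero : M
  /-- the element `1` -/
  one : M
  /-- addition -/
  add : M → M → M
  /-- multiplication -/
  mul : M → M → M
  /-- the order -/
  lt : M → M → Prop
  /-- the sets -/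
  S : Set (Set M)

/-- The value of a term. -/
def Term.eval (𝔐 : Model) (v : ℕ → 𝔐.M) : Term → 𝔐.M
  | .var i => v i
  | .zero => 𝔐.zero
  | .one => 𝔐.one
  | .add s t => 𝔐.add (s.eval 𝔐 v) (t.eval 𝔐 v)
  | .mul s t => 𝔐.mul (s.eval 𝔐 v) (t.eval 𝔐 v)

/-- `φ` is true in `𝔐` under the assignments `v` of the number variables and `V` of the set
variables. -/
def Form.Sat (𝔐 : Model) : Form → (ℕ → 𝔐.M) → (ℕ → Set 𝔐.M) → Prop
  | .eq s t, v, _ => s.eval 𝔐 v = t.eval 𝔐 v
  | .lt s t, v, _ => 𝔐.lt (s.eval 𝔐 v) (t.eval 𝔐 v)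
  | .mem s X, v, V => s.eval 𝔐 v ∈ V X
  | .neg φ, v, V => ¬ φ.Sat 𝔐 v V
  | .and φ ψ, v, V => φ.Sat 𝔐 v V ∧ ψ.Sat 𝔐 v V
  | .or φ ψ, v, V => φ.Sat 𝔐 v V ∨ ψ.Sat 𝔐 v V
  | .imp φ ψ, v, V => φ.Sat 𝔐 v V → ψ.Sat 𝔐 v V
  | .all i φ, v, V => ∀ a : 𝔐.M, φ.Sat 𝔐 (Function.update v i a) V
  | .ex i φ, v, V => ∃ a : 𝔐.M, φ.Sat 𝔐 (Function.update v i a) V
  | .allSet X φ, v, V => ∀ A ∈ 𝔐.S, φ.Sat 𝔐 v (Function.update V X A)
  | .exSet X φ, v, V => ∃ A ∈ 𝔐.S, φ.Sat 𝔐 v (Function.update V X A)

/-- A formula is true in a structure if it is true under all assignments: its free variables are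
read as universally quantified. -/
def Model.True (𝔐 : Model) (φ : Form) : Prop :=
  ∀ (v : ℕ → 𝔐.M) (V : ℕ → Set 𝔐.M), (∀ X, V X ∈ 𝔐.S) → φ.Sat 𝔐 v V

/-- `𝔐` is a model of the theory `T`. -/
def Model.Models (𝔐 : Model) (T : Set Form) : Prop := ∀ φ ∈ T, 𝔐.True φ

/-- `φ` is a consequence of the theory `T`: it is true in all models of `T`. By the completeness
theorem this is the provability of `φ` in `T`. -/
def Conseq (T : Set Form) (φ : Form) : Prop := ∀ 𝔐 : Model, 𝔐.Models T → 𝔐.True φ

/-! ### Variables and substitution -/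

/-- `xᵢ` occurs in the term. -/
def Term.Occurs (i : ℕ) : Term → Prop
  | .var j => i = j
  | .zero => False
  | .one => False
  | .add s t => s.Occurs i ∨ t.Occurs i
  | .mul s t => s.Occurs i ∨ t.Occurs i

/-- `Xᵢ` is free in the formula. -/
def Form.FreeSet (i : ℕ) : Form → Prop
  | .eq _ _ => False
  | .lt _ _ => False
  | .mem _ X => i = X
  | .neg φ => φ.FreeSet i
  | .and φ ψ => φ.FreeSet i ∨ ψ.FreeSet i
  | .or φ ψ => φ.FreeSet i ∨ ψ.FreeSet i
  | .imp φ ψ => φ.FreeSet i ∨ ψ.FreeSet i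
  | .all _ φ => φ.FreeSet i
  | .ex _ φ => φ.FreeSet i
  | .allSet X φ => i ≠ X ∧ φ.FreeSet i
  | .exSet X φ => i ≠ X ∧ φ.FreeSet i

/-- Substitution of the term `r` for `xᵢ` in a term. -/
def Term.subst : Term → ℕ → Term → Term
  | .var j, i, r => if j = i then r else .var j
  | .zero, _, _ => .zero
  | .one, _, _ => .one
  | .add s t, i, r => .add (s.subst i r) (t.subst i r)
  | .mul s t, i, r => .mul (s.subst i r) (t.subst i r)

/-- Substitution of the term `r` for the free occurrences of `xᵢ` in a formula. It is only used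
for the terms `0` and `xᵢ + 1`, for which no variable can be captured. -/
def Form.subst : Form → ℕ → Term → Form
  | .eq s t, i, r => .eq (s.subst i r) (t.subst i r)
  | .lt s t, i, r => .lt (s.subst i r) (t.subst i r)
  | .mem s X, i, r => .mem (s.subst i r) X
  | .neg φ, i, r => .neg (φ.subst i r)
  | .and φ ψ, i, r => .and (φ.subst i r) (ψ.subst i r)
  | .or φ ψ, i, r => .or (φ.subst i r) (ψ.subst i r)
  | .imp φ ψ, i, r => .imp (φ.subst i r) (ψ.subst i r)
  | .all j φ, i, r => if j = i then .all j φ else .all j (φ.subst i r)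
  | .ex j φ, i, r => if j = i then .ex j φ else .ex j (φ.subst i r)
  | .allSet X φ, i, r => .allSet X (φ.subst i r)
  | .exSet X φ, i, r => .exSet X (φ.subst i r)

/-! ### Classes of formulas -/

/-- Arithmetical formulas: no set quantifiers. -/
def Form.Arith : Form → Prop
  | .eq _ _ => True
  | .lt _ _ => True
  | .mem _ _ => True
  | .neg φ => φ.Arith
  | .and φ ψ => φ.Arith ∧ ψ.Arith
  | .or φ ψ => φ.Arith ∧ ψ.Arith
  | .imp φ ψ => φ.Arith ∧ ψ.Arith
  | .all _ φ => φ.Arith
  | .ex _ φ => φ.Arith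
  | .allSet _ _ => False
  | .exSet _ _ => False

/-- Bounded formulas (`Δ₀`, with set variables): the number quantifiers are bounded by terms, and
there are no set quantifiers. -/
inductive Form.Bounded : Form → Prop
  | eq (s t : Term) : Bounded (.eq s t)
  | lt (s t : Term) : Bounded (.lt s t)
  | mem (s : Term) (X : ℕ) : Bounded (.mem s X)
  | neg {φ : Form} : Bounded φ → Bounded (.neg φ)
  | and {φ ψ : Form} : Bounded φ → Bounded ψ → Bounded (.and φ ψ)
  | or {φ ψ : Form} : Bounded φ → Bounded ψ → Bounded (.or φ ψ)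
  | imp {φ ψ : Form} : Bounded φ → Bounded ψ → Bounded (.imp φ ψ)
  | all {i : ℕ} {t : Term} {φ : Form} : ¬ t.Occurs i → Bounded φ →
      Bounded (.all i (.imp (.lt (.var i) t) φ))
  | ex {i : ℕ} {t : Term} {φ : Form} : ¬ t.Occurs i → Bounded φ →
      Bounded (.ex i (.and (.lt (.var i) t) φ))

/-- Formulas of the class `C` preceded by existential number quantifiers. -/
inductive ExBlock (C : Form → Prop) : Form → Prop
  | base {φ : Form} : C φ → ExBlock C φ
  | ex {φ : Form} (i : ℕ) : ExBlock C φ → ExBlock C (.ex i φ)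

/-- Formulas of the class `C` preceded by universal number quantifiers. -/
inductive AllBlock (C : Form → Prop) : Form → Prop
  | base {φ : Form} : C φ → AllBlock C φ
  | all {φ : Form} (i : ℕ) : AllBlock C φ → AllBlock C (.all i φ)

/-- The arithmetical hierarchy: `Hierarchy n true` are the `Σ⁰ₙ` formulas and `Hierarchy n false`
the `Π⁰ₙ` formulas. Both are the bounded formulas for `n = 0`; a `Σ⁰ₙ₊₁` formula is a `Π⁰ₙ`
formula preceded by existential quantifiers, and a `Π⁰ₙ₊₁` formula is a `Σ⁰ₙ` formula preceded by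
universal quantifiers. -/
def Hierarchy : ℕ → Bool → Form → Prop
  | 0, _ => Form.Bounded
  | n + 1, true => ExBlock (Hierarchy n false)
  | n + 1, false => AllBlock (Hierarchy n true)

/-- The `Σ⁰ₙ` formulas. -/
def IsSigma (n : ℕ) (φ : Form) : Prop := Hierarchy n true φ

/-- The `Π⁰ₙ` formulas. -/
def IsPi (n : ℕ) (φ : Form) : Prop := Hierarchy n false φ

/-- The `Π¹₁` formulas: an arithmetical formula preceded by universal set quantifiers. -/
inductive IsPi11 : Form → Prop
  | arith {φ : Form} : φ.Arith → IsPi11 φ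
  | allSet {φ : Form} (X : ℕ) : IsPi11 φ → IsPi11 (.allSet X φ)

/-! ### The theories -/

/-- The variable `xᵢ`. -/
abbrev x (i : ℕ) : Term := .var i

/-- Equivalence. -/
def Form.iff (φ ψ : Form) : Form := .and (.imp φ ψ) (.imp ψ φ)

/-- The basic axioms of second order arithmetic. -/
def basic : Set Form :=
  { -- `x + 1 ≠ 0`
    .neg (.eq (.add (x 0) .one) .zero),
    -- `x + 1 = y + 1 → x = y`
    .imp (.eq (.add (x 0) .one) (.add (x 1) .one)) (.eq (x 0) (x 1)),
    -- `x + 0 = x`
    .eq (.add (x 0) .zero) (x 0),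
    -- `x + (y + 1) = (x + y) + 1`
    .eq (.add (x 0) (.add (x 1) .one)) (.add (.add (x 0) (x 1)) .one),
    -- `x · 0 = 0`
    .eq (.mul (x 0) .zero) .zero,
    -- `x · (y + 1) = (x · y) + x`
    .eq (.mul (x 0) (.add (x 1) .one)) (.add (.mul (x 0) (x 1)) (x 0)),
    -- `¬ x < 0`
    .neg (.lt (x 0) .zero),
    -- `x < y + 1 ↔ x < y ∨ x = y`
    .iff (.lt (x 0) (.add (x 1) .one)) (.or (.lt (x 0) (x 1)) (.eq (x 0) (x 1))) }

/-- The induction axiom `φ(0) ∧ ∀ x (φ(x) → φ(x + 1)) → ∀ x φ(x)` for `φ` and `x = xᵢ`. -/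
def induction (i : ℕ) (φ : Form) : Form :=
  .imp (.and (φ.subst i .zero) (.all i (.imp φ (φ.subst i (.add (x i) .one))))) (.all i φ)

/-- The scheme `IΣ⁰ₙ`. -/
def ISigma (n : ℕ) : Set Form := {θ | ∃ i φ, IsSigma n φ ∧ θ = induction i φ}

/-- The comprehension axiom `∀ x (φ(x) ↔ ψ(x)) → ∃ X ∀ x (x ∈ X ↔ φ(x))` for `x = xᵢ`. -/
def comprehension (i X : ℕ) (φ ψ : Form) : Form :=
  .imp (.all i (.iff φ ψ)) (.exSet X (.all i (.iff (.mem (x i) X) φ)))

/-- The scheme of `Δ⁰₁` comprehension. -/
def DeltaCA : Set Form :=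
  {θ | ∃ i X φ ψ, IsSigma 1 φ ∧ IsPi 1 ψ ∧ ¬ φ.FreeSet X ∧ θ = comprehension i X φ ψ}

/-- The theory `RCA₀`. -/
def RCA0 : Set Form := basic ∪ ISigma 1 ∪ DeltaCA

/-! ### The ordered variable word theorem

Finite sequences are coded by Gödel's beta function: the word with the code `(n, (u, v))` has
length `n` and its letter number `i` is the remainder of `u` modulo `1 + (i + 1) v`. -/

/-- The term `(s + t)² + s`, the code of the pair `(s, t)`. -/
def pairT (s t : Term) : Term := .add (.mul (.add s t) (.add s t)) s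

/-- `r` is the remainder of `u` modulo `1 + (i + 1) · v`; `q` is a bound variable. -/
def entry (q : ℕ) (u v i r : Term) : Form :=
  .and (.lt r (.add .one (.mul (.add i .one) v)))
    (.ex q (.eq u (.add (.mul (.add .one (.mul (.add i .one) v)) (x q)) r)))

/-- The sequence coded by `(n, (u, v))` is a word over the alphabet `{0, …, a - 1}`: each of its
entries with a number `< n` is `< a`. -/
def wordF (a n u v : Term) : Form :=
  .all 20 (.imp (.lt (x 20) n) (.ex 21 (.and (.lt (x 21) a) (entry 22 u v (x 20) (x 21)))))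

/-- The words coded by `(n, (u, v))` and `(n, (u', v'))` are equal. -/
def sameF (n u v u' v' : Term) : Form :=
  .all 20 (.imp (.lt (x 20) n) (.ex 21 (.and (entry 22 u v (x 20) (x 21))
    (entry 22 u' v' (x 20) (x 21)))))

/-- The code of the word `(n, (u, v))`. -/
def codeT (n u v : Term) : Term := pairT n (pairT u v)

/-- `X₀` is (the graph of) a function from the words over `{0, …, a - 1}` to
`{0, …, l - 1}`: each code of a word has a colour, and the codes of the same word have the same
colour. Here `a = x₀`, `l = x₁`. -/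
def colouringF : Form :=
  .and
    (.all 2 (.all 3 (.all 4 (.imp (wordF (x 0) (x 2) (x 3) (x 4))
      (.ex 5 (.and (.lt (x 5) (x 1)) (.mem (pairT (codeT (x 2) (x 3) (x 4)) (x 5)) 0)))))))
    (.all 2 (.all 3 (.all 4 (.all 5 (.all 6 (.all 7 (.all 8 (.imp
      (.and (.and (wordF (x 0) (x 2) (x 3) (x 4)) (wordF (x 0) (x 2) (x 5) (x 6)))
        (.and (sameF (x 2) (x 3) (x 4) (x 5) (x 6))
          (.and (.mem (pairT (codeT (x 2) (x 3) (x 4)) (x 7)) 0)
            (.mem (pairT (codeT (x 2) (x 5) (x 6)) (x 8)) 0))))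
      (.eq (x 7) (x 8))))))))))

/-- `X₁` is (the graph of) a function `h` from the numbers to `{0, …, a}`; the value `a = x₀`
stands for the variable `⋆`. So `h` is an infinite word over `{0, …, a - 1} ∪ {⋆}`. -/
def infiniteWordF : Form :=
  .all 2 (.ex 3 (.and (.and (.lt (x 3) (.add (x 0) .one)) (.mem (pairT (x 2) (x 3)) 1))
    (.all 4 (.imp (.mem (pairT (x 2) (x 4)) 1) (.eq (x 4) (x 3))))))

/-- The infinite set `X₂` is the set of the positions of `h` at which the words `w₁, w₂, …` start: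
`h` is the concatenation of a word `c₀` without `⋆` and of the words `w₁, w₂, …`, whose first
letter is `⋆`. -/
def startsF : Form :=
  .and (.all 2 (.ex 3 (.and (.lt (x 2) (x 3)) (.mem (x 3) 2))))
    (.and (.all 2 (.imp (.mem (x 2) 2) (.mem (pairT (x 2) (x 0)) 1)))
      (.all 2 (.imp (.mem (pairT (x 2) (x 0)) 1)
        (.ex 3 (.and (.lt (x 3) (.add (x 2) .one)) (.mem (x 3) 2))))))

/-- The word coded by `(b, (u, v))`, where `b = x₄`, `u = x₅`, `v = x₆`, is of the form
`c₀ w₁[a₁] ⋯ wₖ[aₖ]` if `b ∈ X₂`: it agrees with `h` at the places where `h` is not `⋆`, and at a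
place `j < b` where `h` is `⋆` it has the same letter as at the last element of `X₂` which
is `≤ j`. -/
def instanceF : Form :=
  .and
    (.all 7 (.all 8 (.imp
      (.and (.lt (x 7) (x 4)) (.and (.lt (x 8) (x 0)) (.mem (pairT (x 7) (x 8)) 1)))
      (entry 22 (x 5) (x 6) (x 7) (x 8)))))
    (.all 7 (.all 8 (.imp
      (.and (.and (.lt (x 7) (x 4)) (.mem (pairT (x 7) (x 0)) 1))
        (.and (.and (.lt (x 8) (.add (x 7) .one)) (.mem (x 8) 2))
          (.all 9 (.imp (.and (.lt (x 8) (x 9)) (.lt (x 9) (.add (x 7) .one)))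
            (.neg (.mem (x 9) 2))))))
      (.ex 10 (.and (entry 22 (x 5) (x 6) (x 7) (x 10)) (entry 22 (x 5) (x 6) (x 8) (x 10)))))))

/-- The colouring `X₀` has the value `c = x₃` at all words of the form `c₀ w₁[a₁] ⋯ wₖ[aₖ]`. -/
def monochromaticF : Form :=
  .all 4 (.all 5 (.all 6 (.imp
    (.and (.and (.mem (x 4) 2) (wordF (x 0) (x 4) (x 5) (x 6))) instanceF)
    (.mem (pairT (codeT (x 4) (x 5) (x 6)) (x 3)) 0))))

/-- The ordered variable word theorem: for all `a`, `l` and all colourings `X₀` of the words over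
`{0, …, a - 1}` with `l` colours there are a word `c₀` and left variable words `w₁, w₂, …` such
that the words `c₀ w₁[a₁] ⋯ wₖ[aₖ]` all have the same colour. -/
def ovwSentence : Form :=
  .all 0 (.all 1 (.allSet 0 (.imp colouringF
    (.exSet 1 (.exSet 2 (.and infiniteWordF (.and startsF
      (.ex 3 (.and (.lt (x 3) (x 1)) monochromaticF)))))))))

/-! ### Conservation -/

/-- The theory `RCA₀ + IΣ⁰₂`. -/
def theoryS : Set Form := RCA0 ∪ ISigma 2

/-- The theory `RCA₀ + IΣ⁰₂ + OVW`. -/
def theoryT : Set Form := RCA0 ∪ ISigma 2 ∪ {ovwSentence}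

/-- `T` is `Π¹₁`-conservative over `S`. -/
def Pi11Conservative (T S : Set Form) : Prop := ∀ φ, IsPi11 φ → Conseq T φ → Conseq S φ

end Pool.Agent.OVW
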