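import Pool.Agent.OVW.Lib2

/-!
# Library 3: induction for `Σ₁` and `Π₁` properties, collection, suprema
-/

namespace Pool.Agent.OVW

section

variable {M : Type} [Arith M] {R : Set (M → M)} [IsWorld R]
variable {α β γ δ : Type} [Cod M α] [Cod M β] [Cod M γ] [Cod M δ]

/-- `Σ₁` induction. -/
theorem Rec.sigma_induction {P : M → β → Prop} (hP : Rec R (fun p : M × β => P p.1 p.2))
    (h0 : ∃ b, P 0 b) (hs : ∀ n, (∃ b, P n b) → ∃ b, P (n + 1) b) : ∀ n, ∃ b, P n b := by
  have h1 : Rec R (fun z : M => (OVW.enc (¬ P (OVW.fs z) (OVW.dec (OVW.sn z))) : M)) := by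
    apply Rec.enc
    apply Rec.not
    exact Rec.comp2 (h := P) hP (by fun_prop) (by fun_prop)
  have h2 : ∀ x n : M, (OVW.enc (¬ P (OVW.fs (OVW.pr x n)) (OVW.dec (OVW.sn (OVW.pr x n)))) : M)
      = 0 ↔ P x (OVW.dec n) := by
    intro x n
    rw [enc_eq_zero, not_not, fs_pr, sn_pr]
  have h3 : ∀ x : M, (∃ n : M, (OVW.enc (¬ P (OVW.fs (OVW.pr x n))
      (OVW.dec (OVW.sn (OVW.pr x n)))) : M) = 0) ↔ ∃ b, P x b := by
    intro x
    constructor
    · rintro ⟨n, hn⟩
      exact ⟨_, (h2 x n).1 hn⟩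
    · rintro ⟨b, hb⟩
      refine ⟨OVW.enc b, (h2 _ _).2 ?_⟩
      rw [dec_enc]
      exact hb
  have h4 := IsWorld.ind _ h1 ((h3 0).2 h0) (fun x hx => (h3 (x + 1)).2 (hs x ((h3 x).1 hx)))
  exact fun n => (h3 n).1 (h4 n)

/-- `Π₁` induction. -/
theorem Rec.pi_induction {P : M → β → Prop} (hP : Rec R (fun p : M × β => P p.1 p.2))
    (h0 : ∀ b, P 0 b) (hs : ∀ n, (∀ b, P n b) → ∀ b, P (n + 1) b) : ∀ n b, P n b := by
  intro n b
  by_contra hn
  have h1 : ∀ i, ∃ b, (i ≤ n → ¬ P (n - i) b) := by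
    apply Rec.sigma_induction (R := R) (P := fun i b => i ≤ n → ¬ P (n - i) b)
    · apply Rec.imp
      · fun_prop
      · apply Rec.not
        exact Rec.comp2 (h := P) hP (by fun_prop) (by fun_prop)
    · exact ⟨b, fun _ => by simpa using hn⟩
    · rintro i ⟨c, hc⟩
      by_cases hi : i + 1 ≤ n
      · have h2 : i ≤ n := le_self_add.trans hi
        have h3 : n - i = n - (i + 1) + 1 := by
          obtain ⟨d, rfl⟩ := le_iff_exists_add.1 hi
          have e1 : i + 1 + d - i = 1 + d := by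
            rw [add_assoc, add_sub_self']
          have e2 : i + 1 + d - (i + 1) = d := add_sub_self' _ _
          rw [e1, e2, add_comm]
        have h4 : ¬ ∀ b, P (n - (i + 1) + 1) b := by
          intro h
          exact hc h2 (h3 ▸ h c)
        have h5 : ¬ ∀ b, P (n - (i + 1)) b := fun h => h4 (hs _ h)
        push Not at h5
        obtain ⟨c', hc'⟩ := h5
        exact ⟨c', fun _ => hc'⟩
      · exact ⟨c, fun h => absurd h hi⟩
  obtain ⟨c, hc⟩ := h1 n
  refine hc le_rfl ?_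
  rw [tsub_self]
  exact h0 c

/-- The values of a recursive function on a proper initial segment are bounded. -/
theorem Rec.bounded {f : M → M} (hf : Rec R f) (n : M) : ∃ N, ∀ i < n, f i < N := by
  apply Rec.sigma_induction (R := R) (P := fun n N => ∀ i < n, f i < N)
  · fun_prop
  · exact ⟨0, fun i hi => absurd hi (by simp)⟩
  · rintro n ⟨N, hN⟩
    refine ⟨max N (f n + 1), fun i hi => ?_⟩
    rcases (lt_succ.1 hi).lt_or_eq with h | h
    · exact (hN i h).trans_le (le_max_left _ _)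
    · rw [h]
      exact (lt_succ.2 le_rfl).trans_le (le_max_right _ _)

/-- The least strict upper bound of the values of `f` on `[0, n)`. -/
noncomputable def bsup (n : M) (f : M → M) : M := least (fun N => ∀ i < n, f i < N)

theorem Rec.lt_bsup {f : M → M} (hf : Rec R f) {n i : M} (hi : i < n) : f i < bsup n f :=
  (Rec.least_spec (R := R) (P := fun N => ∀ i < n, f i < N) (by fun_prop)
    (Rec.bounded hf n)).1 i hi

@[fun_prop] theorem Rec.bsup {n : α → M} {f : α → M → M} (hn : Rec R n)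
    (hf : Rec R (fun p : α × M => f p.1 p.2)) : Rec R (fun a => bsup (n a) (f a)) := by
  unfold OVW.bsup
  apply Rec.least
  · have : Rec R (fun p : (α × M) × M => f p.1.1 p.2) :=
      Rec.comp2 (h := f) hf (by fun_prop) (by fun_prop)
    fun_prop
  · intro a
    exact Rec.bounded (R := R) (f := f a) (Rec.comp2 (h := f) hf (Rec.const a) Rec.id) (n a)

/-- Collection. -/
theorem Rec.collection {P : M → β → Prop} (hP : Rec R (fun p : M × β => P p.1 p.2)) {n : M}
    (h : ∀ i < n, ∃ b, P i b) : ∃ N : M, ∀ i < n, ∃ b, OVW.enc b < N ∧ P i b := by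
  have hQ : Rec R (fun p : M × M => p.1 < n → P p.1 (OVW.dec p.2)) := by
    apply Rec.imp (by fun_prop)
    exact Rec.comp2 (h := P) hP (by fun_prop) (by fun_prop)
  have ht : ∀ i, ∃ m : M, (i < n → P i (OVW.dec m)) := by
    intro i
    by_cases hi : i < n
    · obtain ⟨b, hb⟩ := h i hi
      exact ⟨OVW.enc b, fun _ => by rw [dec_enc]; exact hb⟩
    · exact ⟨0, fun h => absurd h hi⟩
  obtain ⟨f, hf, hf2⟩ := Rec.choice (R := R) (P := fun i m : M => i < n → P i (OVW.dec m)) hQ ht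
  have hg : Rec R (fun i : M => (OVW.enc (OVW.dec (f i) : β) : M)) := by fun_prop
  obtain ⟨N, hN⟩ := Rec.bounded hg n
  exact ⟨N, fun i hi => ⟨OVW.dec (f i), hN i hi, hf2 i hi⟩⟩

theorem Rec.strong_pi {P : M → β → Prop} (hP : Rec R (fun p : M × β => P p.1 p.2))
    (hs : ∀ n, (∀ m < n, ∀ b, P m b) → ∀ b, P n b) : ∀ n b, P n b := by
  have h1 : ∀ n b, ∀ m < n, P m b := by
    apply Rec.pi_induction (R := R) (P := fun n b => ∀ m < n, P m b)
    · have : Rec R (fun p : (M × β) × M => P p.2 p.1.2) :=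
        Rec.comp2 (h := P) hP (by fun_prop) (by fun_prop)
      fun_prop
    · intro b m hm
      exact absurd hm (by simp)
    · intro n hn b m hm
      rcases (lt_succ.1 hm).lt_or_eq with h | h
      · exact hn b m h
      · rw [h]
        exact hs n (fun m hm b => hn b m hm) b
  exact fun n b => h1 (n + 1) b n (lt_succ.2 le_rfl)

theorem Rec.strong_sigma {P : M → β → Prop} (hP : Rec R (fun p : M × β => P p.1 p.2))
    (hs : ∀ n, (∀ m < n, ∃ b, P m b) → ∃ b, P n b) : ∀ n, ∃ b, P n b := by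
  have hQ : Rec R (fun p : (M × M) × M => ∃ c < p.1.2, P p.2 (OVW.dec c)) := by
    apply Rec.bex (P := fun (p : (M × M) × M) c => P p.2 (OVW.dec c))
    · fun_prop
    · exact Rec.comp2 (h := P) hP (by fun_prop) (by fun_prop)
  have h1 : ∀ n, ∃ N : M, ∀ m < n, ∃ c < N, P m (OVW.dec c) := by
    apply Rec.sigma_induction (R := R) (P := fun n N => ∀ m < n, ∃ c < N, P m (OVW.dec c))
    · apply Rec.ball (P := fun (p : M × M) m => ∃ c < p.2, P m (OVW.dec c)) (by fun_prop) hQ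
    · exact ⟨0, fun m hm => absurd hm (by simp)⟩
    · rintro n ⟨N, hN⟩
      obtain ⟨b, hb⟩ := hs n (fun m hm => by
        obtain ⟨c, -, hc⟩ := hN m hm
        exact ⟨_, hc⟩)
      refine ⟨max N (OVW.enc b + 1), fun m hm => ?_⟩
      rcases (lt_succ.1 hm).lt_or_eq with h | h
      · obtain ⟨c, hc, hc2⟩ := hN m h
        exact ⟨c, hc.trans_le (le_max_left _ _), hc2⟩
      · rw [h]
        exact ⟨OVW.enc b, (lt_succ.2 le_rfl).trans_le (le_max_right _ _), by rw [dec_enc]; exact hb⟩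
  intro n
  obtain ⟨N, hN⟩ := h1 (n + 1)
  obtain ⟨c, -, hc⟩ := hN n (lt_succ.2 le_rfl)
  exact ⟨_, hc⟩

/-- The least number principle for `Σ₁` properties. -/
theorem Rec.lnp_sigma {P : M → β → Prop} (hP : Rec R (fun p : M × β => P p.1 p.2))
    (h : ∃ n b, P n b) : ∃ n, (∃ b, P n b) ∧ ∀ m < n, ∀ b, ¬ P m b := by
  by_contra hc
  push Not at hc
  obtain ⟨n, b, hb⟩ := h
  refine Rec.strong_pi (R := R) (P := fun n b => ¬ P n b) (Rec.not hP) ?_ n b hb
  intro n hn b hb
  obtain ⟨m, hm, b', hb'⟩ := hc n ⟨b, hb⟩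
  exact hn m hm b' hb'

/-- The least number principle for `Π₁` properties. -/
theorem Rec.lnp_pi {P : M → β → Prop} (hP : Rec R (fun p : M × β => P p.1 p.2))
    (h : ∃ n, ∀ b, P n b) : ∃ n, (∀ b, P n b) ∧ ∀ m < n, ∃ b, ¬ P m b := by
  by_contra hc
  push Not at hc
  obtain ⟨n, hn⟩ := h
  obtain ⟨b, hb⟩ := Rec.strong_sigma (R := R) (P := fun n b => ¬ P n b) (Rec.not hP) (by
    intro n hn
    by_contra h
    push Not at h
    obtain ⟨m, hm, hm2⟩ := hc n h
    obtain ⟨b, hb⟩ := hn m hm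
    exact hb (hm2 b)) n
  exact hb (hn b)

/-- The greatest number principle for `Σ₁` properties. -/
theorem Rec.gnp_sigma {P : M → β → Prop} (hP : Rec R (fun p : M × β => P p.1 p.2)) {N : M}
    (hN : ∀ n b, P n b → n ≤ N) (h : ∃ n b, P n b) :
    ∃ n, (∃ b, P n b) ∧ ∀ m b, P m b → m ≤ n := by
  obtain ⟨n0, b0, h0⟩ := h
  have hQ : Rec R (fun p : M × β => P (N - p.1) p.2) :=
    Rec.comp2 (h := P) hP (by fun_prop) (by fun_prop)
  have e : ∀ m, m ≤ N → N - (N - m) = m := by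
    intro m hm
    obtain ⟨d, rfl⟩ := le_iff_exists_add.1 hm
    rw [add_sub_self', add_comm, add_sub_self']
  obtain ⟨n, ⟨b, hb⟩, hn⟩ := Rec.lnp_sigma (R := R) (P := fun n b => P (N - n) b) hQ
    ⟨N - n0, b0, by rw [e n0 (hN _ _ h0)]; exact h0⟩
  refine ⟨N - n, ⟨b, hb⟩, fun m b' hm => ?_⟩
  by_contra hc
  push Not at hc
  have hmN := hN _ _ hm
  refine hn (N - m) ?_ b' (by rw [e m hmN]; exact hm)
  obtain ⟨d, rfl⟩ := le_iff_exists_add.1 hmN
  rw [add_sub_self']
  by_contra hc2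
  push Not at hc2
  have h5 : m ≤ m + d - n := by
    rw [add_tsub_assoc_of_le hc2]
    exact le_self_add
  exact absurd hc (not_lt.2 h5)

/-- The greatest number principle for `Π₁` properties. -/
theorem Rec.gnp_pi {P : M → β → Prop} (hP : Rec R (fun p : M × β => P p.1 p.2)) {N : M}
    (hN : ∀ n, (∀ b, P n b) → n ≤ N) (h : ∃ n, ∀ b, P n b) :
    ∃ n, (∀ b, P n b) ∧ ∀ m, (∀ b, P m b) → m ≤ n := by
  obtain ⟨n0, h0⟩ := h
  have hQ : Rec R (fun p : M × β => P (N - p.1) p.2) :=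
    Rec.comp2 (h := P) hP (by fun_prop) (by fun_prop)
  have e : ∀ m, m ≤ N → N - (N - m) = m := by
    intro m hm
    obtain ⟨d, rfl⟩ := le_iff_exists_add.1 hm
    rw [add_sub_self', add_comm, add_sub_self']
  obtain ⟨n, hb, hn⟩ := Rec.lnp_pi (R := R) (P := fun n b => P (N - n) b) hQ
    ⟨N - n0, by rw [e n0 (hN _ h0)]; exact h0⟩
  refine ⟨N - n, hb, fun m hm => ?_⟩
  by_contra hc
  push Not at hc
  have hmN := hN _ hm
  obtain ⟨b, hb2⟩ := hn (N - m) (by
    obtain ⟨d, rfl⟩ := le_iff_exists_add.1 hmN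
    rw [add_sub_self']
    by_contra hc2
    push Not at hc2
    have h5 : m ≤ m + d - n := by
      rw [add_tsub_assoc_of_le hc2]
      exact le_self_add
    exact absurd hc (not_lt.2 h5))
  rw [e m hmN] at hb2
  exact hb2 (hm b)

end

end Pool.Agent.OVW
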