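import Pool.Agent.OVW.Lib3

/-!
# Library 4: primitive recursion
-/

namespace Pool.Agent.OVW

section

variable {M : Type} [Arith M]
variable {α β γ δ : Type} [Cod M α] [Cod M β] [Cod M γ] [Cod M δ]

/-- The number `c` codes the computation of length `n` of the recursion `x, g`. -/
def Comp (x : α) (g : M → α → α) (n c : M) : Prop :=
  bet c 0 = enc x ∧ ∀ i < n, bet c (i + 1) = enc (g i (dec (bet c i)))

/-- Primitive recursion: `F 0 = x`, `F (n + 1) = g n (F n)`. -/
noncomputable def prec0 (x : α) (g : M → α → α) (n : M) : α :=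
  dec (bet (least (fun c => Comp x g n c)) n)

variable {R : Set (M → M)} [IsWorld R]

theorem Rec.comp_ {x : γ → α} {g : γ → M → α → α} {n c : γ → M} (hx : Rec R x)
    (hg : Rec R (fun p : γ × M × α => g p.1 p.2.1 p.2.2)) (hn : Rec R n) (hc : Rec R c) :
    Rec R (fun a => Comp (x a) (g a) (n a) (c a)) := by
  unfold Comp
  have h1 : Rec R (fun p : γ × M => g p.1 p.2 (OVW.dec (OVW.bet (c p.1) p.2))) :=
    Rec.comp (g := fun p : γ × M × α => g p.1 p.2.1 p.2.2)
      (f := fun p : γ × M => (p.1, p.2, OVW.dec (OVW.bet (c p.1) p.2))) hg (by fun_prop)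
  fun_prop

theorem comp_exists {x : α} {g : M → α → α} (hg : Rec R (fun p : M × α => g p.1 p.2)) (n : M) :
    ∃ c, Comp x g n c := by
  apply Rec.sigma_induction (R := R) (P := fun n c => Comp x g n c)
  · apply Rec.comp_ (x := fun _ : M × M => x) (g := fun _ : M × M => g)
    · fun_prop
    · exact Rec.comp (g := fun p : M × α => g p.1 p.2)
        (f := fun p : (M × M) × M × α => p.2) hg (by fun_prop)
    · fun_prop
    · fun_prop
  · obtain ⟨c, hc⟩ := IsWorld.beta (R := R) (fun _ => enc x) (IsWorld.const _) 1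
    exact ⟨c, hc 0 one_pos, fun i hi => absurd hi (by simp)⟩
  · rintro n ⟨c, hc0, hc⟩
    classical
    have hf : Rec R (fun i : M => if i ≤ n then bet c i else enc (g n (dec (bet c n)))) := by
      fun_prop
    obtain ⟨c', hc'⟩ := IsWorld.beta (R := R) _ hf (n + 1 + 1)
    simp only [dec_self, enc_self] at hc'
    refine ⟨c', ?_, fun i hi => ?_⟩
    · rw [hc' 0 (lt_succ.2 (zero_le' _)), if_pos (zero_le' _)]
      exact hc0
    · have hi' : i ≤ n := lt_succ.1 hi
      rw [hc' (i + 1) (by rw [lt_succ, succ_le]; exact hi),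
        hc' i (hi.trans (lt_succ.2 le_rfl)), if_pos hi']
      rcases hi'.lt_or_eq with h | h
      · rw [if_pos (succ_le.2 h)]
        exact hc i h
      · rw [h, if_neg (not_le.2 (lt_succ.2 le_rfl))]

theorem comp_unique {x : α} {g : M → α → α} {n n' c c' : M} (h : Comp x g n c)
    (h' : Comp x g n' c') (R : Set (M → M)) [IsWorld R] : ∀ i, i ≤ n → i ≤ n' →
      bet c i = bet c' i := by
  apply Rec.induction (R := R) (P := fun i => i ≤ n → i ≤ n' → bet c i = bet c' i)
  · fun_prop
  · intro _ _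
    rw [h.1, h'.1]
  · intro i hi h1 h2
    rw [h.2 i (succ_le.1 h1), h'.2 i (succ_le.1 h2), hi (le_self_add.trans h1)
      (le_self_add.trans h2)]

theorem comp_least {x : α} {g : M → α → α} (hg : Rec R (fun p : M × α => g p.1 p.2)) (n : M) :
    Comp x g n (least (fun c => Comp x g n c)) := by
  refine (Rec.least_spec (R := R) (P := fun c => Comp x g n c) ?_ (comp_exists hg n)).1
  apply Rec.comp_ (x := fun _ : M => x) (g := fun _ : M => g)
  · fun_prop
  · exact Rec.comp (g := fun p : M × α => g p.1 p.2)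
      (f := fun p : M × M × α => p.2) hg (by fun_prop)
  · fun_prop
  · fun_prop

theorem prec0_zero {x : α} {g : M → α → α} (hg : Rec R (fun p : M × α => g p.1 p.2)) :
    prec0 x g 0 = x := by
  unfold prec0
  rw [(comp_least hg 0).1, dec_enc]

theorem prec0_succ {x : α} {g : M → α → α} (hg : Rec R (fun p : M × α => g p.1 p.2)) (n : M) :
    prec0 x g (n + 1) = g n (prec0 x g n) := by
  unfold prec0
  have h1 := comp_least (R := R) (x := x) hg (n + 1)
  have h2 := comp_least (R := R) (x := x) hg n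
  rw [h1.2 n (lt_succ.2 le_rfl), dec_enc]
  rw [comp_unique h1 h2 R n (le_self_add) le_rfl]

theorem Rec.prec0 {x : γ → α} {g : γ → M → α → α} {n : γ → M} (hx : Rec R x)
    (hg : Rec R (fun p : γ × M × α => g p.1 p.2.1 p.2.2)) (hn : Rec R n) :
    Rec R (fun a => prec0 (x a) (g a) (n a)) := by
  unfold OVW.prec0
  apply Rec.dec
  apply Rec.bet ?_ hn
  apply Rec.least (P := fun a c => Comp (x a) (g a) (n a) c)
  · apply Rec.comp_ (x := fun p : γ × M => x p.1) (g := fun p : γ × M => g p.1)
    · fun_prop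
    · exact Rec.comp (g := fun p : γ × M × α => g p.1 p.2.1 p.2.2)
        (f := fun p : (γ × M) × M × α => (p.1.1, p.2)) hg (by fun_prop)
    · fun_prop
    · fun_prop
  · intro a
    exact comp_exists (R := R) (x := x a) (g := g a)
      (Rec.comp (g := fun p : γ × M × α => g p.1 p.2.1 p.2.2)
        (f := fun p : M × α => (a, p)) hg (by fun_prop)) (n a)

/-- Uniqueness of functions defined by recursion. -/
theorem prec0_unique {x : α} {g : M → α → α} {F : M → α} {N : M} (hF : Rec R F)
    (h0 : F 0 = x) (hs : ∀ i < N, F (i + 1) = g i (F i)) : ∀ n ≤ N, F n = prec0 x g n := by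
  intro n hn
  obtain ⟨c, hc⟩ := IsWorld.beta (R := R) (fun i => enc (F i)) hF (n + 1)
  have hC : Comp x g n c := by
    constructor
    · rw [hc 0 (lt_succ.2 (zero_le' _)), h0]
    · intro i hi
      rw [hc (i + 1) (by rw [lt_succ, succ_le]; exact hi),
        hc i (hi.trans (lt_succ.2 le_rfl)), dec_enc, hs i (hi.trans_le hn)]
  have hex : ∃ c, Comp x g n c := ⟨c, hC⟩
  have hl : Comp x g n (least (fun c => Comp x g n c)) := by
    obtain ⟨c', h1, h2⟩ := Rec.lnp (R := R) (P := fun c' => c' ≤ c ∧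
        ∀ i ≤ n, bet c' i = bet c i) (by fun_prop) ⟨c, le_rfl, fun _ _ => rfl⟩
    have h3 : Comp x g n c' := by
      constructor
      · rw [h1.2 0 (zero_le' _)]
        exact hC.1
      · intro i hi
        rw [h1.2 (i + 1) (succ_le.2 hi), h1.2 i hi.le]
        exact hC.2 i hi
    have h4 : least (fun c => Comp x g n c) = c' := by
      apply least_eq h3
      intro m hm hc
      refine h2 m hm ⟨(hm.le.trans h1.1), fun i hi => ?_⟩
      exact comp_unique hc hC R i hi hi
    rw [h4]
    exact h3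
  unfold prec0
  rw [comp_unique hl hC R n le_rfl le_rfl, hc n (lt_succ.2 le_rfl), dec_enc]

/-- Induction along a recursion. -/
theorem prec0_induction {x : α} {g : M → α → α} (hg : Rec R (fun p : M × α => g p.1 p.2))
    {P : M → α → Prop} (hP : Rec R (fun p : M × α => P p.1 p.2)) (h0 : P 0 x)
    (hs : ∀ n a, P n a → P (n + 1) (g n a)) (n : M) : P n (prec0 x g n) := by
  have hr : Rec R (fun n => prec0 x g n) := by
    apply Rec.prec0 (x := fun _ : M => x) (g := fun _ : M => g)
    · fun_prop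
    · exact Rec.comp (g := fun p : M × α => g p.1 p.2)
        (f := fun p : M × M × α => p.2) hg (by fun_prop)
    · fun_prop
  refine Rec.induction (R := R) (P := fun n => P n (prec0 x g n)) ?_ ?_ ?_ n
  · exact Rec.comp2 (h := P) hP (by fun_prop) hr
  · rw [prec0_zero hg]
    exact h0
  · intro n hn
    rw [prec0_succ hg]
    exact hs _ _ hn

/-! ### The final form: `prec` -/

open Classical in
/-- Primitive recursion: `prec a g 0 = a`, `prec a g (n + 1) = g n (prec a g n)`. -/
noncomputable def prec (a : α) (g : M → α → α) (n : M) : α := if n = 0 then a else prec0 a g n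

omit [Cod M γ] [Cod M δ] [IsWorld R] in
theorem prec_zero (a : α) (g : M → α → α) : prec a g (0 : M) = a := if_pos rfl

omit [IsWorld R] in
theorem prec_congr {a : α} {g g' : M → α → α} {n : M} (h : ∀ i < n, ∀ a, g i a = g' i a) :
    prec a g n = prec a g' n := by
  unfold prec prec0
  have e : (fun c => Comp a g n c) = fun c => Comp a g' n c := by
    funext c
    apply propext
    constructor
    · rintro ⟨h1, h2⟩
      exact ⟨h1, fun i hi => by rw [h2 i hi, h i hi]⟩
    · rintro ⟨h1, h2⟩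
      exact ⟨h1, fun i hi => by rw [h2 i hi, h i hi]⟩
  rw [e]

theorem prec_eq_prec0 (a : α) {g : M → α → α} (hg : Rec R (fun p : M × α => g p.1 p.2)) (n : M) :
    prec a g n = prec0 a g n := by
  unfold prec
  by_cases h : n = 0
  · rw [if_pos h, h, prec0_zero hg]
  · rw [if_neg h]

theorem prec_succ (a : α) {g : M → α → α} (hg : Rec R (fun p : M × α => g p.1 p.2)) (n : M) :
    prec a g (n + 1) = g n (prec a g n) := by
  rw [prec_eq_prec0 a hg, prec_eq_prec0 a hg, prec0_succ hg]

@[fun_prop] theorem Rec.prec {a : γ → α} {g : γ → M → α → α} {n : γ → M} (ha : Rec R a)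
    (hg : Rec R (fun p : γ × M × α => g p.1 p.2.1 p.2.2)) (hn : Rec R n) :
    Rec R (fun x => prec (a x) (g x) (n x)) := by
  unfold OVW.prec
  exact Rec.ite (Rec.eq hn (Rec.const 0)) ha (Rec.prec0 ha hg hn)

/-- Uniqueness of functions defined by recursion. -/
theorem prec_unique {a : α} {g : M → α → α} {F : M → α} {N : M} (hF : Rec R F)
    (h0 : F 0 = a) (hs : ∀ i < N, F (i + 1) = g i (F i)) : ∀ n ≤ N, F n = prec a g n := by
  intro n hn
  unfold prec
  by_cases h : n = 0
  · rw [if_pos h, h, h0]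
  · rw [if_neg h]
    exact prec0_unique hF h0 hs n hn

/-- Induction along a recursion. -/
theorem prec_induction {a : α} {g : M → α → α} (hg : Rec R (fun p : M × α => g p.1 p.2))
    {P : M → α → Prop} (hP : Rec R (fun p : M × α => P p.1 p.2)) (h0 : P 0 a)
    (hs : ∀ n b, P n b → P (n + 1) (g n b)) (n : M) : P n (prec a g n) := by
  rw [prec_eq_prec0 a hg]
  exact prec0_induction hg hP h0 hs n

/-- Recursion with a changing parameter: `f (m + 1) c = g m c (f m (s c))`. -/
theorem exists_rec_shift {a : γ → α} {s : γ → γ} {g : M → γ → α → α} (ha : Rec R a) (hs : Rec R s)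
    (hg : Rec R (fun x : M × γ × α => g x.1 x.2.1 x.2.2)) :
    ∃ f : M → γ → α, Rec R (fun x : M × γ => f x.1 x.2) ∧ (∀ c, f 0 c = a c) ∧
      ∀ m c, f (m + 1) c = g m c (f m (s c)) := by
  have hit : ∀ c : γ, Rec R (fun p : M × γ => s p.2) := fun _ => by fun_prop
  have hI : Rec R (fun x : M × γ => prec x.2 (fun _ c => s c) x.1) := by fun_prop
  have hI0 : ∀ c : γ, prec c (fun _ c => s c) (0 : M) = c := fun c => prec_zero _ _
  have hIs : ∀ (c : γ) (i : M), prec c (fun _ c => s c) (i + 1) = s (prec c (fun _ c => s c) i) :=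
    fun c i => prec_succ (R := R) (g := fun _ c => s c) c (hit c) i
  have hIc : ∀ (c : γ) (i : M), prec (s c) (fun _ c => s c) i = s (prec c (fun _ c => s c) i) := by
    intro c
    apply Rec.induction (R := R)
      (P := fun i => prec (s c) (fun _ c => s c) i = s (prec c (fun _ c => s c) i))
    · fun_prop
    · rw [hI0, hI0]
    · intro i hi
      rw [hIs, hIs, hi]
  -- the value computed from inside
  let y : M → γ → M → α := fun m c j =>
    prec (a (prec c (fun _ c => s c) m)) (fun i b => g i (prec c (fun _ c => s c) (m - 1 - i)) b) j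
  have hg' : ∀ (m : M) (c : γ), Rec R (fun p : M × α =>
      g p.1 (prec c (fun _ c => s c) (m - 1 - p.1)) p.2) := by
    intro m c
    exact Rec.comp (g := fun x : M × γ × α => g x.1 x.2.1 x.2.2)
      (f := fun p : M × α => (p.1, prec c (fun _ c => s c) (m - 1 - p.1), p.2)) hg (by fun_prop)
  have y0 : ∀ m c, y m c 0 = a (prec c (fun _ c => s c) m) := fun m c => prec_zero _ _
  have ys : ∀ m c j, y m c (j + 1) = g j (prec c (fun _ c => s c) (m - 1 - j)) (y m c j) :=
    fun m c j => prec_succ (R := R) _ (hg' m c) j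
  have hy : Rec R (fun x : (M × γ) × M => y x.1.1 x.1.2 x.2) := by
    have h1 : Rec R (fun p : ((M × γ) × M) × M × α =>
        g p.2.1 (prec p.1.1.2 (fun _ c => s c) (p.1.1.1 - 1 - p.2.1)) p.2.2) :=
      Rec.comp (g := fun x : M × γ × α => g x.1 x.2.1 x.2.2)
        (f := fun p : ((M × γ) × M) × M × α =>
          (p.2.1, prec p.1.1.2 (fun _ c => s c) (p.1.1.1 - 1 - p.2.1), p.2.2)) hg (by fun_prop)
    have h2 : Rec R (fun x : (M × γ) × M => a (prec x.1.2 (fun _ c => s c) x.1.1)) := by fun_prop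
    exact Rec.prec (n := fun x : (M × γ) × M => x.2) h2 h1 (by fun_prop)
  refine ⟨fun m c => y m c m, ?_, ?_, ?_⟩
  · exact Rec.comp (g := fun x : (M × γ) × M => y x.1.1 x.1.2 x.2)
      (f := fun x : M × γ => (x, x.1)) hy (by fun_prop)
  · intro c
    show y 0 c 0 = _
    rw [y0, hI0]
  · intro m c
    show y (m + 1) c (m + 1) = g m c (y m (s c) m)
    have h3 : ∀ j, j ≤ m → y (m + 1) c j = y m (s c) j := by
      apply Rec.induction (R := R) (P := fun j => j ≤ m → y (m + 1) c j = y m (s c) j)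
      · have h4 : Rec R (fun j => y (m + 1) c j) :=
          Rec.comp (g := fun x : (M × γ) × M => y x.1.1 x.1.2 x.2)
            (f := fun j : M => ((m + 1, c), j)) hy (by fun_prop)
        have h5 : Rec R (fun j => y m (s c) j) :=
          Rec.comp (g := fun x : (M × γ) × M => y x.1.1 x.1.2 x.2)
            (f := fun j : M => ((m, s c), j)) hy (by fun_prop)
        fun_prop
      · intro _
        rw [y0, y0, hIs, hIc]
      · intro j hj h
        have hj' : j < m := succ_le.1 h
        rw [ys, ys, hj hj'.le, hIc, ← hIs]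
        congr 2
        obtain ⟨d, rfl⟩ := le_iff_exists_add.1 h
        have e1 : j + 1 + d + 1 - 1 - j = 1 + d := by
          rw [add_tsub_cancel_right, add_assoc, add_sub_self']
        have e2 : j + 1 + d - 1 - j = d := by
          have : j + 1 + d = j + d + 1 := by ring
          rw [this, add_tsub_cancel_right, add_sub_self']
        rw [e1, e2, add_comm]
    rw [ys, h3 m le_rfl]
    congr 1
    rw [add_tsub_cancel_right, tsub_self, hI0]

/-! ### Names -/

theorem Rec.id' : Rec R (fun x : α => x) := Rec.id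
theorem Rec.const' (b : β) : Rec R (fun _ : α => b) := Rec.const b
theorem Rec.comp' {f : β → γ} {g : α → β} (hf : Rec R f) (hg : Rec R g) :
    Rec R (fun x => f (g x)) := Rec.comp hf hg
theorem Rec.fst' : Rec R (fun x : α × β => x.1) := Rec.fst_
theorem Rec.snd' : Rec R (fun x : α × β => x.2) := Rec.snd_
theorem Rec.mk' {f : α → β} {g : α → γ} (hf : Rec R f) (hg : Rec R g) :
    Rec R (fun x => (f x, g x)) := Rec.prodMk hf hg

section induction
variable {p : M → Prop} {q : M → α → Prop}

theorem ind_rec (hp : Rec R p) (h0 : p 0) (hs : ∀ n, p n → p (n + 1)) : ∀ n, p n :=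
  Rec.induction hp h0 hs

theorem ind_rec_lt (hp : Rec R p) (N : M) (h0 : p 0) (hs : ∀ n < N, p n → p (n + 1)) :
    ∀ n ≤ N, p n := by
  apply ind_rec (R := R) (p := fun n => n ≤ N → p n)
  · fun_prop
  · exact fun _ => h0
  · intro n hn h
    have h1 : n < N := succ_le.1 h
    exact hs n h1 (hn h1.le)

theorem ind_strong (hp : Rec R p) (hs : ∀ n, (∀ m < n, p m) → p n) : ∀ n, p n :=
  Rec.strong hp hs

theorem ind_sig1 (hp : Rec R (fun x : M × α => q x.1 x.2)) (h0 : ∃ a, q 0 a)
    (hs : ∀ n, (∃ a, q n a) → ∃ a, q (n + 1) a) : ∀ n, ∃ a, q n a :=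
  Rec.sigma_induction hp h0 hs

theorem ind_sig1_lt (hp : Rec R (fun x : M × α => q x.1 x.2)) (N : M) (h0 : ∃ a, q 0 a)
    (hs : ∀ n < N, (∃ a, q n a) → ∃ a, q (n + 1) a) : ∀ n ≤ N, ∃ a, q n a := by
  obtain ⟨a0, _⟩ := h0
  have h : ∀ n, ∃ a, (n ≤ N → q n a) := by
    apply ind_sig1 (R := R) (q := fun n a => n ≤ N → q n a)
    · fun_prop
    · exact ⟨a0, fun _ => by assumption⟩
    · rintro n ⟨a, ha⟩
      by_cases h : n + 1 ≤ N
      · have h1 : n < N := succ_le.1 h
        obtain ⟨b, hb⟩ := hs n h1 ⟨a, ha h1.le⟩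
        exact ⟨b, fun _ => hb⟩
      · exact ⟨a0, fun h2 => absurd h2 h⟩
  intro n hn
  obtain ⟨a, ha⟩ := h n
  exact ⟨a, ha hn⟩

theorem ind_pi1 (hp : Rec R (fun x : M × α => q x.1 x.2)) (h0 : ∀ a, q 0 a)
    (hs : ∀ n, (∀ a, q n a) → ∀ a, q (n + 1) a) : ∀ n, ∀ a, q n a :=
  Rec.pi_induction hp h0 hs

theorem ind_pi1_lt (hp : Rec R (fun x : M × α => q x.1 x.2)) (N : M) (h0 : ∀ a, q 0 a)
    (hs : ∀ n < N, (∀ a, q n a) → ∀ a, q (n + 1) a) : ∀ n ≤ N, ∀ a, q n a := by
  have h : ∀ n a, (n ≤ N → q n a) := by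
    apply ind_pi1 (R := R) (q := fun n a => n ≤ N → q n a)
    · fun_prop
    · exact fun a _ => h0 a
    · intro n hn a h
      have h1 : n < N := succ_le.1 h
      exact hs n h1 (fun a => hn a h1.le) a
  exact fun n hn a => h n a hn

theorem least_rec (hp : Rec R p) (h : ∃ n, p n) : ∃ n, p n ∧ ∀ m < n, ¬ p m := Rec.lnp hp h

theorem least_sig1 (hp : Rec R (fun x : M × α => q x.1 x.2)) (h : ∃ n, ∃ a, q n a) :
    ∃ n, (∃ a, q n a) ∧ ∀ m < n, ¬ ∃ a, q m a := by
  obtain ⟨n, h1, h2⟩ := Rec.lnp_sigma hp h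
  refine ⟨n, h1, fun m hm => ?_⟩
  push Not
  exact h2 m hm

omit [IsWorld R] in
theorem Rec.mono {R₀ R₁ : Set (M → M)} (h : R₀ ⊆ R₁) {f : α → β} (hf : Rec R₀ f) : Rec R₁ f :=
  h hf

theorem Rec.jump_ex {R₀ R₁ : Set (M → M)} [IsWorld R₀] [IsWorld R₁] (hj : JumpIn R₀ R₁)
    {p : γ → α → Prop} (hp : Rec R₀ (fun x : γ × α => p x.1 x.2)) :
    Rec R₁ (fun x => ∃ a, p x a) := by
  have h1 : Rec R₀ (fun z : M =>
      (OVW.enc (¬ p (OVW.dec (OVW.fs z)) (OVW.dec (OVW.sn z))) : M)) := by
    apply Rec.enc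
    apply Rec.not
    exact Rec.comp2 (h := p) hp (by fun_prop) (by fun_prop)
  have h2 := hj _ h1
  have h3 : ∀ m : M, (∃ n : M, (OVW.enc (¬ p (OVW.dec (OVW.fs (OVW.pr m n)))
        (OVW.dec (OVW.sn (OVW.pr m n)))) : M) = 0) ↔ ∃ a, p (OVW.dec m) a := by
    intro m
    simp only [enc_eq_zero, not_not, fs_pr, sn_pr]
    constructor
    · rintro ⟨n, hn⟩
      exact ⟨_, hn⟩
    · rintro ⟨a, ha⟩
      exact ⟨OVW.enc a, by rw [dec_enc]; exact ha⟩
  refine (congrArg (fun f => f ∈ R₁) ?_).mp h2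
  funext m
  show (open Classical in if ∃ n : M, (OVW.enc (¬ p (OVW.dec (OVW.fs (OVW.pr m n)))
        (OVW.dec (OVW.sn (OVW.pr m n)))) : M) = 0 then (1 : M) else 0) =
        (OVW.enc (∃ a, p (OVW.dec m) a) : M)
  by_cases h : ∃ a, p (OVW.dec m) a
  · rw [enc_true h, if_pos ((h3 m).2 h)]
  · rw [enc_false h, if_neg (fun h' => h ((h3 m).1 h'))]

theorem Rec.jump_all {R₀ R₁ : Set (M → M)} [IsWorld R₀] [IsWorld R₁] (hj : JumpIn R₀ R₁)
    {p : γ → α → Prop} (hp : Rec R₀ (fun x : γ × α => p x.1 x.2)) :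
    Rec R₁ (fun x => ∀ a, p x a) := by
  have h := Rec.not (Rec.jump_ex hj (p := fun x a => ¬ p x a) (Rec.not hp))
  simpa only [not_exists, not_not] using h

end induction

@[fun_prop] theorem Rec.min {f g : α → M} (hf : Rec R f) (hg : Rec R g) :
    Rec R (fun x => min (f x) (g x)) := by
  simp only [min_def]
  fun_prop

@[fun_prop] theorem Rec.max {f g : α → M} (hf : Rec R f) (hg : Rec R g) :
    Rec R (fun x => max (f x) (g x)) := by
  simp only [max_def]
  fun_prop

omit [IsWorld R] in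
/-- A function of `x : α` is recursive if it is recursive as a function of the code. -/
theorem rec_iff_dec {f : α → β} : Rec R f ↔ Rec R (fun m : M => f (OVW.dec m)) := Iff.rfl

theorem rec_iff_dec_snd {f : γ → α → β} : Rec R (fun p : γ × α => f p.1 p.2) ↔
    Rec R (fun p : γ × M => f p.1 (OVW.dec p.2)) := by
  constructor
  · intro h
    exact Rec.comp (g := fun p : γ × α => f p.1 p.2) (f := fun p : γ × M => (p.1, OVW.dec p.2)) h
      (by fun_prop)
  · intro h
    have := Rec.comp (g := fun p : γ × M => f p.1 (OVW.dec p.2))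
      (f := fun p : γ × α => (p.1, OVW.enc p.2)) h (by fun_prop)
    simpa only [dec_enc] using this

end

end Pool.Agent.OVW
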