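import Pool.Agent.OVW.Lib5a

/-! # Sums over internal finite sets -/

set_option linter.unusedSectionVars false

namespace Pool.Agent.OVW

open Classical

variable {M : Type} [Arith M] [HasWorld M] {R : Set (M → M)} [IsWorld R] {α β γ δ : Type}

/-! ## Sums over initial segments -/

/-- The sum of the `F i`, `i < n`. -/
noncomputable def rsum (n : M) (F : M → KK M) : KK M := prec 0 (fun i s => s + F i) n

@[fun_prop] theorem Rec.rsum [Cod M γ] {n : γ → M} {F : γ → M → KK M} (hn : Rec R n)
    (hF : Rec R (fun x : γ × M => F x.1 x.2)) : Rec R (fun x => rsum (n x) (F x)) := by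
  unfold OVW.rsum
  fun_prop

theorem rsum_zero (F : M → KK M) : rsum 0 F = 0 := prec_zero _ _

theorem rsum_succ {F : M → KK M} (hF : Rec R F) (n : M) : rsum (n + 1) F = rsum n F + F n :=
  prec_succ (R := R) _ (g := fun i s => s + F i) (by fun_prop) n

theorem rsum_congr {F G : M → KK M} (hF : Rec R F) (hG : Rec R G) {n : M}
    (h : ∀ i < n, F i = G i) : rsum n F = rsum n G := by
  refine ind_rec_lt (R := R) (p := fun m => rsum m F = rsum m G) (by fun_prop) n ?_ ?_ n le_rfl
  · rw [rsum_zero, rsum_zero]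
  · intro m hm ih
    rw [rsum_succ hF, rsum_succ hG, ih, h m hm]

theorem rsum_add {F G : M → KK M} (hF : Rec R F) (hG : Rec R G) (n : M) :
    rsum n (fun i => F i + G i) = rsum n F + rsum n G := by
  refine ind_rec (R := R) (p := fun m => rsum m (fun i => F i + G i) = rsum m F + rsum m G)
    (by fun_prop) ?_ ?_ n
  · rw [rsum_zero, rsum_zero, rsum_zero, add_zero]
  · intro m ih
    rw [rsum_succ hF, rsum_succ hG, rsum_succ (R := R) (F := fun i => F i + G i) (by fun_prop), ih]
    ring

theorem rsum_mul_left (c : KK M) {F : M → KK M} (hF : Rec R F) (n : M) :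
    rsum n (fun i => c * F i) = c * rsum n F := by
  refine ind_rec (R := R) (p := fun m => rsum m (fun i => c * F i) = c * rsum m F)
    (by fun_prop) ?_ ?_ n
  · rw [rsum_zero, rsum_zero, mul_zero]
  · intro m ih
    rw [rsum_succ hF, rsum_succ (R := R) (F := fun i => c * F i) (by fun_prop), ih]
    ring

theorem rsum_const_zero (n : M) : rsum n (fun _ => (0 : KK M)) = 0 := by
  obtain ⟨R, hR⟩ := HasWorld.ex (M := M)
  refine ind_rec (R := R) (p := fun m => rsum m (fun _ => (0 : KK M)) = 0)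
    (by fun_prop) ?_ ?_ n
  · rw [rsum_zero]
  · intro m ih
    rw [rsum_succ (R := R) (F := fun _ => (0 : KK M)) (by fun_prop), ih, add_zero]

theorem rsum_nonneg {F : M → KK M} (hF : Rec R F) {n : M} (h : ∀ i < n, 0 ≤ F i) :
    0 ≤ rsum n F := by
  refine ind_rec_lt (R := R) (p := fun m => 0 ≤ rsum m F) (by fun_prop) n ?_ ?_ n le_rfl
  · rw [rsum_zero]
  · intro m hm ih
    rw [rsum_succ hF]
    exact add_nonneg ih (h m hm)

theorem rsum_split {F : M → KK M} (hF : Rec R F) (m n : M) :
    rsum (m + n) F = rsum m F + rsum n (fun i => F (m + i)) := by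
  refine ind_rec (R := R) (p := fun n => rsum (m + n) F = rsum m F + rsum n (fun i => F (m + i)))
    (by fun_prop) ?_ ?_ n
  · rw [add_zero, rsum_zero, add_zero]
  · intro k ih
    rw [← add_assoc, rsum_succ hF, ih, rsum_succ (R := R) (F := fun i => F (m + i)) (by fun_prop)]
    ring

theorem rsum_comm {F : M → M → KK M} (hF : Rec R (fun x : M × M => F x.1 x.2)) (m n : M) :
    rsum m (fun i => rsum n (fun j => F i j)) = rsum n (fun j => rsum m (fun i => F i j)) := by
  refine ind_rec (R := R) (p := fun m => rsum m (fun i => rsum n (fun j => F i j)) =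
    rsum n (fun j => rsum m (fun i => F i j))) (by fun_prop) ?_ ?_ m
  · simp only [rsum_zero]
    rw [rsum_const_zero]
  · intro k ih
    rw [rsum_succ (R := R) (F := fun i => rsum n (fun j => F i j)) (by fun_prop), ih,
      ← rsum_add (R := R) (by fun_prop) (by fun_prop)]
    refine rsum_congr (R := R) (by fun_prop) (by fun_prop) ?_
    intro j _
    rw [rsum_succ (R := R) (F := fun i => F i j) (by fun_prop)]


variable [Cod M α] [Cod M β] [Cod M γ] [Cod M δ]

/-! ## Sums -/

/-- The sum of the values of `f` on `S` (junk value if `f` is not coded on `S`). -/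
noncomputable def hsum (S : FSet M α) (f : α → KK M) : KK M :=
  prec 0 (fun i s => if (enc (dec i : α) : M) = i ∧ (dec i : α) ∈ S then s + f (dec i) else s)
    S.bd

@[fun_prop] theorem Rec.hsum {S : γ → FSet M α} {f : γ → α → KK M} (hS : Rec R S)
    (hf : Rec R (fun x : γ × α => f x.1 x.2)) : Rec R (fun x => hsum (S x) (f x)) := by
  unfold OVW.hsum
  fun_prop


/-- The function which is summed in `hsum`. -/
noncomputable def sind (S : FSet M α) (f : α → KK M) (i : M) : KK M :=
  if (enc (dec i : α) : M) = i ∧ (dec i : α) ∈ S then f (dec i) else 0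

@[fun_prop] theorem Rec.sind {S : γ → FSet M α} {f : γ → α → KK M} {i : γ → M} (hS : Rec R S)
    (hf : Rec R (fun x : γ × α => f x.1 x.2)) (hi : Rec R i) :
    Rec R (fun x => sind (S x) (f x) (i x)) := by
  unfold OVW.sind
  fun_prop

theorem hsum_eq_rsum_bd (S : FSet M α) (f : α → KK M) : hsum S f = rsum S.bd (sind S f) := by
  unfold hsum rsum sind
  congr 1
  funext i s
  split_ifs <;> simp

theorem sind_of_ge {S : FSet M α} {f : α → KK M} {N : M} (hN : ∀ a ∈ S, (enc a : M) < N) {i : M}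
    (hi : N ≤ i) : sind S f i = 0 := by
  unfold sind
  rw [if_neg]
  rintro ⟨h1, h2⟩
  have := hN _ h2
  rw [h1] at this
  exact absurd this (not_lt.2 hi)

theorem rsum_sind_le {S : FSet M α} {f : α → KK M} (hf : Rec R f) {N N' : M}
    (hN : ∀ a ∈ S, (enc a : M) < N) (h : N ≤ N') : rsum N' (sind S f) = rsum N (sind S f) := by
  obtain ⟨d, rfl⟩ := le_iff_exists_add.1 h
  rw [rsum_split (R := R) (by fun_prop)]
  have : rsum d (fun i => sind S f (N + i)) = 0 := by
    rw [← rsum_const_zero d]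
    refine rsum_congr (R := R) (by fun_prop) (by fun_prop) ?_
    intro i _
    exact sind_of_ge hN le_self_add
  rw [this, add_zero]

theorem hsum_eq {S : FSet M α} {f : α → KK M} (hf : Rec R f) {N : M}
    (hN : ∀ a ∈ S, (enc a : M) < N) : hsum S f = rsum N (sind S f) := by
  rw [hsum_eq_rsum_bd, ← rsum_sind_le hf hN (le_max_left N S.bd),
    ← rsum_sind_le hf (fun a ha => FSet.lt_bd ha) (le_max_right N S.bd)]

section sums

variable {S T : FSet M α} {f g : α → KK M}

theorem hsum_congr (h : ∀ a ∈ S, f a = g a) : hsum S f = hsum S g := by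
  unfold hsum
  congr 1
  funext i s
  split_ifs with h1
  · rw [h _ h1.2]
  · rfl

theorem hsum_add (hf : Rec R f) (hg : Rec R g) :
    hsum S (fun a => f a + g a) = hsum S f + hsum S g := by
  rw [hsum_eq_rsum_bd, hsum_eq_rsum_bd, hsum_eq_rsum_bd,
    ← rsum_add (R := R) (by fun_prop) (by fun_prop)]
  congr 1
  funext i
  unfold sind
  split_ifs <;> simp

theorem hsum_mul_left (c : KK M) (hf : Rec R f) :
    hsum S (fun a => c * f a) = c * hsum S f := by
  rw [hsum_eq_rsum_bd, hsum_eq_rsum_bd, ← rsum_mul_left (R := R) c (by fun_prop)]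
  congr 1
  funext i
  unfold sind
  split_ifs <;> simp

theorem hsum_mul_right (c : KK M) (hf : Rec R f) :
    hsum S (fun a => f a * c) = hsum S f * c := by
  rw [mul_comm, ← hsum_mul_left c hf]
  exact hsum_congr fun a _ => mul_comm _ _

theorem hsum_sub (hf : Rec R f) (hg : Rec R g) :
    hsum S (fun a => f a - g a) = hsum S f - hsum S g := by
  have h := hsum_add (S := S) (f := fun a => f a - g a) (g := g) (R := R) (by fun_prop) hg
  have h2 : hsum S (fun a => f a - g a + g a) = hsum S f := hsum_congr fun a _ => by ring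
  rw [h2] at h
  rw [h]
  ring

theorem hsum_nonneg (hf : Rec R f) (h : ∀ a ∈ S, 0 ≤ f a) : 0 ≤ hsum S f := by
  rw [hsum_eq_rsum_bd]
  refine rsum_nonneg (R := R) (by fun_prop) ?_
  intro i _
  unfold sind
  split_ifs with h1
  · exact h _ h1.2
  · exact le_rfl

theorem hsum_le_hsum (hf : Rec R f) (hg : Rec R g) (h : ∀ a ∈ S, f a ≤ g a) :
    hsum S f ≤ hsum S g := by
  have h1 : 0 ≤ hsum S (fun a => g a - f a) :=
    hsum_nonneg (R := R) (by fun_prop) fun a ha => sub_nonneg.2 (h a ha)
  rw [hsum_sub hg hf] at h1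
  linarith

@[simp] theorem hsum_zero : hsum S (fun _ => (0 : KK M)) = 0 := by
  have h : sind S (fun _ => (0 : KK M)) = fun _ => 0 := by
    funext i
    unfold sind
    split_ifs <;> rfl
  rw [hsum_eq_rsum_bd, h, rsum_const_zero]

@[simp] theorem hsum_empty : hsum (∅ : FSet M α) f = 0 := by
  rw [hsum_congr (g := fun _ => (0 : KK M)) fun a ha => absurd ha (not_mem_empty a), hsum_zero]

theorem hsum_singleton (a : α) (hf : Rec R f) : hsum {a} f = f a := by
  rw [hsum_eq (R := R) hf (N := (enc a : M) + 1) (by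
    intro b hb
    rw [mem_singleton.1 hb]
    exact lt_succ.2 le_rfl), rsum_succ (R := R) (by fun_prop)]
  have h1 : rsum ((enc a : M)) (sind ({a} : FSet M α) f) = 0 := by
    rw [← rsum_const_zero ((enc a : M))]
    refine rsum_congr (R := R) (by fun_prop) (by fun_prop) ?_
    intro i hi
    unfold sind
    rw [if_neg]
    rintro ⟨h1, h2⟩
    rw [mem_singleton.1 h2] at h1
    exact absurd hi (by rw [h1]; exact lt_irrefl _)
  rw [h1, zero_add]
  unfold sind
  rw [if_pos ⟨by rw [dec_enc], by rw [dec_enc]; exact mem_singleton.2 rfl⟩, dec_enc]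

theorem hsum_union (hf : Rec R f) (h : ∀ a ∈ S, a ∉ T) :
    hsum (S ∪ T) f = hsum S f + hsum T f := by
  have hN : ∀ a ∈ S ∪ T, (enc a : M) < max S.bd T.bd := by
    intro a ha
    rcases mem_union.1 ha with h | h
    · exact (FSet.lt_bd h).trans_le (le_max_left _ _)
    · exact (FSet.lt_bd h).trans_le (le_max_right _ _)
  rw [hsum_eq hf hN, hsum_eq hf (N := max S.bd T.bd) (fun a ha => hN a (mem_union.2 (Or.inl ha))),
    hsum_eq hf (N := max S.bd T.bd) (fun a ha => hN a (mem_union.2 (Or.inr ha))),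
    ← rsum_add (R := R) (by fun_prop) (by fun_prop)]
  congr 1
  funext i
  unfold sind
  by_cases h1 : (enc (dec i : α) : M) = i
  · by_cases h2 : (dec i : α) ∈ S
    · rw [if_pos ⟨h1, mem_union.2 (Or.inl h2)⟩, if_pos ⟨h1, h2⟩, if_neg (fun h3 => h _ h2 h3.2),
        add_zero]
    · by_cases h3 : (dec i : α) ∈ T
      · rw [if_pos ⟨h1, mem_union.2 (Or.inr h3)⟩, if_neg (fun h4 => h2 h4.2), if_pos ⟨h1, h3⟩,
          zero_add]
      · rw [if_neg, if_neg (fun h4 => h2 h4.2), if_neg (fun h4 => h3 h4.2), zero_add]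
        rintro ⟨-, h4⟩
        rcases mem_union.1 h4 with h5 | h5
        · exact h2 h5
        · exact h3 h5
  · rw [if_neg (fun h4 => h1 h4.1), if_neg (fun h4 => h1 h4.1), if_neg (fun h4 => h1 h4.1),
      zero_add]

theorem hsum_filter {p : α → Prop} (hp : Rec R p) (hf : Rec R f) :
    hsum (S.filter p) f = hsum S (fun a => if p a then f a else 0) := by
  have hN : ∀ a ∈ S.filter p, (enc a : M) < S.bd := by
    intro a ha
    exact FSet.lt_bd ((mem_filter hp).1 ha).1
  rw [hsum_eq hf hN, hsum_eq_rsum_bd]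
  congr 1
  funext i
  unfold sind
  by_cases h1 : (enc (dec i : α) : M) = i
  · by_cases h2 : (dec i : α) ∈ S
    · by_cases h3 : p (dec i : α)
      · rw [if_pos ⟨h1, (mem_filter hp).2 ⟨h2, h3⟩⟩, if_pos ⟨h1, h2⟩]
        exact (if_pos h3).symm
      · rw [if_neg (fun h4 => h3 ((mem_filter hp).1 h4.2).2), if_pos ⟨h1, h2⟩]
        exact (if_neg h3).symm
    · rw [if_neg (fun h4 => h2 ((mem_filter hp).1 h4.2).1), if_neg (fun h4 => h2 h4.2)]
  · rw [if_neg (fun h4 => h1 h4.1), if_neg (fun h4 => h1 h4.1)]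

theorem hsum_subset (hf : Rec R f) (h : S ⊆ T) (h0 : ∀ a ∈ T, 0 ≤ f a) :
    hsum S f ≤ hsum T f := by
  have h1 : S = T.filter (fun a => a ∈ S) := by
    apply FSet.ext
    intro a
    rw [mem_filter (R := R) (by fun_prop)]
    exact ⟨fun ha => ⟨h a ha, ha⟩, fun ha => ha.2⟩
  have h2 : hsum S f = hsum T (fun a => if a ∈ S then f a else 0) := by
    conv_lhs => rw [h1]
    exact hsum_filter (R := R) (by fun_prop) hf
  rw [h2]
  refine hsum_le_hsum (R := R) (by fun_prop) hf ?_
  intro a ha
  split_ifs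
  · exact le_rfl
  · exact h0 a ha

theorem single_le_hsum (hf : Rec R f) (h0 : ∀ a ∈ S, 0 ≤ f a) {a : α} (ha : a ∈ S) :
    f a ≤ hsum S f := by
  rw [← hsum_singleton a hf]
  exact hsum_subset hf (fun b hb => by rw [mem_singleton.1 hb]; exact ha) h0

theorem hsum_ite_eq {c : α} (hc : c ∈ S) (x : KK M) :
    hsum S (fun a => if a = c then x else 0) = x := by
  obtain ⟨R, hR⟩ := HasWorld.ex (M := M)
  rw [← hsum_filter (R := R) (f := fun _ => x) (by fun_prop) (by fun_prop)]
  have : S.filter (fun a => a = c) = {c} := by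
    apply FSet.ext
    intro a
    rw [mem_filter (R := R) (by fun_prop), mem_singleton]
    exact ⟨fun ha => ha.2, fun ha => ⟨by rw [ha]; exact hc, ha⟩⟩
  rw [this, hsum_singleton (R := R) c (by fun_prop)]

theorem hsum_comm {S : FSet M α} {T : FSet M β} {f : α → β → KK M}
    (hf : Rec R (fun x : α × β => f x.1 x.2)) :
    hsum S (fun a => hsum T (fun b => f a b)) = hsum T (fun b => hsum S (fun a => f a b)) := by
  have e1 : ∀ i, sind S (fun a => hsum T (fun b => f a b)) i =
      rsum T.bd (fun j => sind T (fun b => sind S (fun a => f a b) i) j) := by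
    intro i
    unfold sind
    by_cases h1 : (enc (dec i : α) : M) = i ∧ (dec i : α) ∈ S
    · simp only [if_pos h1]
      rw [hsum_eq_rsum_bd]
      rfl
    · simp only [if_neg h1, ite_self]
      rw [rsum_const_zero]
  have e2 : ∀ j, sind T (fun b => hsum S (fun a => f a b)) j =
      rsum S.bd (fun i => sind T (fun b => sind S (fun a => f a b) i) j) := by
    intro j
    unfold sind
    by_cases h1 : (enc (dec j : β) : M) = j ∧ (dec j : β) ∈ T
    · simp only [if_pos h1]
      rw [hsum_eq_rsum_bd]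
      rfl
    · simp only [if_neg h1]
      rw [rsum_const_zero]
  rw [hsum_eq_rsum_bd, hsum_eq_rsum_bd (S := T)]
  rw [show sind S (fun a => hsum T (fun b => f a b)) = _ from funext e1,
    show sind T (fun b => hsum S (fun a => f a b)) = _ from funext e2]
  exact rsum_comm (R := R) (F := fun i j => sind T (fun b => sind S (fun a => f a b) i) j)
    (by fun_prop) _ _

/-- sum along the fibres of `φ` -/
theorem hsum_fiber {S : FSet M α} {T : FSet M β} {φ : α → β} (hφ : Rec R φ)
    (hf : Rec R f) (h : ∀ a ∈ S, φ a ∈ T) :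
    hsum S f = hsum T (fun b => hsum (S.filter (fun a => φ a = b)) f) := by
  have h1 : ∀ b ∈ T, hsum (S.filter (fun a => φ a = b)) f =
      hsum S (fun a => if φ a = b then f a else 0) := by
    intro b _
    exact hsum_filter (R := R) (by fun_prop) hf
  rw [hsum_congr h1, hsum_comm (R := R) (f := fun b a => if φ a = b then f a else 0) (by fun_prop)]
  refine hsum_congr fun a ha => ?_
  refine Eq.trans (hsum_ite_eq (h a ha) (f a)).symm (hsum_congr fun b _ => ?_)
  simp only [eq_comm]

/-- internal bijections -/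
theorem hsum_bij {S : FSet M α} {T : FSet M β} {f : α → KK M} {g : β → KK M} (φ : α → β)
    (hφ : Rec R φ) (hf : Rec R f) (hg : Rec R g) (h : ∀ a ∈ S, φ a ∈ T)
    (hinj : ∀ a ∈ S, ∀ a' ∈ S, φ a = φ a' → a = a') (hsurj : ∀ b ∈ T, ∃ a ∈ S, φ a = b)
    (hfg : ∀ a ∈ S, f a = g (φ a)) : hsum S f = hsum T g := by
  rw [hsum_fiber hφ hf h]
  refine hsum_congr fun b hb => ?_
  obtain ⟨a, ha, hab⟩ := hsurj b hb
  have : S.filter (fun a => φ a = b) = {a} := by
    apply FSet.ext
    intro a'
    rw [mem_filter (R := R) (by fun_prop), mem_singleton]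
    constructor
    · rintro ⟨h1, h2⟩
      exact hinj _ h1 _ ha (by rw [h2, hab])
    · intro h1
      rw [h1]
      exact ⟨ha, hab⟩
  rw [this, hsum_singleton (R := R) a hf, hfg a ha, hab]

/-- two inverse internal maps -/
theorem hsum_bij' {S : FSet M α} {T : FSet M β} {f : α → KK M} {g : β → KK M} (φ : α → β)
    (ψ : β → α) (hφ : Rec R φ) (hf : Rec R f) (hg : Rec R g) (h : ∀ a ∈ S, φ a ∈ T)
    (h' : ∀ b ∈ T, ψ b ∈ S) (h1 : ∀ a ∈ S, ψ (φ a) = a) (h2 : ∀ b ∈ T, φ (ψ b) = b)
    (hfg : ∀ a ∈ S, f a = g (φ a)) : hsum S f = hsum T g :=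
  hsum_bij φ hφ hf hg h (fun a ha a' ha' he => by rw [← h1 a ha, ← h1 a' ha', he])
    (fun b hb => ⟨ψ b, h' b hb, h2 b hb⟩) hfg

theorem hsum_prod {S : FSet M α} {T : FSet M β} {f : α × β → KK M} (hf : Rec R f) :
    hsum (S.prod T) f = hsum S (fun a => hsum T (fun b => f (a, b))) := by
  rw [hsum_fiber (R := R) (S := S.prod T) (T := S) (φ := Prod.fst) (by fun_prop) hf
    (fun x hx => (mem_prod.1 hx).1)]
  refine hsum_congr fun a ha => ?_
  refine hsum_bij' (R := R) (fun x : α × β => x.2) (fun b => (a, b)) (by fun_prop) hf (by fun_prop)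
    ?_ ?_ ?_ ?_ ?_
  · intro x hx
    rw [mem_filter (R := R) (by fun_prop)] at hx
    exact (mem_prod.1 hx.1).2
  · intro b hb
    rw [mem_filter (R := R) (by fun_prop)]
    exact ⟨mem_prod.2 ⟨ha, hb⟩, rfl⟩
  · intro x hx
    rw [mem_filter (R := R) (by fun_prop)] at hx
    exact Prod.ext hx.2.symm rfl
  · intro b _
    rfl
  · intro x hx
    rw [mem_filter (R := R) (by fun_prop)] at hx
    exact congrArg f (Prod.ext hx.2 rfl)

theorem hsum_rng_zero (f : M → KK M) : hsum (rng 0) f = 0 := by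
  have : rng (0 : M) = ∅ := by
    apply FSet.ext
    intro a
    rw [mem_rng]
    exact ⟨fun h => absurd h (by simp), fun h => absurd h (not_mem_empty a)⟩
  rw [this, hsum_empty]

theorem hsum_rng_succ {f : M → KK M} (hf : Rec R f) (n : M) :
    hsum (rng (n + 1)) f = hsum (rng n) f + f n := by
  have : rng (n + 1) = rng n ∪ {n} := by
    apply FSet.ext
    intro a
    rw [mem_rng, mem_union, mem_rng, mem_singleton, lt_succ, le_iff_lt_or_eq]
  rw [this, hsum_union hf, hsum_singleton n hf]
  intro a ha h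
  rw [mem_rng] at ha
  rw [mem_singleton.1 h] at ha
  exact lt_irrefl _ ha

theorem hsum_rng_add {f : M → KK M} (hf : Rec R f) (m n : M) :
    hsum (rng (m + n)) f = hsum (rng m) f + hsum (rng n) (fun i => f (m + i)) := by
  refine ind_rec (R := R) (p := fun n => hsum (rng (m + n)) f =
    hsum (rng m) f + hsum (rng n) (fun i => f (m + i))) (by fun_prop) ?_ ?_ n
  · rw [add_zero, hsum_rng_zero, add_zero]
  · intro k ih
    rw [← add_assoc, hsum_rng_succ hf, ih, hsum_rng_succ (R := R) (by fun_prop)]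
    ring

theorem hsum_rng_mul {f : M → KK M} (hf : Rec R f) (m n : M) :
    hsum (rng (m * n)) f = hsum (rng m) (fun i => hsum (rng n) (fun j => f (i * n + j))) := by
  refine ind_rec (R := R) (p := fun m => hsum (rng (m * n)) f =
    hsum (rng m) (fun i => hsum (rng n) (fun j => f (i * n + j)))) (by fun_prop) ?_ ?_ m
  · rw [zero_mul, hsum_rng_zero, hsum_rng_zero]
  · intro k ih
    rw [add_mul, one_mul, hsum_rng_add hf, ih, hsum_rng_succ (R := R)
      (f := fun i => hsum (rng n) (fun j => f (i * n + j))) (by fun_prop)]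

end sums

/-! ## The number of elements -/

/-- the number of elements, as an element of `M` -/
noncomputable def FSet.card (S : FSet M α) : M :=
  prec 0 (fun i s => if (enc (dec i : α) : M) = i ∧ (dec i : α) ∈ S then s + 1 else s) S.bd

@[fun_prop] theorem Rec.card {S : γ → FSet M α} (hS : Rec R S) : Rec R (fun x => (S x).card) := by
  unfold FSet.card
  fun_prop

theorem card_cast (S : FSet M α) : (S.card : KK M) = hsum S (fun _ => (1 : KK M)) := by
  obtain ⟨R, hR⟩ := HasWorld.ex (M := M)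
  rw [hsum_eq_rsum_bd]
  unfold FSet.card
  refine ind_rec (R := R) (p := fun n => ((prec (0 : M) (fun i s => if (enc (dec i : α) : M) = i ∧
    (dec i : α) ∈ S then s + 1 else s) n : M) : KK M) = rsum n (sind S (fun _ => (1 : KK M))))
    (by fun_prop) ?_ ?_ S.bd
  · rw [prec_zero, rsum_zero, cK_zero]
  · intro n ih
    rw [prec_succ (R := R) _ (by fun_prop), rsum_succ (R := R) (by fun_prop), ← ih]
    unfold sind
    split_ifs
    · rw [cK_add, cK_one]
    · rw [add_zero]

theorem hsum_const (S : FSet M α) (c : KK M) : hsum S (fun _ => c) = S.card * c := by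
  obtain ⟨R, hR⟩ := HasWorld.ex (M := M)
  rw [card_cast, ← hsum_mul_right (R := R) c (by fun_prop)]
  simp only [one_mul]

theorem card_pos {S : FSet M α} : 0 < S.card ↔ ∃ a, a ∈ S := by
  obtain ⟨R, hR⟩ := HasWorld.ex (M := M)
  constructor
  · intro h
    by_contra hc
    push Not at hc
    have : S = ∅ := FSet.ext fun a => ⟨fun ha => absurd ha (hc a), fun ha => absurd ha (not_mem_empty a)⟩
    have h1 : ((0 : M) : KK M) < S.card := cK_lt.2 h
    rw [card_cast, this, hsum_empty, cK_zero] at h1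
    exact lt_irrefl _ h1
  · rintro ⟨a, ha⟩
    rw [← cK_lt, cK_zero, card_cast]
    have := single_le_hsum (R := R) (S := S) (f := fun _ => (1 : KK M)) (by fun_prop)
      (fun _ _ => zero_le_one) ha
    exact lt_of_lt_of_le one_pos this

theorem card_eq_zero {S : FSet M α} : S.card = 0 ↔ S = ∅ := by
  constructor
  · intro h
    apply FSet.ext
    intro a
    constructor
    · intro ha
      have := card_pos.2 ⟨a, ha⟩
      rw [h] at this
      exact absurd this (lt_irrefl _)
    · intro ha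
      exact absurd ha (not_mem_empty a)
  · intro h
    rw [← cK_inj, card_cast, h, hsum_empty, cK_zero]

@[simp] theorem card_rng (n : M) : (rng n).card = n := by
  obtain ⟨R, hR⟩ := HasWorld.ex (M := M)
  refine ind_rec (R := R) (p := fun n => (rng n).card = n) (by fun_prop) ?_ ?_ n
  · rw [← cK_inj, card_cast, hsum_rng_zero, cK_zero]
  · intro k ih
    rw [← cK_inj, card_cast, hsum_rng_succ (R := R) (by fun_prop), ← card_cast, ih, cK_add, cK_one]

@[simp] theorem card_empty : (∅ : FSet M α).card = 0 := card_eq_zero.2 rfl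

@[simp] theorem card_singleton (a : α) : ({a} : FSet M α).card = 1 := by
  obtain ⟨R, hR⟩ := HasWorld.ex (M := M)
  rw [← cK_inj, card_cast, hsum_singleton (R := R) a (by fun_prop), cK_one]

@[simp] theorem card_prod (S : FSet M α) (T : FSet M β) : (S.prod T).card = S.card * T.card := by
  obtain ⟨R, hR⟩ := HasWorld.ex (M := M)
  rw [← cK_inj, card_cast, hsum_prod (R := R) (by fun_prop), cK_mul, ← hsum_const]
  exact hsum_congr fun a _ => (card_cast T).symm

theorem card_le_card {S T : FSet M α} (h : S ⊆ T) : S.card ≤ T.card := by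
  obtain ⟨R, hR⟩ := HasWorld.ex (M := M)
  rw [← cK_le, card_cast, card_cast]
  exact hsum_subset (R := R) (by fun_prop) h (fun _ _ => zero_le_one)

theorem card_union {S T : FSet M α} (h : ∀ a ∈ S, a ∉ T) : (S ∪ T).card = S.card + T.card := by
  obtain ⟨R, hR⟩ := HasWorld.ex (M := M)
  rw [← cK_inj, card_cast, hsum_union (R := R) (by fun_prop) h, cK_add, card_cast, card_cast]

theorem card_filter_add_card_filter_not {S : FSet M α} {p : α → Prop} (hp : Rec R p) :
    (S.filter p).card + (S.filter (fun a => ¬ p a)).card = S.card := by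
  rw [← card_union]
  · have e : S.filter p ∪ S.filter (fun a => ¬ p a) = S := by
      apply FSet.ext
      intro a
      rw [mem_union, mem_filter hp, mem_filter (R := R) (by fun_prop)]
      tauto
    rw [e]
  · intro a ha ha'
    rw [mem_filter hp] at ha
    rw [mem_filter (R := R) (by fun_prop)] at ha'
    exact ha'.2 ha.2

theorem card_bij {S : FSet M α} {T : FSet M β} (φ : α → β)
    (hφ : Rec R φ) (h : ∀ a ∈ S, φ a ∈ T)
    (hinj : ∀ a ∈ S, ∀ a' ∈ S, φ a = φ a' → a = a') (hsurj : ∀ b ∈ T, ∃ a ∈ S, φ a = b) :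
    S.card = T.card := by
  rw [← cK_inj, card_cast, card_cast]
  exact hsum_bij φ hφ (by fun_prop) (by fun_prop) h hinj hsurj (fun _ _ => rfl)

/-- the number of elements with code `< n` -/
noncomputable def FSet.cnt (S : FSet M α) (n : M) : M := (S.filter (fun a => (enc a : M) < n)).card

@[fun_prop] theorem Rec.cnt {S : γ → FSet M α} {n : γ → M} (hS : Rec R S) (hn : Rec R n) :
    Rec R (fun x => (S x).cnt (n x)) := by
  unfold FSet.cnt
  fun_prop

theorem mem_cnt (R : Set (M → M)) [IsWorld R] {S : FSet M α} {n : M} {a : α} :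
    a ∈ S.filter (fun a => (enc a : M) < n) ↔ a ∈ S ∧ (enc a : M) < n :=
  mem_filter (R := R) (by fun_prop)

theorem cnt_zero (S : FSet M α) : S.cnt 0 = 0 := by
  obtain ⟨R, hR⟩ := HasWorld.ex (M := M)
  unfold FSet.cnt
  rw [card_eq_zero]
  apply FSet.ext
  intro a
  rw [mem_cnt R]
  constructor
  · rintro ⟨-, h⟩
    exact absurd h (by simp)
  · intro h
    exact absurd h (not_mem_empty a)

theorem cnt_mono (S : FSet M α) {m n : M} (h : m ≤ n) : S.cnt m ≤ S.cnt n := by
  obtain ⟨R, hR⟩ := HasWorld.ex (M := M)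
  apply card_le_card
  intro a ha
  rw [mem_cnt R] at ha ⊢
  exact ⟨ha.1, ha.2.trans_le h⟩

theorem cnt_bd (S : FSet M α) {n : M} (h : S.bd ≤ n) : S.cnt n = S.card := by
  obtain ⟨R, hR⟩ := HasWorld.ex (M := M)
  have e : S.filter (fun a => (enc a : M) < n) = S := by
    apply FSet.ext
    intro a
    rw [mem_cnt R]
    exact ⟨fun ha => ha.1, fun ha => ⟨ha, (FSet.lt_bd ha).trans_le h⟩⟩
  unfold FSet.cnt
  rw [e]

theorem cnt_succ_of_mem (S : FSet M α) {a : α} (ha : a ∈ S) :
    S.cnt ((enc a : M) + 1) = S.cnt ((enc a : M)) + 1 := by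
  obtain ⟨R, hR⟩ := HasWorld.ex (M := M)
  have e : S.filter (fun b => (enc b : M) < (enc a : M) + 1) =
      S.filter (fun b => (enc b : M) < (enc a : M)) ∪ {a} := by
    apply FSet.ext
    intro b
    rw [mem_cnt R, mem_union, mem_cnt R, mem_singleton, lt_succ, le_iff_lt_or_eq]
    constructor
    · rintro ⟨h1, h2 | h2⟩
      · exact Or.inl ⟨h1, h2⟩
      · right
        rw [← dec_enc (M := M) b, h2, dec_enc]
    · rintro (⟨h1, h2⟩ | h2)
      · exact ⟨h1, Or.inl h2⟩
      · rw [h2]
        exact ⟨ha, Or.inr rfl⟩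
  unfold FSet.cnt
  rw [e, card_union, card_singleton]
  intro b hb hb2
  rw [mem_cnt R] at hb
  rw [mem_singleton.1 hb2] at hb
  exact lt_irrefl _ hb.2

theorem cnt_succ_of_not (S : FSet M α) {n : M} (h : ¬ ∃ a ∈ S, (enc a : M) = n) :
    S.cnt (n + 1) = S.cnt n := by
  obtain ⟨R, hR⟩ := HasWorld.ex (M := M)
  have e : S.filter (fun a => (enc a : M) < n + 1) =
      S.filter (fun a => (enc a : M) < n) := by
    apply FSet.ext
    intro a
    rw [mem_cnt R, mem_cnt R, lt_succ, le_iff_lt_or_eq]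
    constructor
    · rintro ⟨h1, h2 | h2⟩
      · exact ⟨h1, h2⟩
      · exact absurd ⟨a, h1, h2⟩ h
    · rintro ⟨h1, h2⟩
      exact ⟨h1, Or.inl h2⟩
  unfold FSet.cnt
  rw [e]

theorem cnt_succ_le (S : FSet M α) (n : M) : S.cnt (n + 1) ≤ S.cnt n + 1 := by
  by_cases h : ∃ a ∈ S, (enc a : M) = n
  · obtain ⟨a, ha, rfl⟩ := h
    rw [cnt_succ_of_mem S ha]
  · rw [cnt_succ_of_not S h]
    exact le_self_add

theorem exists_cnt (R : Set (M → M)) [IsWorld R] (S : FSet M α) (n : M) :
    ∀ k < S.cnt n, ∃ a ∈ S, (enc a : M) < n ∧ S.cnt ((enc a : M)) = k := by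
  refine ind_rec (R := R) (p := fun n => ∀ k < S.cnt n, ∃ a ∈ S, (enc a : M) < n ∧
    S.cnt ((enc a : M)) = k) (by fun_prop) ?_ ?_ n
  · intro k hk
    rw [cnt_zero] at hk
    exact absurd hk (by simp)
  · intro n ih k hk
    by_cases h : ∃ a ∈ S, (enc a : M) = n
    · obtain ⟨a, ha, rfl⟩ := h
      rw [cnt_succ_of_mem S ha] at hk
      rcases (lt_succ.1 hk).lt_or_eq with h1 | h1
      · obtain ⟨b, hb, hb2, hb3⟩ := ih k h1
        exact ⟨b, hb, hb2.trans (lt_succ.2 le_rfl), hb3⟩
      · exact ⟨a, ha, lt_succ.2 le_rfl, h1.symm⟩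
    · rw [cnt_succ_of_not S h] at hk
      obtain ⟨b, hb, hb2, hb3⟩ := ih k hk
      exact ⟨b, hb, hb2.trans (lt_succ.2 le_rfl), hb3⟩

theorem cnt_lt_cnt (S : FSet M α) {a : α} (ha : a ∈ S) {n : M} (h : (enc a : M) < n) :
    S.cnt ((enc a : M)) < S.cnt n := by
  have h1 := cnt_mono S (succ_le.2 h)
  rw [cnt_succ_of_mem S ha] at h1
  exact succ_le.1 h1

/-- an increasing enumeration of the subset `S` of `M` -/
theorem exists_enum (R : Set (M → M)) [IsWorld R] (S : FSet M M) : ∃ e : M → M, Rec R e ∧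
    (∀ i < S.card, e i ∈ S) ∧ (∀ i j, i < j → j < S.card → e i < e j) ∧
    ∀ a ∈ S, ∃ i < S.card, e i = a := by
  have key : ∀ k < S.card, ∃ a ∈ S, S.cnt a = k := by
    intro k hk
    rw [← cnt_bd S le_rfl] at hk
    obtain ⟨a, ha, _, h2⟩ := exists_cnt R S S.bd k hk
    exact ⟨a, ha, h2⟩
  have hc : ∀ k, k < S.card → hchoose S (fun a => S.cnt a = k) ∈ S ∧
      S.cnt (hchoose S (fun a => S.cnt a = k)) = k := fun k hk =>
    hchoose_mem (R := R) (p := fun a => S.cnt a = k) (by fun_prop) (key k hk)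
  refine ⟨fun k => hchoose S (fun a => S.cnt a = k), by fun_prop, fun i hi => (hc i hi).1, ?_, ?_⟩
  · intro i j hij hj
    by_contra hlt
    push Not at hlt
    have h1 := cnt_mono S hlt
    rw [(hc i (hij.trans hj)).2, (hc j hj).2] at h1
    exact absurd hij (not_lt.2 h1)
  · intro a ha
    have h0 : S.cnt a < S.card := by
      rw [← cnt_bd S le_rfl]
      exact cnt_lt_cnt S ha (FSet.lt_bd ha)
    refine ⟨S.cnt a, h0, ?_⟩
    obtain ⟨h1, h2⟩ := hc _ h0
    by_contra hne
    rcases lt_or_gt_of_ne hne with h3 | h3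
    · have := cnt_lt_cnt S h1 (n := a) h3
      exact absurd h2 this.ne
    · have := cnt_lt_cnt S ha (n := hchoose S (fun b => S.cnt b = S.cnt a)) h3
      exact absurd h2.symm this.ne

theorem exists_subset_card {S : FSet M α} {n : M} (h : n ≤ S.card) : ∃ T ⊆ S, T.card = n := by
  obtain ⟨R, hR⟩ := HasWorld.ex (M := M)
  obtain ⟨i, hi, hi2⟩ := least_rec (R := R) (p := fun i => n ≤ S.cnt i) (by fun_prop)
    ⟨S.bd, by rw [cnt_bd S le_rfl]; exact h⟩
  refine ⟨S.filter (fun a => (enc a : M) < i), fun a ha => ((mem_cnt R).1 ha).1, ?_⟩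
  show S.cnt i = n
  rcases cases_succ i with rfl | ⟨j, rfl⟩
  · rw [cnt_zero] at hi ⊢
    exact (le_antisymm hi (zero_le)).symm
  · have h1 := hi2 j (lt_succ.2 le_rfl)
    push Not at h1
    exact le_antisymm ((cnt_succ_le S j).trans (succ_le.2 h1)) hi

/-! ## Averages -/

/-- The average of `f` over `S`. -/
noncomputable def havg (S : FSet M α) (f : α → KK M) : KK M := hsum S f / S.card

@[fun_prop] theorem Rec.havg {S : γ → FSet M α} {f : γ → α → KK M} (hS : Rec R S)
    (hf : Rec R (fun x : γ × α => f x.1 x.2)) : Rec R (fun x => havg (S x) (f x)) := by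
  unfold OVW.havg; fun_prop

section averages

variable {S T : FSet M α} {f g : α → KK M}

theorem havg_congr (h : ∀ a ∈ S, f a = g a) : havg S f = havg S g := by
  unfold havg
  rw [hsum_congr h]

theorem havg_add (hf : Rec R f) (hg : Rec R g) :
    havg S (fun a => f a + g a) = havg S f + havg S g := by
  unfold havg
  rw [hsum_add hf hg, add_div]

theorem havg_sub (hf : Rec R f) (hg : Rec R g) :
    havg S (fun a => f a - g a) = havg S f - havg S g := by
  unfold havg
  rw [hsum_sub hf hg, sub_div]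

theorem havg_mul_left (c : KK M) (hf : Rec R f) :
    havg S (fun a => c * f a) = c * havg S f := by
  unfold havg
  rw [hsum_mul_left c hf, mul_div_assoc]

theorem havg_mul_right (c : KK M) (hf : Rec R f) :
    havg S (fun a => f a * c) = havg S f * c := by
  unfold havg
  rw [hsum_mul_right c hf, div_mul_eq_mul_div]

theorem card_cast_pos (hS : ∃ a, a ∈ S) : (0 : KK M) < S.card := by
  rw [← cK_zero, cK_lt]
  exact card_pos.2 hS

theorem havg_const (c : KK M) (hS : ∃ a, a ∈ S) : havg S (fun _ => c) = c := by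
  unfold havg
  rw [hsum_const, mul_div_cancel_left₀ _ (card_cast_pos hS).ne']

theorem havg_nonneg (hf : Rec R f) (h : ∀ a ∈ S, 0 ≤ f a) : 0 ≤ havg S f :=
  div_nonneg (hsum_nonneg hf h) (cK_nonneg _)

theorem havg_le_havg (hf : Rec R f) (hg : Rec R g) (h : ∀ a ∈ S, f a ≤ g a) :
    havg S f ≤ havg S g :=
  div_le_div_of_nonneg_right (hsum_le_hsum hf hg h) (cK_nonneg _)

theorem havg_le {c : KK M} (hf : Rec R f) (hS : ∃ a, a ∈ S) (h : ∀ a ∈ S, f a ≤ c) :
    havg S f ≤ c := by
  rw [← havg_const c hS]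
  exact havg_le_havg hf (by fun_prop) h

theorem le_havg {c : KK M} (hf : Rec R f) (hS : ∃ a, a ∈ S) (h : ∀ a ∈ S, c ≤ f a) :
    c ≤ havg S f := by
  rw [← havg_const c hS]
  exact havg_le_havg (by fun_prop) hf h

theorem hsum_pos (hf : Rec R f) (hS : ∃ a, a ∈ S) (h : ∀ a ∈ S, 0 < f a) : 0 < hsum S f := by
  obtain ⟨a, ha⟩ := hS
  exact lt_of_lt_of_le (h a ha) (single_le_hsum hf (fun b hb => (h b hb).le) ha)

theorem havg_pos (hf : Rec R f) (hS : ∃ a, a ∈ S) (h : ∀ a ∈ S, 0 < f a) : 0 < havg S f :=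
  div_pos (hsum_pos hf hS h) (card_cast_pos hS)

theorem havg_lt {c : KK M} (hf : Rec R f) (hS : ∃ a, a ∈ S) (h : ∀ a ∈ S, f a < c) :
    havg S f < c := by
  have h1 : 0 < havg S (fun a => c - f a) :=
    havg_pos (R := R) (by fun_prop) hS (fun a ha => sub_pos.2 (h a ha))
  rw [havg_sub (R := R) (by fun_prop) hf, havg_const c hS] at h1
  linarith

theorem lt_havg {c : KK M} (hf : Rec R f) (hS : ∃ a, a ∈ S) (h : ∀ a ∈ S, c < f a) :
    c < havg S f := by
  have h1 : 0 < havg S (fun a => f a - c) :=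
    havg_pos (R := R) (by fun_prop) hS (fun a ha => sub_pos.2 (h a ha))
  rw [havg_sub (R := R) hf (by fun_prop), havg_const c hS] at h1
  linarith

theorem exists_le_of_le_havg {c : KK M} (hf : Rec R f) (hS : ∃ a, a ∈ S) (h : c ≤ havg S f) :
    ∃ a ∈ S, c ≤ f a := by
  by_contra hc
  push Not at hc
  exact absurd (havg_lt hf hS hc) (not_lt.2 h)

theorem exists_le_of_havg_le {c : KK M} (hf : Rec R f) (hS : ∃ a, a ∈ S) (h : havg S f ≤ c) :
    ∃ a ∈ S, f a ≤ c := by
  by_contra hc
  push Not at hc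
  exact absurd (lt_havg hf hS hc) (not_lt.2 h)

theorem exists_lt_of_lt_havg {c : KK M} (hf : Rec R f) (hS : ∃ a, a ∈ S) (h : c < havg S f) :
    ∃ a ∈ S, c < f a := by
  by_contra hc
  push Not at hc
  exact absurd (havg_le hf hS hc) (not_le.2 h)

theorem havg_comm {S : FSet M α} {T : FSet M β} {f : α → β → KK M}
    (hf : Rec R (fun x : α × β => f x.1 x.2)) :
    havg S (fun a => havg T (fun b => f a b)) = havg T (fun b => havg S (fun a => f a b)) := by
  unfold havg
  simp only [div_eq_mul_inv]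
  rw [hsum_mul_right (R := R) _ (f := fun a => hsum T (fun b => f a b)) (by fun_prop),
    hsum_mul_right (R := R) _ (f := fun b => hsum S (fun a => f a b)) (by fun_prop),
    hsum_comm hf]
  ring

theorem havg_prod {S : FSet M α} {T : FSet M β} {f : α × β → KK M} (hf : Rec R f) :
    havg (S.prod T) f = havg S (fun a => havg T (fun b => f (a, b))) := by
  unfold havg
  simp only [div_eq_mul_inv]
  rw [hsum_mul_right (R := R) _ (f := fun a => hsum T (fun b => f (a, b))) (by fun_prop),
    hsum_prod hf, card_prod, cK_mul, mul_inv]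
  ring

theorem havg_bij {S : FSet M α} {T : FSet M β} {f : α → KK M} {g : β → KK M} (φ : α → β)
    (hφ : Rec R φ) (hf : Rec R f) (hg : Rec R g) (h : ∀ a ∈ S, φ a ∈ T)
    (hinj : ∀ a ∈ S, ∀ a' ∈ S, φ a = φ a' → a = a') (hsurj : ∀ b ∈ T, ∃ a ∈ S, φ a = b)
    (hfg : ∀ a ∈ S, f a = g (φ a)) : havg S f = havg T g := by
  unfold havg
  rw [hsum_bij φ hφ hf hg h hinj hsurj hfg, card_bij φ hφ h hinj hsurj]

theorem havg_bij' {S : FSet M α} {T : FSet M β} {f : α → KK M} {g : β → KK M} (φ : α → β)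
    (ψ : β → α) (hφ : Rec R φ) (hf : Rec R f) (hg : Rec R g) (h : ∀ a ∈ S, φ a ∈ T)
    (h' : ∀ b ∈ T, ψ b ∈ S) (h1 : ∀ a ∈ S, ψ (φ a) = a) (h2 : ∀ b ∈ T, φ (ψ b) = b)
    (hfg : ∀ a ∈ S, f a = g (φ a)) : havg S f = havg T g :=
  havg_bij φ hφ hf hg h (fun a ha a' ha' he => by rw [← h1 a ha, ← h1 a' ha', he])
    (fun b hb => ⟨ψ b, h' b hb, h2 b hb⟩) hfg

/-- pull back of an average along a map with fibres of equal size -/
theorem havg_fiber {S : FSet M α} {T : FSet M β} {g : β → KK M} (φ : α → β) (N : M)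
    (hφ : Rec R φ) (hg : Rec R g) (h : ∀ a ∈ S, φ a ∈ T) (hT : ∃ b, b ∈ T) (hN : 0 < N)
    (hfib : ∀ b ∈ T, (S.filter (fun a => φ a = b)).card = N) :
    havg S (fun a => g (φ a)) = havg T g := by
  have key : ∀ g : β → KK M, Rec R g → hsum S (fun a => g (φ a)) = N * hsum T g := by
    intro g hg
    rw [hsum_fiber (R := R) hφ (f := fun a => g (φ a)) (by fun_prop) h,
      ← hsum_mul_left (R := R) _ hg]
    refine hsum_congr fun b hb => ?_
    rw [← hfib b hb, ← hsum_const]
    refine hsum_congr fun a ha => ?_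
    rw [mem_filter (R := R) (by fun_prop)] at ha
    rw [ha.2]
  have h1 : (S.card : KK M) = N * T.card := by
    rw [card_cast, card_cast]
    exact key (fun _ => 1) (by fun_prop)
  have hN' : (N : KK M) ≠ 0 := by
    rw [← cK_zero, Ne, cK_inj]
    exact hN.ne'
  unfold havg
  rw [key g hg, h1, mul_div_mul_left _ _ hN']

/-- probability -/
noncomputable def hpr (S : FSet M α) (p : α → Prop) : KK M := havg S (fun a => if p a then 1 else 0)

@[fun_prop] theorem Rec.hpr {S : γ → FSet M α} {p : γ → α → Prop} (hS : Rec R S)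
    (hp : Rec R (fun x : γ × α => p x.1 x.2)) : Rec R (fun x => hpr (S x) (p x)) := by
  unfold OVW.hpr; fun_prop

theorem hpr_congr {p q : α → Prop} (h : ∀ a ∈ S, p a ↔ q a) : hpr S p = hpr S q := by
  unfold hpr
  refine havg_congr fun a ha => ?_
  simp only [h a ha]

theorem hpr_mono {p q : α → Prop} (hp : Rec R p) (hq : Rec R q) (h : ∀ a ∈ S, p a → q a) :
    hpr S p ≤ hpr S q := by
  unfold hpr
  refine havg_le_havg (R := R) (by fun_prop) (by fun_prop) fun a ha => ?_
  by_cases h1 : p a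
  · rw [if_pos h1, if_pos (h a ha h1)]
  · rw [if_neg h1]
    split_ifs
    · exact zero_le_one
    · exact le_rfl

theorem hpr_nonneg {p : α → Prop} (hp : Rec R p) : 0 ≤ hpr S p := by
  unfold hpr
  refine havg_nonneg (R := R) (by fun_prop) fun a _ => ?_
  split_ifs
  · exact zero_le_one
  · exact le_rfl

theorem havg_empty : havg (∅ : FSet M α) f = 0 := by
  unfold havg
  rw [hsum_empty, zero_div]

theorem eq_empty_or (S : FSet M α) : S = ∅ ∨ ∃ a, a ∈ S := by
  by_cases h : ∃ a, a ∈ S
  · exact Or.inr h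
  · push Not at h
    exact Or.inl (FSet.ext fun a => ⟨fun ha => absurd ha (h a), fun ha => absurd ha (not_mem_empty a)⟩)

theorem hpr_le_one {p : α → Prop} (hp : Rec R p) : hpr S p ≤ 1 := by
  unfold hpr
  rcases eq_empty_or S with rfl | hS
  · rw [havg_empty]
    exact zero_le_one
  · refine havg_le (R := R) (by fun_prop) hS fun a _ => ?_
    split_ifs
    · exact le_rfl
    · exact zero_le_one

theorem hpr_eq_card {p : α → Prop} (hp : Rec R p) : hpr S p = (S.filter p).card / S.card := by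
  unfold hpr havg
  rw [card_cast (S.filter p), hsum_filter (R := R) hp (by fun_prop)]

theorem hpr_or_le {p q : α → Prop} (hp : Rec R p) (hq : Rec R q) :
    hpr S (fun a => p a ∨ q a) ≤ hpr S p + hpr S q := by
  unfold hpr
  rw [← havg_add (R := R) (by fun_prop) (by fun_prop)]
  refine havg_le_havg (R := R) (by fun_prop) (by fun_prop) fun a _ => ?_
  by_cases h1 : p a
  · by_cases h2 : q a
    · rw [if_pos (Or.inl h1), if_pos h1, if_pos h2]
      linarith [zero_lt_one (α := KK M)]
    · rw [if_pos (Or.inl h1), if_pos h1, if_neg h2, add_zero]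
  · by_cases h2 : q a
    · rw [if_pos (Or.inr h2), if_neg h1, if_pos h2, zero_add]
    · rw [if_neg (not_or.2 ⟨h1, h2⟩), if_neg h1, if_neg h2, zero_add]

theorem hpr_not {p : α → Prop} (hp : Rec R p) (hS : ∃ a, a ∈ S) :
    hpr S (fun a => ¬ p a) = 1 - hpr S p := by
  unfold hpr
  have h := havg_const (S := S) (1 : KK M) hS
  rw [← h, ← havg_sub (R := R) (by fun_prop) (by fun_prop)]
  rw [h]
  refine havg_congr fun a _ => ?_
  by_cases h1 : p a
  · rw [if_neg (not_not.2 h1), if_pos h1, sub_self]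
  · rw [if_pos h1, if_neg h1, sub_zero]

theorem exists_of_hpr_pos {p : α → Prop} (hp : Rec R p) (h : 0 < hpr S p) : ∃ a ∈ S, p a := by
  unfold hpr at h
  rcases eq_empty_or S with rfl | hS
  · rw [havg_empty] at h
    exact absurd h (lt_irrefl _)
  · obtain ⟨a, ha, h1⟩ := exists_lt_of_lt_havg (R := R) (by fun_prop) hS h
    refine ⟨a, ha, ?_⟩
    by_contra h2
    rw [if_neg h2] at h1
    exact lt_irrefl _ h1

/-- Markov: `f ≤ 1`, average `≥ d ≥ 0`, then `f ≥ d/2` with probability `≥ d/2`. -/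
theorem hpr_markov {d : KK M} (hf : Rec R f) (h1 : ∀ a ∈ S, f a ≤ 1) (hS : ∃ a, a ∈ S)
    (hd : 0 ≤ d) (h : d ≤ havg S f) : d / 2 ≤ hpr S (fun a => d / 2 ≤ f a) := by
  have key : ∀ p : α → Prop, Rec R p → (∀ a, ¬ p a → f a ≤ d / 2) → d / 2 ≤ hpr S p := by
    intro p hp hpf
    have h2 : havg S f ≤ havg S (fun a => (if p a then 1 else 0) + d / 2) := by
      refine havg_le_havg (R := R) hf (by fun_prop) fun a ha => ?_
      by_cases h3 : p a
      · rw [if_pos h3]
        have := h1 a ha
        linarith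
      · rw [if_neg h3]
        have := hpf a h3
        linarith
    rw [havg_add (R := R) (by fun_prop) (by fun_prop), havg_const _ hS] at h2
    unfold hpr
    linarith
  exact key _ (by fun_prop) (fun a ha => (not_le.1 ha).le)

/-- pigeonhole for probabilities -/
theorem hpr_pigeon {T : FSet M β} {p : α → Prop} {q : α → β → Prop} (hp : Rec R p)
    (hq : Rec R (fun x : α × β => q x.1 x.2)) (hT : ∃ b, b ∈ T)
    (h : ∀ a ∈ S, p a → ∃ b ∈ T, q a b) :
    ∃ b ∈ T, hpr S p / T.card ≤ hpr S (fun a => q a b) := by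
  refine exists_le_of_le_havg (R := R) (f := fun b => hpr S (fun a => q a b)) (by fun_prop) hT ?_
  have h1 : hpr S p ≤ havg S (fun a => hsum T (fun b => if q a b then (1 : KK M) else 0)) := by
    unfold hpr
    refine havg_le_havg (R := R) (by fun_prop) (by fun_prop) fun a ha => ?_
    have h0 : ∀ b ∈ T, (0 : KK M) ≤ if q a b then (1 : KK M) else 0 := by
      intro b _
      split_ifs
      · exact zero_le_one
      · exact le_rfl
    by_cases h2 : p a
    · obtain ⟨b, hb, hqb⟩ := h a ha h2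
      have := single_le_hsum (R := R) (S := T) (f := fun b => if q a b then (1 : KK M) else 0)
        (by fun_prop) h0 hb
      rw [if_pos h2]
      simpa only [if_pos hqb] using this
    · rw [if_neg h2]
      exact hsum_nonneg (R := R) (by fun_prop) h0
  have h2 : havg S (fun a => hsum T (fun b => if q a b then (1 : KK M) else 0)) =
      hsum T (fun b => hpr S (fun a => q a b)) := by
    unfold hpr havg
    simp only [div_eq_mul_inv]
    rw [hsum_mul_right (R := R) _ (f := fun b => hsum S (fun a => if q a b then (1 : KK M) else 0))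
      (by fun_prop), hsum_comm (R := R) (f := fun a b => if q a b then (1 : KK M) else 0)
      (by fun_prop)]
  rw [h2] at h1
  unfold havg
  exact div_le_div_of_nonneg_right h1 (cK_nonneg _)

end averages

/-! ## Powers -/

noncomputable def hpow (x : M) (n : M) : M := prec 1 (fun _ y => y * x) n
@[simp] theorem hpow_zero (x : M) : hpow x 0 = 1 := prec_zero _ _
@[fun_prop] theorem Rec.hpow {f g : γ → M} (hf : Rec R f) (hg : Rec R g) :
    Rec R (fun x => hpow (f x) (g x)) := by unfold OVW.hpow; fun_prop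
theorem hpow_succ (x n : M) : hpow x (n + 1) = hpow x n * x := by
  obtain ⟨R, hR⟩ := HasWorld.ex (M := M)
  exact prec_succ (R := R) _ (by fun_prop) _

theorem hpow_add (x m n : M) : hpow x (m + n) = hpow x m * hpow x n := by
  obtain ⟨R, hR⟩ := HasWorld.ex (M := M)
  refine ind_rec (R := R) (p := fun n => hpow x (m + n) = hpow x m * hpow x n) (by fun_prop)
    ?_ ?_ n
  · rw [add_zero, hpow_zero, mul_one]
  · intro k ih
    rw [← add_assoc, hpow_succ, ih, hpow_succ, mul_assoc]

theorem hpow_pos {x : M} (hx : 0 < x) (n : M) : 0 < hpow x n := by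
  obtain ⟨R, hR⟩ := HasWorld.ex (M := M)
  refine ind_rec (R := R) (p := fun n => 0 < hpow x n) (by fun_prop) ?_ ?_ n
  · rw [hpow_zero]
    exact one_pos
  · intro k ih
    rw [hpow_succ]
    exact mul_pos ih hx

theorem hpow_one (x : M) : hpow x 1 = x := by
  have := hpow_succ x 0
  rwa [zero_add, hpow_zero, one_mul] at this

theorem hpow_mono_right {x m n : M} (hx : 0 < x) (h : m ≤ n) : hpow x m ≤ hpow x n := by
  obtain ⟨d, rfl⟩ := le_iff_exists_add.1 h
  rw [hpow_add]
  have h1 : (1 : M) ≤ hpow x d := by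
    rw [← zero_add (1 : M)]
    exact succ_le.2 (hpow_pos hx d)
  calc hpow x m = hpow x m * 1 := (mul_one _).symm
    _ ≤ hpow x m * hpow x d := mul_le_mul_right h1 _

theorem lt_hpow {x : M} (hx : 1 < x) (n : M) : n < hpow x n := by
  obtain ⟨R, hR⟩ := HasWorld.ex (M := M)
  refine ind_rec (R := R) (p := fun n => n < hpow x n) (by fun_prop) ?_ ?_ n
  · rw [hpow_zero]
    exact one_pos
  · intro k ih
    rw [hpow_succ]
    have h1 : k + 1 ≤ hpow x k := succ_le.2 ih
    have h2 : (1 : M) + 1 ≤ x := succ_le.2 hx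
    have h0 : 0 < hpow x k := lt_of_le_of_lt zero_le ih
    have h3 : hpow x k * (1 + 1) ≤ hpow x k * x := mul_le_mul_right h2 _
    rw [mul_add, mul_one] at h3
    exact lt_of_le_of_lt h1 (lt_of_lt_of_le (lt_add_of_pos_right _ h0) h3)

end Pool.Agent.OVW
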