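import Pool.Agent.OVW.Lib5a
import Pool.Agent.OVW.Lib5b

/-! # Internal finite sets (Lib5a) and sums (Lib5b) -/
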