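import Pool.Agent.OVW.StubA

/-! # Internal finite sets and sums -/

namespace Pool.Agent.OVW

open Classical

set_option linter.unusedSectionVars false

variable {M : Type} [Arith M] [HasWorld M] {R : Set (M → M)} [IsWorld R] {α β γ δ : Type}

/-! ## Internal finite sets -/

/-- The finite subsets (bounded and coded) of `α`. The definition does not depend on a world. -/
def FSet (M : Type) [Arith M] (α : Type) [Cod M α] : Type :=
  {S : Set α // ∃ c n : M, ∀ a, a ∈ S ↔ (enc a : M) < n ∧ bet c ((enc a : M)) = 1}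

variable [Cod M α] [Cod M β] [Cod M γ] [Cod M δ]

instance : Membership α (FSet M α) := ⟨fun S a => a ∈ S.1⟩

theorem FSet.ext {S T : FSet M α} (h : ∀ a, a ∈ S ↔ a ∈ T) : S = T := by
  apply Subtype.ext; ext a; exact h a

/-- The set with the code `m`: `m` codes the pair of a sequence and a bound. -/
def sdec (M : Type) [Arith M] (α : Type) [Cod M α] (m : M) : FSet M α :=
  ⟨{a | (enc a : M) < sn m ∧ bet (fs m) ((enc a : M)) = 1}, fs m, sn m, fun _ => Iff.rfl⟩

theorem mem_sdec {m : M} {a : α} :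
    a ∈ sdec M α m ↔ (enc a : M) < sn m ∧ bet (fs m) ((enc a : M)) = 1 := Iff.rfl

theorem sdec_surjective : Function.Surjective (sdec M α) := by
  rintro ⟨S, c, n, h⟩
  refine ⟨pr c n, FSet.ext fun a => ?_⟩
  rw [mem_sdec, fs_pr, sn_pr]
  exact (h a).symm

theorem sdec_eq_iff (m n : M) : sdec M α m = sdec M α n ↔
    (∀ i < sn m, ((enc (dec i : α) : M) < sn m ∧ bet (fs m) ((enc (dec i : α) : M)) = 1) →
      ((enc (dec i : α) : M) < sn n ∧ bet (fs n) ((enc (dec i : α) : M)) = 1)) ∧
    (∀ i < sn n, ((enc (dec i : α) : M) < sn n ∧ bet (fs n) ((enc (dec i : α) : M)) = 1) →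
      ((enc (dec i : α) : M) < sn m ∧ bet (fs m) ((enc (dec i : α) : M)) = 1)) := by
  constructor
  · intro h
    have h' : ∀ a, a ∈ sdec M α m ↔ a ∈ sdec M α n := fun a => by rw [h]
    exact ⟨fun i _ hi => (h' _).1 hi, fun i _ hi => (h' _).2 hi⟩
  · rintro ⟨h1, h2⟩
    apply FSet.ext
    intro a
    constructor
    · intro ha
      have := h1 (enc a) ha.1
      simp only [dec_enc] at this
      exact this ha
    · intro ha
      have := h2 (enc a) ha.1
      simp only [dec_enc] at this
      exact this ha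

noncomputable instance instCodFSet : Cod M (FSet M α) :=
  Cod.ofSurj (sdec M α) sdec_surjective (fun R _ => by simp only [sdec_eq_iff]; fun_prop)

theorem dec_FSet (m : M) : (dec m : FSet M α) = sdec M α m := rfl

theorem mem_iff_enc {S : FSet M α} {a : α} :
    a ∈ S ↔ (enc a : M) < sn (enc S : M) ∧ bet (fs (enc S : M)) ((enc a : M)) = 1 := by
  conv_lhs => rw [← dec_enc (M := M) S]
  exact Iff.rfl

/-- A function with recursive graph is recursive. -/
theorem Rec.of_graph {f : γ → α} {Q : γ → α → Prop} (hQ : Rec R (fun x : γ × α => Q x.1 x.2))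
    (h1 : ∀ x, ∃ y, Q x y) (h2 : ∀ x y, Q x y → y = f x) : Rec R f := by
  obtain ⟨g, hg, hg2⟩ := Rec.choice hQ h1
  have e : g = f := funext fun x => h2 x _ (hg2 x)
  rw [← e]
  exact hg

@[fun_prop] theorem Rec.mem {f : γ → α} {S : γ → FSet M α} (hf : Rec R f) (hS : Rec R S) :
    Rec R (fun x => f x ∈ S x) := by
  simp only [mem_iff_enc]
  fun_prop

/-- A strict upper bound of the codes of the elements. -/
noncomputable def FSet.bd (S : FSet M α) : M := sn (enc S : M)
theorem FSet.lt_bd {S : FSet M α} {a : α} (ha : a ∈ S) : (enc a : M) < S.bd := (mem_iff_enc.1 ha).1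
@[fun_prop] theorem Rec.bd {S : γ → FSet M α} (hS : Rec R S) : Rec R (fun x => (S x).bd) := by
  unfold FSet.bd
  fun_prop

/-- The set of the `a` with code `< N` and `p a` (empty if this is not coded). -/
noncomputable def fset (N : M) (p : α → Prop) : FSet M α :=
  if h : ∃ S : FSet M α, ∀ a, a ∈ S ↔ (enc a : M) < N ∧ p a then h.choose else sdec M α 0
theorem mem_fset {N : M} {p : α → Prop} (hp : Rec R p) {a : α} :
    a ∈ fset N p ↔ (enc a : M) < N ∧ p a := by
  have h : ∃ S : FSet M α, ∀ a, a ∈ S ↔ (enc a : M) < N ∧ p a := by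
    obtain ⟨c, hc⟩ := IsWorld.beta (R := R) _ hp N
    refine ⟨sdec M α (OVW.pr c N), fun a => ?_⟩
    rw [mem_sdec, fs_pr, sn_pr]
    constructor
    · rintro ⟨h1, h2⟩
      refine ⟨h1, ?_⟩
      rw [hc _ h1, dec_enc] at h2
      by_contra h3
      rw [enc_false h3] at h2
      exact zero_ne_one h2
    · rintro ⟨h1, h2⟩
      refine ⟨h1, ?_⟩
      rw [hc _ h1, dec_enc, enc_true h2]
  unfold fset
  rw [dif_pos h]
  exact h.choose_spec a
theorem Rec.ap {p : γ → α → β} (hp : Rec R (fun x : γ × α => p x.1 x.2)) (x : γ) :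
    Rec R (p x) := Rec.comp2 (h := p) hp (Rec.const x) Rec.id
@[fun_prop] theorem Rec.fset {N : γ → M} {p : γ → α → Prop} (hN : Rec R N)
    (hp : Rec R (fun x : γ × α => p x.1 x.2)) : Rec R (fun x => fset (N x) (p x)) := by
  have hm : ∀ x a, a ∈ OVW.fset (N x) (p x) ↔ (OVW.enc a : M) < N x ∧ p x a :=
    fun x a => mem_fset (Rec.ap hp x)
  apply Rec.of_graph (Q := fun x (S : FSet M α) =>
    (∀ i < S.bd, (OVW.dec i : α) ∈ S → ((OVW.enc (OVW.dec i : α) : M) < N x ∧ p x (OVW.dec i))) ∧
    (∀ i < N x, ((OVW.enc (OVW.dec i : α) : M) < N x ∧ p x (OVW.dec i)) → (OVW.dec i : α) ∈ S))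
  · have h1 : Rec R (fun x : (γ × FSet M α) × M => p x.1.1 (OVW.dec x.2)) :=
      Rec.comp2 (h := p) hp (by fun_prop) (by fun_prop)
    fun_prop
  · intro x
    exact ⟨OVW.fset (N x) (p x), fun i _ hi => (hm x _).1 hi, fun i _ hi => (hm x _).2 hi⟩
  · rintro x S ⟨h1, h2⟩
    apply FSet.ext
    intro a
    rw [hm]
    constructor
    · intro ha
      have := h1 (OVW.enc a) (FSet.lt_bd ha)
      simp only [dec_enc] at this
      exact this ha
    · intro ha
      have := h2 (OVW.enc a) ha.1
      simp only [dec_enc] at this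
      exact this ha
/-- How to get the existence of finite sets. -/
theorem exists_fset {p : α → Prop} (hp : Rec R p) (N : M) (h : ∀ a, p a → (enc a : M) < N) :
    ∃ S : FSet M α, ∀ a, a ∈ S ↔ p a :=
  ⟨fset N p, fun a => (mem_fset hp).trans ⟨fun h => h.2, fun h' => ⟨h a h', h'⟩⟩⟩

noncomputable def FSet.filter (S : FSet M α) (p : α → Prop) : FSet M α :=
  fset S.bd (fun a => a ∈ S ∧ p a)
theorem mem_filter {S : FSet M α} {p : α → Prop} (hp : Rec R p) {a : α} :
    a ∈ S.filter p ↔ a ∈ S ∧ p a := by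
  unfold FSet.filter
  rw [mem_fset (R := R) (by fun_prop)]
  exact ⟨fun h => h.2, fun h => ⟨FSet.lt_bd h.1, h⟩⟩
@[fun_prop] theorem Rec.filter {S : γ → FSet M α} {p : γ → α → Prop} (hS : Rec R S)
    (hp : Rec R (fun x : γ × α => p x.1 x.2)) : Rec R (fun x => (S x).filter (p x)) := by
  unfold FSet.filter
  fun_prop
theorem filter_congr {S : FSet M α} {p q : α → Prop} (h : ∀ a ∈ S, p a ↔ q a) :
    S.filter p = S.filter q := by
  unfold FSet.filter
  congr 1
  funext a
  exact propext ⟨fun h' => ⟨h'.1, (h a h'.1).1 h'.2⟩, fun h' => ⟨h'.1, (h a h'.1).2 h'.2⟩⟩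

noncomputable instance : EmptyCollection (FSet M α) := ⟨fset 0 (fun _ => False)⟩
@[simp] theorem not_mem_empty (a : α) : ¬ a ∈ (∅ : FSet M α) := by
  obtain ⟨R, hR⟩ := HasWorld.ex (M := M)
  intro h
  exact ((mem_fset (R := R) (N := 0) (p := fun _ => False) (by fun_prop)).1 h).2
noncomputable instance : Singleton α (FSet M α) := ⟨fun a => fset ((enc a : M) + 1) (fun b => b = a)⟩
@[simp] theorem mem_singleton {a b : α} : b ∈ ({a} : FSet M α) ↔ b = a := by
  obtain ⟨R, hR⟩ := HasWorld.ex (M := M)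
  refine (mem_fset (R := R) (N := (enc a : M) + 1) (p := fun b => b = a) (by fun_prop)).trans ?_
  constructor
  · exact fun h => h.2
  · intro h
    refine ⟨?_, h⟩
    rw [h]
    exact lt_succ.2 le_rfl
@[fun_prop] theorem Rec.singleton {f : γ → α} (hf : Rec R f) :
    Rec R (fun x => ({f x} : FSet M α)) := by
  show Rec R (fun x => OVW.fset ((OVW.enc (f x) : M) + 1) (fun b => b = f x))
  fun_prop
noncomputable instance : Union (FSet M α) := ⟨fun S T => fset (max S.bd T.bd) (fun a => a ∈ S ∨ a ∈ T)⟩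
@[simp] theorem mem_union {S T : FSet M α} {a : α} : a ∈ S ∪ T ↔ a ∈ S ∨ a ∈ T := by
  obtain ⟨R, hR⟩ := HasWorld.ex (M := M)
  refine (mem_fset (R := R) (N := max S.bd T.bd) (p := fun a => a ∈ S ∨ a ∈ T)
    (by fun_prop)).trans ?_
  constructor
  · exact fun h => h.2
  · intro h
    refine ⟨?_, h⟩
    rcases h with h | h
    · exact lt_max_of_lt_left (FSet.lt_bd h)
    · exact lt_max_of_lt_right (FSet.lt_bd h)
@[fun_prop] theorem Rec.union {S T : γ → FSet M α} (hS : Rec R S) (hT : Rec R T) :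
    Rec R (fun x => S x ∪ T x) := by
  show Rec R (fun x => OVW.fset (Max.max (S x).bd (T x).bd) (fun a => a ∈ S x ∨ a ∈ T x))
  fun_prop
noncomputable instance : Inter (FSet M α) := ⟨fun S T => fset S.bd (fun a => a ∈ S ∧ a ∈ T)⟩
@[simp] theorem mem_inter {S T : FSet M α} {a : α} : a ∈ S ∩ T ↔ a ∈ S ∧ a ∈ T := by
  obtain ⟨R, hR⟩ := HasWorld.ex (M := M)
  refine (mem_fset (R := R) (N := S.bd) (p := fun a => a ∈ S ∧ a ∈ T) (by fun_prop)).trans ?_
  exact ⟨fun h => h.2, fun h => ⟨FSet.lt_bd h.1, h⟩⟩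
@[fun_prop] theorem Rec.inter {S T : γ → FSet M α} (hS : Rec R S) (hT : Rec R T) :
    Rec R (fun x => S x ∩ T x) := by
  show Rec R (fun x => OVW.fset (S x).bd (fun a => a ∈ S x ∧ a ∈ T x))
  fun_prop
noncomputable instance : SDiff (FSet M α) := ⟨fun S T => fset S.bd (fun a => a ∈ S ∧ a ∉ T)⟩
@[simp] theorem mem_sdiff {S T : FSet M α} {a : α} : a ∈ S \ T ↔ a ∈ S ∧ a ∉ T := by
  obtain ⟨R, hR⟩ := HasWorld.ex (M := M)
  refine (mem_fset (R := R) (N := S.bd) (p := fun a => a ∈ S ∧ a ∉ T) (by fun_prop)).trans ?_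
  exact ⟨fun h => h.2, fun h => ⟨FSet.lt_bd h.1, h⟩⟩
@[fun_prop] theorem Rec.sdiff {S T : γ → FSet M α} (hS : Rec R S) (hT : Rec R T) :
    Rec R (fun x => S x \ T x) := by
  show Rec R (fun x => OVW.fset (S x).bd (fun a => a ∈ S x ∧ a ∉ T x))
  fun_prop
instance : HasSubset (FSet M α) := ⟨fun S T => ∀ a, a ∈ S → a ∈ T⟩
theorem subset_iff {S T : FSet M α} : S ⊆ T ↔ ∀ a ∈ S, a ∈ T := Iff.rfl

/-- bounded quantifiers over finite sets -/
@[fun_prop] theorem Rec.fall {S : γ → FSet M α} {p : γ → α → Prop} (hS : Rec R S)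
    (hp : Rec R (fun x : γ × α => p x.1 x.2)) : Rec R (fun x => ∀ a ∈ S x, p x a) := by
  have e : (fun x => ∀ a ∈ S x, p x a) = fun x => ∀ i < (S x).bd, (OVW.dec i : α) ∈ S x →
      p x (OVW.dec i) := by
    funext x
    apply propext
    constructor
    · exact fun h i _ hi => h _ hi
    · intro h a ha
      have := h (OVW.enc a) (FSet.lt_bd ha)
      simp only [dec_enc] at this
      exact this ha
  rw [e]
  have h1 : Rec R (fun x : γ × M => p x.1 (OVW.dec x.2)) :=
    Rec.comp2 (h := p) hp (by fun_prop) (by fun_prop)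
  fun_prop
@[fun_prop] theorem Rec.fex {S : γ → FSet M α} {p : γ → α → Prop} (hS : Rec R S)
    (hp : Rec R (fun x : γ × α => p x.1 x.2)) : Rec R (fun x => ∃ a ∈ S x, p x a) := by
  have h := Rec.not (Rec.fall hS (p := fun x a => ¬ p x a) (Rec.not hp))
  have e : (fun x => ¬ ∀ a ∈ S x, ¬ p x a) = fun x => ∃ a ∈ S x, p x a := by
    funext x
    apply propext
    push Not
    rfl
  rwa [e] at h
@[fun_prop] theorem Rec.subset {S T : γ → FSet M α} (hS : Rec R S) (hT : Rec R T) :
    Rec R (fun x => S x ⊆ T x) := by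
  show Rec R (fun x => ∀ a ∈ S x, a ∈ T x)
  fun_prop

/-- the image of a finite set (empty if this is not coded) -/
noncomputable def FSet.image (S : FSet M α) (f : α → β) : FSet M β :=
  if h : ∃ T : FSet M β, ∀ b, b ∈ T ↔ ∃ a ∈ S, f a = b then h.choose else ∅
theorem mem_image {S : FSet M α} {f : α → β} (hf : Rec R f) {b : β} :
    b ∈ S.image f ↔ ∃ a ∈ S, f a = b := by
  have h : ∃ T : FSet M β, ∀ b, b ∈ T ↔ ∃ a ∈ S, f a = b := by
    obtain ⟨N, hN⟩ := Rec.bounded (R := R) (f := fun i : M => (enc (f (dec i)) : M))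
      (by fun_prop) S.bd
    apply exists_fset (R := R) (N := N)
    · apply Rec.fex (S := fun _ : β => S) (p := fun b a => f a = b)
      · fun_prop
      · fun_prop
    · rintro b ⟨a, ha, rfl⟩
      have := hN (enc a) (FSet.lt_bd ha)
      simp only [dec_enc] at this
      exact this
  unfold FSet.image
  rw [dif_pos h]
  exact h.choose_spec b
@[fun_prop] theorem Rec.image {S : γ → FSet M α} {f : γ → α → β} (hS : Rec R S)
    (hf : Rec R (fun x : γ × α => f x.1 x.2)) : Rec R (fun x => (S x).image (f x)) := by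
  have hm : ∀ x b, b ∈ (S x).image (f x) ↔ ∃ a ∈ S x, f x a = b :=
    fun x b => mem_image (Rec.ap hf x)
  apply Rec.of_graph (Q := fun x (T : FSet M β) =>
    (∀ b ∈ T, ∃ a ∈ S x, f x a = b) ∧ (∀ a ∈ S x, f x a ∈ T))
  · apply Rec.and
    · apply Rec.fall (p := fun (x : γ × FSet M β) b => ∃ a ∈ S x.1, f x.1 a = b)
      · fun_prop
      · apply Rec.fex (p := fun (x : (γ × FSet M β) × β) a => f x.1.1 a = x.2)
        · fun_prop
        · apply Rec.eq
          · exact Rec.comp2 (h := f) hf (by fun_prop) (by fun_prop)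
          · fun_prop
    · apply Rec.fall (p := fun (x : γ × FSet M β) a => f x.1 a ∈ x.2)
      · fun_prop
      · apply Rec.mem
        · exact Rec.comp2 (h := f) hf (by fun_prop) (by fun_prop)
        · fun_prop
  · intro x
    exact ⟨(S x).image (f x), fun b hb => (hm x b).1 hb, fun a ha => (hm x _).2 ⟨a, ha, rfl⟩⟩
  · rintro x T ⟨h1, h2⟩
    apply FSet.ext
    intro b
    rw [hm]
    constructor
    · exact h1 b
    · rintro ⟨a, ha, rfl⟩
      exact h2 a ha

/-- the product -/
noncomputable def FSet.prod (S : FSet M α) (T : FSet M β) : FSet M (α × β) :=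
  fset (pr S.bd T.bd) (fun x => x.1 ∈ S ∧ x.2 ∈ T)
@[simp] theorem mem_prod {S : FSet M α} {T : FSet M β} {x : α × β} :
    x ∈ S.prod T ↔ x.1 ∈ S ∧ x.2 ∈ T := by
  obtain ⟨R, hR⟩ := HasWorld.ex (M := M)
  unfold FSet.prod
  rw [mem_fset (R := R) (by fun_prop)]
  refine ⟨fun h => h.2, fun h => ⟨?_, h⟩⟩
  rw [enc_prod]
  exact pr_lt_of (add_lt_add (FSet.lt_bd h.1) (FSet.lt_bd h.2))
@[fun_prop] theorem Rec.prod {S : γ → FSet M α} {T : γ → FSet M β} (hS : Rec R S) (hT : Rec R T) :
    Rec R (fun x => (S x).prod (T x)) := by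
  unfold FSet.prod
  fun_prop

/-- `{0, ..., n - 1}` -/
noncomputable def rng (n : M) : FSet M M := fset n (fun _ => True)
@[simp] theorem mem_rng {n i : M} : i ∈ rng n ↔ i < n := by
  obtain ⟨R, hR⟩ := HasWorld.ex (M := M)
  unfold rng
  rw [mem_fset (R := R) (by fun_prop)]
  simp
@[fun_prop] theorem Rec.rng {n : γ → M} (hn : Rec R n) : Rec R (fun x => rng (n x)) := by
  unfold OVW.rng
  fun_prop

/-- the power set -/
noncomputable def FSet.powerset (S : FSet M α) : FSet M (FSet M α) :=
  prec {∅} (fun i P => P ∪ P.image (fun T => T ∪ S.filter (fun a => (enc a : M) = i))) S.bd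
@[simp] theorem mem_powerset {S T : FSet M α} : T ∈ S.powerset ↔ T ⊆ S := by
  obtain ⟨R, hR⟩ := HasWorld.ex (M := M)
  set g : M → FSet M (FSet M α) → FSet M (FSet M α) :=
    fun i P => P ∪ P.image (fun T => T ∪ S.filter (fun a => (enc a : M) = i)) with hgdef
  have hg : Rec R (fun p : M × FSet M (FSet M α) => g p.1 p.2) := by
    simp only [hgdef]
    fun_prop
  have hi : ∀ i : M, Rec R (fun T : FSet M α => T ∪ S.filter (fun a => (enc a : M) = i)) := by
    intro i
    fun_prop
  have hfi : ∀ i : M, Rec R (fun a : α => (enc a : M) = i) := by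
    intro i
    fun_prop
  have hf : Rec R (fun n => prec (M := M) {∅} g n) := by
    apply Rec.prec (a := fun _ : M => ({∅} : FSet M (FSet M α))) (g := fun _ : M => g)
    · fun_prop
    · exact Rec.comp (g := fun p : M × FSet M (FSet M α) => g p.1 p.2)
        (f := fun p : M × M × FSet M (FSet M α) => p.2) hg (by fun_prop)
    · fun_prop
  have hs : ∀ n T, T ∈ prec (M := M) {∅} g (n + 1) ↔ T ∈ prec (M := M) {∅} g n ∨
      ∃ T' ∈ prec (M := M) {∅} g n, T' ∪ S.filter (fun a => (enc a : M) = n) = T := by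
    intro n T
    rw [prec_succ (R := R) _ hg, hgdef]
    dsimp only
    rw [mem_union, mem_image (hi n)]
  constructor
  · intro hT
    have h1 : ∀ n, ∀ T ∈ prec (M := M) {∅} g n, T ⊆ S := by
      apply Rec.induction (R := R) (P := fun n => ∀ T ∈ prec (M := M) {∅} g n, T ⊆ S)
      · exact Rec.fall (p := fun _ T => T ⊆ S) hf (by fun_prop)
      · intro T hT
        rw [prec_zero, mem_singleton] at hT
        subst hT
        intro a ha
        exact absurd ha (not_mem_empty a)
      · intro n ih T hT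
        rcases (hs n T).1 hT with h | ⟨T', h, rfl⟩
        · exact ih T h
        · intro a ha
          rcases mem_union.1 ha with h' | h'
          · exact ih T' h a h'
          · exact ((mem_filter (hfi n)).1 h').1
    exact h1 _ T hT
  · intro hT
    have hlt : ∀ n : M, Rec R (fun a : α => (enc a : M) < n) := by
      intro n
      fun_prop
    have h1 : ∀ n : M, T.filter (fun a => (enc a : M) < n) ∈ prec (M := M) {∅} g n := by
      apply Rec.induction (R := R)
        (P := fun n => T.filter (fun a => (enc a : M) < n) ∈ prec (M := M) {∅} g n)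
      · exact Rec.mem (by fun_prop) hf
      · rw [prec_zero, mem_singleton]
        apply FSet.ext
        intro a
        rw [mem_filter (hlt 0)]
        constructor
        · rintro ⟨_, h⟩
          exact absurd h (by simp)
        · intro h
          exact absurd h (not_mem_empty a)
      · intro n ih
        rw [hs]
        by_cases h : ∃ a ∈ T, (enc a : M) = n
        · right
          refine ⟨_, ih, FSet.ext fun b => ?_⟩
          obtain ⟨a, ha, han⟩ := h
          rw [mem_union, mem_filter (hlt n), mem_filter (hfi n), mem_filter (hlt (n + 1))]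
          constructor
          · rintro (⟨h1, h2⟩ | ⟨h1, h2⟩)
            · exact ⟨h1, h2.trans (lt_succ.2 le_rfl)⟩
            · have : b = a := (enc_inj (M := M)).1 (h2.trans han.symm)
              rw [this]
              exact ⟨ha, lt_succ.2 han.le⟩
          · rintro ⟨h1, h2⟩
            rcases (lt_succ.1 h2).lt_or_eq with h3 | h3
            · exact Or.inl ⟨h1, h3⟩
            · exact Or.inr ⟨hT b h1, h3⟩
        · left
          have e : T.filter (fun a => (enc a : M) < n + 1) = T.filter (fun a => (enc a : M) < n) := by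
            apply filter_congr
            intro a ha
            constructor
            · intro h2
              rcases (lt_succ.1 h2).lt_or_eq with h3 | h3
              · exact h3
              · exact absurd ⟨a, ha, h3⟩ h
            · exact fun h2 => h2.trans (lt_succ.2 le_rfl)
          rw [e]
          exact ih
    have h2 := h1 S.bd
    have e : T.filter (fun a => (enc a : M) < S.bd) = T := by
      apply FSet.ext
      intro a
      rw [mem_filter (hlt _)]
      exact ⟨fun h => h.1, fun h => ⟨h, FSet.lt_bd (hT a h)⟩⟩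
    rw [e] at h2
    exact h2
@[fun_prop] theorem Rec.powerset {S : γ → FSet M α} (hS : Rec R S) :
    Rec R (fun x => (S x).powerset) := by
  unfold FSet.powerset
  fun_prop

/-- every subset of a finite set which is recursive in some world is a finite set -/
theorem exists_filter (R : Set (M → M)) [IsWorld R] (S : FSet M α) {p : α → Prop} (hp : Rec R p) :
    ∃ T ∈ S.powerset, ∀ a, a ∈ T ↔ a ∈ S ∧ p a :=
  ⟨S.filter p, mem_powerset.2 fun a ha => ((mem_filter hp).1 ha).1, fun _ => mem_filter hp⟩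

/-! ## Finite functions -/

/-- Finite functions: functions `α → β` which are coded on a finite set and equal to the default
value (the element with code `0`) elsewhere. The definition does not depend on a world. -/
def FFun (M : Type) [Arith M] (α β : Type) [Cod M α] [Cod M β] : Type :=
  {f : α → β // ∃ c n : M, ∀ a, ((enc a : M) < n → f a = dec (bet c ((enc a : M)))) ∧
    (n ≤ (enc a : M) → f a = dec (0 : M))}

instance : CoeFun (FFun M α β) (fun _ => α → β) := ⟨fun f => f.1⟩
theorem FFun.ext {f g : FFun M α β} (h : ∀ a, f a = g a) : f = g := Subtype.ext (funext h)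
/-- The function with the code `m`. -/
noncomputable def fdec (M : Type) [Arith M] (α β : Type) [Cod M α] [Cod M β] (m : M) :
    FFun M α β :=
  ⟨fun a => if (enc a : M) < sn m then dec (bet (fs m) ((enc a : M))) else dec (0 : M),
    fs m, sn m, fun _ => ⟨fun h => if_pos h, fun h => if_neg (not_lt.2 h)⟩⟩
theorem fdec_apply (m : M) (a : α) : fdec M α β m a =
    if (enc a : M) < sn m then dec (bet (fs m) ((enc a : M))) else dec (0 : M) := rfl
theorem fdec_surjective : Function.Surjective (fdec M α β) := by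
  rintro ⟨f, c, n, h⟩
  refine ⟨pr c n, FFun.ext fun a => ?_⟩
  rw [fdec_apply, fs_pr, sn_pr]
  show _ = f a
  by_cases ha : (enc a : M) < n
  · rw [if_pos ha, (h a).1 ha]
  · rw [if_neg ha, (h a).2 (not_lt.1 ha)]
theorem fdec_eq_iff (m n : M) : fdec M α β m = fdec M α β n ↔ ∀ i < max (sn m) (sn n),
    (if (enc (dec i : α) : M) < sn m then dec (bet (fs m) ((enc (dec i : α) : M)))
      else dec (0 : M) : β) =
    (if (enc (dec i : α) : M) < sn n then dec (bet (fs n) ((enc (dec i : α) : M)))
      else dec (0 : M) : β) := by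
  constructor
  · intro h i _
    exact congrArg (fun F : FFun M α β => F (dec i)) h
  · intro h
    apply FFun.ext
    intro a
    by_cases ha : (enc a : M) < max (sn m) (sn n)
    · have := h _ ha
      simp only [dec_enc] at this
      exact this
    · rw [lt_max_iff, not_or] at ha
      rw [fdec_apply, fdec_apply, if_neg ha.1, if_neg ha.2]
noncomputable instance instCodFFun : Cod M (FFun M α β) :=
  Cod.ofSurj (fdec M α β) fdec_surjective (fun R _ => by simp only [fdec_eq_iff]; fun_prop)
theorem app_eq (f : FFun M α β) (a : α) : f a =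
    if (enc a : M) < sn (enc f : M) then dec (bet (fs (enc f : M)) ((enc a : M)))
      else dec (0 : M) := by
  conv_lhs => rw [← dec_enc (M := M) f]
  exact fdec_apply _ a
@[fun_prop] theorem Rec.app {f : γ → FFun M α β} {a : γ → α} (hf : Rec R f) (ha : Rec R a) :
    Rec R (fun x => f x (a x)) := by
  have e : (fun x => f x (a x)) = fun x => if (OVW.enc (a x) : M) < OVW.sn (OVW.enc (f x) : M)
      then OVW.dec (OVW.bet (OVW.fs (OVW.enc (f x) : M)) ((OVW.enc (a x) : M)))
      else OVW.dec (0 : M) := funext fun x => app_eq _ _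
  rw [e]
  fun_prop
/-- The restriction of `f` to `S`, extended by the default value. -/
noncomputable def ffun (S : FSet M α) (f : α → β) : FFun M α β :=
  if h : ∃ F : FFun M α β, ∀ a, (a ∈ S → F a = f a) ∧ (a ∉ S → F a = dec (0 : M)) then h.choose
  else fdec M α β 0
theorem ffun_spec {S : FSet M α} {f : α → β} (hf : Rec R f) (a : α) :
    (a ∈ S → ffun S f a = f a) ∧ (a ∉ S → ffun S f a = dec (0 : M)) := by
  have h : ∃ F : FFun M α β, ∀ a, (a ∈ S → F a = f a) ∧ (a ∉ S → F a = dec (0 : M)) := by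
    have h1 : Rec R (fun a : α => if a ∈ S then f a else dec (0 : M)) := by fun_prop
    obtain ⟨c, hc⟩ := IsWorld.beta (R := R) _ h1 S.bd
    refine ⟨fdec M α β (pr c S.bd), fun a => ?_⟩
    rw [fdec_apply, fs_pr, sn_pr]
    constructor
    · intro ha
      have hb := FSet.lt_bd ha
      rw [if_pos hb, hc _ hb, dec_enc, dec_enc]
      exact if_pos ha
    · intro ha
      by_cases hb : (enc a : M) < S.bd
      · rw [if_pos hb, hc _ hb, dec_enc, dec_enc]
        exact if_neg ha
      · rw [if_neg hb]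
  unfold ffun
  rw [dif_pos h]
  exact h.choose_spec a
theorem ffun_apply {S : FSet M α} {f : α → β} (hf : Rec R f) {a : α} (ha : a ∈ S) :
    ffun S f a = f a := (ffun_spec hf a).1 ha
@[fun_prop] theorem Rec.ffun {S : γ → FSet M α} {f : γ → α → β} (hS : Rec R S)
    (hf : Rec R (fun x : γ × α => f x.1 x.2)) : Rec R (fun x => ffun (S x) (f x)) := by
  apply Rec.of_graph (Q := fun x (F : FFun M α β) => (∀ a ∈ S x, F a = f x a) ∧
    (∀ i < OVW.sn (OVW.enc F : M), (OVW.dec i : α) ∉ S x → F (OVW.dec i) = OVW.dec (0 : M)))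
  · apply Rec.and
    · apply Rec.fall (p := fun (x : γ × FFun M α β) a => x.2 a = f x.1 a)
      · fun_prop
      · apply Rec.eq
        · fun_prop
        · exact Rec.comp2 (h := f) hf (by fun_prop) (by fun_prop)
    · fun_prop
  · intro x
    exact ⟨OVW.ffun (S x) (f x), fun a ha => (ffun_spec (Rec.ap hf x) a).1 ha,
      fun i _ hi => (ffun_spec (Rec.ap hf x) _).2 hi⟩
  · rintro x F ⟨h1, h2⟩
    apply FFun.ext
    intro a
    by_cases ha : a ∈ S x
    · rw [h1 a ha, (ffun_spec (Rec.ap hf x) a).1 ha]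
    · rw [(ffun_spec (Rec.ap hf x) a).2 ha]
      by_cases hb : (OVW.enc a : M) < OVW.sn (OVW.enc F : M)
      · have := h2 _ hb
        simp only [dec_enc] at this
        exact this ha
      · rw [app_eq, if_neg hb]

/-! ## Choice, maxima, least elements -/

/-- Recursive choice on a (recursive) domain. -/
theorem Rec.choice_on {d : α → Prop} {p : α → β → Prop} (hd : Rec R d)
    (hp : Rec R (fun x : α × β => p x.1 x.2)) (h : ∀ a, d a → ∃ b, p a b) :
    ∃ f : α → β, Rec R f ∧ ∀ a, d a → p a (f a) := by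
  obtain ⟨g, hg, hg2⟩ := Rec.choice (R := R) (α := α) (β := M)
    (P := fun a m => d a → p a (OVW.dec m))
    (Rec.imp (by fun_prop) (Rec.comp2 (h := p) hp (by fun_prop) (by fun_prop))) (by
      intro a
      by_cases ha : d a
      · obtain ⟨b, hb⟩ := h a ha
        exact ⟨OVW.enc b, fun _ => by rw [dec_enc]; exact hb⟩
      · exact ⟨0, fun h => absurd h ha⟩)
  exact ⟨fun a => OVW.dec (g a), by fun_prop, hg2⟩
/-- `hchoose S p` is the least (for the codes) element `a` of `S` with `p a`, if there is one. -/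
noncomputable def hchoose (S : FSet M α) (p : α → Prop) : α :=
  pick M (fun a => (∃ b ∈ S, p b) → a ∈ S ∧ p a)
theorem hchoose_mem {S : FSet M α} {p : α → Prop} (hp : Rec R p) (h : ∃ a ∈ S, p a) :
    hchoose S p ∈ S ∧ p (hchoose S p) := by
  refine Rec.pick_spec (R := R) (P := fun a => (∃ b ∈ S, p b) → a ∈ S ∧ p a) ?_ ?_ h
  · apply Rec.imp
    · exact Rec.const _
    · fun_prop
  · obtain ⟨a, ha⟩ := h
    exact ⟨a, fun _ => ha⟩
@[fun_prop] theorem Rec.hchoose {S : γ → FSet M α} {p : γ → α → Prop} (hS : Rec R S)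
    (hp : Rec R (fun x : γ × α => p x.1 x.2)) : Rec R (fun x => hchoose (S x) (p x)) := by
  unfold OVW.hchoose
  apply Rec.pick (P := fun x a => (∃ b ∈ S x, p x b) → a ∈ S x ∧ p x a)
  · have h1 : Rec R (fun x => ∃ b ∈ S x, p x b) := Rec.fex hS hp
    fun_prop
  · intro x
    by_cases h : ∃ b ∈ S x, p x b
    · obtain ⟨b, hb⟩ := h
      exact ⟨b, fun _ => hb⟩
    · exact ⟨OVW.dec (0 : M), fun h' => absurd h' h⟩
theorem hchoose_congr {S : FSet M α} {p q : α → Prop} (h : ∀ a ∈ S, p a ↔ q a) :
    hchoose S p = hchoose S q := by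
  unfold hchoose
  congr 1
  funext a
  have h1 : ∀ a, (a ∈ S ∧ p a) ↔ (a ∈ S ∧ q a) := fun a =>
    ⟨fun h' => ⟨h'.1, (h a h'.1).1 h'.2⟩, fun h' => ⟨h'.1, (h a h'.1).2 h'.2⟩⟩
  simp only [h1]
theorem exists_max_aux {κ : Type} [LinearOrder κ] {S : FSet M α} {f : α → κ}
    (hf : Rec R (fun x : α × α => f x.1 ≤ f x.2)) (hS : ∃ a, a ∈ S) :
    ∃ a ∈ S, ∀ b ∈ S, f b ≤ f a := by
  have h : ∀ n : M, ∃ a ∈ S, ∀ b ∈ S, (enc b : M) < n → f b ≤ f a := by
    apply Rec.induction (R := R) (P := fun n : M => ∃ a ∈ S, ∀ b ∈ S, (enc b : M) < n → f b ≤ f a)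
    · apply Rec.fex (p := fun (n : M) a => ∀ b ∈ S, (enc b : M) < n → f b ≤ f a)
      · fun_prop
      · apply Rec.fall (p := fun (x : M × α) b => (enc b : M) < x.1 → f b ≤ f x.2)
        · fun_prop
        · apply Rec.imp
          · fun_prop
          · exact Rec.comp2 (h := fun a b => f a ≤ f b) hf (by fun_prop) (by fun_prop)
    · obtain ⟨a, ha⟩ := hS
      exact ⟨a, ha, fun b _ hb => absurd hb (by simp)⟩
    · rintro n ⟨a, ha, h⟩
      by_cases h1 : ∃ b ∈ S, (enc b : M) = n ∧ f a < f b
      · obtain ⟨b, hb, hbn, hab⟩ := h1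
        refine ⟨b, hb, fun c hc hcn => ?_⟩
        rcases (lt_succ.1 hcn).lt_or_eq with h3 | h3
        · exact (h c hc h3).trans hab.le
        · have : c = b := (enc_inj (M := M)).1 (h3.trans hbn.symm)
          rw [this]
      · refine ⟨a, ha, fun c hc hcn => ?_⟩
        rcases (lt_succ.1 hcn).lt_or_eq with h3 | h3
        · exact h c hc h3
        · by_contra h4
          exact h1 ⟨c, hc, h3, not_le.1 h4⟩
  obtain ⟨a, ha, h1⟩ := h S.bd
  exact ⟨a, ha, fun b hb => h1 b hb (FSet.lt_bd hb)⟩
theorem exists_max_on {S : FSet M α} {f : α → KK M} (hf : Rec R f) (hS : ∃ a, a ∈ S) :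
    ∃ a ∈ S, ∀ b ∈ S, f b ≤ f a := exists_max_aux (R := R) (by fun_prop) hS
theorem exists_max_onM {S : FSet M α} {f : α → M} (hf : Rec R f) (hS : ∃ a, a ∈ S) :
    ∃ a ∈ S, ∀ b ∈ S, f b ≤ f a := exists_max_aux (R := R) (by fun_prop) hS

attribute [irreducible] fset FSet.bd FSet.filter FSet.image FSet.prod rng FSet.powerset ffun hchoose

end Pool.Agent.OVW
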