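import Pool.Agent.OVW.Lib6a

/-! # Internal words: the words of length `l` -/

namespace Pool.Agent.OVW

open Classical

set_option linter.unusedSectionVars false

variable {M : Type} [Arith M] [HasWorld M] {R : Set (M → M)} [IsWorld R] {α β γ δ : Type}
variable [Cod M α] [Cod M β] [Cod M γ] [Cod M δ]

/-! ## The words of length `l` over the letters `0, ..., k - 1` -/

/-- The words of length `l` with letters `< k`. -/
noncomputable def W (k l : M) : FSet M (Wd M) :=
  prec ({wnil} : FSet M (Wd M)) (fun _ S => (S.prod (rng k)).image (fun p => p.1 ++ wsing p.2)) l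

@[fun_prop] theorem Rec.W {k l : γ → M} (hk : Rec R k) (hl : Rec R l) :
    Rec R (fun x => W (k x) (l x)) := by
  unfold OVW.W; fun_prop

theorem W_zero (k : M) : W k 0 = {wnil} := prec_zero _ _

theorem W_succ (k l : M) : W k (l + 1) = ((W k l).prod (rng k)).image (fun p => p.1 ++ wsing p.2) := by
  obtain ⟨R, hR⟩ := HasWorld.ex (M := M)
  exact prec_succ (R := R) ({wnil} : FSet M (Wd M))
    (g := fun (_ : M) (S : FSet M (Wd M)) => (S.prod (rng k)).image (fun p => p.1 ++ wsing p.2))
    (by fun_prop) _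

theorem mem_W {k l : M} {u : Wd M} : u ∈ W k l ↔ u.len = l ∧ ∀ i < l, u.get i < k := by
  obtain ⟨R, hR⟩ := HasWorld.ex (M := M)
  refine ind_pi1 (R := R) (q := fun l u => u ∈ W k l ↔ u.len = l ∧ ∀ i < l, u.get i < k)
    (by fun_prop) ?_ ?_ l u
  · intro u
    rw [W_zero, mem_singleton, len_eq_zero]
    constructor
    · intro h
      exact ⟨h, fun i hi => absurd hi (not_lt.2 (zero_le' i))⟩
    · exact fun h => h.1
  · intro l ih u
    rw [W_succ, mem_image (R := R) (by fun_prop)]
    constructor
    · rintro ⟨⟨v, c⟩, h1, rfl⟩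
      obtain ⟨h2, h3⟩ := mem_prod.1 h1
      simp only at h2 h3 ⊢
      rw [mem_rng] at h3
      obtain ⟨h4, h5⟩ := (ih v).1 h2
      refine ⟨by rw [len_append, h4, len_wsing], fun i hi => ?_⟩
      rcases lt_or_eq_of_le (lt_succ.1 hi) with h6 | h6
      · rw [get_append_left (by rw [h4]; exact h6)]
        exact h5 i h6
      · have h7 : i = v.len + 0 := by rw [h4, h6, add_zero]
        rw [h7, get_append_right, get_wsing]
        exact h3
    · rintro ⟨h1, h2⟩
      obtain ⟨v, c, rfl⟩ := exists_snoc (u := u) (by rw [h1]; exact lt_succ.2 (zero_le' l))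
      have h3 : v.len = l := by
        rw [len_append, len_wsing] at h1
        exact add_right_cancel h1
      refine ⟨(v, c), mem_prod.2 ⟨(ih v).2 ⟨h3, fun i hi => ?_⟩, ?_⟩, rfl⟩
      · have := h2 i (hi.trans (lt_succ.2 le_rfl))
        rwa [get_append_left (by rw [h3]; exact hi)] at this
      · have := h2 l (lt_succ.2 le_rfl)
        have h7 : l = v.len + 0 := by rw [h3, add_zero]
        rw [h7, get_append_right, get_wsing] at this
        exact mem_rng.2 this

/-- The words of length `< n` with letters `< k`. -/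
noncomputable def Wlt (k n : M) : FSet M (Wd M) :=
  prec (∅ : FSet M (Wd M)) (fun l S => S ∪ W k l) n

@[fun_prop] theorem Rec.Wlt {k n : γ → M} (hk : Rec R k) (hn : Rec R n) :
    Rec R (fun x => Wlt (k x) (n x)) := by
  unfold OVW.Wlt; fun_prop

theorem mem_Wlt_iff {k n : M} {u : Wd M} : u ∈ Wlt k n ↔ ∃ l < n, u ∈ W k l := by
  obtain ⟨R, hR⟩ := HasWorld.ex (M := M)
  refine ind_rec (R := R) (p := fun n => u ∈ Wlt k n ↔ ∃ l < n, u ∈ W k l)
    (by fun_prop) ?_ ?_ n
  · have h : Wlt k 0 = ∅ := prec_zero _ _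
    rw [h]
    constructor
    · intro h; exact absurd h (not_mem_empty _)
    · rintro ⟨l, hl, _⟩
      exact absurd hl (not_lt.2 (zero_le' l))
  · intro n ih
    have h : Wlt k (n + 1) = Wlt k n ∪ W k n :=
      prec_succ (R := R) (∅ : FSet M (Wd M)) (g := fun (l : M) (S : FSet M (Wd M)) => S ∪ W k l)
        (by fun_prop) _
    rw [h, mem_union, ih]
    constructor
    · rintro (⟨l, hl, h1⟩ | h1)
      · exact ⟨l, hl.trans (lt_succ.2 le_rfl), h1⟩
      · exact ⟨n, lt_succ.2 le_rfl, h1⟩
    · rintro ⟨l, hl, h1⟩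
      rcases lt_or_eq_of_le (lt_succ.1 hl) with h6 | h6
      · exact Or.inl ⟨l, h6, h1⟩
      · exact Or.inr (h6 ▸ h1)

theorem mem_Wlt {k n : M} {u : Wd M} : u ∈ Wlt k n ↔ u.len < n ∧ ∀ i < u.len, u.get i < k := by
  rw [mem_Wlt_iff]
  constructor
  · rintro ⟨l, hl, h⟩
    obtain ⟨rfl, h2⟩ := mem_W.1 h
    exact ⟨hl, h2⟩
  · rintro ⟨h1, h2⟩
    exact ⟨u.len, h1, mem_W.2 ⟨rfl, h2⟩⟩

section W

theorem wnil_mem_W (k : M) : wnil ∈ W k 0 := by
  rw [W_zero, mem_singleton]

theorem wsing_mem_W {k c : M} : wsing c ∈ W k 1 ↔ c < k := by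
  rw [mem_W, len_wsing]
  constructor
  · rintro ⟨_, h⟩
    have := h 0 one_pos
    rwa [get_wsing] at this
  · intro h
    refine ⟨rfl, fun i hi => ?_⟩
    have h0 : i = 0 := by
      have : i < 0 + 1 := by rwa [zero_add]
      exact le_antisymm (lt_succ.1 this) (zero_le' i)
    rw [h0, get_wsing]
    exact h

theorem append_mem_W_iff {k l l' : M} {u v : Wd M} (hu : u.len = l) :
    u ++ v ∈ W k (l + l') ↔ u ∈ W k l ∧ v ∈ W k l' := by
  rw [mem_W, mem_W, mem_W, len_append, hu]
  constructor
  · rintro ⟨h1, h2⟩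
    have h3 : v.len = l' := add_left_cancel h1
    refine ⟨⟨rfl, fun i hi => ?_⟩, h3, fun i hi => ?_⟩
    · have := h2 i (lt_of_lt_of_le hi le_self_add)
      rwa [get_append_left (by rw [hu]; exact hi)] at this
    · have := h2 (l + i) (add_lt_add_right hi l)
      rwa [← hu, get_append_right] at this
  · rintro ⟨⟨_, h1⟩, h2, h3⟩
    refine ⟨by rw [h2], fun i hi => ?_⟩
    rcases lt_or_ge i l with h4 | h4
    · rw [get_append_left (by rw [hu]; exact h4)]
      exact h1 i h4
    · obtain ⟨j, rfl⟩ := le_iff_exists_add.1 h4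
      rw [← hu, get_append_right]
      exact h3 j (lt_of_add_lt_add_left hi)

theorem append_mem_W {k l l' : M} {u v : Wd M} (hu : u ∈ W k l) (hv : v ∈ W k l') :
    u ++ v ∈ W k (l + l') := (append_mem_W_iff (mem_W.1 hu).1).2 ⟨hu, hv⟩

theorem take_mem_W {k l n : M} {u : Wd M} (hu : u ∈ W k l) (hn : n ≤ l) : u.take n ∈ W k n := by
  rw [mem_W] at hu ⊢
  refine ⟨by rw [len_take, hu.1, min_eq_left hn], fun i hi => ?_⟩
  rw [get_take hi]
  exact hu.2 i (lt_of_lt_of_le hi hn)

theorem drop_mem_W {k l n : M} {u : Wd M} (hu : u ∈ W k l) : u.drop n ∈ W k (l - n) := by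
  rw [mem_W] at hu ⊢
  refine ⟨by rw [len_drop, hu.1], fun i hi => ?_⟩
  rw [get_drop]
  apply hu.2
  rw [add_comm]
  exact lt_tsub_iff_right.1 hi

theorem set_mem_W {k l i c : M} {u : Wd M} (hu : u ∈ W k l) (hc : c < k) : u.set i c ∈ W k l := by
  rw [mem_W] at hu ⊢
  refine ⟨by rw [len_set, hu.1], fun j hj => ?_⟩
  unfold Wd.set
  obtain ⟨R, hR⟩ := HasWorld.ex (M := M)
  rw [get_wd (R := R) (by fun_prop) (by rw [hu.1]; exact hj)]
  split_ifs
  · exact hc
  · exact hu.2 j hj

theorem wsub_mem_W {k l c : M} {u : Wd M} (hu : u ∈ W (k + 1) l) (hc : c < k) :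
    wsub k u c ∈ W k l := by
  rw [mem_W] at hu ⊢
  refine ⟨by rw [len_wsub, hu.1], fun j hj => ?_⟩
  rw [get_wsub (by rw [hu.1]; exact hj)]
  split_ifs with h
  · exact hc
  · exact lt_of_le_of_ne (lt_succ.1 (hu.2 j hj)) h

theorem W_mono {k k' l : M} (h : k ≤ k') : W k l ⊆ W k' l := by
  intro u hu
  rw [mem_W] at hu ⊢
  exact ⟨hu.1, fun i hi => lt_of_lt_of_le (hu.2 i hi) h⟩

theorem W_nonempty {k : M} (hk : 0 < k) (l : M) : ∃ u, u ∈ W k l := by
  obtain ⟨R, hR⟩ := HasWorld.ex (M := M)
  refine ⟨wd l (fun _ => 0), mem_W.2 ⟨len_wd _ _, fun i hi => ?_⟩⟩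
  rw [get_wd (R := R) (by fun_prop) hi]
  exact hk

variable {f : Wd M → KK M}

/-- Fubini: beginning and end of a word. -/
theorem hsum_W_add (k l l' : M) (hf : Rec R f) :
    hsum (W k (l + l')) f = hsum (W k l) (fun u => hsum (W k l') (fun v => f (u ++ v))) := by
  rw [← hsum_prod (R := R) (f := fun p : Wd M × Wd M => f (p.1 ++ p.2)) (by fun_prop)]
  symm
  refine hsum_bij' (R := R) (fun p : Wd M × Wd M => p.1 ++ p.2)
    (fun w => (w.take l, w.drop l)) (by fun_prop) (by fun_prop) hf ?_ ?_ ?_ ?_ ?_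
  · intro p hp
    exact append_mem_W (mem_prod.1 hp).1 (mem_prod.1 hp).2
  · intro w hw
    refine mem_prod.2 ⟨take_mem_W hw le_self_add, ?_⟩
    have := drop_mem_W (n := l) hw
    rwa [add_tsub_cancel_left] at this
  · intro p hp
    have h := (mem_W.1 (mem_prod.1 hp).1).1
    exact Prod.ext (take_append_left h) (drop_append_left h)
  · intro w _
    exact take_append_drop _ _
  · intro p _
    rfl

theorem hsum_W_zero (k : M) (hf : Rec R f) : hsum (W k 0) f = f wnil := by
  rw [W_zero, hsum_singleton (R := R) _ hf]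

theorem hsum_W_one (k : M) (hf : Rec R f) :
    hsum (W k 1) f = hsum (rng k) (fun c => f (wsing c)) := by
  symm
  refine hsum_bij' (R := R) (fun c : M => wsing c) (fun w => w.get 0) (by fun_prop) (by fun_prop)
    hf ?_ ?_ ?_ ?_ ?_
  · intro c hc
    exact wsing_mem_W.2 (mem_rng.1 hc)
  · intro w hw
    exact mem_rng.2 ((mem_W.1 hw).2 0 one_pos)
  · intro c _
    exact get_wsing c
  · intro w hw
    have h1 := (mem_W.1 hw).1
    refine Wd.ext' (by rw [len_wsing, h1]) fun i hi => ?_
    rw [len_wsing] at hi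
    have h0 : i = 0 := by
      have : i < 0 + 1 := by rwa [zero_add]
      exact le_antisymm (lt_succ.1 this) (zero_le' i)
    rw [h0, get_wsing]
  · intro c _
    rfl

end W

theorem card_W (k l : M) : (W k l).card = hpow k l := by
  obtain ⟨R, hR⟩ := HasWorld.ex (M := M)
  refine ind_rec (R := R) (p := fun l => (W k l).card = hpow k l) (by fun_prop) ?_ ?_ l
  · rw [W_zero, card_singleton, hpow_zero]
  · intro l ih
    rw [hpow_succ, ← ih, ← cK_inj, card_cast, hsum_W_add (R := R) k l 1 (by fun_prop)]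
    have h : ∀ u ∈ W k l, hsum (W k 1) (fun _ => (1 : KK M)) = (k : KK M) := by
      intro u _
      rw [hsum_W_one (R := R) k (by fun_prop), hsum_const, card_rng, mul_one]
    rw [hsum_congr h, hsum_const, cK_mul]

section W

variable {f : Wd M → KK M}

theorem card_W_add (k l l' : M) : (W k (l + l')).card = (W k l).card * (W k l').card := by
  rw [card_W, card_W, card_W, hpow_add]

theorem havg_W_add (k l l' : M) (hf : Rec R f) :
    havg (W k (l + l')) f = havg (W k l) (fun u => havg (W k l') (fun v => f (u ++ v))) := by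
  unfold havg
  rw [hsum_W_add (R := R) k l l' hf, card_W_add, cK_mul]
  simp only [div_eq_mul_inv]
  rw [hsum_mul_right (R := R) _ (f := fun u => hsum (W k l') (fun v => f (u ++ v))) (by fun_prop),
    mul_inv]
  ring

theorem havg_W_zero (k : M) (hf : Rec R f) : havg (W k 0) f = f wnil := by
  unfold havg
  rw [hsum_W_zero (R := R) k hf, card_W, hpow_zero, cK_one, div_one]

theorem havg_W_one (k : M) (hf : Rec R f) :
    havg (W k 1) f = havg (rng k) (fun c => f (wsing c)) := by
  unfold havg
  rw [hsum_W_one (R := R) k hf, card_W, hpow_one, card_rng]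

/-- the average of a function of the first `l` letters -/
theorem havg_W_take {k : M} (hk : 0 < k) {l n : M} (h : l ≤ n) (hf : Rec R f) :
    havg (W k n) (fun u => f (u.take l)) = havg (W k l) f := by
  obtain ⟨d, rfl⟩ := le_iff_exists_add.1 h
  rw [havg_W_add (R := R) k l d (f := fun u => f (u.take l)) (by fun_prop)]
  refine havg_congr fun u hu => ?_
  have h1 : ∀ v ∈ W k d, f ((u ++ v).take l) = f u := by
    intro v _
    rw [take_append_left (mem_W.1 hu).1]
  rw [havg_congr h1, havg_const _ (W_nonempty hk d)]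

theorem havg_W_drop {k : M} (hk : 0 < k) {l n : M} (h : l ≤ n) (hf : Rec R f) :
    havg (W k n) (fun u => f (u.drop l)) = havg (W k (n - l)) f := by
  obtain ⟨d, rfl⟩ := le_iff_exists_add.1 h
  rw [add_tsub_cancel_left, havg_W_add (R := R) k l d (f := fun u => f (u.drop l)) (by fun_prop)]
  have h1 : ∀ u ∈ W k l, havg (W k d) (fun v => f ((u ++ v).drop l)) = havg (W k d) f := by
    intro u hu
    refine havg_congr fun v _ => ?_
    rw [drop_append_left (mem_W.1 hu).1]
  rw [havg_congr h1, havg_const _ (W_nonempty hk l)]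

/-- a random letter may be put at the place `p` of a random word -/
theorem havg_W_set {k : M} (hk : 0 < k) {n p : M} (h : p < n) (hf : Rec R f) :
    havg (W k n) (fun u => havg (rng k) (fun c => f (u.set p c))) = havg (W k n) f := by
  obtain ⟨d, rfl⟩ := le_iff_exists_add.1 (succ_le.2 h)
  have hset : ∀ (u : Wd M) (e c : M) (v : Wd M), u.len = p →
      (u ++ wsing e ++ v).set p c = u ++ wsing c ++ v := by
    intro u e c v hu
    refine Wd.ext' ?_ fun i hi => ?_
    · simp only [len_set, len_append, len_wsing]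
    · rw [len_set] at hi
      have hp : p < (u ++ wsing e ++ v).len := by
        simp only [len_append, len_wsing, hu]
        exact lt_of_lt_of_le (lt_succ.2 le_rfl) le_self_add
      rw [get_set hp]
      rcases lt_trichotomy i p with h1 | h1 | h1
      · rw [if_neg h1.ne, get_append_left (by
          rw [len_append, hu, len_wsing]; exact h1.trans (lt_succ.2 le_rfl)),
          get_append_left (by rw [hu]; exact h1), get_append_left (by
          rw [len_append, hu, len_wsing]; exact h1.trans (lt_succ.2 le_rfl)),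
          get_append_left (by rw [hu]; exact h1)]
      · rw [if_pos h1, h1, get_append_left (by
          rw [len_append, hu, len_wsing]; exact lt_succ.2 le_rfl)]
        have h7 : p = u.len + 0 := by rw [hu, add_zero]
        rw [h7, get_append_right, get_wsing]
      · rw [if_neg h1.ne']
        have h2 : p + 1 ≤ i := succ_le.2 h1
        obtain ⟨j, rfl⟩ := le_iff_exists_add.1 h2
        have h3 : (u ++ wsing e).len = p + 1 := by rw [len_append, hu, len_wsing]
        have h4 : (u ++ wsing c).len = p + 1 := by rw [len_append, hu, len_wsing]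
        conv_lhs => rw [← h3, get_append_right]
        conv_rhs => rw [← h4, get_append_right]
  rw [havg_W_add (R := R) k (p + 1) d (f := fun u => havg (rng k) (fun c => f (u.set p c)))
    (by fun_prop), havg_W_add (R := R) k (p + 1) d hf,
    havg_W_add (R := R) k p 1 (f := fun u => havg (W k d) (fun v => havg (rng k)
      (fun c => f ((u ++ v).set p c)))) (by fun_prop),
    havg_W_add (R := R) k p 1 (f := fun u => havg (W k d) (fun v => f (u ++ v))) (by fun_prop)]
  refine havg_congr fun u hu => ?_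
  have hul := (mem_W.1 hu).1
  rw [havg_W_one (R := R) k (f := fun v => havg (W k d) (fun w => havg (rng k)
      (fun c => f ((u ++ v ++ w).set p c)))) (by fun_prop),
    havg_W_one (R := R) k (f := fun v => havg (W k d) (fun w => f (u ++ v ++ w))) (by fun_prop)]
  have h1 : ∀ e ∈ rng k, havg (W k d) (fun w => havg (rng k)
      (fun c => f ((u ++ wsing e ++ w).set p c))) =
      havg (rng k) (fun c => havg (W k d) (fun w => f (u ++ wsing c ++ w))) := by
    intro e _
    rw [havg_comm (R := R) (f := fun c w => f (u ++ wsing c ++ w)) (by fun_prop)]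
    refine havg_congr fun w _ => ?_
    refine havg_congr fun c _ => ?_
    rw [hset u e c w hul]
  rw [havg_congr h1, havg_const _ ⟨0, mem_rng.2 hk⟩]

end W

end Pool.Agent.OVW
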