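import Pool.Agent.OVW.Lib5

/-! # Internal words -/

namespace Pool.Agent.OVW

open Classical

/-- Internal words: finite coded sequences of elements of `M`. -/
@[ext (iff := false)]
structure Wd (M : Type) [Arith M] where
  /-- the length -/
  len : M
  /-- the letters -/
  get : M → M
  out : ∀ i, len ≤ i → get i = 0
  coded : ∃ c, ∀ i < len, bet c i = get i

set_option linter.unusedSectionVars false

variable {M : Type} [Arith M] [HasWorld M] {R : Set (M → M)} [IsWorld R] {α β γ δ : Type}
variable [Cod M α] [Cod M β] [Cod M γ] [Cod M δ]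

theorem Wd.ext' {u v : Wd M} (hl : u.len = v.len) (h : ∀ i < u.len, u.get i = v.get i) : u = v := by
  apply Wd.ext hl
  funext i
  by_cases hi : i < u.len
  · exact h i hi
  · rw [u.out i (not_lt.1 hi), v.out i (hl ▸ not_lt.1 hi)]

/-- The word with the code `m`. -/
noncomputable def wdec (m : M) : Wd M :=
  ⟨sn m, fun i => if i < sn m then bet (fs m) i else 0, fun _ hi => if_neg (not_lt.2 hi),
    fs m, fun _ hi => (if_pos hi).symm⟩

theorem wdec_surjective : Function.Surjective (wdec : M → Wd M) := by
  intro u
  obtain ⟨c, hc⟩ := u.coded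
  refine ⟨pr c u.len, Wd.ext' ?_ ?_⟩
  · show sn (pr c u.len) = u.len
    rw [sn_pr]
  · intro i hi
    change i < sn (pr c u.len) at hi
    show (if i < sn (pr c u.len) then bet (fs (pr c u.len)) i else 0) = u.get i
    rw [if_pos hi, fs_pr]
    rw [sn_pr] at hi
    exact hc i hi

theorem wdec_eq_iff (m n : M) : (wdec m : Wd M) = wdec n ↔
    sn m = sn n ∧ ∀ i < sn m, bet (fs m) i = bet (fs n) i := by
  constructor
  · intro h
    have h1 : sn m = sn n := congrArg Wd.len h
    refine ⟨h1, fun i hi => ?_⟩
    have h2 : (if i < sn m then bet (fs m) i else 0) = if i < sn n then bet (fs n) i else 0 :=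
      congrArg (fun u : Wd M => u.get i) h
    rwa [if_pos hi, if_pos (h1 ▸ hi)] at h2
  · rintro ⟨h1, h2⟩
    refine Wd.ext' h1 fun i hi => ?_
    change i < sn m at hi
    show (if i < sn m then bet (fs m) i else 0) = if i < sn n then bet (fs n) i else 0
    rw [if_pos hi, if_pos (h1 ▸ hi)]
    exact h2 i hi

noncomputable instance instCodWd : Cod M (Wd M) :=
  Cod.ofSurj wdec wdec_surjective (fun R _ => by simp only [wdec_eq_iff]; fun_prop)

theorem wdec_enc (u : Wd M) : wdec (enc u : M) = u := dec_enc (M := M) u

theorem len_eq_enc (u : Wd M) : u.len = sn (enc u : M) := by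
  conv_lhs => rw [← wdec_enc u]
  rfl

theorem get_eq_enc (u : Wd M) (i : M) :
    u.get i = if i < sn (enc u : M) then bet (fs (enc u : M)) i else 0 := by
  conv_lhs => rw [← wdec_enc u]
  rfl

@[fun_prop] theorem Rec.len {f : γ → Wd M} (hf : Rec R f) : Rec R (fun x => (f x).len) := by
  simp only [len_eq_enc]
  fun_prop
@[fun_prop] theorem Rec.get {f : γ → Wd M} {i : γ → M} (hf : Rec R f) (hi : Rec R i) :
    Rec R (fun x => (f x).get (i x)) := by
  simp only [get_eq_enc]
  fun_prop

/-- The word of length `n` with letters `f i`, `i < n` (letters `0` if `f` is not coded). -/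
noncomputable def wd (n : M) (f : M → M) : Wd M :=
  if h : ∃ c, ∀ i < n, bet c i = f i then
    ⟨n, fun i => if i < n then f i else 0, fun i hi => if_neg (not_lt.2 hi), by
      obtain ⟨c, hc⟩ := h
      exact ⟨c, fun i hi => by rw [if_pos hi]; exact hc i hi⟩⟩
  else ⟨n, fun _ => 0, fun _ _ => rfl, 0, fun i _ => le_antisymm (bet_le 0 i) zero_le⟩

@[simp] theorem len_wd (n : M) (f : M → M) : (wd n f).len = n := by
  unfold wd; split <;> rfl
theorem get_wd_of {n : M} {f : M → M} (h : ∃ c, ∀ i < n, bet c i = f i) (i : M) :
    (wd n f).get i = if i < n then f i else 0 := by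
  unfold wd
  rw [dif_pos h]
theorem get_wd' {n : M} {f : M → M} (hf : Rec R f) {i : M} :
    (wd n f).get i = if i < n then f i else 0 := get_wd_of (IsWorld.beta (R := R) f hf n) i
theorem get_wd {n : M} {f : M → M} (hf : Rec R f) {i : M} (hi : i < n) : (wd n f).get i = f i := by
  rw [get_wd' hf, if_pos hi]
@[fun_prop] theorem Rec.wd {n : γ → M} {f : γ → M → M} (hn : Rec R n)
    (hf : Rec R (fun x : γ × M => f x.1 x.2)) : Rec R (fun x => wd (n x) (f x)) := by
  apply Rec.of_graph (Q := fun x (u : Wd M) => u.len = n x ∧ ∀ i < n x, u.get i = f x i)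
  · have h1 : Rec R (fun x : (γ × Wd M) × M => f x.1.1 x.2) :=
      Rec.comp2 (h := f) hf (by fun_prop) (by fun_prop)
    fun_prop
  · intro x
    exact ⟨OVW.wd (n x) (f x), len_wd _ _, fun i hi => get_wd (Rec.ap hf x) hi⟩
  · rintro x u ⟨h1, h2⟩
    refine Wd.ext' (by rw [h1, len_wd]) fun i hi => ?_
    rw [h1] at hi
    rw [h2 i hi, get_wd (Rec.ap hf x) hi]
theorem wd_congr {n : M} {f g : M → M} (h : ∀ i < n, f i = g i) : wd n f = wd n g := by
  by_cases hf : ∃ c, ∀ i < n, bet c i = f i
  · have hg : ∃ c, ∀ i < n, bet c i = g i := by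
      obtain ⟨c, hc⟩ := hf
      exact ⟨c, fun i hi => by rw [hc i hi, h i hi]⟩
    refine Wd.ext' (by rw [len_wd, len_wd]) fun i hi => ?_
    rw [len_wd] at hi
    rw [get_wd_of hf, get_wd_of hg, if_pos hi, if_pos hi, h i hi]
  · have hg : ¬ ∃ c, ∀ i < n, bet c i = g i := by
      rintro ⟨c, hc⟩
      exact hf ⟨c, fun i hi => by rw [hc i hi, h i hi]⟩
    unfold wd
    rw [dif_neg hf, dif_neg hg]
theorem wd_get (u : Wd M) : wd u.len u.get = u := by
  refine Wd.ext' (len_wd _ _) fun i hi => ?_
  rw [len_wd] at hi
  rw [get_wd_of u.coded, if_pos hi]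

/-! ## Operations -/

/-- the empty word -/
noncomputable def wnil : Wd M := wd 0 (fun _ => 0)
/-- the word with the letter `c` only -/
noncomputable def wsing (c : M) : Wd M := wd 1 (fun _ => c)
noncomputable instance : Append (Wd M) :=
  ⟨fun u v => wd (u.len + v.len) (fun i => if i < u.len then u.get i else v.get (i - u.len))⟩
/-- the first `n` letters -/
noncomputable def Wd.take (n : M) (u : Wd M) : Wd M := wd (min n u.len) u.get
/-- without the first `n` letters -/
noncomputable def Wd.drop (n : M) (u : Wd M) : Wd M := wd (u.len - n) (fun i => u.get (n + i))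
/-- the letter number `i` replaced by `c` -/
noncomputable def Wd.set (u : Wd M) (i c : M) : Wd M := wd u.len (fun j => if j = i then c else u.get j)
/-- the letters `κ` (the variable) replaced by `c` -/
noncomputable def wsub (κ : M) (u : Wd M) (c : M) : Wd M :=
  wd u.len (fun j => if u.get j = κ then c else u.get j)

@[fun_prop] theorem Rec.wsing {f : γ → M} (hf : Rec R f) : Rec R (fun x => wsing (f x)) := by
  unfold OVW.wsing; fun_prop
@[fun_prop] theorem Rec.append {f g : γ → Wd M} (hf : Rec R f) (hg : Rec R g) :
    Rec R (fun x => f x ++ g x) := by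
  show Rec R (fun x => OVW.wd ((f x).len + (g x).len)
    (fun i => if i < (f x).len then (f x).get i else (g x).get (i - (f x).len)))
  fun_prop
@[fun_prop] theorem Rec.take {n : γ → M} {f : γ → Wd M} (hn : Rec R n) (hf : Rec R f) :
    Rec R (fun x => (f x).take (n x)) := by unfold Wd.take; fun_prop
@[fun_prop] theorem Rec.drop {n : γ → M} {f : γ → Wd M} (hn : Rec R n) (hf : Rec R f) :
    Rec R (fun x => (f x).drop (n x)) := by unfold Wd.drop; fun_prop
@[fun_prop] theorem Rec.set {f : γ → Wd M} {i c : γ → M} (hf : Rec R f) (hi : Rec R i)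
    (hc : Rec R c) : Rec R (fun x => (f x).set (i x) (c x)) := by unfold Wd.set; fun_prop
@[fun_prop] theorem Rec.wsub {κ c : γ → M} {f : γ → Wd M} (hκ : Rec R κ) (hf : Rec R f)
    (hc : Rec R c) : Rec R (fun x => wsub (κ x) (f x) (c x)) := by unfold OVW.wsub; fun_prop

section ops

@[simp] theorem len_wnil : (wnil : Wd M).len = 0 := len_wd _ _
@[simp] theorem len_wsing (c : M) : (wsing c).len = 1 := len_wd _ _
@[simp] theorem len_append (u v : Wd M) : (u ++ v).len = u.len + v.len := len_wd _ _
@[simp] theorem len_take (n : M) (u : Wd M) : (u.take n).len = min n u.len := len_wd _ _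
@[simp] theorem len_drop (n : M) (u : Wd M) : (u.drop n).len = u.len - n := len_wd _ _
@[simp] theorem len_set (u : Wd M) (i c : M) : (u.set i c).len = u.len := len_wd _ _
@[simp] theorem len_wsub (κ : M) (u : Wd M) (c : M) : (wsub κ u c).len = u.len := len_wd _ _

theorem get_wsing (c : M) : (wsing c).get 0 = c := by
  obtain ⟨R, hR⟩ := HasWorld.ex (M := M)
  exact get_wd (R := R) (by fun_prop) one_pos
theorem get_append (u v : Wd M) (i : M) : (u ++ v).get i =
    if i < u.len + v.len then (if i < u.len then u.get i else v.get (i - u.len)) else 0 := by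
  obtain ⟨R, hR⟩ := HasWorld.ex (M := M)
  exact get_wd' (R := R) (by fun_prop)
theorem get_append_left {u v : Wd M} {i : M} (h : i < u.len) : (u ++ v).get i = u.get i := by
  rw [get_append, if_pos (h.trans_le le_self_add), if_pos h]
theorem get_append_right {u v : Wd M} (i : M) : (u ++ v).get (u.len + i) = v.get i := by
  rw [get_append, if_neg (not_lt.2 (le_self_add (a := u.len) (b := i))), add_sub_self']
  by_cases h : i < v.len
  · rw [if_pos (add_lt_add_right h _)]
  · rw [if_neg (fun h' => h (lt_of_add_lt_add_left h')), v.out i (not_lt.1 h)]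
theorem get_append_right' {u v : Wd M} {i : M} (h : u.len ≤ i) :
    (u ++ v).get i = v.get (i - u.len) := by
  obtain ⟨d, rfl⟩ := le_iff_exists_add.1 h
  rw [get_append_right, add_sub_self']
theorem get_take' (n : M) (u : Wd M) (i : M) : (u.take n).get i = if i < n then u.get i else 0 := by
  obtain ⟨R, hR⟩ := HasWorld.ex (M := M)
  have h : (u.take n).get i = if i < min n u.len then u.get i else 0 :=
    get_wd' (R := R) (by fun_prop)
  rw [h]
  by_cases h1 : i < n
  · rw [if_pos h1]
    by_cases h2 : i < u.len
    · rw [if_pos (lt_min h1 h2)]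
    · rw [if_neg (fun h3 => h2 (h3.trans_le (min_le_right _ _))), u.out i (not_lt.1 h2)]
  · rw [if_neg h1, if_neg (fun h3 => h1 (h3.trans_le (min_le_left _ _)))]
theorem get_take {n : M} {u : Wd M} {i : M} (h : i < n) : (u.take n).get i = u.get i := by
  rw [get_take', if_pos h]
theorem get_drop (n : M) (u : Wd M) (i : M) : (u.drop n).get i = u.get (n + i) := by
  obtain ⟨R, hR⟩ := HasWorld.ex (M := M)
  have h : (u.drop n).get i = if i < u.len - n then u.get (n + i) else 0 :=
    get_wd' (R := R) (f := fun i => u.get (n + i)) (by fun_prop)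
  rw [h]
  by_cases h1 : i < u.len - n
  · rw [if_pos h1]
  · rw [if_neg h1, u.out (n + i) (tsub_le_iff_left.1 (not_lt.1 h1))]
theorem get_set {u : Wd M} {i c j : M} (hi : i < u.len) :
    (u.set i c).get j = if j = i then c else u.get j := by
  obtain ⟨R, hR⟩ := HasWorld.ex (M := M)
  have h : (u.set i c).get j = if j < u.len then (if j = i then c else u.get j) else 0 :=
    get_wd' (R := R) (f := fun j => if j = i then c else u.get j) (by fun_prop)
  rw [h]
  by_cases h1 : j < u.len
  · rw [if_pos h1]
  · rw [if_neg h1, if_neg (fun h2 : j = i => h1 (by rw [h2]; exact hi)), u.out j (not_lt.1 h1)]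
theorem get_wsub {κ : M} {u : Wd M} {c i : M} (h : i < u.len) :
    (wsub κ u c).get i = if u.get i = κ then c else u.get i := by
  obtain ⟨R, hR⟩ := HasWorld.ex (M := M)
  exact get_wd (R := R) (f := fun j => if u.get j = κ then c else u.get j) (by fun_prop) h

theorem len_eq_zero {u : Wd M} : u.len = 0 ↔ u = wnil := by
  constructor
  · intro h
    refine Wd.ext' (by rw [h, len_wnil]) fun i hi => ?_
    rw [h] at hi
    exact absurd hi (by simp)
  · rintro rfl
    exact len_wnil
@[simp] theorem nil_append (u : Wd M) : wnil ++ u = u := by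
  refine Wd.ext' (by rw [len_append, len_wnil, zero_add]) fun i _ => ?_
  rw [get_append_right' (by rw [len_wnil]; exact zero_le), len_wnil, tsub_zero]
@[simp] theorem append_nil (u : Wd M) : u ++ wnil = u := by
  refine Wd.ext' (by rw [len_append, len_wnil, add_zero]) fun i hi => ?_
  rw [len_append, len_wnil, add_zero] at hi
  rw [get_append_left hi]
theorem append_assoc (u v w : Wd M) : u ++ v ++ w = u ++ (v ++ w) := by
  refine Wd.ext' (by simp only [len_append, add_assoc]) fun i _ => ?_
  rcases lt_or_ge i u.len with h | h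
  · rw [get_append_left h, get_append_left (by rw [len_append]; exact h.trans_le le_self_add),
      get_append_left h]
  · obtain ⟨j, rfl⟩ := le_iff_exists_add.1 h
    rw [get_append_right (u := u) (v := v ++ w)]
    rcases lt_or_ge j v.len with h2 | h2
    · rw [get_append_left h2,
        get_append_left (by rw [len_append]; exact add_lt_add_right h2 _), get_append_right]
    · obtain ⟨l, rfl⟩ := le_iff_exists_add.1 h2
      have e : u.len + (v.len + l) = (u ++ v).len + l := by rw [len_append, add_assoc]
      rw [e, get_append_right, get_append_right]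
theorem append_inj {u v u' v' : Wd M} (h : u ++ v = u' ++ v') (hl : u.len = u'.len) :
    u = u' ∧ v = v' := by
  constructor
  · refine Wd.ext' hl fun i hi => ?_
    rw [← get_append_left (v := v) hi, h, get_append_left (hl ▸ hi)]
  · have hlen : v.len = v'.len := by
      have := congrArg Wd.len h
      rw [len_append, len_append, hl] at this
      exact add_left_cancel this
    refine Wd.ext' hlen fun i _ => ?_
    rw [← get_append_right (u := u) (v := v) i, h, hl, get_append_right]
theorem take_append_drop (n : M) (u : Wd M) : u.take n ++ u.drop n = u := by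
  refine Wd.ext' ?_ fun i hi => ?_
  · rw [len_append, len_take, len_drop]
    rcases le_total n u.len with h | h
    · rw [min_eq_left h, add_tsub_cancel_of_le h]
    · rw [min_eq_right h, tsub_eq_zero_of_le h, add_zero]
  · rcases lt_or_ge i (u.take n).len with h | h
    · rw [get_append_left h]
      rw [len_take] at h
      exact get_take (h.trans_le (min_le_left _ _))
    · rw [get_append_right' h, get_drop]
      rw [len_append, len_take, len_drop] at hi
      rw [len_take] at h ⊢
      rcases le_total n u.len with h1 | h1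
      · rw [min_eq_left h1] at h ⊢
        rw [add_tsub_cancel_of_le h]
      · rw [min_eq_right h1] at h ⊢
        rw [min_eq_right h1, tsub_eq_zero_of_le h1, add_zero] at hi
        exact absurd hi (not_lt.2 h)
theorem take_append_left {u v : Wd M} {n : M} (h : u.len = n) : (u ++ v).take n = u := by
  subst h
  refine Wd.ext' (by rw [len_take, len_append, min_eq_left le_self_add]) fun i hi => ?_
  rw [len_take, len_append, min_eq_left le_self_add] at hi
  rw [get_take hi, get_append_left hi]
theorem drop_append_left {u v : Wd M} {n : M} (h : u.len = n) : (u ++ v).drop n = v := by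
  subst h
  refine Wd.ext' (by rw [len_drop, len_append, add_sub_self']) fun i _ => ?_
  rw [get_drop, get_append_right]
theorem take_append_of_le {u v : Wd M} {n : M} (h : n ≤ u.len) : (u ++ v).take n = u.take n := by
  refine Wd.ext' ?_ fun i hi => ?_
  · rw [len_take, len_take, len_append, min_eq_left h, min_eq_left (h.trans le_self_add)]
  · rw [len_take] at hi
    have hi' := hi.trans_le (min_le_left _ _)
    rw [get_take hi', get_take hi', get_append_left (hi'.trans_le h)]
theorem take_append_of_ge {u v : Wd M} {n : M} (h : u.len ≤ n) :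
    (u ++ v).take n = u ++ v.take (n - u.len) := by
  obtain ⟨d, rfl⟩ := le_iff_exists_add.1 h
  rw [add_sub_self']
  refine Wd.ext' ?_ fun i hi => ?_
  · rw [len_take, len_append, len_append, len_take, min_add_add_left]
  · rw [len_take] at hi
    have hi' := hi.trans_le (min_le_left _ _)
    rw [get_take hi']
    rcases lt_or_ge i u.len with h | h
    · rw [get_append_left h, get_append_left h]
    · obtain ⟨j, rfl⟩ := le_iff_exists_add.1 h
      rw [get_append_right, get_append_right, get_take (lt_of_add_lt_add_left hi')]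
theorem take_of_len_le {u : Wd M} {n : M} (h : u.len ≤ n) : u.take n = u := by
  refine Wd.ext' (by rw [len_take, min_eq_right h]) fun i hi => ?_
  rw [len_take] at hi
  rw [get_take (hi.trans_le (min_le_left _ _))]
theorem take_take (m n : M) (u : Wd M) : (u.take n).take m = u.take (min m n) := by
  refine Wd.ext' (by rw [len_take, len_take, len_take, min_assoc]) fun i hi => ?_
  rw [len_take, len_take, ← min_assoc] at hi
  have hi' := hi.trans_le (min_le_left _ _)
  rw [get_take (hi'.trans_le (min_le_left _ _)), get_take (hi'.trans_le (min_le_right _ _)),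
    get_take hi']
theorem take_zero (u : Wd M) : u.take 0 = wnil := by
  rw [← len_eq_zero, len_take, min_eq_left zero_le]
theorem drop_zero (u : Wd M) : u.drop 0 = u := by
  refine Wd.ext' (by rw [len_drop, tsub_zero]) fun i _ => ?_
  rw [get_drop, zero_add]
theorem take_succ {u : Wd M} {n : M} (h : n < u.len) :
    u.take (n + 1) = u.take n ++ wsing (u.get n) := by
  have hl : (u.take n).len = n := by rw [len_take, min_eq_left h.le]
  refine Wd.ext' ?_ fun i hi => ?_
  · rw [len_append, hl, len_take, len_wsing, min_eq_left (succ_le.2 h)]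
  · rw [len_take] at hi
    have hi' := hi.trans_le (min_le_left _ _)
    rw [get_take hi']
    rcases (lt_succ.1 hi').lt_or_eq with h1 | h1
    · rw [get_append_left (by rw [hl]; exact h1), get_take h1]
    · subst h1
      rw [get_append_right' (by rw [hl]), hl, tsub_self, get_wsing]
theorem drop_eq_cons {u : Wd M} {n : M} (h : n < u.len) :
    u.drop n = wsing (u.get n) ++ u.drop (n + 1) := by
  obtain ⟨d, hd⟩ := le_iff_exists_add.1 (succ_le.2 h)
  have e1 : u.len - n = 1 + d := by rw [hd, add_assoc, add_sub_self']
  have e2 : u.len - (n + 1) = d := by rw [hd, add_sub_self']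
  refine Wd.ext' ?_ fun i _ => ?_
  · rw [len_append, len_drop, len_drop, len_wsing, e1, e2]
  · rw [get_drop]
    rcases cases_succ i with rfl | ⟨j, rfl⟩
    · rw [get_append_left (by rw [len_wsing]; exact one_pos), get_wsing, add_zero]
    · have e : j + 1 = (wsing (u.get n)).len + j := by rw [len_wsing, add_comm]
      rw [e, get_append_right, get_drop, len_wsing]
      congr 1
      ring
/-- a nonempty word is a letter and a word -/
theorem exists_cons {u : Wd M} (h : 0 < u.len) : ∃ v, u = wsing (u.get 0) ++ v :=
  ⟨u.drop (0 + 1), by rw [← drop_eq_cons h, drop_zero]⟩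
theorem exists_snoc {u : Wd M} (h : 0 < u.len) : ∃ v c, u = v ++ wsing c := by
  rcases cases_succ u.len with h1 | ⟨n, h1⟩
  · rw [h1] at h
    exact absurd h (lt_irrefl _)
  · refine ⟨u.take n, u.get n, ?_⟩
    rw [← take_succ (by rw [h1]; exact lt_succ.2 le_rfl), take_of_len_le h1.le]
theorem wsub_append (κ : M) (u v : Wd M) (c : M) :
    wsub κ (u ++ v) c = wsub κ u c ++ wsub κ v c := by
  refine Wd.ext' (by simp only [len_wsub, len_append]) fun i hi => ?_
  rw [len_wsub] at hi
  rw [get_wsub hi]
  rcases lt_or_ge i u.len with h | h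
  · rw [get_append_left h, get_append_left (by rw [len_wsub]; exact h), get_wsub h]
  · obtain ⟨j, rfl⟩ := le_iff_exists_add.1 h
    rw [len_append] at hi
    have hj : j < v.len := lt_of_add_lt_add_left hi
    have e : u.len + j = (wsub κ u c).len + j := by rw [len_wsub]
    rw [get_append_right]
    conv_rhs => rw [e]
    rw [get_append_right, get_wsub hj]
theorem wsub_wsing_self (κ c : M) : wsub κ (wsing κ) c = wsing c := by
  refine Wd.ext' (by simp only [len_wsub, len_wsing]) fun i hi => ?_
  rw [len_wsub] at hi
  rw [get_wsub hi]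
  rw [len_wsing] at hi
  have h0 : i = 0 := Arith.lt_one i hi
  subst h0
  rw [get_wsing, get_wsing, if_pos rfl]
theorem wsub_wsing_of_ne {κ d : M} (c : M) (h : d ≠ κ) : wsub κ (wsing d) c = wsing d := by
  refine Wd.ext' (by simp only [len_wsub, len_wsing]) fun i hi => ?_
  rw [len_wsub] at hi
  rw [get_wsub hi]
  rw [len_wsing] at hi
  have h0 : i = 0 := Arith.lt_one i hi
  subst h0
  rw [get_wsing, if_neg h]
theorem wsub_of_no_var {κ : M} {u : Wd M} (c : M) (h : ∀ i < u.len, u.get i ≠ κ) :
    wsub κ u c = u := by
  refine Wd.ext' (len_wsub _ _ _) fun i hi => ?_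
  rw [len_wsub] at hi
  rw [get_wsub hi, if_neg (h i hi)]
theorem wsub_self (κ : M) (u : Wd M) : wsub κ u κ = u := by
  refine Wd.ext' (len_wsub _ _ _) fun i hi => ?_
  rw [len_wsub] at hi
  rw [get_wsub hi]
  by_cases h : u.get i = κ
  · rw [if_pos h, h]
  · rw [if_neg h]

end ops

/-- induction on words -/
theorem Wd.ind_snoc {p : Wd M → Prop} (hp : Rec R p) (h0 : p wnil)
    (hs : ∀ u c, p u → p (u ++ wsing c)) : ∀ u, p u := by
  intro u
  have h : ∀ n, p (u.take n) := by
    apply Rec.induction (R := R) (P := fun n => p (u.take n))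
    · exact Rec.comp (g := p) hp (by fun_prop)
    · rw [take_zero]
      exact h0
    · intro n hn
      rcases lt_or_ge n u.len with h | h
      · rw [take_succ h]
        exact hs _ _ hn
      · rw [take_of_len_le h] at hn
        rw [take_of_len_le (h.trans le_self_add)]
        exact hn
  have := h u.len
  rwa [take_of_len_le le_rfl] at this
theorem Wd.ind_cons {p : Wd M → Prop} (hp : Rec R p) (h0 : p wnil)
    (hs : ∀ c u, p u → p (wsing c ++ u)) : ∀ u, p u := by
  intro u
  have h : ∀ n, p (u.drop (u.len - n)) := by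
    apply Rec.induction (R := R) (P := fun n => p (u.drop (u.len - n)))
    · exact Rec.comp (g := p) hp (by fun_prop)
    · have e : u.drop (u.len - 0) = wnil := by
        rw [← len_eq_zero, len_drop, tsub_zero, tsub_self]
      rw [e]
      exact h0
    · intro n hn
      rcases lt_or_ge n u.len with h | h
      · obtain ⟨d, hd⟩ := le_iff_exists_add.1 (succ_le.2 h)
        have e1 : u.len - n = d + 1 := by
          rw [hd, add_assoc, add_sub_self', add_comm]
        have e2 : u.len - (n + 1) = d := by rw [hd, add_sub_self']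
        rw [e1] at hn
        rw [e2, drop_eq_cons (n := d) (by
          rw [hd, add_comm (n + 1) d, ← add_assoc]
          exact lt_succ.2 le_self_add)]
        exact hs _ _ hn
      · rw [tsub_eq_zero_of_le h] at hn
        rw [tsub_eq_zero_of_le (h.trans le_self_add)]
        exact hn
  have := h u.len
  rwa [tsub_self, drop_zero] at this

/-- the concatenation `g 0 ++ g 1 ++ ... ++ g (r - 1)` -/
noncomputable def wjoin (r : M) (g : M → Wd M) : Wd M := prec wnil (fun i u => u ++ g i) r
@[fun_prop] theorem Rec.wjoin {r : γ → M} {g : γ → M → Wd M} (hr : Rec R r)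
    (hg : Rec R (fun x : γ × M => g x.1 x.2)) : Rec R (fun x => wjoin (r x) (g x)) := by
  unfold OVW.wjoin; fun_prop
@[simp] theorem wjoin_zero (g : M → Wd M) : wjoin 0 g = wnil := prec_zero _ _
theorem wjoin_succ {g : M → Wd M} (hg : Rec R g) (r : M) : wjoin (r + 1) g = wjoin r g ++ g r :=
  prec_succ (R := R) _ (by fun_prop) _
theorem wjoin_add {g : M → Wd M} (hg : Rec R g) (r s : M) :
    wjoin (r + s) g = wjoin r g ++ wjoin s (fun i => g (r + i)) := by
  refine ind_rec (R := R) (p := fun s => wjoin (r + s) g = wjoin r g ++ wjoin s (fun i => g (r + i)))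
    (by fun_prop) ?_ ?_ s
  · rw [add_zero, wjoin_zero, append_nil]
  · intro n ih
    rw [← add_assoc, wjoin_succ hg, ih, wjoin_succ (R := R) (g := fun i => g (r + i)) (by fun_prop),
      append_assoc]
theorem wjoin_congr {g g' : M → Wd M} {r : M} (h : ∀ i < r, g i = g' i) :
    wjoin r g = wjoin r g' := by
  unfold wjoin
  exact prec_congr fun i hi a => by rw [h i hi]
theorem len_wjoin_le {g : M → Wd M} (hg : Rec R g) {r L : M} (h : ∀ i < r, (g i).len ≤ L) :
    (wjoin r g).len ≤ r * L := by
  refine ind_rec_lt (R := R) (p := fun r => (wjoin r g).len ≤ r * L) (by fun_prop) r ?_ ?_ r le_rfl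
  · rw [wjoin_zero, len_wnil]
    exact zero_le
  · intro n hn ih
    rw [wjoin_succ hg, len_append, add_mul, one_mul]
    exact add_le_add ih (h n hn)

end Pool.Agent.OVW
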