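import Pool.Agent.OVW.Lib4

/-!
# Library K: codes given by a surjection, the field of fractions
-/

namespace Pool.Agent.OVW

/-- The field of fractions. -/
abbrev KK (M : Type) [Arith M] : Type := Arith.K M

section

variable {M : Type} [Arith M]

open Classical in
/-- The least code of `x` for the surjection `d`. -/
noncomputable def encOf {α : Type} (d : M → α) (hd : Function.Surjective d) (x : α) : M :=
  if h : ∃ n, d n = x ∧ ∀ m < n, d m ≠ x then h.choose else (hd x).choose

theorem dec_encOf {α : Type} (d : M → α) (hd : Function.Surjective d) (x : α) :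
    d (encOf d hd x) = x := by
  unfold encOf
  split
  · rename_i h
    exact h.choose_spec.1
  · exact (hd x).choose_spec

theorem encOf_eq {R : Set (M → M)} [IsWorld R] {α : Type} (d : M → α)
    (hd : Function.Surjective d) (he : Rec R (fun p : M × M => d p.1 = d p.2)) (m : M) :
    encOf d hd (d m) = least (fun n => d n = d m) := by
  have h1 : Rec R (fun n : M => d n = d m) :=
    Rec.comp (g := fun p : M × M => d p.1 = d p.2) (f := fun n : M => (n, m)) he (by fun_prop)
  obtain ⟨h2, h3⟩ := Rec.least_spec h1 ⟨m, rfl⟩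
  have h : ∃ n, d n = d m ∧ ∀ k < n, d k ≠ d m := ⟨_, h2, h3⟩
  unfold encOf
  rw [dif_pos h]
  exact (least_eq (P := fun n => d n = d m) h.choose_spec.1 h.choose_spec.2).symm

/-- Codes given by a surjection with recursive equality. -/
@[reducible] noncomputable def Cod.ofSurj {α : Type} (d : M → α) (hd : Function.Surjective d)
    (he : ∀ (R : Set (M → M)) [IsWorld R], Rec R (fun p : M × M => d p.1 = d p.2)) : Cod M α where
  enc' := encOf d hd
  dec' := d
  dec_enc' := dec_encOf d hd
  can' := fun R _ => by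
    have e : (fun m => encOf d hd (d m)) = fun m => least (fun n => d n = d m) :=
      funext fun m => encOf_eq d hd (he R) m
    rw [e]
    have h : Rec R (fun p : M × M => d p.2 = d p.1) :=
      Rec.comp (g := fun p : M × M => d p.1 = d p.2) (f := fun p : M × M => (p.2, p.1))
        (he R) (by fun_prop)
    exact Rec.least (R := R) (P := fun m n => d n = d m) h (fun m => ⟨m, rfl⟩)

end

section

variable {M : Type} [Arith M]

/-- The fraction with the code `m`. -/
noncomputable def kdec (m : M) : KK M :=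
  ((fs m : M) - (fs (sn m) : M) : KK M) / ((sn (sn m) : M) + 1)

theorem kdec_surjective : Function.Surjective (kdec : M → KK M) := by
  intro x
  obtain ⟨a, b, c, hc, h⟩ := Arith.frac x
  rcases cases_succ c with h0 | ⟨c', rfl⟩
  · exact absurd h0 hc
  refine ⟨pr a (pr b c'), ?_⟩
  unfold kdec
  simp only [fs_pr, sn_pr]
  rw [div_eq_iff (cK_succ_pos c').ne']
  have h' : x * ((c' + 1 : M) : KK M) = (a : KK M) - b := h
  push_cast at h'
  exact h'.symm

theorem kdec_eq_iff (m n : M) : (kdec m : KK M) = kdec n ↔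
    fs m * (sn (sn n) + 1) + fs (sn n) * (sn (sn m) + 1) =
      fs n * (sn (sn m) + 1) + fs (sn m) * (sn (sn n) + 1) := by
  unfold kdec
  rw [div_eq_div_iff (cK_succ_pos _).ne' (cK_succ_pos _).ne', ← cK_inj (M := M)]
  push_cast
  constructor
  · intro h; linear_combination h
  · intro h; linear_combination h

theorem kdec_lt_iff (m n : M) : (kdec m : KK M) < kdec n ↔
    fs m * (sn (sn n) + 1) + fs (sn n) * (sn (sn m) + 1) <
      fs n * (sn (sn m) + 1) + fs (sn m) * (sn (sn n) + 1) := by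
  unfold kdec
  rw [div_lt_div_iff₀ (cK_succ_pos _) (cK_succ_pos _), ← cK_lt (M := M)]
  push_cast
  constructor
  · intro h; linarith
  · intro h; linarith

noncomputable instance instCodK : Cod M (KK M) :=
  Cod.ofSurj kdec kdec_surjective (fun R _ => by simp only [kdec_eq_iff]; fun_prop)

theorem dec_K (m : M) : (OVW.dec m : KK M) = kdec m := rfl

variable {R : Set (M → M)} [IsWorld R] {α β γ δ : Type}
variable [Cod M α] [Cod M β] [Cod M γ] [Cod M δ]

/-- Numerators and denominators. -/
theorem kdec_enc (x : KK M) : kdec (OVW.enc x : M) = x :=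
  (dec_K _).symm.trans (dec_enc x)

@[fun_prop] theorem Rec.kdec {f : α → M} (hf : Rec R f) : Rec R (fun a => (kdec (f a) : KK M)) :=
  Rec.dec hf

/-- How to prove that a function with values in the field is recursive. -/
theorem Rec.ofK {f : α → KK M} {a b c : α → M} (ha : Rec R a) (hb : Rec R b) (hc : Rec R c)
    (h : ∀ x, f x = ((a x : M) - (b x : M) : KK M) / ((c x : M) + 1)) : Rec R f := by
  have e : f = fun x => OVW.kdec (OVW.pr (a x) (OVW.pr (b x) (c x))) := by
    funext x
    rw [h]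
    unfold OVW.kdec
    simp only [fs_pr, sn_pr]
  rw [e]
  fun_prop

section ops

variable {u v : α → KK M}

@[fun_prop] theorem Rec.cK {f : α → M} (hf : Rec R f) : Rec R (fun x => ((f x : M) : KK M)) :=
  Rec.ofK (a := f) (b := fun _ => 0) (c := fun _ => 0) hf (by fun_prop) (by fun_prop)
    (fun x => by simp)

@[fun_prop] theorem Rec.kneg (hu : Rec R u) : Rec R (fun x => - u x) := by
  refine Rec.ofK (a := fun x => OVW.fs (OVW.sn (OVW.enc (u x)))) (b := fun x => OVW.fs (OVW.enc (u x)))
    (c := fun x => OVW.sn (OVW.sn (OVW.enc (u x)))) (by fun_prop) (by fun_prop) (by fun_prop) ?_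
  intro x
  conv_lhs => rw [← kdec_enc (u x)]
  unfold OVW.kdec
  rw [← neg_div]
  congr 1
  ring

@[fun_prop] theorem Rec.kadd (hu : Rec R u) (hv : Rec R v) : Rec R (fun x => u x + v x) := by
  refine Rec.ofK
    (a := fun x => OVW.fs (OVW.enc (u x)) * (OVW.sn (OVW.sn (OVW.enc (v x))) + 1) +
      OVW.fs (OVW.enc (v x)) * (OVW.sn (OVW.sn (OVW.enc (u x))) + 1))
    (b := fun x => OVW.fs (OVW.sn (OVW.enc (u x))) * (OVW.sn (OVW.sn (OVW.enc (v x))) + 1) +
      OVW.fs (OVW.sn (OVW.enc (v x))) * (OVW.sn (OVW.sn (OVW.enc (u x))) + 1))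
    (c := fun x => OVW.sn (OVW.sn (OVW.enc (u x))) * OVW.sn (OVW.sn (OVW.enc (v x))) +
      OVW.sn (OVW.sn (OVW.enc (u x))) + OVW.sn (OVW.sn (OVW.enc (v x))))
    (by fun_prop) (by fun_prop) (by fun_prop) ?_
  intro x
  conv_lhs => rw [← kdec_enc (u x), ← kdec_enc (v x)]
  unfold OVW.kdec
  have h1 := (cK_succ_pos (OVW.sn (OVW.sn (OVW.enc (u x) : M)))).ne'
  have h2 := (cK_succ_pos (OVW.sn (OVW.sn (OVW.enc (v x) : M)))).ne'
  have h3 : (((OVW.sn (OVW.sn (OVW.enc (u x) : M)) * OVW.sn (OVW.sn (OVW.enc (v x) : M)) +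
      OVW.sn (OVW.sn (OVW.enc (u x) : M)) + OVW.sn (OVW.sn (OVW.enc (v x) : M)) : M)) : KK M) + 1
      = ((OVW.sn (OVW.sn (OVW.enc (u x) : M)) : M) + 1) *
        ((OVW.sn (OVW.sn (OVW.enc (v x) : M)) : M) + 1) := by
    push_cast
    ring
  rw [h3, div_add_div _ _ h1 h2]
  congr 1
  push_cast
  ring

@[fun_prop] theorem Rec.ksub (hu : Rec R u) (hv : Rec R v) : Rec R (fun x => u x - v x) := by
  simp only [sub_eq_add_neg]
  fun_prop

@[fun_prop] theorem Rec.kmul (hu : Rec R u) (hv : Rec R v) : Rec R (fun x => u x * v x) := by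
  refine Rec.ofK
    (a := fun x => OVW.fs (OVW.enc (u x)) * OVW.fs (OVW.enc (v x)) +
      OVW.fs (OVW.sn (OVW.enc (u x))) * OVW.fs (OVW.sn (OVW.enc (v x))))
    (b := fun x => OVW.fs (OVW.sn (OVW.enc (u x))) * OVW.fs (OVW.enc (v x)) +
      OVW.fs (OVW.enc (u x)) * OVW.fs (OVW.sn (OVW.enc (v x))))
    (c := fun x => OVW.sn (OVW.sn (OVW.enc (u x))) * OVW.sn (OVW.sn (OVW.enc (v x))) +
      OVW.sn (OVW.sn (OVW.enc (u x))) + OVW.sn (OVW.sn (OVW.enc (v x))))
    (by fun_prop) (by fun_prop) (by fun_prop) ?_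
  intro x
  conv_lhs => rw [← kdec_enc (u x), ← kdec_enc (v x)]
  unfold OVW.kdec
  have h3 : (((OVW.sn (OVW.sn (OVW.enc (u x) : M)) * OVW.sn (OVW.sn (OVW.enc (v x) : M)) +
      OVW.sn (OVW.sn (OVW.enc (u x) : M)) + OVW.sn (OVW.sn (OVW.enc (v x) : M)) : M)) : KK M) + 1
      = ((OVW.sn (OVW.sn (OVW.enc (u x) : M)) : M) + 1) *
        ((OVW.sn (OVW.sn (OVW.enc (v x) : M)) : M) + 1) := by
    push_cast
    ring
  rw [h3, div_mul_div_comm]
  congr 1
  push_cast
  ring

@[fun_prop] theorem Rec.klt (hu : Rec R u) (hv : Rec R v) : Rec R (fun x => u x < v x) := by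
  have e : (fun x => u x < v x) = fun x => OVW.kdec (OVW.enc (u x) : M) < OVW.kdec (OVW.enc (v x) : M) := by
    funext x
    rw [kdec_enc, kdec_enc]
  rw [e]
  simp only [kdec_lt_iff]
  fun_prop

@[fun_prop] theorem Rec.kle (hu : Rec R u) (hv : Rec R v) : Rec R (fun x => u x ≤ v x) := by
  simp only [← not_lt]
  fun_prop

theorem Rec.kinv_aux : Rec R (fun x : KK M => x⁻¹) := by
  classical
  refine Rec.ofK
    (a := fun x => if OVW.fs (OVW.sn (OVW.enc x : M)) < OVW.fs (OVW.enc x : M)
      then OVW.sn (OVW.sn (OVW.enc x : M)) + 1 else 0)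
    (b := fun x => if OVW.fs (OVW.enc x : M) < OVW.fs (OVW.sn (OVW.enc x : M))
      then OVW.sn (OVW.sn (OVW.enc x : M)) + 1 else 0)
    (c := fun x => if OVW.fs (OVW.sn (OVW.enc x : M)) < OVW.fs (OVW.enc x : M)
      then OVW.fs (OVW.enc x : M) - OVW.fs (OVW.sn (OVW.enc x : M)) - 1
      else OVW.fs (OVW.sn (OVW.enc x : M)) - OVW.fs (OVW.enc x : M) - 1)
    (by fun_prop) (by fun_prop) (by fun_prop) ?_
  intro x
  conv_lhs => rw [← kdec_enc x]
  unfold OVW.kdec
  set a := OVW.fs (OVW.enc x : M)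
  set b := OVW.fs (OVW.sn (OVW.enc x : M))
  set c := OVW.sn (OVW.sn (OVW.enc x : M))
  have hc := (cK_succ_pos c).ne'
  rw [inv_div]
  rcases lt_trichotomy a b with h | h | h
  · have h1 : ((b - a - 1 : M) : KK M) + 1 = (b : KK M) - a := by
      rw [cK_sub (by rw [← tsub_pos_iff_lt] at h; exact one_le_iff.2 h.ne'), cK_sub h.le]
      push_cast
      ring
    rw [if_neg h.le.not_gt, if_pos h, if_neg h.le.not_gt, h1]
    have h2 : (b : KK M) - a ≠ 0 := by
      have : (a : KK M) < b := by exact_mod_cast h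
      exact (sub_pos.2 this).ne'
    have h3 : (a : KK M) - b ≠ 0 := by
      intro h
      apply h2
      linear_combination -h
    rw [div_eq_div_iff h3 h2]
    push_cast
    ring
  · have e : a = b := h
    rw [e]
    simp
  · have h1 : ((a - b - 1 : M) : KK M) + 1 = (a : KK M) - b := by
      rw [cK_sub (by rw [← tsub_pos_iff_lt] at h; exact one_le_iff.2 h.ne'), cK_sub h.le]
      push_cast
      ring
    rw [if_pos h, if_neg h.le.not_gt, if_pos h, h1]
    push_cast
    ring

@[fun_prop] theorem Rec.kinv (hu : Rec R u) : Rec R (fun x => (u x)⁻¹) :=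
  Rec.comp (g := fun x : KK M => x⁻¹) Rec.kinv_aux hu

@[fun_prop] theorem Rec.kdiv (hu : Rec R u) (hv : Rec R v) : Rec R (fun x => u x / v x) := by
  simp only [div_eq_mul_inv]
  fun_prop

@[fun_prop] theorem Rec.kmax (hu : Rec R u) (hv : Rec R v) :
    Rec R (fun x => Max.max (u x) (v x)) := by
  simp only [max_def]
  fun_prop

@[fun_prop] theorem Rec.kmin (hu : Rec R u) (hv : Rec R v) :
    Rec R (fun x => Min.min (u x) (v x)) := by
  simp only [min_def]
  fun_prop

@[fun_prop] theorem Rec.kpow (hu : Rec R u) (n : ℕ) : Rec R (fun x => u x ^ n) := by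
  induction n with
  | zero => simp only [pow_zero]; fun_prop
  | succ n ih => simp only [pow_succ]; fun_prop

@[fun_prop] theorem Rec.kabs (hu : Rec R u) : Rec R (fun x => |u x|) := by
  simp only [abs]
  simp only [max_def]
  fun_prop

end ops

/-- Every element of the field is below an element of `M`. -/
theorem exists_cK_ge (x : KK M) : ∃ n : M, x ≤ n := by
  refine ⟨fs (OVW.enc x), ?_⟩
  conv_lhs => rw [← kdec_enc x]
  unfold kdec
  rw [div_le_iff₀ (cK_succ_pos _)]
  have h1 := cK_nonneg (fs (OVW.enc x : M))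
  have h2 := cK_nonneg (fs (sn (OVW.enc x : M)))
  have h3 := cK_nonneg (sn (sn (OVW.enc x : M)))
  nlinarith [mul_nonneg h1 h3]

/-- The least `n : M` with `x ≤ n`. -/
noncomputable def kceil (x : KK M) : M := least (fun n : M => x ≤ n)

@[fun_prop] theorem Rec.kceil {f : α → KK M} (hf : Rec R f) : Rec R (fun x => kceil (f x)) := by
  unfold OVW.kceil
  exact Rec.least (P := fun x (n : M) => f x ≤ n) (by fun_prop) (fun x => exists_cK_ge (f x))

theorem le_kceil [HasWorld M] (x : KK M) : x ≤ (kceil x : M) := by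
  obtain ⟨R, hR⟩ := HasWorld.ex (M := M)
  exact (Rec.least_spec (R := R) (P := fun n : M => x ≤ n) (by fun_prop) (exists_cK_ge x)).1

theorem kceil_le [HasWorld M] {x : KK M} {n : M} (h : x ≤ n) : kceil x ≤ n := by
  obtain ⟨R, hR⟩ := HasWorld.ex (M := M)
  by_contra hc
  push Not at hc
  exact (Rec.least_spec (R := R) (P := fun n : M => x ≤ n) (by fun_prop) (exists_cK_ge x)).2 n hc h

theorem kceil_lt [HasWorld M] {x : KK M} (hx : 0 ≤ x) : ((kceil x : M) : KK M) < x + 1 := by
  rcases cases_succ (kceil x : M) with h | ⟨n, h⟩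
  · rw [h]
    push_cast
    linarith
  · by_contra hc
    push Not at hc
    have h1 : x ≤ (n : M) := by
      rw [h] at hc
      push_cast at hc
      linarith
    have h2 := kceil_le h1
    rw [h] at h2
    exact absurd (lt_succ.2 le_rfl) (not_lt.2 h2)

end

end Pool.Agent.OVW
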