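import Pool.Agent.OVW.BDefs

/-!
# Block B, Lemmas 1 to 4: statements

Paper: `PAPER_B.md`, sections 0 and 1, with the simplifications (S1), (S4) of helper59: Lemma 4 by
`mix`, Lemma 1 by the maps `Phi`. The standard version (over the natural numbers, lists) is
`BN/Tree.lean` and `BN/Small.lean`.
-/

namespace Pool.Agent.OVW

open Classical

set_option linter.unusedSectionVars false

variable {M : Type} [Arith M] [HasWorld M] {R : Set (M → M)} [IsWorld R] {α β γ δ : Type}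
variable [Cod M α] [Cod M β] [Cod M γ] [Cod M δ]

/-! ### Definitions -/

/-- The Carlson-Simpson line `(x, w)` is contained in `E`. -/
def IsLine (κ : M) (x w : Wd M) (E : Wd M → Prop) : Prop :=
  E x ∧ ∀ c < κ, E (x ++ wsing c ++ wsub κ w c)

@[fun_prop] theorem Rec.IsLine {κ : γ → M} {x w : γ → Wd M} {E : γ → Wd M → Prop} (h1 : Rec R κ)
    (h2 : Rec R x) (h3 : Rec R w) (h4 : Rec R (fun p : γ × Wd M => E p.1 p.2)) :
    Rec R (fun p => IsLine (κ p) (x p) (w p) (E p)) := by unfold OVW.IsLine; fun_prop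

/-- The set of the Carlson-Simpson lines with all points of length `< h`. -/
noncomputable def lineSet (κ h : M) : FSet M (Wd M × Wd M) :=
  ((Wlt κ h).prod (Wlt (κ + 1) h)).filter (fun p => p.1.len + 1 + p.2.len < h)

@[fun_prop] theorem Rec.lineSet {κ h : γ → M} (h1 : Rec R κ) (h2 : Rec R h) :
    Rec R (fun p => lineSet (κ p) (h p)) := by unfold OVW.lineSet; fun_prop

/-- The letters number `lam j`, `j < r`, of `y` replaced by the letters of `z` (`r` the length of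
`z`). -/
noncomputable def ins (lam : M → M) (y z : Wd M) : Wd M :=
  wd y.len (fun i => if ∃ j < z.len, lam j = i then
    z.get (hchoose (rng z.len) (fun j => lam j = i)) else y.get i)

@[fun_prop] theorem Rec.ins {lam : γ → M → M} {y z : γ → Wd M}
    (h1 : Rec R (fun x : γ × M => lam x.1 x.2)) (h2 : Rec R y) (h3 : Rec R z) :
    Rec R (fun x => ins (lam x) (y x) (z x)) := by unfold OVW.ins; fun_prop

/-- The map `Phi`: the word `y`, cut at the level `lam |z|`, with the letters number `lam j`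
replaced by the letters of `z`. -/
noncomputable def Phi (lam : M → M) (y z : Wd M) : Wd M := (ins lam y z).take (lam z.len)

@[fun_prop] theorem Rec.Phi {lam : γ → M → M} {y z : γ → Wd M}
    (h1 : Rec R (fun x : γ × M => lam x.1 x.2)) (h2 : Rec R y) (h3 : Rec R z) :
    Rec R (fun x => Phi (lam x) (y x) (z x)) := by unfold OVW.Phi; fun_prop

/-- Keep the letters `b` of `s`, and take the other letters from `u` (the length is the length of
`u`). -/
noncomputable def mix (b : M) (s u : Wd M) : Wd M :=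
  wd u.len (fun i => if s.get i = b then b else u.get i)

@[fun_prop] theorem Rec.mix {b : γ → M} {s u : γ → Wd M} (h1 : Rec R b) (h2 : Rec R s)
    (h3 : Rec R u) : Rec R (fun x => mix (b x) (s x) (u x)) := by unfold OVW.mix; fun_prop

/-- The same for variable words `w` over the alphabet `b`: the result is a variable word over the
alphabet `b + 1`. -/
noncomputable def mixv (b : M) (s w : Wd M) : Wd M :=
  wd w.len (fun i => if s.get i = b then b else if w.get i = b then b + 1 else w.get i)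

@[fun_prop] theorem Rec.mixv {b : γ → M} {s w : γ → Wd M} (h1 : Rec R b) (h2 : Rec R s)
    (h3 : Rec R w) : Rec R (fun x => mixv (b x) (s x) (w x)) := by unfold OVW.mixv; fun_prop

/-! ### Preparations -/

/-- DCP: `DCS` for recursive predicates. -/
def Stmt_B_DCP : Prop := ∀ (M : Type) [Arith M] [HasWorld M] (R : Set (M → M)) [IsWorld R]
  (κ : M) (δ : KK M) (n : M) (E : Wd M → Prop), DCS κ δ n → Rec R E → Free κ n E →
  FW κ n (fun x => ind M (E x)) < δ

/-- INS: the letters of `ins` and `Phi`. -/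
def Stmt_B_INS : Prop := ∀ (M : Type) [Arith M] [HasWorld M] (R : Set (M → M)) [IsWorld R]
  (lam : M → M) (y z : Wd M), Rec R lam → (∀ j < z.len, ∀ i < j, lam i < lam j) →
  (ins lam y z).len = y.len ∧
  (∀ j < z.len, lam j < y.len → (ins lam y z).get (lam j) = z.get j) ∧
  (∀ i < y.len, (∀ j < z.len, lam j ≠ i) → (ins lam y z).get i = y.get i) ∧
  ((∀ i < z.len, lam i < lam z.len) → lam z.len ≤ y.len →
    (Phi lam y z).len = lam z.len ∧ (∀ j < z.len, (Phi lam y z).get (lam j) = z.get j) ∧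
    ∀ i < lam z.len, (∀ j < z.len, lam j ≠ i) → (Phi lam y z).get i = y.get i)

/-- PHW: `Phi` commutes with the substitution of the variable and respects exchanges of letters. -/
def Stmt_B_PHW : Prop := ∀ (M : Type) [Arith M] [HasWorld M] (R : Set (M → M)) [IsWorld R]
  (lam : M → M) (y z : Wd M), Rec R lam → lam z.len ≤ y.len →
  (∀ j ≤ z.len, ∀ i < j, lam i < lam j) →
  (∀ κ c : M, (∀ i < y.len, y.get i ≠ κ) →
    wsub κ (Phi lam y z) c = Phi lam y (wsub κ z c)) ∧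
  ∀ (b c : M) (z' : Wd M), wsub b z c = wsub b z' c →
    wsub b (Phi lam y z) c = wsub b (Phi lam y z') c

/-- PHM: `Phi` maps words to words and beginnings to beginnings. -/
def Stmt_B_PHM : Prop := ∀ (M : Type) [Arith M] [HasWorld M] (R : Set (M → M)) [IsWorld R]
  (lam : M → M) (κ N : M) (y : Wd M), Rec R lam → y ∈ W κ N →
  (∀ z : Wd M, z ∈ W κ z.len → lam z.len ≤ N → (∀ j ≤ z.len, ∀ i < j, lam i < lam j) →
    Phi lam y z ∈ W κ (lam z.len)) ∧
  ∀ x u : Wd M, lam (x.len + u.len) ≤ N → (∀ j ≤ x.len + u.len, ∀ i < j, lam i < lam j) →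
    (Phi lam y (x ++ u)).take (lam x.len) = Phi lam y x ∧
    (0 < u.len → (Phi lam y (x ++ u)).get (lam x.len) = u.get 0)

/-- PHC: one step of `Phi`. -/
def Stmt_B_PHC : Prop := ∀ (M : Type) [Arith M] [HasWorld M] (R : Set (M → M)) [IsWorld R]
  (lam : M → M) (y x u : Wd M), Rec R lam → lam (x.len + u.len) ≤ y.len →
  (∀ j ≤ x.len + u.len, ∀ i < j, lam i < lam j) →
  Phi lam y (x ++ u) = Phi (fun j => lam (x.len + j)) (ins lam y x) u

/-- PHT: the maps `Phi` are trees. -/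
def Stmt_B_PHT : Prop := ∀ (M : Type) [Arith M] [HasWorld M] (R : Set (M → M)) [IsWorld R]
  (lam : M → M) (k m n N : M) (y : Wd M), Rec R lam → y ∈ W (k + 1) N → lam m < n → n ≤ N + 1 →
  (∀ j ≤ m, ∀ i < j, lam i < lam j) → Tree k (m + 1) n (Phi lam y)

/-- PHL: lines are mapped to lines, with the levels. -/
def Stmt_B_PHL : Prop := ∀ (M : Type) [Arith M] [HasWorld M] (R : Set (M → M)) [IsWorld R]
  (lam : M → M) (κ m N : M) (y : Wd M), Rec R lam → y ∈ W κ N → lam m ≤ N →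
  (∀ j ≤ m, ∀ i < j, lam i < lam j) → ∀ x ∈ Wlt κ (m + 1), ∀ w ∈ Wlt (κ + 1) (m + 1),
  x.len + 1 + w.len ≤ m → Phi lam y x ∈ W κ (lam x.len) ∧
  ∃ v ∈ Wlt (κ + 1) (N + 1), lam x.len + 1 + v.len = lam (x.len + 1 + w.len) ∧
    ∀ c < κ, Phi lam y (x ++ wsing c ++ wsub κ w c) = Phi lam y x ++ wsing c ++ wsub κ v c

/-- PHA: for uniform `y` and uniform `z` of length `r`, `Phi lam y z` is uniform of length
`lam r`. -/
def Stmt_B_PHA : Prop := ∀ (M : Type) [Arith M] [HasWorld M] (R : Set (M → M)) [IsWorld R]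
  (lam : M → M) (κ N r : M) (φ : Wd M → KK M), Rec R lam → Rec R φ → 0 < κ → lam r ≤ N →
  (∀ j ≤ r, ∀ i < j, lam i < lam j) →
  havg (W κ N) (fun y => havg (W κ r) (fun z => φ (Phi lam y z))) = havg (W κ (lam r)) φ

/-- MXM: `mix` maps words to words, commutes with beginnings and substitutions. -/
def Stmt_B_MXM : Prop := ∀ (M : Type) [Arith M] [HasWorld M] (R : Set (M → M)) [IsWorld R]
  (k N : M) (s : Wd M), s ∈ W (k + 1) N →
  (∀ u : Wd M, u ∈ W k u.len → u.len ≤ N → mix k s u ∈ W (k + 1) u.len ∧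
    (∀ i < u.len, (mix k s u).get i = k ↔ s.get i = k) ∧
    ∀ l ≤ u.len, (mix k s u).take l = mix k s (u.take l)) ∧
  ∀ x w : Wd M, x ∈ W k x.len → w ∈ W (k + 1) w.len → x.len + 1 + w.len = N →
    s.get x.len ≠ k → mix k s x ∈ W (k + 1) x.len ∧
    mixv k (s.drop (x.len + 1)) w ∈ W (k + 1 + 1) w.len ∧
    ∀ c < k, mix k s (x ++ wsing c ++ wsub k w c) =
      mix k s x ++ wsing c ++ wsub (k + 1) (mixv k (s.drop (x.len + 1)) w) c

/-- MXA: if `s` is uniform over `k + 1` letters and `u` over `k` letters, then `mix k s u` is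
uniform. -/
def Stmt_B_MXA : Prop := ∀ (M : Type) [Arith M] [HasWorld M] (R : Set (M → M)) [IsWorld R]
  (k l : M) (F : Wd M → KK M), Rec R F → 0 < k →
  havg (W (k + 1) l) (fun s => havg (W k l) (fun u => F (mix k s u))) = havg (W (k + 1) l) F

/-- NOB: exchange of the letter number `l`. -/
def Stmt_B_NOB : Prop := ∀ (M : Type) [Arith M] [HasWorld M] (R : Set (M → M)) [IsWorld R]
  (k a N l : M) (β : KK M) (Q G : Wd M → Prop), Rec R Q → Rec R G → a < k → l < N →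
  (∀ x ∈ W (k + 1) N, ∀ y ∈ W (k + 1) N, wsub k x a = wsub k y a → G x → G y) →
  β ≤ hpr (W (k + 1) N) (fun t => Q (t.take l) ∧ G t) →
  β / 2 ≤ hpr (W (k + 1) N) (fun t => t.get l ≠ k ∧ Q (t.take l) ∧ G t)

/-- SEL: choice of `s`. -/
def Stmt_B_SEL : Prop := ∀ (M : Type) [Arith M] [HasWorld M] (R : Set (M → M)) [IsWorld R]
  (k a N h : M) (β : KK M) (Q G : Wd M → Prop) (L : FSet M M), Rec R Q → Rec R G → 0 < k →
  a < k → 0 < β → 0 < h →
  (∀ x ∈ W (k + 1) N, ∀ y ∈ W (k + 1) N, wsub k x a = wsub k y a → G x → G y) →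
  (∀ l ∈ L, l < N) → 4 / β * h ≤ L.card →
  (∀ l ∈ L, β ≤ hpr (W (k + 1) N) (fun t => Q (t.take l) ∧ G t)) →
  ∃ s ∈ W (k + 1) N, ∃ L' ⊆ L, h ≤ L'.card ∧ ∀ l ∈ L', s.get l ≠ k ∧
    β / 4 ≤ hpr (W k N) (fun u => Q (mix k s (u.take l)) ∧ G (mix k s u))

/-! ### Lemmas 1 to 4 -/

/-- Lemma 1 (any levels). -/
def Stmt_B1 : Prop := ∀ (M : Type) [Arith M] [HasWorld M] (R : Set (M → M)) [IsWorld R]
  (κ n : M) (δ : KK M) (lam : M → M) (E : Wd M → Prop), 0 < κ → 0 < n → DCS κ δ n →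
  Rec R lam → Rec R E → (∀ j < n, ∀ i < j, lam i < lam j) →
  δ ≤ havg (rng n) (fun i => havg (W κ (lam i)) (fun x => ind M (E x))) →
  ∃ i j : M, i < j ∧ j < n ∧ ∃ x ∈ W κ (lam i), ∃ w ∈ Wlt (κ + 1) (lam j),
    lam i + 1 + w.len = lam j ∧ IsLine κ x w E

/-- Lemma 2 (random sets). -/
def Stmt_B2 : Prop := ∀ (M : Type) [Arith M] [HasWorld M] (R : Set (M → M)) [IsWorld R]
  (Ω : Type) [Cod M Ω] (S : FSet M Ω) (κ h : M) (d : KK M) (Es : Ω → Wd M → Prop), 0 < κ →
  0 < h → 0 < d → (∃ ω, ω ∈ S) → DCS κ (d / 2) h → Rec R (fun p : Ω × Wd M => Es p.1 p.2) →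
  (∀ z ∈ Wlt κ h, d ≤ hpr S (fun ω => Es ω z)) →
  ∃ p ∈ lineSet κ h, d / 2 / (lineSet κ h).card ≤ hpr S (fun ω => IsLine κ p.1 p.2 (Es ω))

/-- Lemma 3 (one top level). -/
def Stmt_B3 : Prop := ∀ (M : Type) [Arith M] [HasWorld M] (R : Set (M → M)) [IsWorld R]
  (κ h N : M) (c : KK M) (Q G : Wd M → Prop) (L : FSet M M), 0 < κ → 0 < h → DCS κ c h →
  Rec R Q → Rec R G → (∀ l ∈ L, l < N) → h ≤ L.card →
  (∀ l ∈ L, c ≤ hpr (W κ N) (fun t => Q (t.take l) ∧ G t)) →
  ∃ l ∈ L, ∃ x ∈ W κ l, ∃ w ∈ Wlt (κ + 1) N, l + 1 + w.len = N ∧ Q x ∧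
    ∀ c < κ, G (x ++ wsing c ++ wsub κ w c)

/-- Lemma 4 (insensitive top level). -/
def Stmt_B4 : Prop := ∀ (M : Type) [Arith M] [HasWorld M] (R : Set (M → M)) [IsWorld R]
  (k a h N : M) (β : KK M) (Q G : Wd M → Prop) (L : FSet M M), 0 < k → 0 < β → 0 < h →
  DCS k (β / 4) h → a < k → Rec R Q → Rec R G →
  (∀ x ∈ W (k + 1) N, ∀ y ∈ W (k + 1) N, wsub k x a = wsub k y a → G x → G y) →
  (∀ l ∈ L, l < N) → 4 / β * h ≤ L.card →
  (∀ l ∈ L, β ≤ hpr (W (k + 1) N) (fun t => Q (t.take l) ∧ G t)) →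
  ∃ l ∈ L, ∃ x ∈ W (k + 1) l, ∃ w ∈ Wlt (k + 1 + 1) N, l + 1 + w.len = N ∧ Q x ∧
    ∀ c < k + 1, G (x ++ wsing c ++ wsub (k + 1) w c)

end Pool.Agent.OVW
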