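import Pool.Agent.OVW.BDefs

/-!
# Block B: statements of the lemmas 5, 6, 7 (trees inside insensitive sets)
-/

namespace Pool.Agent.OVW

open Classical

set_option linter.unusedSectionVars false

variable {M : Type} [Arith M] [HasWorld M]

/-- `hh` is a bound for the density Carlson-Simpson theorem with `k` letters. -/
def Bound (k : M) (hh : KK M → M) : Prop := ∀ d : KK M, 0 < d → 0 < hh d ∧ DCS k d (hh d)

/-- Lemma 5. -/
def StmtL5 (R : Set (M → M)) : Prop :=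
  ∀ (k : M) (hh : KK M → M), 0 < k → Rec R hh → Bound k hh →
  ∃ (N5 : KK M → KK M → M) (c5 : KK M → KK M → KK M),
    Rec R (fun p : KK M × KK M => N5 p.1 p.2) ∧ Rec R (fun p : KK M × KK M => c5 p.1 p.2) ∧
    ∀ c eps : KK M, 0 < c → c ≤ 1 → 0 < eps → eps ≤ 1 →
      0 < N5 c eps ∧ 0 < c5 c eps ∧ c5 c eps ≤ 1 ∧
      ∀ q : M, 0 < q → ∀ a < k, ∀ H : FSet M (Wd M), ∀ ψ : Wd M → KK M, ∀ u : KK M,
        Ins k a (N5 c eps * q) (fun x => x ∈ H) → Rec R ψ → (∀ x, 0 ≤ ψ x ∧ ψ x ≤ 1) →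
        2 * eps ≤ u → u ≤ 1 → c ≤ score k (N5 c eps * q) (fun x => x ∈ H) ψ u →
        ∃ X ∈ H, ∃ V ∈ Wlt (k + 1 + 1) (N5 c eps * q), ∃ q' : M, 0 < q' ∧
          X ∈ Wlt (k + 1) (N5 c eps * q) ∧ u ≤ ψ X ∧
          X.len + 1 + V.len + q * q' ≤ N5 c eps * q ∧
          ∃ H' : FSet M (Wd M), H' ⊆ Wlt (k + 1) (q * q') ∧ Ins k a (q * q') (fun x => x ∈ H') ∧
            (∀ y ∈ H', ∀ d < k + 1, X ++ wsing d ++ wsub (k + 1) V d ++ y ∈ H) ∧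
            c5 c eps ≤ score k (q * q') (fun x => x ∈ H')
              (fun y => havg (rng (k + 1)) (fun d => ψ (X ++ wsing d ++ wsub (k + 1) V d ++ y)))
              (u - 2 * eps)

/-- Lemma 6. -/
def StmtL6 (R : Set (M → M)) : Prop :=
  ∀ (k : M) (hh : KK M → M), 0 < k → Rec R hh → Bound k hh →
  ∃ n6 : M → KK M → KK M → M, Rec R (fun p : M × KK M × KK M => n6 p.1 p.2.1 p.2.2) ∧
    ∀ (m : M) (c eps : KK M), 0 < c → c ≤ 1 → 0 < eps → eps ≤ 1 →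
      0 < n6 m c eps ∧
      ∀ a < k, ∀ H : FSet M (Wd M), ∀ ψ : FFun M (Wd M) (KK M), ∀ u : KK M,
        Ins k a (n6 m c eps) (fun x => x ∈ H) → (∀ x ∈ Wlt (k + 1) (n6 m c eps), 0 ≤ ψ x ∧ ψ x ≤ 1) →
        2 * m * eps ≤ u → u ≤ 1 → c ≤ score k (n6 m c eps) (fun x => x ∈ H) ψ u →
        ∃ T : FFun M (Wd M) (Wd M), Tree k (m + 1) (n6 m c eps) T ∧
          (∀ z ∈ Wlt (k + 1) (m + 1), T z ∈ H) ∧
          ∀ i ≤ m, u - 2 * i * eps ≤ havg (W (k + 1) i) (fun z => ψ (T z))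

/-- Lemma 7. -/
def StmtL7 (R : Set (M → M)) : Prop :=
  ∀ (k : M) (hh : KK M → M), 0 < k → Rec R hh → Bound k hh →
  ∃ n7 : M → M → KK M → KK M → M,
    Rec R (fun p : M × M × KK M × KK M => n7 p.1 p.2.1 p.2.2.1 p.2.2.2) ∧
    ∀ (r m : M) (c eps : KK M), 0 < r → 0 < c → c ≤ 1 → 0 < eps → eps ≤ 1 →
      0 < n7 r m c eps ∧
      ∀ (a : Wd M) (H : FFun M M (FSet M (Wd M))) (ψ : FFun M (Wd M) (KK M)) (u : KK M),
        (∀ i < r, a.get i < k ∧ Ins k (a.get i) (n7 r m c eps) (fun x => x ∈ H i)) →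
        (∀ x ∈ Wlt (k + 1) (n7 r m c eps), 0 ≤ ψ x ∧ ψ x ≤ 1) →
        eps ≤ u → u ≤ 1 → c ≤ score k (n7 r m c eps) (fun x => ∀ i < r, x ∈ H i) ψ u →
        ∃ T : FFun M (Wd M) (Wd M), Tree k (m + 1) (n7 r m c eps) T ∧
          (∀ z ∈ Wlt (k + 1) (m + 1), ∀ i < r, T z ∈ H i) ∧
          ∀ i ≤ m, u - eps ≤ havg (W (k + 1) i) (fun z => ψ (T z))

end Pool.Agent.OVW
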