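import Pool.Agent.OVW.CRec
import Pool.Agent.OVW.StmtsH
import Pool.Agent.OVW.A3Defs

/-!
# Block C: statements

Paper: `PAPER_C.md`. The proofs are in `C/*.lean`.
-/

namespace Pool.Agent.OVW.FC

open Classical

set_option linter.unusedSectionVars false

/-! ### Words with variables -/

/-- WAP: the instances of a concatenation. -/
def StmtWAP : Prop := ∀ (M : Type) [Arith M] [HasWorld M] (a : M) (s t y : Wd M), Legal a t →
  (Mt a (s ++ t) y ↔ ∃ y₁ y₂, y = y₁ ++ y₂ ∧ Mt a s y₁ ∧ Mt a t y₂)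

/-- WLG: legal words, instances. -/
def StmtWLG : Prop := ∀ (M : Type) [Arith M] [HasWorld M] (a : M),
  Legal a wnil ∧ (∀ s t : Wd M, Legal a s → Legal a t → Legal a (s ++ t)) ∧
  (∀ (t : Wd M) (i : M), Legal a t → Legal a (t.take i)) ∧
  (∀ y : Wd M, Mt a wnil y ↔ y = wnil) ∧
  (∀ x y : Wd M, x ∈ W a x.len → (Mt a x y ↔ y = x)) ∧
  (0 < a → ∀ t : Wd M, t ∈ W (a + 2) t.len → ∃ y, Mt a t y)

/-- WCL: the closed beginnings of a concatenation. -/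
def StmtWCL : Prop := ∀ (M : Type) [Arith M] [HasWorld M] (a : M) (D : Wd M → Prop) (s t : Wd M),
  Legal a t → (Cl a D (s ++ t) ↔ Cl a D s ∧ ∀ i < t.len, t.get i = a + 1 → ∀ y₁ y₂,
    Mt a s y₁ → Mt a (t.take i) y₂ → D (y₁ ++ y₂))

/-- WLI: the word `x ★' w` with one variable. -/
def StmtWLI : Prop := ∀ (M : Type) [Arith M] [HasWorld M] (a : M) (x w : Wd M), 0 < a →
  x ∈ W a x.len → w ∈ W (a + 1) w.len →
  x ++ wsing (a + 1) ++ w ∈ W (a + 2) (x.len + 1 + w.len) ∧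
  Legal a (x ++ wsing (a + 1) ++ w) ∧
  (∀ y, Mt a (x ++ wsing (a + 1) ++ w) y ↔ ∃ c < a, y = x ++ wsing c ++ wsub a w c) ∧
  ∀ D : Wd M → Prop, D x → Cl a D (x ++ wsing (a + 1) ++ w)

/-! ### Conditions -/

/-- EXI: the form of `Ext` with an existential quantifier. -/
def StmtEXI : Prop := ∀ (M : Type) [Arith M] [HasWorld M] (a : M) (C C' : Cnd M),
  C.Ext a C' ↔ ∃ t ∈ W (a + 2) t.len, C'.s = C.s ++ t ∧ Legal a t ∧ Cl a C.D t ∧
    ∀ z, C'.D z → Dt a C.D t z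

/-- EXR: `Ext` is reflexive and transitive. -/
def StmtEXR : Prop := ∀ (M : Type) [Arith M] [HasWorld M] (a : M),
  (∀ C : Cnd M, (∀ z, C.D z → z ∈ W a z.len) → C.Ext a C) ∧
  ∀ C C' C'' : Cnd M, C.Ext a C' → C'.Ext a C'' → C.Ext a C''

/-- STP: one operation gives a good condition; it is an extension if it is a negative answer, a
thinning of the levels or an extension by a word with `Phi`. -/
def StmtSTP : Prop := ∀ (M : Type) [Arith M] [HasWorld M] (R : Set (M → M)) [IsWorld R] (a : M)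
  (U : M → Wd M → Prop) (C : Cnd M) (o : Op M), 0 < a → Rec R (fun p : M × Wd M => U p.1 p.2) →
  C.IsRec R → C.Ok a → (stepC a U o C).Ok a ∧
    (o.1 = 0 ∨ o.1 = 1 ∨ Phi a U C o.2.2.1 o.2.2.2 → C.Ext a (stepC a U o C))

/-- LOC: the part of the new condition below the height `N` depends only on the part of the old
condition below the height `N`. -/
def StmtLOC : Prop := ∀ (M : Type) [Arith M] [HasWorld M] (a : M)
  (U : M → Wd M → Prop) (N : M) (C C' : Cnd M) (o : Op M), Agree a N C C' →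
  Agree a N (stepC a U o C) (stepC a U o C')

/-- HIS: the conditions given by histories. -/
def StmtHIS : Prop := ∀ (M : Type) [Arith M] [HasWorld M] (R : Set (M → M)) [IsWorld R] (a : M)
  (U : M → Wd M → Prop) (C0 : Cnd M), 0 < a → Rec R (fun p : M × Wd M => U p.1 p.2) →
  C0.IsRec R → C0.Ok a → cnd a U C0 wnil = C0 ∧ (∀ h, (cnd a U C0 h).Ok a) ∧
  ∀ (h : Wd M) (o : Op M), cnd a U C0 (h ++ wsing (enc o)) = stepC a U o (cnd a U C0 h)

/-- PI1: pigeonhole principle for one level `m`. -/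
def StmtPI1 : Prop := ∀ (M : Type) [Arith M] [HasWorld M] (R : Set (M → M)) [IsWorld R] (a : M)
  (U : M → Wd M → Prop) (C : Cnd M) (q n : M), 0 < a → Rec R (fun p : M × Wd M => U p.1 p.2) →
  C.IsRec R → C.Ok a → ¬ QQ a U C q n → ∀ m, C.E m → n < m →
  (stepT a n C).E m ∨
    ∃ t ∈ Wlt (a + 2) (n + 1), Phi a U C q t ∧ (stepX a n t C).E (m - t.len)

/-- PI2: some candidate has infinitely many levels. -/
def StmtPI2 : Prop := ∀ (M : Type) [Arith M] [HasWorld M] (R₀ R₁ : Set (M → M)) [IsWorld R₀]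
  [IsWorld R₁] (a : M) (U : M → Wd M → Prop) (C : Cnd M) (q n : M), R₀ ⊆ R₁ → JumpIn R₀ R₁ →
  0 < a → Rec R₀ (fun p : M × Wd M => U p.1 p.2) → C.IsRec R₀ → C.Ok a → C.Inf →
  ¬ QQ a U C q n → ∃ o ∈ cand a U C q n, (stepC a U o C).Inf

/-- The density Carlson-Simpson theorem for infinitely many levels. -/
def Lin {M : Type} [Arith M] [HasWorld M] (R : Set (M → M)) [IsWorld R] (a : M) : Prop :=
  ∀ (θ : KK M) (X : Wd M → Prop) (L : M → Prop), 0 < θ → Rec R X → Rec R L →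
  (∀ b, ∃ m, b < m ∧ L m) → (∀ n, L n → θ ≤ hpr (W a n) X) →
  ∃ x ∈ W a x.len, ∃ w ∈ W (a + 1) w.len, X x ∧ L x.len ∧ L (x.len + 1 + w.len) ∧
    ∀ c < a, X (x ++ wsing c ++ wsub a w c)

/-- CLO: the question for a new variable word has no negative answer. -/
def StmtCLO : Prop := ∀ (M : Type) [Arith M] [HasWorld M] (R : Set (M → M)) [IsWorld R] (a : M)
  (U : M → Wd M → Prop) (C : Cnd M) (q : M), 0 < a → Rec R (fun p : M × Wd M => U p.1 p.2) →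
  C.IsRec R → C.Ok a → C.Inf → Lin R a → fs q = 0 → ∃ n, C.E n ∧ ¬ QQ a U C q n

/-- FRC: a negative answer remains true. -/
def StmtFRC : Prop := ∀ (M : Type) [Arith M] [HasWorld M] (R : Set (M → M)) [IsWorld R] (a : M)
  (U : M → Wd M → Prop) (C C' : Cnd M) (q : M), 0 < a →
  Rec R (fun p : M × Wd M => U p.1 p.2) → C.IsRec R → C.Ok a → fs q ≠ 0 →
  (stepY a U q C).Ext a C' → (∃ z, C'.D z) → ¬ U q C'.s

/-- BON: the number of the thinnings in a row is bounded. -/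
def StmtBON : Prop := ∀ (M : Type) [Arith M] [HasWorld M] (R : Set (M → M)) [IsWorld R]
  (a d r : M) (D : Wd M → Prop) (ν : M → M), 0 < a → 0 < d → Rec R D → Rec R ν →
  (∀ i < r, hpow a (ν i) ≤ cnt a (ν i) D * d) →
  (∀ j < r, ∀ i < j, ν i < ν j ∧
    cnt a (ν j) (fun x => D x ∧ D (x.take (ν i))) * (8 * (d * d)) < hpow a (ν j)) →
  r < 2 * (d * d)

/-- COL: a colour with infinitely many levels. -/
def StmtCOL : Prop := ∀ (M : Type) [Arith M] [HasWorld M] (R₀ R₁ : Set (M → M)) [IsWorld R₀]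
  [IsWorld R₁] (a l : M) (F : Wd M → M), R₀ ⊆ R₁ → JumpIn R₀ R₁ → 0 < a → Rec R₀ F →
  (∀ w : Wd M, w ∈ W a w.len → F w < l) →
  ∃ c < l, (Cnd0 a F c l).IsRec R₀ ∧ (Cnd0 a F c l).Ok a ∧ (Cnd0 a F c l).Inf

/-! ### The construction -/

/-- SEL: recursive selection of a true `Π₁` statement from finitely many. -/
def StmtSEL : Prop := ∀ (M : Type) [Arith M] [HasWorld M] (R : Set (M → M)) [IsWorld R],
  Countable M → R.Countable → ∀ (X O : Type) [Cod M X] [Cod M O] (cnds : X → FSet M O)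
  (G : X → O → M → Prop), Rec R cnds → Rec R (fun p : X × O × M => G p.1 p.2.1 p.2.2) →
  ∃ R₂ : Set (M → M), IsWorld R₂ ∧ R ⊆ R₂ ∧ ∃ S : X → O, Rec R₂ S ∧
    ∀ x, (∃ o ∈ cnds x, ∀ b, G x o b) → S x ∈ cnds x ∧ ∀ b, G x (S x) b

/-- MA1: the recursion. -/
def StmtMA1 : Prop := ∀ (M : Type) [Arith M] [HasWorld M] (R₀ R₁ : Set (M → M)) [IsWorld R₀]
  [IsWorld R₁] (a : M) (U : M → Wd M → Prop) (C0 : Cnd M), Countable M → R₁.Countable →
  R₀ ⊆ R₁ → JumpIn R₀ R₁ → 0 < a → Rec R₀ (fun p : M × Wd M => U p.1 p.2) → C0.IsRec R₀ →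
  C0.Ok a → ∃ R₂ : Set (M → M), IsWorld R₂ ∧ R₁ ⊆ R₂ ∧ ∃ x : M → Wd M × M, Rec R₂ x ∧
    x 0 = (wnil, 0) ∧ ∀ k, (cnd a U C0 (x k).1).Inf → Nxt a U C0 (x k) (x (k + 1))

/-- The hypotheses on a trajectory `x`. -/
structure Tr {M : Type} [Arith M] [HasWorld M] (R₀ R₁ R₂ : Set (M → M)) (a : M)
    (U : M → Wd M → Prop) (C0 : Cnd M) (x : M → Wd M × M) : Prop where
  w0 : IsWorld R₀
  w1 : IsWorld R₁
  w2 : IsWorld R₂
  s1 : R₀ ⊆ R₁
  s2 : R₁ ⊆ R₂
  j1 : JumpIn R₀ R₁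
  ha : 0 < a
  hU : Rec R₀ (fun p : M × Wd M => U p.1 p.2)
  hC : C0.IsRec R₀
  ok : C0.Ok a
  inf : C0.Inf
  hx : Rec R₂ x
  x0 : x 0 = (wnil, 0)
  xs : ∀ k, (cnd a U C0 (x k).1).Inf → Nxt a U C0 (x k) (x (k + 1))

/-- MA2: all conditions are good, and later conditions extend earlier ones. -/
def StmtMA2 : Prop := ∀ (M : Type) [Arith M] [HasWorld M] (R₀ R₁ R₂ : Set (M → M)) (a : M)
  (U : M → Wd M → Prop) (C0 : Cnd M) (x : M → Wd M × M), Tr R₀ R₁ R₂ a U C0 x →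
  (∀ k, (cnd a U C0 (x k).1).Inf) ∧ (∀ k, Nxt a U C0 (x k) (x (k + 1))) ∧
  ∀ k k', k ≤ k' → (cnd a U C0 (x k).1).Ext a (cnd a U C0 (x k').1)

/-- MA3: every question is decided. -/
def StmtMA3 : Prop := ∀ (M : Type) [Arith M] [HasWorld M] (R₀ R₁ R₂ : Set (M → M)) (a : M)
  (U : M → Wd M → Prop) (C0 : Cnd M) (x : M → Wd M × M), Tr R₀ R₁ R₂ a U C0 x →
  (∀ k, Nxt a U C0 (x k) (x (k + 1))) → ∀ q, ∃ k, (x k).2 = q ∧ (x (k + 1)).2 = q + 1

/-- MA4: the trajectory gives the partial solutions and the decisions. -/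
def StmtMA4 : Prop := ∀ (M : Type) [Arith M] [HasWorld M] (R₀ R₁ R₂ : Set (M → M)) [IsWorld R₀]
  (a : M) (U : M → Wd M → Prop) (C0 : Cnd M) (x : M → Wd M × M), Tr R₀ R₁ R₂ a U C0 x →
  C0.s = wnil → Lin R₀ a →
  (∀ k, (cnd a U C0 (x k).1).Inf) → (∀ k, Nxt a U C0 (x k) (x (k + 1))) →
  (∀ k k', k ≤ k' → (cnd a U C0 (x k).1).Ext a (cnd a U C0 (x k').1)) →
  (∀ q, ∃ k, (x k).2 = q ∧ (x (k + 1)).2 = q + 1) →
  ∃ (sk : M → Wd M) (kk : M → M) (dd : M → Prop), Traj a U R₂ C0 sk kk dd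

/-! ### Segments, the questions about the jump -/

/-- SEG: segments of functions. -/
def StmtSEG : Prop := ∀ (M : Type) [Arith M] (R : Set (M → M)) [IsWorld R],
  (∀ (G G' : M → M) (n : M), (∀ i < n, G i = G' i) → seg G n = seg G' n) ∧
  (∀ (γ : Type) [Cod M γ] (G : γ → M → M) (n : γ → M), Rec R (fun x : γ × M => G x.1 x.2) →
    Rec R n → Rec R (fun x => seg (G x) (n x))) ∧
  ∀ G : M → M, Rec R G → Segd G

/-- NST: the starts of the variable words. -/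
def StmtNST : Prop := ∀ (M : Type) [Arith M] [HasWorld M] (a : M) (s t : Wd M),
  nst a (s ++ t) = nst a s + nst a t ∧
  (∀ j < nst a s, pst a s j < s.len ∧ s.get (pst a s j) = a + 1 ∧
    nst a (s.take (pst a s j)) = j ∧ pst a (s ++ t) j = pst a s j ∧ j ≤ pst a s j) ∧
  (∀ i < s.len, s.get i = a + 1 → nst a (s.take i) < nst a s ∧ pst a s (nst a (s.take i)) = i) ∧
  (∀ j, j + 1 < nst a s → pst a s j < pst a s (j + 1)) ∧
  ∀ i < nst a s, gst a (s ++ t) i = gst a s i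

/-- UUR: the questions are recursive and monotone. -/
def StmtUUR : Prop := ∀ (M : Type) [Arith M] [HasWorld M] (R : Set (M → M)) [IsWorld R] (a : M)
  (u : M → M), Rec R u → Rec R (fun p : M × Wd M => UU a u p.1 p.2) ∧
  ∀ (q : M) (s t : Wd M), UU a u q s → UU a u q (s ++ t)

/-- LI1: the infinite words and the starts. -/
def StmtLI1 : Prop := ∀ (M : Type) [Arith M] [HasWorld M] (R : Set (M → M)) [IsWorld R] (a : M)
  (U : M → Wd M → Prop) (C0 : Cnd M) (sk : M → Wd M) (kk : M → M) (dd : M → Prop), 0 < a →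
  Traj a U R C0 sk kk dd → ∃ g h p : M → M, Rec R g ∧ Rec R h ∧ Rec R p ∧
  (∀ k, ∀ i < (sk k).len, g i = (sk k).get i) ∧ (∀ i, h i = if g i < a then g i else a) ∧
  (∀ b, ∃ k, b < (sk k).len ∧ b < nst a (sk k)) ∧
  (∀ k, ∀ j < nst a (sk k), p j = pst a (sk k) j ∧ pr (h j) (p j) = gst a (sk k) j) ∧
  (∀ i < p 0, h i ≠ a) ∧ (∀ k, p k < p (k + 1)) ∧ ∀ k, g (p k) = a + 1 ∧ h (p k) = a

/-- LI2: the solution has the colour of the initial condition. -/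
def StmtLI2 : Prop := ∀ (M : Type) [Arith M] [HasWorld M] (R : Set (M → M)) [IsWorld R] (a : M)
  (U : M → Wd M → Prop) (C0 : Cnd M) (sk : M → Wd M) (kk : M → M) (dd : M → Prop)
  (g h p : M → M), 0 < a → Traj a U R C0 sk kk dd →
  (∀ k, ∀ i < (sk k).len, g i = (sk k).get i) → (∀ i, h i = if g i < a then g i else a) →
  (∀ b, ∃ k, b < (sk k).len ∧ b < nst a (sk k)) →
  (∀ k, ∀ j < nst a (sk k), p j = pst a (sk k) j ∧ pr (h j) (p j) = gst a (sk k) j) →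
  ∀ (k : M) (y : Wd M), y ∈ W a (p k) → (∀ i < p k, h i ≠ a → y.get i = h i) →
    (∀ i < p k, h i = a → ∀ j, p j ≤ i → i < p (j + 1) → y.get i = y.get (p j)) → C0.D y

/-- LI3: the jump of the solution. -/
def StmtLI3 : Prop := ∀ (M : Type) [Arith M] [HasWorld M] (R₀ R : Set (M → M)) [IsWorld R₀]
  [IsWorld R] (a : M) (u : M → M) (C0 : Cnd M) (sk : M → Wd M) (kk : M → M) (dd : M → Prop)
  (h p : M → M), R₀ ⊆ R → Univ R₀ u → 0 < a → Traj a (UU a u) R C0 sk kk dd →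
  (∀ b, ∃ k, b < (sk k).len ∧ b < nst a (sk k)) →
  (∀ k, ∀ j < nst a (sk k), p j = pst a (sk k) j ∧ pr (h j) (p j) = gst a (sk k) j) →
  Rec R h → Rec R p →
  ∀ φ ∈ R₀, (fun b => if ∃ n, φ (pr b (seg (prf h p) n)) ≠ 0 then (1 : M) else 0) ∈ R

/-- The least code of a word. -/
noncomputable def wcode {M : Type} [Arith M] (w : Wd M) : M :=
  least (fun c => ∀ i < w.len, bet c i = w.get i)

/-- WCO: the codes of words. -/
def StmtWCO : Prop := ∀ (M : Type) [Arith M] [HasWorld M] (R : Set (M → M)) [IsWorld R]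
  (a l : M) (f : M → M), f ∈ R → Inst a l f →
  (∀ w : Wd M, ∀ i < w.len, bet (wcode w) i = w.get i) ∧
  Rec R (fun w : Wd M => f (pr w.len (wcode w))) ∧
  (∀ w : Wd M, w ∈ W a w.len → f (pr w.len (wcode w)) < l) ∧
  ∀ n c, IsWd a n c → ∃ w ∈ W a n, (∀ i < n, w.get i = bet c i) ∧
    f (pr n c) = f (pr w.len (wcode w))

/-- FOB: the forcing theorem from the density Carlson-Simpson theorem. -/
def StmtFOB : Prop := ∀ (M : Type) [Arith M] [HasWorld M] (R₀ R₁ : Set (M → M)),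
  Countable M → R₁.Countable →
  ∀ (_ : IsWorld R₀), IsWorld R₁ → R₀ ⊆ R₁ → JumpIn R₀ R₁ → (∃ u, Univ R₀ u) →
  ∀ a l f, 0 < a → Lin R₀ a → f ∈ R₀ → Inst a l f →
  ∃ R₂ : Set (M → M), IsWorld R₂ ∧ R₁ ⊆ R₂ ∧ ∃ h ∈ R₂, ∃ p ∈ R₂, Soln a l f h p ∧
    ∀ φ ∈ R₀, (fun b => if ∃ n, φ (pr b (seg (prf h p) n)) ≠ 0 then (1 : M) else 0) ∈ R₂

end Pool.Agent.OVW.FC
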