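import Pool.Agent.OVW.LibK

/-! Tests of the library (Lib1 - Lib4, LibK). -/

namespace Pool.Agent.OVW

open Classical

variable {M : Type} [Arith M] {R : Set (M → M)} [IsWorld R]

section testing
example (f : M → M → M) (hf : Rec R (fun x : M × M => f x.1 x.2)) :
  Rec R (fun x : M × M => ∀ i < x.1, ∃ j < f i x.2, f i j ≤ x.1 + x.2 ∧ (if i ≤ j then i else j) = j) := by fun_prop
example : Rec R (fun x : M × M => ∀ i < x.1, (i : KK M) ≤ (x.2 : KK M) / 2) := by fun_prop
example : Rec R (fun x : M × M => prec (α := M) x.1 (fun n y => if x.2 < n then y else y + n) x.2) := by fun_prop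
example : Rec R (fun x : M × M => prec (α := KK M) 1 (fun n y => if x.2 < n then y else y + n) x.2) := by fun_prop
end testing

end Pool.Agent.OVW
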