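import Mathlib

/-!
# Worlds: models of recursive comprehension, given by their recursive functions

The blocks B (density Carlson-Simpson theorem) and C (forcing) are written over the following
structures. `Arith M`: a discretely ordered semiring (a model of `PA⁻`), with an ordered field
`K M` which contains it. `IsWorld R`: the set `R` of unary functions on `M` is the set of the
recursive functions of a model of `RCA₀` with first order part `M`.
-/

namespace Pool.Agent.OVW

/-- A discretely ordered semiring, together with its ordered field of fractions. -/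
class Arith (M : Type) extends CommSemiring M, LinearOrder M, IsStrictOrderedRing M,
    CanonicallyOrderedAdd M where
  /-- there is no element between `0` and `1` -/
  lt_one : ∀ a : M, a < 1 → a = 0
  /-- an ordered field -/
  K : Type
  /-- field structure -/
  fieldK : Field K
  /-- order -/
  orderK : LinearOrder K
  /-- compatibility -/
  strictK : IsStrictOrderedRing K
  /-- the embedding -/
  toK : M →+* K
  toK_strictMono : StrictMono toK
  /-- every element of the field is a fraction -/
  frac : ∀ x : K, ∃ a b c : M, c ≠ 0 ∧ x * toK c = toK a - toK b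

attribute [instance_reducible] Arith.fieldK Arith.orderK

attribute [instance] Arith.fieldK Arith.orderK Arith.strictK

section

variable {M : Type} [Arith M]

open Classical in
/-- The quotient `⌊a / b⌋` (and `0` if `b = 0`). -/
noncomputable def dv (a b : M) : M :=
  if h : ∃ q r, r < b ∧ a = b * q + r then h.choose else 0

open Classical in
/-- The remainder of `a` modulo `b` (and `a` if `b = 0`). -/
noncomputable def md (a b : M) : M :=
  if h : ∃ r, r < b ∧ ∃ q, a = b * q + r then h.choose else a

/-- The pairing function. -/
def pr (x y : M) : M := (x + y) * (x + y) + x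

open Classical in
/-- The first component. -/
noncomputable def fs (z : M) : M := if h : ∃ x y, z = pr x y then h.choose else 0

open Classical in
/-- The second component. -/
noncomputable def sn (z : M) : M := if h : ∃ y x, z = pr x y then h.choose else 0

/-- The beta function of Gödel: the entry number `i` of the sequence with code `c`. -/
noncomputable def bet (c i : M) : M := md (fs c) (1 + (i + 1) * sn c)

end

open Classical in
/-- `R` is the set of the recursive functions of a model of `RCA₀` with first order part `M`. -/
class IsWorld {M : Type} [Arith M] (R : Set (M → M)) : Prop where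
  const : ∀ c : M, (fun _ => c) ∈ R
  id : (fun x => x) ∈ R
  comp : ∀ f ∈ R, ∀ g ∈ R, (fun x => f (g x)) ∈ R
  pair : ∀ f ∈ R, ∀ g ∈ R, (fun x => pr (f x) (g x)) ∈ R
  fs : (fun x => fs x) ∈ R
  sn : (fun x => sn x) ∈ R
  add : (fun x => OVW.fs x + OVW.sn x) ∈ R
  mul : (fun x => OVW.fs x * OVW.sn x) ∈ R
  lt : (fun x => if OVW.fs x < OVW.sn x then (1 : M) else 0) ∈ R
  /-- unbounded search -/
  mu : ∀ f ∈ R, (∀ a, ∃ n, f (pr a n) = 0) →
    ∃ g ∈ R, ∀ a, f (pr a (g a)) = 0 ∧ ∀ m < g a, f (pr a m) ≠ 0
  /-- `Σ₁` induction -/
  ind : ∀ f ∈ R, (∃ n, f (pr 0 n) = 0) →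
    (∀ x, (∃ n, f (pr x n) = 0) → ∃ n, f (pr (x + 1) n) = 0) → ∀ x, ∃ n, f (pr x n) = 0
  /-- coding of finite sequences -/
  beta : ∀ f ∈ R, ∀ n, ∃ c, ∀ i < n, bet c i = f i

section Pairs

variable {M : Type} [Arith M]

/-- `c` is a code of the sequence `G 0, ..., G (n - 1)`. -/
def Codes (G : M → M) (n c : M) : Prop := ∀ i < n, bet c i = G i

/-- All initial segments of `G` have codes. -/
def Segd (G : M → M) : Prop := ∀ n, ∃ c, Codes G n c

open Classical in
/-- The number `n` and the least code of the sequence `G 0, ..., G (n - 1)`. -/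
noncomputable def seg (G : M → M) (n : M) : M :=
  if h : ∃ c, Codes G n c ∧ ∀ c' < c, ¬ Codes G n c' then pr n h.choose else 0

open Classical in
/-- `R₁` contains the characteristic functions of the `Σ₁` sets over `R₀`. -/
def JumpIn (R₀ R₁ : Set (M → M)) : Prop :=
  ∀ f ∈ R₀, (fun a => if ∃ n, f (pr a n) = 0 then (1 : M) else 0) ∈ R₁

/-- `u` enumerates the `Σ₁` conditions on functions `G` over `R`. -/
structure Univ (R : Set (M → M)) (u : M → M) : Prop where
  mem : u ∈ R
  enum : ∀ φ ∈ R, ∃ e, ∀ G : M → M, Segd G → ∀ a,
    (∃ n, φ (pr a (seg G n)) ≠ 0) ↔ ∃ n, u (pr e (pr a (seg G n))) ≠ 0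

/-- `T` is (the characteristic function, with value `0` on the nodes, of) a binary tree: the
sequence with code `c` and length `n` is a node if `T (pr n c) = 0`. -/
structure BTree (T : M → M) : Prop where
  ext : ∀ n c c', (∀ i < n, bet c i = bet c' i) → T (pr n c) = 0 → T (pr n c') = 0
  down : ∀ n c, ∀ m ≤ n, T (pr n c) = 0 → T (pr m c) = 0
  bin : ∀ n c, T (pr n c) = 0 → ∀ i < n, bet c i ≤ 1

/-- The tree `T` is infinite. -/
def InfT (T : M → M) : Prop := ∀ n, ∃ c, T (pr n c) = 0

/-- `P` is a path through `T`. -/
def PathT (T P : M → M) : Prop := ∀ n c, Codes P n c → T (pr n c) = 0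

/-- The functions which are recursive in `G`, uniformly over `R`: `g` is computed from initial
segments of `G` by a function `φ` of `R`. -/
def RIn (R : Set (M → M)) (G : M → M) : Set (M → M) :=
  {g | ∃ φ ∈ R, ∀ a, ∃ n, φ (pr a (seg G n)) = g a + 1 ∧ ∀ m < n, φ (pr a (seg G m)) = 0}

end Pairs

end Pool.Agent.OVW
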